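import Pool.Agent.MFN.Defs
import Pool.Prelude.Def_F_c5c4fee9

/-!
# MFN / Baire: the case `α = 2`, and primes for a residual set of `α`
-/

set_option autoImplicit false

namespace Pool.Agent.MFN

open Filter

theorem F_two (k n : ℕ) : F k n 2 = Nat.fermatNumber (n + k) := by
  unfold F Nat.fermatNumber
  have h : ((2 : ℝ) ^ 2 ^ n) = ((2 ^ 2 ^ n : ℕ) : ℝ) := by push_cast; rfl
  rw [h, Nat.floor_natCast, ← pow_mul, ← pow_add]

theorem a_two (k n : ℕ) : a k n 2 = N53924c76.a (n + k) := by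
  unfold a N53924c76.a
  rw [F_two, Nat.log2_eq_log_two]
  congr 1
  unfold Nat.fermatNumber
  refine (Nat.log_eq_iff (Or.inr ⟨by norm_num, by positivity⟩)).2 ⟨by omega, ?_⟩
  have h1 : 2 ^ 2 ^ (n + k) ≥ 2 ^ 1 := Nat.pow_le_pow_right (by norm_num) Nat.one_le_two_pow
  rw [pow_succ 2 (2 ^ (n + k))]
  omega

/-- open dense sets -/
def G (N : ℕ) : Set ℝ := {α | α < 1} ∪ ⋃ (n : ℕ) (_ : N ≤ n) (q : ℕ) (_ : q.Prime),
  {α | 1 < α} ∩ {α | (q : ℝ) - 1 < α ^ 2 ^ n ∧ α ^ 2 ^ n < q}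

theorem G_open (N : ℕ) : IsOpen (G N) := by
  unfold G
  refine isOpen_Iio.union (isOpen_iUnion fun n => isOpen_iUnion fun _ => isOpen_iUnion fun q =>
    isOpen_iUnion fun _ => isOpen_Ioi.inter ?_)
  exact (isOpen_lt continuous_const (continuous_pow _)).inter
    (isOpen_lt (continuous_pow _) continuous_const)

theorem G_dense (N : ℕ) : Dense (G N) := by
  rw [Metric.dense_iff]
  intro x ε hε
  by_cases hx : x ≤ 1
  · refine ⟨x - ε / 2, ?_, Or.inl ?_⟩
    · rw [Metric.mem_ball, Real.dist_eq]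
      have : x - ε / 2 - x = -(ε / 2) := by ring
      rw [this, abs_neg, abs_of_pos (by linarith)]
      linarith
    · show x - ε / 2 < 1
      linarith
  · push Not at hx
    have hx0 : 0 < x := by linarith
    have hr : 1 < (x + ε / 2) / x := by
      rw [one_lt_div hx0]
      linarith
    have ht : Tendsto (fun n : ℕ => ((x + ε / 2) / x) ^ 2 ^ n) atTop atTop :=
      (tendsto_pow_atTop_atTop_of_one_lt hr).comp (tendsto_pow_atTop_atTop_of_one_lt (by norm_num))
    obtain ⟨n, hn7, hnN⟩ := ((ht.eventually_ge_atTop 7).and (eventually_ge_atTop N)).exists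
    set A := x ^ 2 ^ n with hA
    set B := (x + ε / 2) ^ 2 ^ n with hB
    have hA1 : 1 ≤ A := one_le_pow₀ hx.le
    have hBA : 7 * A ≤ B := by
      rw [div_pow, le_div_iff₀ (by positivity)] at hn7
      exact hn7
    obtain ⟨q, hq, hq1, hq2⟩ := Nat.exists_prime_lt_and_le_two_mul (⌈A⌉₊ + 1) (by omega)
    have hc1 : A ≤ ⌈A⌉₊ := Nat.le_ceil A
    have hc2 : (⌈A⌉₊ : ℝ) < A + 1 := Nat.ceil_lt_add_one (by linarith)
    have hq1r : (⌈A⌉₊ : ℝ) + 1 + 1 ≤ q := by exact_mod_cast hq1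
    have hq2r : (q : ℝ) ≤ 2 * ((⌈A⌉₊ : ℝ) + 1) := by exact_mod_cast hq2
    set t : ℝ := q - 1 / 2 with ht'
    have hAt : A < t := by rw [ht']; linarith
    have htB : t < B := by rw [ht']; linarith
    have ht0 : 0 ≤ t := by linarith
    have hD : 2 ^ n ≠ 0 := by positivity
    set y : ℝ := t ^ (((2 ^ n : ℕ) : ℝ)⁻¹) with hy
    have hy0 : 0 ≤ y := Real.rpow_nonneg ht0 _
    have hyt : y ^ 2 ^ n = t := Real.rpow_inv_natCast_pow ht0 hD
    have hxy : x < y := by
      refine lt_of_pow_lt_pow_left₀ (2 ^ n) hy0 ?_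
      rw [hyt]
      exact hAt
    have hyx : y < x + ε / 2 := by
      refine lt_of_pow_lt_pow_left₀ (2 ^ n) (by linarith) ?_
      rw [hyt]
      exact htB
    refine ⟨y, ?_, Or.inr ?_⟩
    · rw [Metric.mem_ball, Real.dist_eq, abs_of_pos (by linarith)]
      linarith
    · simp only [Set.mem_iUnion]
      refine ⟨n, hnN, q, hq, hx.trans hxy, ?_⟩
      show (q : ℝ) - 1 < y ^ 2 ^ n ∧ y ^ 2 ^ n < q
      rw [hyt, ht']
      constructor <;> linarith

/-- **Primes for a residual set.** -/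
theorem residual_prime : ∀ᶠ α : ℝ in residual ℝ, 1 < α →
    ∃ᶠ n in atTop, (F 0 n α).Prime ∧ a 0 n α = 0 := by
  have h1 : ∀ N, G N ∈ residual ℝ := fun N => residual_of_dense_open (G_open N) (G_dense N)
  have h2 : ∀ᶠ α : ℝ in residual ℝ, ∀ N, α ∈ G N := eventually_countable_forall.2 h1
  filter_upwards [h2] with α hα h1
  rw [frequently_atTop]
  intro N
  rcases hα N with h | h
  · exact absurd h (not_lt.2 h1.le)
  · simp only [Set.mem_iUnion] at h
    obtain ⟨n, hn, q, hq, _, h3, h4⟩ := h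
    have hF : F 0 n α = q := by
      unfold F
      rw [pow_zero, pow_one]
      have h5 : ⌊α ^ 2 ^ n⌋₊ = q - 1 := by
        rw [Nat.floor_eq_iff (by positivity), Nat.cast_sub hq.one_lt.le]
        push_cast
        constructor <;> linarith
      rw [h5]
      have := hq.one_lt
      omega
    refine ⟨n, hn, by rw [hF]; exact hq, ?_⟩
    unfold a
    rw [hF, hq.minFac_eq, Nat.sub_self]

end Pool.Agent.MFN
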