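import Pool.Agent.MFN.Sv

/-!
# MFN / Cell: the cells `⌊exp (d^n u)⌋ = N`
-/

set_option autoImplicit false

namespace Pool.Agent.MFN

open Finset MeasureTheory Pool.MedDiv

/-- `⌊exp (d^n u)⌋` -/
noncomputable def X (d n : ℕ) (u : ℝ) : ℕ := ⌊Real.exp ((d : ℝ) ^ n * u)⌋₊

/-- the cell `⌊exp (d^n u)⌋ = N` -/
def C (d n N : ℕ) : Set ℝ := Set.Ico (Real.log N / (d : ℝ) ^ n) (Real.log (N + 1) / (d : ℝ) ^ n)

/-- weights -/
noncomputable def lw (N : ℕ) : ℝ := Real.log (N + 1) - Real.log N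

theorem mem_C {d n N : ℕ} (hd : 1 ≤ d) (hN : 1 ≤ N) {u : ℝ} : u ∈ C d n N ↔ X d n u = N := by
  unfold C X
  have hd1 : (0 : ℝ) < d := by exact_mod_cast hd
  have hd0 : (0 : ℝ) < (d : ℝ) ^ n := by positivity
  have hN0 : (0 : ℝ) < N := by exact_mod_cast hN
  rw [Set.mem_Ico, div_le_iff₀ hd0, lt_div_iff₀ hd0, Nat.floor_eq_iff (Real.exp_pos _).le,
    mul_comm u, Real.log_le_iff_le_exp hN0, Real.lt_log_iff_exp_lt (by positivity)]

theorem X_iff {d : ℕ} (hd : 1 ≤ d) (k j N : ℕ) (u : ℝ) :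
    X d k u = N ↔ N ^ (d ^ j) ≤ X d (k + j) u ∧ X d (k + j) u < (N + 1) ^ (d ^ j) := by
  unfold X
  have hD : d ^ j ≠ 0 := by positivity
  have e : Real.exp ((d : ℝ) ^ (k + j) * u) = Real.exp ((d : ℝ) ^ k * u) ^ (d ^ j) := by
    rw [← Real.exp_nat_mul]
    congr 1
    push_cast
    ring
  rw [e]
  have ht := Real.exp_pos ((d : ℝ) ^ k * u)
  generalize Real.exp ((d : ℝ) ^ k * u) = t at ht
  rw [Nat.floor_eq_iff ht.le, Nat.le_floor_iff (by positivity), Nat.floor_lt (by positivity)]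
  push_cast
  rw [pow_le_pow_iff_left₀ (Nat.cast_nonneg _) ht.le hD, pow_lt_pow_iff_left₀ ht.le (by positivity) hD]

theorem X_factor {d n k : ℕ} (hd : 1 ≤ d) (hnk : n ≤ k) {u v : ℝ} (h : X d k v = X d k u) :
    X d n v = X d n u := by
  obtain ⟨j, rfl⟩ := Nat.exists_eq_add_of_le hnk
  rw [X_iff hd n j, h, ← X_iff hd n j]

theorem X_meas (d n : ℕ) : Measurable (X d n) :=
  Nat.measurable_floor.comp (Real.measurable_exp.comp (measurable_id.const_mul _))

theorem set_meas (d n : ℕ) (P : ℕ → Prop) : MeasurableSet {u | P (X d n u)} :=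
  (X_meas d n) (MeasurableSet.of_discrete (s := {x | P x}))

theorem C_meas (d n N : ℕ) : MeasurableSet (C d n N) := measurableSet_Ico

theorem lw_eq {N : ℕ} (hN : 1 ≤ N) : lw N = Real.log (((N : ℝ) + 1) / N) := by
  have hN0 : (0 : ℝ) < N := by exact_mod_cast hN
  unfold lw
  rw [Real.log_div (by positivity) hN0.ne']

theorem lw_ge {N : ℕ} (hN : 1 ≤ N) : 1 / ((N : ℝ) + 1) ≤ lw N := by
  have hN0 : (0 : ℝ) < N := by exact_mod_cast hN
  rw [lw_eq hN]
  refine le_trans (le_of_eq ?_) (Real.one_sub_inv_le_log_of_pos (by positivity))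
  field_simp
  ring

theorem lw_le {N : ℕ} (hN : 1 ≤ N) : lw N ≤ 1 / (N : ℝ) := by
  have hN0 : (0 : ℝ) < N := by exact_mod_cast hN
  rw [lw_eq hN]
  refine (Real.log_le_sub_one_of_pos (by positivity)).trans (le_of_eq ?_)
  field_simp
  ring

theorem lw_nonneg (N : ℕ) : 0 ≤ lw N := by
  rcases Nat.eq_zero_or_pos N with h | h
  · subst h; simp [lw]
  · refine le_trans ?_ (lw_ge h)
    positivity

theorem lw_anti {A : ℕ} (hA : 1 ≤ A) : Antitone fun i => lw (A + i) := by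
  refine antitone_nat_of_succ_le fun i => ?_
  have h1 : 1 ≤ A + i := by omega
  have h2 : 1 ≤ A + (i + 1) := by omega
  rw [lw_eq h1, lw_eq h2]
  have h3 : (0 : ℝ) < ((A + i : ℕ) : ℝ) := by exact_mod_cast h1
  have e : ((A + (i + 1) : ℕ) : ℝ) = ((A + i : ℕ) : ℝ) + 1 := by push_cast; ring
  rw [e]
  generalize ((A + i : ℕ) : ℝ) = x at h3
  refine Real.log_le_log (by positivity) ?_
  rw [div_le_div_iff₀ (by positivity) h3]
  nlinarith

theorem lw_sum (A K : ℕ) : ∑ i ∈ range K, lw (A + i) = Real.log (A + K) - Real.log A := by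
  induction K with
  | zero => simp
  | succ K ih =>
    rw [sum_range_succ, ih]
    unfold lw
    push_cast
    rw [add_assoc (A : ℝ)]
    ring

theorem vol_C {d n N : ℕ} (hd : 1 ≤ d) (hN : 1 ≤ N) :
    volume.real (C d n N) = lw N / (d : ℝ) ^ n := by
  have hd1 : (0 : ℝ) < d := by exact_mod_cast hd
  have hN0 : (0 : ℝ) < N := by exact_mod_cast hN
  unfold C lw
  rw [Real.volume_real_Ico_of_le, sub_div]
  exact div_le_div_of_nonneg_right (Real.log_le_log hN0 (by linarith)) (by positivity)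

theorem C_disj {d n N M : ℕ} (hd : 1 ≤ d) (hN : 1 ≤ N) (hM : 1 ≤ M) (h : N ≠ M) :
    Disjoint (C d n N) (C d n M) := by
  rw [Set.disjoint_left]
  intro u h1 h2
  rw [mem_C hd hN] at h1
  rw [mem_C hd hM] at h2
  exact h (h1.symm.trans h2)

theorem C_finite (d n N : ℕ) : volume (C d n N) ≠ ⊤ := by
  unfold C
  rw [Real.volume_Ico]
  exact ENNReal.ofReal_ne_top

/-- **One cell.** -/
theorem cell_bound {d : ℕ} (hd : 2 ≤ d) {k N : ℕ} (hN : 1 ≤ N) {P : ℕ → Prop} {V e E : ℝ}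
    {L : ℕ} (hP : Eqd P V e E L) (hE : 0 ≤ E) (hc : L ≤ N) :
    |volume.real ({u | P (X d (k + 1) u)} ∩ C d k N) - V * volume.real (C d k N)| ≤
      (e + E / N) * volume.real (C d k N) := by
  classical
  have hd1 : 1 ≤ d := by omega
  have hdr : (2 : ℝ) ≤ d := by exact_mod_cast hd
  have hNr : (1 : ℝ) ≤ N := by exact_mod_cast hN
  set A := N ^ d with hA
  set Y := (N + 1) ^ d - N ^ d with hY
  have hAY : A + Y = (N + 1) ^ d := by
    have : N ^ d ≤ (N + 1) ^ d := Nat.pow_le_pow_left (Nat.le_succ N) d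
    omega
  have hA1 : 1 ≤ A := Nat.one_le_pow _ _ hN
  have hNA : N ^ 2 ≤ A := Nat.pow_le_pow_right hN hd
  have hAc : L ≤ A := by
    have h1 : N ≤ A := by nlinarith
    omega
  -- decomposition
  have hdec : {u | P (X d (k + 1) u)} ∩ C d k N =
      ⋃ i ∈ (range Y).filter fun i => P (A + i), C d (k + 1) (A + i) := by
    ext u
    simp only [Set.mem_inter_iff, Set.mem_ofPred_eq, Set.mem_iUnion, mem_filter, mem_range,
      exists_prop]
    rw [mem_C hd1 hN]
    have hiff := X_iff hd1 k 1 N u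
    rw [pow_one] at hiff
    constructor
    · rintro ⟨h1, h2⟩
      obtain ⟨h3, h4⟩ := hiff.1 h2
      have h5 : A + (X d (k + 1) u - A) = X d (k + 1) u := by omega
      refine ⟨X d (k + 1) u - A, ⟨by omega, ?_⟩, ?_⟩
      · rw [h5]
        exact h1
      · rw [mem_C hd1 (by omega)]
        omega
    · rintro ⟨i, ⟨h1, h2⟩, h3⟩
      rw [mem_C hd1 (by omega)] at h3
      refine ⟨?_, ?_⟩
      · rw [h3]; exact h2
      · rw [hiff, h3]
        omega
  have hvol : volume.real ({u | P (X d (k + 1) u)} ∩ C d k N) =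
      (∑ i ∈ range Y, (if P (A + i) then lw (A + i) else 0)) / (d : ℝ) ^ (k + 1) := by
    have hpd : (((range Y).filter fun i => P (A + i) : Finset ℕ) : Set ℕ).PairwiseDisjoint
        fun i => C d (k + 1) (A + i) := by
      intro i _ j _ hij
      exact C_disj hd1 (by omega) (by omega) (by omega)
    rw [hdec, measureReal_biUnion_finset hpd (fun i _ => C_meas _ _ _) (fun i _ => C_finite _ _ _),
      sum_filter, sum_div]
    refine sum_congr rfl fun i _ => ?_
    rw [vol_C hd1 (by omega : 1 ≤ A + i)]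
    split_ifs
    · rfl
    · simp
  have hsum : ∑ i ∈ range Y, lw (A + i) = d * lw N := by
    rw [lw_sum]
    have : ((A : ℝ) + Y) = ((N : ℝ) + 1) ^ d := by exact_mod_cast hAY
    rw [this, hA]
    push_cast
    rw [Real.log_pow, Real.log_pow]
    unfold lw
    ring
  have hmain := hP.weights hAc Y (lw_anti hA1) fun i => lw_nonneg _
  rw [hsum] at hmain
  have hC := vol_C (n := k) hd1 hN
  rw [hvol, hC]
  have hdk : (0 : ℝ) < (d : ℝ) ^ k := by positivity
  have hdk1 : (0 : ℝ) < (d : ℝ) ^ (k + 1) := by positivity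
  have hlast : lw A ≤ d * lw N / N := by
    have h1 := lw_le hA1
    have h2 := lw_ge hN
    have h3 : (N : ℝ) ^ 2 ≤ A := by exact_mod_cast hNA
    have h4 : 1 / (A : ℝ) ≤ 1 / (N : ℝ) ^ 2 := one_div_le_one_div_of_le (by positivity) h3
    have h5 : 1 / (N : ℝ) ^ 2 ≤ 2 * (1 / ((N : ℝ) + 1)) / N := by
      rw [div_le_div_iff₀ (by positivity) (by positivity)]
      have : 2 * (1 / ((N : ℝ) + 1)) * (N : ℝ) ^ 2 = 2 * N ^ 2 / (N + 1) := by ring
      rw [this, le_div_iff₀ (by positivity)]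
      nlinarith
    have h6 : 2 * (1 / ((N : ℝ) + 1)) / N ≤ d * lw N / N := by
      refine div_le_div_of_nonneg_right ?_ (by positivity)
      have := lw_nonneg N
      have h7 : 0 ≤ 1 / ((N : ℝ) + 1) := by positivity
      nlinarith
    linarith
  set S := ∑ i ∈ range Y, (if P (A + i) then lw (A + i) else 0) with hS
  have hl0 := lw_nonneg N
  have e0 : S / (d : ℝ) ^ (k + 1) - V * (lw N / (d : ℝ) ^ k) =
      (S - V * (d * lw N)) / (d : ℝ) ^ (k + 1) := by
    rw [pow_succ]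
    field_simp
  rw [e0, abs_div, abs_of_pos hdk1, div_le_iff₀ hdk1]
  refine hmain.trans ?_
  have h8 : E * lw (A + 0) ≤ E * (d * lw N / N) := mul_le_mul_of_nonneg_left hlast hE
  have h9 : (e + E / N) * (lw N / (d : ℝ) ^ k) * (d : ℝ) ^ (k + 1) =
      e * (d * lw N) + E * (d * lw N / N) := by
    rw [pow_succ]
    field_simp
  rw [h9]
  linarith

/-- **A union of cells.** -/
theorem union_bound {d : ℕ} (hd : 2 ≤ d) {k : ℕ} {P : ℕ → Prop} {V e E : ℝ} {L₀ : ℕ}
    (hP : Eqd P V e E L₀) (hE : 0 ≤ E) {L : ℕ} (hL : 1 ≤ L) (hc : L₀ ≤ L) (S : Finset ℕ)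
    (hS : ∀ N ∈ S, L ≤ N) :
    |volume.real ({u | P (X d (k + 1) u)} ∩ ⋃ N ∈ S, C d k N) -
        V * volume.real (⋃ N ∈ S, C d k N)| ≤
      (e + E / L) * volume.real (⋃ N ∈ S, C d k N) := by
  have hd1 : 1 ≤ d := by omega
  have hpd : (S : Set ℕ).PairwiseDisjoint (C d k) := by
    intro i hi j hj hij
    exact C_disj hd1 (hL.trans (hS i hi)) (hL.trans (hS j hj)) hij
  have h1 : volume.real (⋃ N ∈ S, C d k N) = ∑ N ∈ S, volume.real (C d k N) :=
    measureReal_biUnion_finset hpd (fun i _ => C_meas _ _ _) fun i _ => C_finite _ _ _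
  have h2 : volume.real ({u | P (X d (k + 1) u)} ∩ ⋃ N ∈ S, C d k N) =
      ∑ N ∈ S, volume.real ({u | P (X d (k + 1) u)} ∩ C d k N) := by
    rw [Set.inter_iUnion₂]
    refine measureReal_biUnion_finset ?_ (fun i _ => ?_) fun i _ => ?_
    · intro i hi j hj hij
      exact (hpd hi hj hij).mono Set.inter_subset_right Set.inter_subset_right
    · exact (set_meas d (k + 1) P).inter (C_meas _ _ _)
    · exact ne_top_of_le_ne_top (C_finite d k i) (measure_mono Set.inter_subset_right)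
  rw [h1, h2, mul_sum, mul_sum, ← sum_sub_distrib]
  refine (abs_sum_le_sum_abs _ _).trans (sum_le_sum fun N hN => ?_)
  have hLN := hS N hN
  have hL0 : (0 : ℝ) < L := by exact_mod_cast hL
  have hLNr : (L : ℝ) ≤ N := by exact_mod_cast hLN
  refine (cell_bound hd (hL.trans hLN) hP hE (hc.trans hLN)).trans ?_
  refine mul_le_mul_of_nonneg_right (add_le_add le_rfl ?_) measureReal_nonneg
  exact div_le_div_of_nonneg_left hE hL0 hLNr

/-- saturated subsets of a cell are unions of later cells -/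
theorem sat_union {d : ℕ} (hd : 1 ≤ d) {n N k : ℕ} (hN : 1 ≤ N) (hk : n ≤ k) {B : Set ℝ}
    (hB : B ⊆ C d n N) (hs : ∀ u ∈ B, ∀ v, X d k v = X d k u → v ∈ B) :
    ∃ S : Finset ℕ, (∀ M ∈ S, N ^ (d ^ (k - n)) ≤ M) ∧ B = ⋃ M ∈ S, C d k M := by
  classical
  obtain ⟨j, rfl⟩ := Nat.exists_eq_add_of_le hk
  rw [Nat.add_sub_cancel_left]
  have hNj : 1 ≤ N ^ (d ^ j) := Nat.one_le_pow _ _ hN
  refine ⟨(Ico (N ^ (d ^ j)) ((N + 1) ^ (d ^ j))).filter fun M => ∃ u ∈ B, X d (n + j) u = M,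
    fun M hM => (mem_Ico.1 (mem_filter.1 hM).1).1, ?_⟩
  ext v
  simp only [Set.mem_iUnion, exists_prop]
  constructor
  · intro hv
    have h1 := (mem_C hd hN).1 (hB hv)
    have h2 := (X_iff hd n j N v).1 h1
    refine ⟨X d (n + j) v, mem_filter.2 ⟨mem_Ico.2 h2, v, hv, rfl⟩, ?_⟩
    rw [mem_C hd (hNj.trans h2.1)]
  · rintro ⟨M, hM, hv⟩
    rw [mem_filter, mem_Ico] at hM
    obtain ⟨hM1, u, hu, hM2⟩ := hM
    rw [mem_C hd (hNj.trans hM1.1)] at hv
    exact hs u hu v (hv.trans hM2.symm)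

end Pool.Agent.MFN
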