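import Mathlib

/-!
# MFN / Strong: a law of large numbers from pair bounds
-/

set_option autoImplicit false

namespace Pool.Agent.MFN

open MeasureTheory Filter Finset

/-- interpolation between the subsequence and all indices -/
theorem ratio_tendsto {A S : ℕ → ℝ} (hS : Monotone S) (hS0 : 0 ≤ S 0)
    (hAt : Tendsto A atTop atTop) (N : ℕ → ℕ)
    (hN2 : ∀ j n : ℕ, (j : ℝ) ^ 2 ≤ A n → N j ≤ n)
    (hN3 : ∀ j n : ℕ, A n < (j : ℝ) ^ 2 → n ≤ N j)
    (h : Tendsto (fun j : ℕ => S (N j) / (j : ℝ) ^ 2) atTop (nhds 1)) :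
    Tendsto (fun n => S n / A n) atTop (nhds 1) := by
  set J : ℕ → ℕ := fun n => Nat.sqrt ⌊A n⌋₊ with hJ
  have hlow : ∀ n, 0 ≤ A n → ((J n : ℕ) : ℝ) ^ 2 ≤ A n := by
    intro n hn
    have h1 : (J n) ^ 2 ≤ ⌊A n⌋₊ := Nat.sqrt_le' _
    have h2 : ((J n : ℕ) : ℝ) ^ 2 ≤ (⌊A n⌋₊ : ℝ) := by exact_mod_cast h1
    exact h2.trans (Nat.floor_le hn)
  have hupp : ∀ n, A n < ((J n + 1 : ℕ) : ℝ) ^ 2 := by
    intro n
    have h1 : ⌊A n⌋₊ < (J n + 1) ^ 2 := Nat.lt_succ_sqrt' _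
    have h2 : ((⌊A n⌋₊ + 1 : ℕ) : ℝ) ≤ ((J n + 1 : ℕ) : ℝ) ^ 2 := by exact_mod_cast h1
    have h3 := Nat.lt_floor_add_one (A n)
    push_cast at h2 ⊢
    linarith
  have hJt : Tendsto J atTop atTop := by
    rw [tendsto_atTop]
    intro b
    filter_upwards [(tendsto_atTop.1 hAt) (((b + 1 : ℕ) : ℝ) ^ 2)] with n hn
    have h1 := hupp n
    have h2 : ((b + 1 : ℕ) : ℝ) ^ 2 < ((J n + 1 : ℕ) : ℝ) ^ 2 := lt_of_le_of_lt hn h1
    have h3 : ((b + 1 : ℕ) : ℝ) < ((J n + 1 : ℕ) : ℝ) := lt_of_pow_lt_pow_left₀ 2 (by positivity) h2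
    have h4 : b + 1 < J n + 1 := by exact_mod_cast h3
    omega
  -- the two comparison sequences
  have hL : Tendsto (fun j : ℕ => S (N j) / (j : ℝ) ^ 2 * ((j : ℝ) / (j + 1)) ^ 2) atTop (nhds 1) := by
    have h1 : Tendsto (fun j : ℕ => (j : ℝ) / (j + 1)) atTop (nhds 1) :=
      tendsto_natCast_div_add_atTop (1 : ℝ)
    have h2 := h.mul (h1.pow 2)
    simpa using h2
  have hU : Tendsto (fun j : ℕ => S (N (j + 1)) / ((j + 1 : ℕ) : ℝ) ^ 2 * (((j : ℝ) + 1) / j) ^ 2)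
      atTop (nhds 1) := by
    have h1 : Tendsto (fun j : ℕ => ((j : ℝ) + 1) / j) atTop (nhds 1) := by
      have h0 : Tendsto (fun j : ℕ => (j : ℝ) / (j + 1)) atTop (nhds 1) :=
        tendsto_natCast_div_add_atTop (1 : ℝ)
      have := h0.inv₀ one_ne_zero
      simpa using this
    have h2 := ((tendsto_add_atTop_iff_nat 1).2 h).mul (h1.pow 2)
    simpa using h2
  have hL' := hL.comp hJt
  have hU' := hU.comp hJt
  have hSn : ∀ n, 0 ≤ S n := fun n => hS0.trans (hS (Nat.zero_le n))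
  refine tendsto_of_tendsto_of_tendsto_of_le_of_le' hL' hU' ?_ ?_
  · filter_upwards [hAt.eventually_gt_atTop 0, hJt.eventually_ge_atTop 1] with n hn hj
    have hjpos : (0 : ℝ) < (J n : ℕ) := by exact_mod_cast hj
    have h1 : N (J n) ≤ n := hN2 _ _ (hlow n hn.le)
    have h2 : S (N (J n)) ≤ S n := hS h1
    have e : S (N (J n)) / ((J n : ℕ) : ℝ) ^ 2 * (((J n : ℕ) : ℝ) / ((J n : ℕ) + 1)) ^ 2 =
        S (N (J n)) / (((J n : ℕ) : ℝ) + 1) ^ 2 := by
      field_simp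
    simp only [Function.comp_apply]
    rw [e]
    have h3 := hupp n
    push_cast at h3
    exact div_le_div₀ (hSn n) h2 hn h3.le
  · filter_upwards [hAt.eventually_gt_atTop 0, hJt.eventually_ge_atTop 1] with n hn hj
    have hjpos : (0 : ℝ) < (J n : ℕ) := by exact_mod_cast hj
    have h1 : n ≤ N (J n + 1) := hN3 _ _ (hupp n)
    have h2 : S n ≤ S (N (J n + 1)) := hS h1
    have e : S (N (J n + 1)) / ((J n + 1 : ℕ) : ℝ) ^ 2 * ((((J n : ℕ) : ℝ) + 1) / (J n : ℕ)) ^ 2 =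
        S (N (J n + 1)) / ((J n : ℕ) : ℝ) ^ 2 := by
      push_cast
      field_simp
    simp only [Function.comp_apply]
    rw [e]
    exact div_le_div₀ (hSn _) h2 (by positivity) (hlow n hn.le)

section

variable {Ω : Type*} [MeasurableSpace Ω] (μ : Measure Ω) [IsFiniteMeasure μ]
  {E : ℕ → Set Ω} {W δ : ℕ → ℝ}

/-- centred indicator -/
noncomputable def ff (E : ℕ → Set Ω) (W : ℕ → ℝ) (n : ℕ) (ω : Ω) : ℝ :=
  (E n).indicator (fun _ => (1 : ℝ)) ω - W n

theorem ff_meas (hE : ∀ n, MeasurableSet (E n)) (n : ℕ) : Measurable (ff E W n) :=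
  (measurable_const.indicator (hE n)).sub measurable_const

theorem ind_int (s : Set Ω) (hs : MeasurableSet s) :
    Integrable (s.indicator fun _ => (1 : ℝ)) μ := (integrable_const (1 : ℝ)).indicator hs

omit [MeasurableSpace Ω] in
theorem ff_mul (E : ℕ → Set Ω) (W : ℕ → ℝ) (n m : ℕ) (ω : Ω) : ff E W n ω * ff E W m ω =
    (E n ∩ E m).indicator (fun _ => (1 : ℝ)) ω - W m * (E n).indicator (fun _ => (1 : ℝ)) ω -
      W n * (E m).indicator (fun _ => (1 : ℝ)) ω + W n * W m := by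
  unfold ff
  by_cases h1 : ω ∈ E n <;> by_cases h2 : ω ∈ E m <;> simp [h1, h2] <;> ring

theorem ff_mul_int (hE : ∀ n, MeasurableSet (E n)) (n m : ℕ) :
    Integrable (fun ω => ff E W n ω * ff E W m ω) μ := by
  have h1 := ind_int μ _ ((hE n).inter (hE m))
  have h2 := (ind_int μ _ (hE n)).const_mul (W m)
  have h3 := (ind_int μ _ (hE m)).const_mul (W n)
  have h4 := integrable_const (μ := μ) (W n * W m)
  have h5 := ((h1.sub h2).sub h3).add h4
  refine h5.congr (Eventually.of_forall fun ω => ?_)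
  simp only [Pi.add_apply, Pi.sub_apply]
  rw [ff_mul]

theorem ff_integral (hE : ∀ n, MeasurableSet (E n)) (n m : ℕ) :
    ∫ ω, ff E W n ω * ff E W m ω ∂μ = μ.real (E n ∩ E m) - W m * μ.real (E n) -
      W n * μ.real (E m) + W n * W m * μ.real Set.univ := by
  have h1 := ind_int μ _ ((hE n).inter (hE m))
  have h2 := (ind_int μ _ (hE n)).const_mul (W m)
  have h3 := (ind_int μ _ (hE m)).const_mul (W n)
  have h4 := integrable_const (μ := μ) (W n * W m)
  have e : (fun ω => ff E W n ω * ff E W m ω) = fun ω =>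
      (E n ∩ E m).indicator (fun _ => (1 : ℝ)) ω - W m * (E n).indicator (fun _ => (1 : ℝ)) ω -
      W n * (E m).indicator (fun _ => (1 : ℝ)) ω + W n * W m := funext fun ω => ff_mul E W n m ω
  rw [e, integral_add (by exact (h1.sub h2).sub h3) h4, integral_sub (by exact h1.sub h2) h3,
    integral_sub h1 h2, integral_const_mul, integral_const_mul, integral_const,
    integral_indicator_const _ ((hE n).inter (hE m)), integral_indicator_const _ (hE n),
    integral_indicator_const _ (hE m)]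
  simp only [smul_eq_mul, mul_one]
  ring

omit [MeasurableSpace Ω] in
theorem sq_step (N : ℕ) (ω : Ω) : (∑ n ∈ range (N + 1), ff E W n ω) ^ 2 =
    (∑ n ∈ range N, ff E W n ω) ^ 2 + 2 * ∑ n ∈ range N, ff E W n ω * ff E W N ω +
      ff E W N ω * ff E W N ω := by
  rw [sum_range_succ, ← sum_mul]
  ring

theorem sq_int (hE : ∀ n, MeasurableSet (E n)) (N : ℕ) :
    Integrable (fun ω => (∑ n ∈ range N, ff E W n ω) ^ 2) μ := by
  induction N with
  | zero => simp
  | succ N ih =>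
    have h1 : Integrable (fun ω => ∑ n ∈ range N, ff E W n ω * ff E W N ω) μ :=
      integrable_finsetSum _ fun n _ => ff_mul_int (W := W) μ hE n N
    refine ((ih.add (h1.const_mul 2)).add (ff_mul_int (W := W) μ hE N N)).congr
      (Eventually.of_forall fun ω => ?_)
    simp only [Pi.add_apply]
    rw [sq_step]

theorem sq_integral (hE : ∀ n, MeasurableSet (E n)) (N : ℕ) :
    ∫ ω, (∑ n ∈ range (N + 1), ff E W n ω) ^ 2 ∂μ = ∫ ω, (∑ n ∈ range N, ff E W n ω) ^ 2 ∂μ +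
      2 * ∑ n ∈ range N, ∫ ω, ff E W n ω * ff E W N ω ∂μ + ∫ ω, ff E W N ω * ff E W N ω ∂μ := by
  have h1 : Integrable (fun ω => ∑ n ∈ range N, ff E W n ω * ff E W N ω) μ :=
    integrable_finsetSum _ fun n _ => ff_mul_int μ hE n N
  have e : (fun ω => (∑ n ∈ range (N + 1), ff E W n ω) ^ 2) = fun ω =>
      (∑ n ∈ range N, ff E W n ω) ^ 2 + 2 * ∑ n ∈ range N, ff E W n ω * ff E W N ω +
      ff E W N ω * ff E W N ω := funext fun ω => sq_step N ω
  rw [e, integral_add (by exact (sq_int μ hE N).add (h1.const_mul 2)) (ff_mul_int μ hE N N),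
    integral_add (sq_int μ hE N) (h1.const_mul 2), integral_const_mul,
    integral_finsetSum _ fun n _ => ff_mul_int μ hE n N]

/-- the second moment -/
theorem var_le (hE : ∀ n, MeasurableSet (E n)) (hW0 : ∀ n, 0 ≤ W n)
    (hW1 : ∀ n, W n ≤ 1) (hδ0 : ∀ n, 0 ≤ δ n) {Δ : ℝ} (hΔ : ∀ N, ∑ n ∈ range N, δ n ≤ Δ)
    (h1 : ∀ m, |μ.real (E m) - W m * μ.real Set.univ| ≤ δ m * μ.real Set.univ)
    (h2 : ∀ n m, n < m → |μ.real (E n ∩ E m) - W m * μ.real (E n)| ≤ δ m * μ.real (E n)) (N : ℕ) :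
    ∫ ω, (∑ n ∈ range N, ff E W n ω) ^ 2 ∂μ ≤ μ.real Set.univ *
      (4 * (∑ n ∈ range N, W n) * (∑ n ∈ range N, δ n) + 2 * Δ * (∑ n ∈ range N, δ n) +
        2 * (∑ n ∈ range N, W n) + ∑ n ∈ range N, δ n) := by
  set T := μ.real Set.univ with hT
  have hT0 : 0 ≤ T := measureReal_nonneg
  induction N with
  | zero => simp
  | succ N ih =>
    rw [sq_integral μ hE N]
    have hEm : ∀ m, μ.real (E m) ≤ (W m + δ m) * T := by
      intro m
      have := (abs_le.1 (h1 m)).2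
      linarith
    have hcross : ∀ n ∈ range N, ∫ ω, ff E W n ω * ff E W N ω ∂μ ≤ δ N * (2 * W n + δ n) * T := by
      intro n hn
      rw [ff_integral μ hE]
      have g1 := (abs_le.1 (h2 n N (mem_range.1 hn))).2
      have g2 := (abs_le.1 (h1 N)).1
      have g3 := mul_le_mul_of_nonneg_left g2 (hW0 n)
      have g4 := mul_le_mul_of_nonneg_left (hEm n) (hδ0 N)
      nlinarith
    have hlast : ∫ ω, ff E W N ω * ff E W N ω ∂μ ≤ (2 * W N + δ N) * T := by
      rw [ff_integral μ hE, Set.inter_self]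
      have g1 := hEm N
      have g2 : 0 ≤ μ.real (E N) := measureReal_nonneg
      have g3 := mul_nonneg (hW0 N) g2
      have g4 : W N * W N ≤ W N := by
        have := mul_le_mul_of_nonneg_left (hW1 N) (hW0 N)
        linarith
      have g5 := mul_le_mul_of_nonneg_right g4 hT0
      nlinarith
    have hsum := sum_le_sum hcross
    have hs2 : ∑ n ∈ range N, δ N * (2 * W n + δ n) * T =
        δ N * (2 * (∑ n ∈ range N, W n) + ∑ n ∈ range N, δ n) * T := by
      rw [← sum_mul, ← mul_sum, sum_add_distrib, ← mul_sum]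
    rw [hs2] at hsum
    have hB := hΔ N
    have hA0 : 0 ≤ ∑ n ∈ range N, W n := sum_nonneg fun n _ => hW0 n
    have hB0 : 0 ≤ ∑ n ∈ range N, δ n := sum_nonneg fun n _ => hδ0 n
    rw [sum_range_succ (fun n => W n), sum_range_succ (fun n => δ n)]
    generalize (∑ n ∈ range N, W n) = A at *
    generalize (∑ n ∈ range N, δ n) = B at *
    have k1 : 0 ≤ W N * B * T := mul_nonneg (mul_nonneg (hW0 N) hB0) hT0
    have k2 : 0 ≤ W N * δ N * T := mul_nonneg (mul_nonneg (hW0 N) (hδ0 N)) hT0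
    have k3 : δ N * B * T ≤ δ N * Δ * T :=
      mul_le_mul_of_nonneg_right (mul_le_mul_of_nonneg_left hB (hδ0 N)) hT0
    nlinarith

theorem ae_eventually_of_summable (hE0 : ∀ n, 0 ≤ W n) (hδ0 : ∀ n, 0 ≤ δ n) (hδ : Summable δ)
    (h1 : ∀ m, |μ.real (E m) - W m * μ.real Set.univ| ≤ δ m * μ.real Set.univ)
    (hs : Summable W) : ∀ᵐ ω ∂μ, ∀ᶠ n in atTop, ω ∉ E n := by
  have hb : ∀ m, μ (E m) ≤ ENNReal.ofReal ((W m + δ m) * μ.real Set.univ) := by
    intro m
    rw [← ofReal_measureReal]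
    refine ENNReal.ofReal_le_ofReal ?_
    have := (abs_le.1 (h1 m)).2
    linarith
  have hsum : Summable fun m => (W m + δ m) * μ.real Set.univ := (hs.add hδ).mul_right _
  exact ae_eventually_notMem (ne_top_of_le_ne_top hsum.tsum_ofReal_ne_top (ENNReal.tsum_le_tsum hb))

/-- **Law of large numbers.** -/
theorem strong_law (hE : ∀ n, MeasurableSet (E n)) (hW0 : ∀ n, 0 ≤ W n)
    (hW1 : ∀ n, W n ≤ 1) (hδ0 : ∀ n, 0 ≤ δ n) (hδ : Summable δ)
    (h1 : ∀ m, |μ.real (E m) - W m * μ.real Set.univ| ≤ δ m * μ.real Set.univ)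
    (h2 : ∀ n m, n < m → |μ.real (E n ∩ E m) - W m * μ.real (E n)| ≤ δ m * μ.real (E n))
    (hdiv : ¬ Summable W) :
    ∀ᵐ ω ∂μ, Tendsto (fun N => (∑ n ∈ range N, (E n).indicator (fun _ => (1 : ℝ)) ω) /
      ∑ n ∈ range N, W n) atTop (nhds 1) := by
  set A : ℕ → ℝ := fun N => ∑ n ∈ range N, W n with hA
  have hAt : Tendsto A atTop atTop := (not_summable_iff_tendsto_nat_atTop_of_nonneg hW0).1 hdiv
  have hAm : Monotone A := by
    refine monotone_nat_of_le_succ fun n => ?_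
    simp only [hA]
    rw [sum_range_succ]
    linarith [hW0 n]
  have hA0 : A 0 = 0 := by simp [hA]
  have hex : ∀ j : ℕ, ∃ n, (j : ℝ) ^ 2 ≤ A n := by
    intro j
    obtain ⟨n, hn⟩ := ((tendsto_atTop.1 hAt) ((j : ℝ) ^ 2)).exists
    exact ⟨n, hn⟩
  classical
  set N : ℕ → ℕ := fun j => Nat.find (hex j) with hN
  have hN1 : ∀ j : ℕ, (j : ℝ) ^ 2 ≤ A (N j) := fun j => Nat.find_spec (hex j)
  have hN2 : ∀ j n : ℕ, (j : ℝ) ^ 2 ≤ A n → N j ≤ n := fun j n h => Nat.find_min' (hex j) h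
  have hN3 : ∀ j n : ℕ, A n < (j : ℝ) ^ 2 → n ≤ N j := by
    intro j n h
    by_contra hc
    push Not at hc
    have := hAm hc.le
    linarith [hN1 j]
  have hN4 : ∀ j : ℕ, A (N j) ≤ (j : ℝ) ^ 2 + 1 := by
    intro j
    rcases Nat.eq_zero_or_pos (N j) with h0 | h0
    · rw [h0, hA0]; positivity
    · have h3 : ¬ (j : ℝ) ^ 2 ≤ A (N j - 1) := Nat.find_min (hex j) (by
        have : N j - 1 < N j := by omega
        exact this)
      have h4 : A (N j) = A (N j - 1) + W (N j - 1) := by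
        have : N j = (N j - 1) + 1 := by omega
        rw [this]
        simp only [hA]
        rw [sum_range_succ]
        simp
      rw [h4]
      have := hW1 (N j - 1)
      push Not at h3
      linarith
  set Δ : ℝ := ∑' n, δ n with hΔdef
  have hΔ : ∀ M, ∑ n ∈ range M, δ n ≤ Δ := fun M => hδ.sum_le_tsum _ fun n _ => hδ0 n
  have hΔ0 : 0 ≤ Δ := tsum_nonneg hδ0
  set T := μ.real Set.univ with hT
  have hT0 : 0 ≤ T := measureReal_nonneg
  -- second moments along the subsequence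
  set C : ℝ := T * (8 * Δ + 2 * Δ * Δ + 4 + Δ) with hC
  have hC0 : 0 ≤ C := by positivity
  have hvar : ∀ j : ℕ, ∫ ω, (∑ n ∈ range (N j), ff E W n ω) ^ 2 ∂μ ≤ C * ((j : ℝ) ^ 2 + 1) := by
    intro j
    refine (var_le μ hE hW0 hW1 hδ0 hΔ h1 h2 (N j)).trans ?_
    have g1 : ∑ n ∈ range (N j), W n ≤ (j : ℝ) ^ 2 + 1 := hN4 j
    have g2 := hΔ (N j)
    have g3 : 0 ≤ ∑ n ∈ range (N j), W n := sum_nonneg fun n _ => hW0 n
    have g4 : 0 ≤ ∑ n ∈ range (N j), δ n := sum_nonneg fun n _ => hδ0 n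
    rw [hC, mul_assoc T]
    refine mul_le_mul_of_nonneg_left ?_ hT0
    generalize (∑ n ∈ range (N j), W n) = a at *
    generalize (∑ n ∈ range (N j), δ n) = b at *
    have hj : (0 : ℝ) ≤ (j : ℝ) ^ 2 := by positivity
    have k1 : a * b ≤ ((j : ℝ) ^ 2 + 1) * Δ := mul_le_mul g1 g2 g4 (by positivity)
    have k2 : Δ * b ≤ Δ * Δ := mul_le_mul_of_nonneg_left g2 hΔ0
    have k3 : 0 ≤ Δ * Δ * (j : ℝ) ^ 2 := by positivity
    have k4 : 0 ≤ Δ * (j : ℝ) ^ 2 := by positivity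
    nlinarith
  -- the quotients are summable almost everywhere
  have hsumm : Summable fun j : ℕ => C * (((j + 1 : ℕ) : ℝ) ^ 2 + 1) / ((j + 1 : ℕ) : ℝ) ^ 4 := by
    have s1 : Summable fun j : ℕ => 1 / ((j + 1 : ℕ) : ℝ) ^ 2 :=
      (summable_nat_add_iff 1).2 (Real.summable_one_div_nat_pow.2 (by norm_num : 1 < 2))
    refine Summable.of_nonneg_of_le (fun j => by positivity) (fun j => ?_) (s1.mul_left (2 * C))
    have hj : (1 : ℝ) ≤ ((j + 1 : ℕ) : ℝ) := by exact_mod_cast Nat.succ_le_succ (Nat.zero_le j)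
    generalize ((j + 1 : ℕ) : ℝ) = x at hj
    have hx : 0 < x := by linarith
    have e : 2 * C * (1 / x ^ 2) = 2 * C * x ^ 2 / x ^ 4 := by field_simp
    rw [e]
    refine div_le_div_of_nonneg_right ?_ (by positivity)
    have : (1 : ℝ) ≤ x ^ 2 := one_le_pow₀ hj
    nlinarith
  have hD : ∀ᵐ ω ∂μ, Tendsto (fun j : ℕ => (∑ n ∈ range (N (j + 1)), ff E W n ω) ^ 2 /
      ((j + 1 : ℕ) : ℝ) ^ 4) atTop (nhds 0) := by
    have hmeas : ∀ j : ℕ, Measurable fun ω => ENNReal.ofReal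
        ((∑ n ∈ range (N (j + 1)), ff E W n ω) ^ 2 / ((j + 1 : ℕ) : ℝ) ^ 4) := by
      intro j
      refine Measurable.ennreal_ofReal (((Finset.measurable_sum _ fun n _ => ?_).pow_const 2).div_const _)
      exact ff_meas hE n
    have hfin : ∫⁻ ω, ∑' j : ℕ, ENNReal.ofReal
        ((∑ n ∈ range (N (j + 1)), ff E W n ω) ^ 2 / ((j + 1 : ℕ) : ℝ) ^ 4) ∂μ ≠ ⊤ := by
      rw [lintegral_tsum fun j => (hmeas j).aemeasurable]
      refine ne_top_of_le_ne_top hsumm.tsum_ofReal_ne_top (ENNReal.tsum_le_tsum fun j => ?_)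
      have hi := (sq_int (W := W) μ hE (N (j + 1))).div_const (((j + 1 : ℕ) : ℝ) ^ 4)
      rw [← ofReal_integral_eq_lintegral_ofReal hi (Eventually.of_forall fun ω => by positivity)]
      refine ENNReal.ofReal_le_ofReal ?_
      rw [integral_div]
      exact div_le_div_of_nonneg_right (hvar (j + 1)) (by positivity)
    filter_upwards [ae_lt_top (Measurable.tsum hmeas) hfin] with ω hω
    have t1 := ENNReal.tendsto_atTop_zero_of_tsum_ne_top hω.ne
    have t2 := (ENNReal.tendsto_toReal ENNReal.zero_ne_top).comp t1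
    simp only [ENNReal.toReal_zero] at t2
    refine t2.congr fun j => ?_
    simp only [Function.comp_apply]
    rw [ENNReal.toReal_ofReal (by positivity)]
  filter_upwards [hD] with ω hω
  set S : ℕ → ℝ := fun M => ∑ n ∈ range M, (E n).indicator (fun _ => (1 : ℝ)) ω with hS
  have hSA : ∀ M, ∑ n ∈ range M, ff E W n ω = S M - A M := by
    intro M
    simp only [hS, hA, ff]
    rw [sum_sub_distrib]
  have hSm : Monotone S := by
    refine monotone_nat_of_le_succ fun n => ?_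
    simp only [hS]
    rw [sum_range_succ]
    have : 0 ≤ (E n).indicator (fun _ => (1 : ℝ)) ω :=
      Set.indicator_nonneg (fun _ _ => zero_le_one) _
    linarith
  have hS0 : S 0 = 0 := by simp [hS]
  -- |S - A| / j^2 tends to zero
  have hq : Tendsto (fun j : ℕ => (S (N (j + 1)) - A (N (j + 1))) / ((j + 1 : ℕ) : ℝ) ^ 2)
      atTop (nhds 0) := by
    have t1 : Tendsto (fun j : ℕ => ((S (N (j + 1)) - A (N (j + 1))) / ((j + 1 : ℕ) : ℝ) ^ 2) ^ 2)
        atTop (nhds 0) := by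
      refine hω.congr fun j => ?_
      rw [hSA, div_pow, ← pow_mul]
    have t2 := t1.sqrt
    rw [Real.sqrt_zero] at t2
    refine (tendsto_zero_iff_abs_tendsto_zero _).2 (t2.congr fun j => ?_)
    rw [Real.sqrt_sq_eq_abs]
    rfl
  have hAq : Tendsto (fun j : ℕ => A (N (j + 1)) / ((j + 1 : ℕ) : ℝ) ^ 2) atTop (nhds 1) := by
    have t0 : Tendsto (fun j : ℕ => 1 + 1 / ((j + 1 : ℕ) : ℝ) ^ 2) atTop (nhds 1) := by
      have s1 : Summable fun j : ℕ => 1 / ((j + 1 : ℕ) : ℝ) ^ 2 :=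
        (summable_nat_add_iff 1).2 (Real.summable_one_div_nat_pow.2 (by norm_num : 1 < 2))
      have := s1.tendsto_atTop_zero.const_add 1
      simpa using this
    refine tendsto_of_tendsto_of_tendsto_of_le_of_le tendsto_const_nhds t0 (fun j => ?_) fun j => ?_
    · have hx : (0 : ℝ) < ((j + 1 : ℕ) : ℝ) ^ 2 := by positivity
      rw [le_div_iff₀ hx, one_mul]
      exact hN1 (j + 1)
    · have hx : (0 : ℝ) < ((j + 1 : ℕ) : ℝ) ^ 2 := by positivity
      simp only
      rw [div_le_iff₀ hx, add_mul, one_mul, one_div, inv_mul_cancel₀ hx.ne']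
      exact hN4 (j + 1)
  have hSq : Tendsto (fun j : ℕ => S (N j) / (j : ℝ) ^ 2) atTop (nhds 1) := by
    refine (tendsto_add_atTop_iff_nat 1).1 ?_
    have := hq.add hAq
    rw [zero_add] at this
    refine this.congr fun j => ?_
    rw [← add_div]
    congr 1
    ring
  exact ratio_tendsto hSm hS0.ge hAt N hN2 hN3 hSq

end

end Pool.Agent.MFN
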