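import Pool.Agent.MFN.Cell
import Pool.Agent.MFN.Strong

/-!
# MFN / Law: the metric law for the sequences `⌊exp (d^n u)⌋`
-/

set_option autoImplicit false

namespace Pool.Agent.MFN

open Finset MeasureTheory Filter

/-- finitely many terms do not matter -/
theorem ratio_shift {s V : ℕ → ℝ} (n₁ : ℕ)
    (ha : Tendsto (fun N => ∑ j ∈ range N, V (n₁ + j)) atTop atTop)
    (h : Tendsto (fun N => (∑ j ∈ range N, s (n₁ + j)) / ∑ j ∈ range N, V (n₁ + j)) atTop (nhds 1)) :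
    Tendsto (fun N => (∑ j ∈ range N, s j) / ∑ j ∈ range N, V j) atTop (nhds 1) := by
  refine (tendsto_add_atTop_iff_nat n₁).1 ?_
  have h1 : Tendsto (fun N => (∑ j ∈ range n₁, s j) / ∑ j ∈ range N, V (n₁ + j)) atTop (nhds 0) :=
    ha.const_div_atTop _
  have h2 : Tendsto (fun N => (∑ j ∈ range n₁, V j) / ∑ j ∈ range N, V (n₁ + j)) atTop (nhds 0) :=
    ha.const_div_atTop _
  have h3 := (h1.add h).div (h2.add_const 1) (by norm_num)
  simp only [zero_add, div_one] at h3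
  refine h3.congr' ?_
  filter_upwards [ha.eventually_gt_atTop 0] with N hN
  simp only [Pi.div_apply]
  rw [add_comm N n₁, sum_range_add, sum_range_add]
  generalize (∑ j ∈ range N, V (n₁ + j)) = a at hN
  field_simp

theorem X_tendsto {d : ℕ} (hd : 2 ≤ d) {u : ℝ} (hu : 0 < u) :
    Tendsto (fun n => X d n u) atTop atTop := by
  have hd1 : (1 : ℝ) < d := by exact_mod_cast hd
  exact tendsto_nat_floor_atTop.comp (Real.tendsto_exp_atTop.comp
    ((tendsto_pow_atTop_atTop_of_one_lt hd1).atTop_mul_const hu))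

theorem pow_low {d N j : ℕ} (hd : 2 ≤ d) (hN : 2 ≤ N) : 2 ^ (2 ^ j) ≤ N ^ (d ^ j) :=
  (Nat.pow_le_pow_left hN _).trans (Nat.pow_le_pow_right (by omega) (Nat.pow_le_pow_left hd j))

/-- a saturated set in a cell -/
theorem sat_bound {d : ℕ} (hd : 2 ≤ d) {n₀ N₀ k : ℕ} (hN : 2 ≤ N₀) (hk : n₀ ≤ k) {P : ℕ → Prop}
    {V e E : ℝ} {L₀ : ℕ} (hP : Eqd P V e E L₀) (hE : 0 ≤ E) (hL : L₀ ≤ N₀) {B : Set ℝ}
    (hB : B ⊆ C d n₀ N₀) (hs : ∀ u ∈ B, ∀ v, X d k v = X d k u → v ∈ B) :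
    |volume.real ({u | P (X d (k + 1) u)} ∩ B) - V * volume.real B| ≤
      (e + E / 2 ^ (2 ^ (k - n₀))) * volume.real B := by
  obtain ⟨S, hS, rfl⟩ := sat_union (by omega) (by omega : 1 ≤ N₀) hk hB hs
  have h1 : 1 ≤ N₀ ^ (d ^ (k - n₀)) := Nat.one_le_pow _ _ (by omega)
  have h2 : N₀ ≤ N₀ ^ (d ^ (k - n₀)) := Nat.le_self_pow (by positivity) _
  refine (union_bound hd hP hE h1 (hL.trans h2) S hS).trans ?_
  refine mul_le_mul_of_nonneg_right (add_le_add le_rfl ?_) measureReal_nonneg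
  refine div_le_div_of_nonneg_left hE (by positivity) ?_
  exact_mod_cast pow_low hd hN

theorem law_cell {d : ℕ} (hd : 2 ≤ d) {P : ℕ → ℕ → Prop} {V e E : ℕ → ℝ} {L₀ : ℕ}
    (hP : ∀ m, Eqd (P m) (V m) (e m) (E m) L₀) (hV0 : ∀ m, 0 ≤ V m) (hV1 : ∀ m, V m ≤ 1)
    (he0 : ∀ m, 0 ≤ e m) (he : Summable e) (hE0 : ∀ m, 0 ≤ E m)
    (hE : ∀ n₁ : ℕ, Summable fun j : ℕ => E (n₁ + j) / 2 ^ (2 ^ j))
    {n₀ N₀ : ℕ} (hN : 2 ≤ N₀) (hL : L₀ ≤ N₀) :
    ∀ᵐ u : ℝ, u ∈ C d n₀ N₀ → (Summable V → ∀ᶠ n in atTop, ¬ P n (X d n u)) ∧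
      (¬ Summable V → Tendsto (fun N => (∑ n ∈ range N,
        ({v | P n (X d n v)} : Set ℝ).indicator (fun _ => (1 : ℝ)) u) / ∑ n ∈ range N, V n)
        atTop (nhds 1)) := by
  have hd1 : 1 ≤ d := by omega
  have hN1 : 1 ≤ N₀ := by omega
  set n₁ := n₀ + 1 with hn₁
  set μ := volume.restrict (C d n₀ N₀) with hμ
  have hfin : IsFiniteMeasure μ := ⟨by
    rw [hμ, Measure.restrict_apply_univ]
    exact (C_finite d n₀ N₀).lt_top⟩
  set F : ℕ → Set ℝ := fun j => {v | P (n₁ + j) (X d (n₁ + j) v)} with hF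
  have hFm : ∀ j, MeasurableSet (F j) := fun j => set_meas d (n₁ + j) (P (n₁ + j))
  set δ : ℕ → ℝ := fun j => e (n₁ + j) + E (n₁ + j) / 2 ^ (2 ^ j) with hδ
  have hδ0 : ∀ j, 0 ≤ δ j := fun j => add_nonneg (he0 _) (div_nonneg (hE0 _) (by positivity))
  have hes : Summable fun j : ℕ => e (n₁ + j) := by
    have := (summable_nat_add_iff n₁).2 he
    simpa only [add_comm] using this
  have hδs : Summable δ := hes.add (hE n₁)
  have hreal : ∀ s : Set ℝ, MeasurableSet s → μ.real s = volume.real (s ∩ C d n₀ N₀) := fun s hs =>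
    measureReal_restrict_apply hs
  have huniv : μ.real Set.univ = volume.real (C d n₀ N₀) := by
    rw [hreal _ MeasurableSet.univ, Set.univ_inter]
  have hsat : ∀ k, n₀ ≤ k → ∀ u ∈ C d n₀ N₀, ∀ v, X d k v = X d k u → v ∈ C d n₀ N₀ := by
    intro k hk u hu v hv
    rw [mem_C hd1 hN1] at hu ⊢
    rw [X_factor hd1 hk hv, hu]
  have h1 : ∀ m, |μ.real (F m) - V (n₁ + m) * μ.real Set.univ| ≤ δ m * μ.real Set.univ := by
    intro m
    rw [hreal _ (hFm m), huniv]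
    have hb := sat_bound hd hN (by omega : n₀ ≤ n₀ + m) (hP (n₁ + m)) (hE0 _) hL subset_rfl
      (hsat (n₀ + m) (by omega))
    rw [Nat.add_sub_cancel_left] at hb
    have e1 : n₀ + m + 1 = n₁ + m := by omega
    rw [e1] at hb
    exact hb
  have h2 : ∀ n m, n < m →
      |μ.real (F n ∩ F m) - V (n₁ + m) * μ.real (F n)| ≤ δ m * μ.real (F n) := by
    intro n m hnm
    rw [hreal _ ((hFm n).inter (hFm m)), hreal _ (hFm n)]
    have hb := sat_bound (B := F n ∩ C d n₀ N₀) hd hN (by omega : n₀ ≤ n₀ + m) (hP (n₁ + m))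
      (hE0 _) hL Set.inter_subset_right (by
        rintro u ⟨hu1, hu2⟩ v hv
        refine ⟨?_, hsat (n₀ + m) (by omega) u hu2 v hv⟩
        simp only [hF, Set.mem_ofPred_eq] at hu1 ⊢
        rw [X_factor hd1 (by omega : n₁ + n ≤ n₀ + m) hv]
        exact hu1)
    rw [Nat.add_sub_cancel_left] at hb
    have e1 : n₀ + m + 1 = n₁ + m := by omega
    rw [e1] at hb
    have e2 : F n ∩ F m ∩ C d n₀ N₀ = {u | P (n₁ + m) (X d (n₁ + m) u)} ∩ (F n ∩ C d n₀ N₀) := by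
      rw [Set.inter_comm (F n) (F m), Set.inter_assoc]
    rw [e2]
    exact hb
  have hsumV : (Summable fun j : ℕ => V (n₁ + j)) ↔ Summable V := by
    have := summable_nat_add_iff (f := V) n₁
    simpa only [add_comm n₁] using this
  rw [← ae_restrict_iff' (C_meas d n₀ N₀)]
  by_cases hs : Summable V
  · have h3 := ae_eventually_of_summable (E := F) (W := fun j => V (n₁ + j)) μ (fun n => hV0 _)
      hδ0 hδs h1 (hsumV.2 hs)
    filter_upwards [h3] with u hu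
    refine ⟨fun _ => ?_, fun h => absurd hs h⟩
    obtain ⟨j₀, hj₀⟩ := eventually_atTop.1 hu
    refine eventually_atTop.2 ⟨n₁ + j₀, fun n hn => ?_⟩
    have h4 := hj₀ (n - n₁) (by omega)
    simp only [hF, Set.mem_ofPred_eq] at h4
    rwa [Nat.add_sub_cancel' (by omega : n₁ ≤ n)] at h4
  · have hs' : ¬ Summable fun j : ℕ => V (n₁ + j) := fun h => hs (hsumV.1 h)
    have h3 := strong_law (E := F) (W := fun j => V (n₁ + j)) μ hFm (fun n => hV0 _)
      (fun n => hV1 _) hδ0 hδs h1 h2 hs'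
    filter_upwards [h3] with u hu
    refine ⟨fun h => absurd h hs, fun _ => ?_⟩
    refine ratio_shift n₁ ((not_summable_iff_tendsto_nat_atTop_of_nonneg fun n => hV0 _).1 hs') ?_
    exact hu

/-- **The metric law.** -/
theorem law {d : ℕ} (hd : 2 ≤ d) {P : ℕ → ℕ → Prop} {V e E : ℕ → ℝ} {L₀ : ℕ}
    (hP : ∀ m, Eqd (P m) (V m) (e m) (E m) L₀) (hV0 : ∀ m, 0 ≤ V m) (hV1 : ∀ m, V m ≤ 1)
    (he0 : ∀ m, 0 ≤ e m) (he : Summable e) (hE0 : ∀ m, 0 ≤ E m)
    (hE : ∀ n₁ : ℕ, Summable fun j : ℕ => E (n₁ + j) / 2 ^ (2 ^ j)) :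
    ∀ᵐ u : ℝ, 0 < u → (Summable V → ∀ᶠ n in atTop, ¬ P n (X d n u)) ∧
      (¬ Summable V → Tendsto (fun N => (∑ n ∈ range N,
        ({v | P n (X d n v)} : Set ℝ).indicator (fun _ => (1 : ℝ)) u) / ∑ n ∈ range N, V n)
        atTop (nhds 1)) := by
  have h1 : ∀ᵐ u : ℝ, ∀ q : ℕ × ℕ, 2 ≤ q.2 → L₀ ≤ q.2 → u ∈ C d q.1 q.2 →
      (Summable V → ∀ᶠ n in atTop, ¬ P n (X d n u)) ∧
      (¬ Summable V → Tendsto (fun N => (∑ n ∈ range N,
        ({v | P n (X d n v)} : Set ℝ).indicator (fun _ => (1 : ℝ)) u) / ∑ n ∈ range N, V n)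
        atTop (nhds 1)) := by
    rw [ae_all_iff]
    intro q
    by_cases h2 : 2 ≤ q.2
    · by_cases h3 : L₀ ≤ q.2
      · filter_upwards [law_cell hd hP hV0 hV1 he0 he hE0 hE h2 h3 (n₀ := q.1)] with u hu _ _
        exact hu
      · exact Eventually.of_forall fun u _ h => absurd h h3
    · exact Eventually.of_forall fun u h => absurd h h2
  filter_upwards [h1] with u hu hu0
  obtain ⟨n₀, hn₀⟩ := ((X_tendsto hd hu0).eventually_ge_atTop (max 2 L₀)).exists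
  exact hu (n₀, X d n₀ u) ((le_max_left _ _).trans hn₀) ((le_max_right _ _).trans hn₀)
    ((mem_C (by omega) (by
      have := (le_max_left 2 L₀).trans hn₀
      omega)).2 rfl)

end Pool.Agent.MFN
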