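import Pool.Agent.MFN.Mert

/-!
# MFN / MertAP: primes in an arithmetic progression
-/

set_option autoImplicit false

namespace Pool.Agent.MFN

open Finset ArithmeticFunction ArithmeticFunction.vonMangoldt Complex

section

variable {q : ℕ} [NeZero q] {a : ZMod q}

omit [NeZero q] in
private theorem term_eq (a : ZMod q) (n : ℕ) (x : ℝ) :
    residueClass a n * Real.exp (-(x * Real.log n)) = residueClass a n / (n : ℝ) ^ x := by
  rcases Nat.eq_zero_or_pos n with rfl | hn
  · simp
  · have hn0 : (0 : ℝ) < n := by exact_mod_cast hn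
    rw [Real.rpow_def_of_pos hn0, Real.exp_neg, mul_comm x, div_eq_mul_inv]

omit [NeZero q] in
private theorem summ (a : ZMod q) {x : ℝ} (hx : 1 < x) :
    Summable fun n : ℕ => residueClass a n * Real.exp (-(x * Real.log n)) := by
  have h1 := (LSeriesSummable_vonMangoldt (s := (x : ℂ)) (by simpa using hx)).norm
  refine Summable.of_nonneg_of_le
    (fun n => mul_nonneg (residueClass_nonneg a n) (Real.exp_pos _).le) (fun n => ?_) h1
  rw [term_eq, LSeries.norm_term_eq]
  rcases Nat.eq_zero_or_pos n with rfl | hn
  · simp
  · rw [if_neg hn.ne', ofReal_re, norm_real, Real.norm_of_nonneg vonMangoldt_nonneg]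
    exact div_le_div_of_nonneg_right (residueClass_le a n) (by positivity)

private theorem series (ha : IsUnit a) {x : ℝ} (hx : 1 < x) :
    ∑' n : ℕ, residueClass a n * Real.exp (-(x * Real.log n)) =
      (LFunctionResidueClassAux a x).re + (q.totient : ℝ)⁻¹ / (x - 1) := by
  simp only [term_eq]
  refine ofReal_injective ?_
  simp only [ofReal_tsum, ofReal_div, ofReal_cpow (Nat.cast_nonneg _), ofReal_natCast,
    ofReal_add, ofReal_inv, ofReal_sub, ofReal_one]
  simp_rw [← LFunctionResidueClassAux_real ha hx,
    eqOn_LFunctionResidueClassAux ha <| Set.mem_ofPred.mpr (ofReal_re x ▸ hx), sub_add_cancel,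
    LSeries, LSeries.term]
  refine tsum_congr fun n => ?_
  split_ifs with hn
  · simp only [hn, residueClass_apply_zero, ofReal_zero, zero_div]
  · rfl

/-- **Mertens in an arithmetic progression.** -/
theorem mert_ap (ha : IsUnit a) : ∃ K, ∀ y : ℕ, 3 ≤ y →
    |∑ p ∈ (Icc 2 y).filter (fun p : ℕ => p.Prime ∧ (p : ZMod q) = a), 1 / (p : ℝ) -
      (q.totient : ℝ)⁻¹ * Real.log (Real.log y)| ≤ K := by
  have hcont : ContinuousOn (fun x : ℝ => (LFunctionResidueClassAux a x).re) (Set.Icc 1 2) :=
    continuous_re.continuousOn.comp (t := Set.univ) (continuousOn_LFunctionResidueClassAux a)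
      (fun ⦃x⦄ a => trivial) |>.comp continuous_ofReal.continuousOn fun x hx => by
        simpa only [Set.mem_ofPred_eq, ofReal_re] using hx.1
  obtain ⟨K, hK⟩ := mert_abs (b := residueClass a) (residueClass_nonneg a)
    (residueClass_apply_zero a) (by
      have h1 := residueClass_le a 1
      have h2 := residueClass_nonneg a 1
      rw [vonMangoldt_apply_one] at h1
      linarith) (c := (q.totient : ℝ)⁻¹) (by positivity) hcont
    (fun x hx _ => summ a hx) (fun x hx _ => series ha hx)
  have hl2 : 0 < Real.log 2 := Real.log_pos (by norm_num)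
  set R : ℝ := (Real.log 2)⁻¹ * ∑' n : ℕ, (if n.Prime then 0 else residueClass a n) / n with hR
  refine ⟨K + R, fun y hy => ?_⟩
  have h1 := hK y hy
  have hsplit : ∑ n ∈ Icc 2 y, residueClass a n / (n * Real.log n) =
      ∑ p ∈ (Icc 2 y).filter (fun p : ℕ => p.Prime ∧ (p : ZMod q) = a), 1 / (p : ℝ) +
        ∑ n ∈ Icc 2 y, (if n.Prime then 0 else residueClass a n) / (n * Real.log n) := by
    rw [sum_filter, ← sum_add_distrib]
    refine sum_congr rfl fun n hn => ?_
    rw [mem_Icc] at hn
    have hn0 : (0 : ℝ) < n := by exact_mod_cast (by omega : 0 < n)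
    have hln : 0 < Real.log n := Real.log_pos (by exact_mod_cast (by omega : 1 < n))
    by_cases hp : n.Prime
    · by_cases hna : (n : ZMod q) = a
      · have e : residueClass a n = Real.log n := by
          rw [residueClass, Set.indicator_of_mem (by exact hna)]
          exact vonMangoldt_apply_prime hp
        rw [if_pos ⟨hp, hna⟩, if_pos hp, e, zero_div, add_zero]
        field_simp
      · have e : residueClass a n = 0 := by
          rw [residueClass, Set.indicator_of_notMem (by exact hna)]
        rw [if_neg (fun h => hna h.2), if_pos hp, e]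
        simp
    · rw [if_neg (fun h => hp h.1), if_neg hp, zero_add]
  have h2 : 0 ≤ ∑ n ∈ Icc 2 y, (if n.Prime then 0 else residueClass a n) / (n * Real.log n) := by
    refine sum_nonneg fun n _ => div_nonneg ?_ (mul_nonneg (Nat.cast_nonneg n) (Real.log_natCast_nonneg n))
    split_ifs
    · exact le_rfl
    · exact residueClass_nonneg a n
  have h3 : ∑ n ∈ Icc 2 y, (if n.Prime then 0 else residueClass a n) / (n * Real.log n) ≤ R := by
    have h4 : ∑ n ∈ Icc 2 y, (if n.Prime then 0 else residueClass a n) / (n * Real.log n) ≤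
        ∑ n ∈ Icc 2 y, (Real.log 2)⁻¹ * ((if n.Prime then 0 else residueClass a n) / n) := by
      refine sum_le_sum fun n hn => ?_
      rw [mem_Icc] at hn
      have hn0 : (0 : ℝ) < n := by exact_mod_cast (by omega : 0 < n)
      have hln : Real.log 2 ≤ Real.log n := Real.log_le_log (by norm_num) (by exact_mod_cast hn.1)
      have h5 : (0 : ℝ) ≤ (if n.Prime then 0 else residueClass a n) := by
        split_ifs
        · exact le_rfl
        · exact residueClass_nonneg a n
      rw [← div_div, div_eq_inv_mul _ (Real.log n)]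
      exact mul_le_mul_of_nonneg_right (inv_anti₀ hl2 hln) (by positivity)
    rw [← mul_sum] at h4
    refine h4.trans ?_
    rw [hR]
    refine mul_le_mul_of_nonneg_left ?_ (by positivity)
    refine (summable_residueClass_non_primes_div a).sum_le_tsum _ fun n _ => ?_
    refine div_nonneg ?_ (Nat.cast_nonneg n)
    split_ifs
    · exact le_rfl
    · exact residueClass_nonneg a n
  rw [hsplit] at h1
  rw [abs_le] at h1 ⊢
  constructor <;> linarith [h1.1, h1.2]

end

end Pool.Agent.MFN
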