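import Pool.Agent.MFN.Defs

/-!
# MFN / Root: the number of roots of `x^(2^k) + 1` modulo `p`
-/

set_option autoImplicit false

namespace Pool.Agent.MFN

open Finset

theorem rho_two (k : ℕ) : rho k 2 = 1 := by
  unfold rho
  have : (range 2).filter (fun r => 2 ∣ r ^ 2 ^ k + 1) = {1} := by
    ext r
    rw [mem_filter, mem_range, mem_singleton]
    constructor
    · rintro ⟨h1, h2⟩
      interval_cases r
      · rw [zero_pow (by positivity)] at h2
        omega
      · rfl
    · rintro rfl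
      exact ⟨by norm_num, by simp⟩
  rw [this, card_singleton]

theorem rho_eq_zmod {p : ℕ} [hp : Fact p.Prime] (k : ℕ) :
    rho k p = (univ.filter fun x : ZMod p => x ^ 2 ^ k = -1).card := by
  unfold rho
  have hcond : ∀ r : ℕ, p ∣ r ^ 2 ^ k + 1 ↔ ((r : ZMod p)) ^ 2 ^ k = -1 := by
    intro r
    rw [← ZMod.natCast_eq_zero_iff]
    push_cast
    exact add_eq_zero_iff_eq_neg
  refine card_bij (fun r _ => (r : ZMod p)) ?_ ?_ ?_
  · intro r hr
    rw [mem_filter] at hr
    rw [mem_filter]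
    exact ⟨mem_univ _, (hcond r).1 hr.2⟩
  · intro r hr s hs h
    rw [mem_filter, mem_range] at hr hs
    rw [ZMod.natCast_eq_natCast_iff'] at h
    rwa [Nat.mod_eq_of_lt hr.1, Nat.mod_eq_of_lt hs.1] at h
  · intro x hx
    rw [mem_filter] at hx
    refine ⟨x.val, ?_, ZMod.natCast_zmod_val x⟩
    rw [mem_filter, mem_range]
    refine ⟨ZMod.val_lt x, ?_⟩
    rw [hcond, ZMod.natCast_zmod_val]
    exact hx.2

theorem order_iff {p : ℕ} [hp : Fact p.Prime] (hp2 : p ≠ 2) (k : ℕ) (u : (ZMod p)ˣ) :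
    (u : ZMod p) ^ 2 ^ k = -1 ↔ orderOf u = 2 ^ (k + 1) := by
  have hne : (-1 : ZMod p) ≠ 1 := by
    have : Fact (2 < p) := ⟨lt_of_le_of_ne hp.out.two_le (Ne.symm hp2)⟩
    exact ZMod.neg_one_ne_one
  constructor
  · intro h
    have : Fact (Nat.Prime 2) := ⟨Nat.prime_two⟩
    refine orderOf_eq_prime_pow ?_ ?_
    · intro h1
      have h2 : (u : ZMod p) ^ 2 ^ k = 1 := by
        rw [← Units.val_pow_eq_pow_val, h1, Units.val_one]
      exact hne (h.symm.trans h2)
    · refine Units.ext ?_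
      rw [Units.val_pow_eq_pow_val, pow_succ, pow_mul, h, Units.val_one]
      ring
  · intro h
    have h1 : u ^ 2 ^ (k + 1) = 1 := by rw [← h]; exact pow_orderOf_eq_one u
    have h2 : ((u : ZMod p) ^ 2 ^ k) ^ 2 = 1 := by
      rw [← pow_mul, ← pow_succ, ← Units.val_pow_eq_pow_val, h1, Units.val_one]
    rcases sq_eq_one_iff.1 h2 with h3 | h3
    · exfalso
      have h4 : u ^ 2 ^ k = 1 := by
        refine Units.ext ?_
        rw [Units.val_pow_eq_pow_val, h3, Units.val_one]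
      have h5 := orderOf_dvd_of_pow_eq_one h4
      rw [h] at h5
      have h6 := Nat.le_of_dvd (by positivity) h5
      have h7 : 2 ^ k < 2 ^ (k + 1) := Nat.pow_lt_pow_right (by norm_num) (by omega)
      omega
    · exact h3

theorem rho_eq_order {p : ℕ} [hp : Fact p.Prime] (hp2 : p ≠ 2) (k : ℕ) :
    rho k p = (univ.filter fun u : (ZMod p)ˣ => orderOf u = 2 ^ (k + 1)).card := by
  rw [rho_eq_zmod]
  symm
  refine card_bij (fun u _ => (u : ZMod p)) ?_ ?_ ?_
  · intro u hu
    rw [mem_filter] at hu ⊢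
    exact ⟨mem_univ _, (order_iff hp2 k u).2 hu.2⟩
  · intro u _ v _ h
    exact Units.ext h
  · intro x hx
    rw [mem_filter] at hx
    have hx0 : x ≠ 0 := by
      rintro rfl
      have := hx.2
      rw [zero_pow (by positivity)] at this
      exact one_ne_zero (neg_eq_zero.1 this.symm)
    refine ⟨Units.mk0 x hx0, ?_, rfl⟩
    rw [mem_filter]
    exact ⟨mem_univ _, (order_iff hp2 k _).1 hx.2⟩

/-- `2^k` roots if `p ≡ 1 (mod 2^(k+1))`, no root for the other odd `p` -/
theorem rho_odd {p : ℕ} (hp : p.Prime) (hp2 : p ≠ 2) (k : ℕ) :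
    rho k p = if p ≡ 1 [MOD 2 ^ (k + 1)] then 2 ^ k else 0 := by
  have : Fact p.Prime := ⟨hp⟩
  rw [rho_eq_order hp2]
  have hcard : Fintype.card (ZMod p)ˣ = p - 1 := ZMod.card_units p
  have hiff : p ≡ 1 [MOD 2 ^ (k + 1)] ↔ 2 ^ (k + 1) ∣ p - 1 :=
    Nat.ModEq.comm.trans (Nat.modEq_iff_dvd' hp.one_lt.le)
  split_ifs with h
  · rw [IsCyclic.card_orderOf_eq_totient (by rw [hcard]; exact hiff.1 h),
      Nat.totient_prime_pow_succ Nat.prime_two]
    norm_num
  · rw [card_eq_zero, filter_eq_empty_iff]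
    intro u _ hu
    apply h
    rw [hiff, ← hcard, ← hu]
    exact orderOf_dvd_card

theorem rho_le {p : ℕ} (hp : p.Prime) (k : ℕ) : rho k p ≤ 2 ^ k := by
  rcases eq_or_ne p 2 with rfl | h
  · rw [rho_two]; exact Nat.one_le_two_pow
  · rw [rho_odd hp h]
    split_ifs <;> simp

end Pool.Agent.MFN
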