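import Pool.Agent.MFN.Sv
import Pool.Agent.MFN.Root
import Pool.Agent.MFN.MertAP

/-!
# MFN / Wb: the size of the sieve products
-/

set_option autoImplicit false

namespace Pool.Agent.MFN

open Finset

theorem mod_iff (k p : ℕ) : ((p : ℕ) : ZMod (2 ^ (k + 1))) = 1 ↔ p ≡ 1 [MOD 2 ^ (k + 1)] := by
  have := ZMod.natCast_eq_natCast_iff p 1 (2 ^ (k + 1))
  rwa [Nat.cast_one] at this

theorem t_bounds {k p : ℕ} (hp : p.Prime) : (rho k p : ℝ) / p ≤ 1 / 2 := by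
  have hp0 : (0 : ℝ) < p := by exact_mod_cast hp.pos
  rw [div_le_div_iff₀ hp0 (by norm_num)]
  rcases eq_or_ne p 2 with rfl | h2
  · rw [rho_two]; norm_num
  · rw [rho_odd hp h2]
    split_ifs with h
    · have h3 : 2 ^ (k + 1) ∣ p - 1 := (Nat.ModEq.comm.trans (Nat.modEq_iff_dvd' hp.one_lt.le)).1 h
      have h4 : 2 ^ (k + 1) ≤ p - 1 := Nat.le_of_dvd (by have := hp.one_lt; omega) h3
      have h5 : 2 ^ k * 2 ≤ 1 * p := by rw [← pow_succ]; omega
      exact_mod_cast h5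
    · simp

theorem sum_t {k y : ℕ} (hy : 2 ≤ y) : ∑ p ∈ pr y, (rho k p : ℝ) / p = 1 / 2 +
    2 ^ k * ∑ p ∈ (Icc 2 y).filter (fun p : ℕ => p.Prime ∧ (p : ZMod (2 ^ (k + 1))) = 1),
      1 / (p : ℝ) := by
  have h1 : ∀ p ∈ pr y, (rho k p : ℝ) / p = (if p = 2 then 1 / 2 else 0) +
      (if (p : ZMod (2 ^ (k + 1))) = 1 then 2 ^ k * (1 / (p : ℝ)) else 0) := by
    intro p hp
    rw [mem_pr] at hp
    simp only [mod_iff]
    rcases eq_or_ne p 2 with rfl | h2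
    · rw [if_pos rfl, rho_two, if_neg]
      · norm_num
      · intro h
        have h3 : 2 ^ (k + 1) ∣ 2 - 1 := (Nat.ModEq.comm.trans (Nat.modEq_iff_dvd' (by norm_num))).1 h
        have h4 := Nat.le_of_dvd (by norm_num) h3
        have h5 : 1 ≤ 2 ^ k := Nat.one_le_two_pow
        rw [pow_succ] at h4
        omega
    · rw [if_neg h2, rho_odd hp.1 h2, zero_add]
      split_ifs
      · push_cast
        ring
      · simp
  rw [sum_congr rfl h1, sum_add_distrib, sum_ite_eq' (pr y) 2 (fun _ => (1 / 2 : ℝ)),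
    if_pos (mem_pr.2 ⟨Nat.prime_two, hy⟩), ← sum_filter, mul_sum]
  congr 1
  refine sum_congr ?_ fun _ _ => rfl
  ext p
  rw [mem_filter, mem_filter, mem_pr, mem_Icc]
  constructor
  · rintro ⟨⟨h2, h3⟩, h4⟩
    exact ⟨⟨h2.two_le, h3⟩, h2, h4⟩
  · rintro ⟨⟨h2, h3⟩, h4, h5⟩
    exact ⟨⟨h4, h3⟩, h5⟩

theorem sum_t_bounds (k : ℕ) : ∃ K : ℝ, ∀ y : ℕ, 3 ≤ y →
    |∑ p ∈ pr y, (rho k p : ℝ) / p - Real.log (Real.log y)| ≤ K := by
  obtain ⟨K, hK⟩ := mert_ap (q := 2 ^ (k + 1)) (a := 1) isUnit_one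
  refine ⟨1 / 2 + 2 ^ k * K, fun y hy => ?_⟩
  rw [sum_t (by omega)]
  have h1 := hK y hy
  have h2 : ((2 ^ (k + 1) : ℕ).totient : ℝ) = 2 ^ k := by
    rw [Nat.totient_prime_pow_succ Nat.prime_two]
    push_cast
    ring
  rw [h2] at h1
  set S := ∑ p ∈ (Icc 2 y).filter (fun p : ℕ => p.Prime ∧ (p : ZMod (2 ^ (k + 1))) = 1), 1 / (p : ℝ)
  have h3 : (0 : ℝ) < 2 ^ k := by positivity
  have e : 1 / 2 + 2 ^ k * S - Real.log (Real.log y) =
      1 / 2 + 2 ^ k * (S - (2 ^ k)⁻¹ * Real.log (Real.log y)) := by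
    field_simp
    ring
  rw [e]
  refine (abs_add_le _ _).trans (add_le_add (le_of_eq (abs_of_pos (by norm_num))) ?_)
  rw [abs_mul, abs_of_pos h3]
  exact mul_le_mul_of_nonneg_left h1 h3.le

theorem W_le_one (k y : ℕ) : W k y ≤ 1 := by
  unfold W
  refine prod_le_one (fun p hp => ?_) fun p _ => ?_
  · have := t_bounds (k := k) (mem_filter.1 hp).2
    linarith
  · have : 0 ≤ (rho k p : ℝ) / p := by positivity
    linarith

theorem W_pos (k y : ℕ) : 0 < W k y := by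
  unfold W
  refine prod_pos fun p hp => ?_
  have := t_bounds (k := k) (mem_filter.1 hp).2
  linarith

theorem log_low {t : ℝ} (h0 : 0 ≤ t) (h1 : t ≤ 1 / 2) : Real.exp (-(t + 2 * t ^ 2)) ≤ 1 - t := by
  have h2 : 0 < 1 - t := by linarith
  rw [← Real.le_log_iff_exp_le h2]
  refine le_trans ?_ (Real.one_sub_inv_le_log_of_pos h2)
  rw [inv_eq_one_div, le_sub_iff_add_le, ← le_sub_iff_add_le', div_le_iff₀ h2]
  nlinarith [mul_nonneg h0 (by linarith : 0 ≤ 1 - 2 * t)]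

theorem W_bounds (k : ℕ) : ∃ c C : ℝ, 0 < c ∧ 0 < C ∧ ∀ y : ℕ, 3 ≤ y →
    c / Real.log y ≤ W k y ∧ W k y ≤ C / Real.log y := by
  obtain ⟨K, hK⟩ := sum_t_bounds k
  have hs2 : Summable fun n : ℕ => 1 / (n : ℝ) ^ 2 := Real.summable_one_div_nat_pow.2 (by norm_num)
  set S := ∑' n : ℕ, 1 / (n : ℝ) ^ 2 with hS
  refine ⟨Real.exp (-(K + 2 * ((2 ^ k) ^ 2 * S))), Real.exp K, Real.exp_pos _, Real.exp_pos _,
    fun y hy => ?_⟩
  have hly : 0 < Real.log y := Real.log_pos (by exact_mod_cast (by omega : 1 < y))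
  have h1 := abs_le.1 (hK y hy)
  have hmem : ∀ p ∈ pr y, 0 ≤ (rho k p : ℝ) / p ∧ (rho k p : ℝ) / p ≤ 1 / 2 := fun p hp =>
    ⟨by positivity, t_bounds (mem_pr.1 hp).1⟩
  have hW : W k y = ∏ p ∈ pr y, (1 - (rho k p : ℝ) / p) := rfl
  constructor
  · have h2 : ∑ p ∈ pr y, ((rho k p : ℝ) / p) ^ 2 ≤ (2 ^ k) ^ 2 * S := by
      calc ∑ p ∈ pr y, ((rho k p : ℝ) / p) ^ 2 ≤ ∑ p ∈ pr y, (2 ^ k) ^ 2 * (1 / (p : ℝ) ^ 2) := by
            refine sum_le_sum fun p hp => ?_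
            rw [div_pow, ← mul_one_div]
            refine mul_le_mul_of_nonneg_right ?_ (by positivity)
            refine pow_le_pow_left₀ (Nat.cast_nonneg _) ?_ 2
            exact_mod_cast rho_le (mem_pr.1 hp).1 k
        _ = (2 ^ k) ^ 2 * ∑ p ∈ pr y, 1 / (p : ℝ) ^ 2 := (mul_sum _ _ _).symm
        _ ≤ _ := mul_le_mul_of_nonneg_left (hs2.sum_le_tsum _ fun _ _ => by positivity) (by positivity)
    have h3 : Real.exp (∑ p ∈ pr y, -((rho k p : ℝ) / p + 2 * ((rho k p : ℝ) / p) ^ 2)) ≤ W k y := by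
      rw [hW, Real.exp_sum]
      exact prod_le_prod (fun _ _ => (Real.exp_pos _).le) fun p hp => log_low (hmem p hp).1 (hmem p hp).2
    refine le_trans ?_ h3
    rw [div_eq_mul_inv, ← Real.exp_log (inv_pos.2 hly), Real.log_inv, ← Real.exp_add]
    refine Real.exp_le_exp.2 ?_
    rw [sum_neg_distrib, sum_add_distrib, ← mul_sum]
    linarith [h1.2]
  · have h3 : W k y ≤ Real.exp (∑ p ∈ pr y, -((rho k p : ℝ) / p)) := by
      rw [hW, Real.exp_sum]
      refine prod_le_prod (fun p hp => by linarith [(hmem p hp).2]) fun p _ => ?_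
      have := Real.add_one_le_exp (-((rho k p : ℝ) / p))
      linarith
    refine h3.trans ?_
    rw [div_eq_mul_inv, ← Real.exp_log (inv_pos.2 hly), Real.log_inv, ← Real.exp_add]
    refine Real.exp_le_exp.2 ?_
    rw [sum_neg_distrib]
    linarith [h1.1]

end Pool.Agent.MFN
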