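import Pool.Agent.MFN.Gen
import Pool.Agent.MFN.Law
import Pool.Agent.MFN.Wb

/-!
# MFN / Core: the law for the least prime factor of `⌊α^(2^n)⌋^(2^k) + 1`
-/

set_option autoImplicit false

namespace Pool.Agent.MFN

open Finset MeasureTheory Filter Pool.MedDiv

/-- no prime `p ≤ y` divides `x^(2^k) + 1` -/
def NF (k y x : ℕ) : Prop := ∀ p ∈ pr y, ¬ p ∣ x ^ 2 ^ k + 1

theorem per (k p : ℕ) : Function.Periodic (fun x => p ∣ x ^ 2 ^ k + 1) p := by
  intro x
  have h1 : x + p ≡ x [MOD p] := by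
    unfold Nat.ModEq
    exact Nat.add_mod_right x p
  exact propext (((h1.pow (2 ^ k)).add_right 1).dvd_iff dvd_rfl)

/-- exponent of the error term -/
def GG (k m : ℕ) : ℕ := (k + m ^ 2) * (4 * 2 ^ k * (1 + m ^ 2) + 2 * m + 1) + 2 * (1 + m ^ 2)

theorem eqd_k (k m : ℕ) {y : ℕ} (hy : y ≤ 2 ^ (m ^ 2)) :
    Eqd (NF k y) (W k y) (Real.exp (-(m : ℝ))) ((2 : ℝ) ^ GG k m) 0 := by
  intro A _ K S hS
  have hQ : ∀ p ∈ pr y, p.Prime ∧ p ≤ 2 ^ (m ^ 2) := by
    intro p hp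
    rw [mem_pr] at hp
    exact ⟨hp.1, hp.2.trans hy⟩
  have hz : 1 ≤ 2 ^ (m ^ 2) := Nat.one_le_two_pow
  have hκ : 1 ≤ 2 ^ k := Nat.one_le_two_pow
  have hrho : ∀ p, om1 (fun p x => p ∣ x ^ 2 ^ k + 1) p = rho k p := fun p => rfl
  set J := 2 * (2 * 2 ^ k * (1 + m ^ 2) + m) with hJ
  have h := sieve_gen (fun p x => p ∣ x ^ 2 ^ k + 1) hQ hz hκ (fun p _ => per k p)
    (fun p hp => by rw [hrho]; exact rho_le (mem_pr.1 hp).1 k) (J := J) (even_two_mul _) A K
  simp only [hrho] at h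
  have hcard : ((Ico A (A + K)).filter (fun x => ∀ p ∈ pr y, ¬ p ∣ x ^ 2 ^ k + 1)).card = S.card := by
    refine (card_nbij' (fun i => A + i) (fun x => x - A) ?_ ?_ ?_ ?_).symm
    · intro i hi
      have hi' := (hS i).1 (by simpa using hi)
      simp only [coe_filter, mem_Ico, Set.mem_ofPred_eq]
      exact ⟨⟨by omega, by omega⟩, hi'.2⟩
    · intro x hx
      simp only [coe_filter, mem_Ico, Set.mem_ofPred_eq] at hx
      have : x - A ∈ S := by
        rw [hS]
        refine ⟨by omega, ?_⟩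
        rw [Nat.add_sub_cancel' hx.1.1]
        exact hx.2
      simpa using this
    · intro i _
      simp
    · intro x hx
      simp only [coe_filter, mem_Ico, Set.mem_ofPred_eq] at hx
      simp only
      omega
  rw [hcard] at h
  have hW : ∏ p ∈ pr y, (1 - (rho k p : ℝ) / p) = W k y := rfl
  rw [hW, mul_comm (K : ℝ) (W k y), mul_comm (K : ℝ) (Real.exp _)] at h
  have hK0 : (0 : ℝ) ≤ K := Nat.cast_nonneg K
  have hl2 : Real.log 2 ≤ 1 := by
    have := Real.log_two_lt_d9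
    linarith
  have hrs : rs (pr y) ≤ 1 + (m : ℝ) ^ 2 := by
    refine (rs_le hy).trans ?_
    push_cast
    rw [Real.log_pow]
    push_cast
    have : (m : ℝ) ^ 2 * Real.log 2 ≤ (m : ℝ) ^ 2 * 1 :=
      mul_le_mul_of_nonneg_left hl2 (by positivity)
    linarith
  have hsum : ∑ p ∈ pr y, (rho k p : ℝ) / p ≤ 2 ^ k * (1 + (m : ℝ) ^ 2) := by
    calc ∑ p ∈ pr y, (rho k p : ℝ) / p ≤ ∑ p ∈ pr y, 2 ^ k * (1 / (p : ℝ)) := by
          refine sum_le_sum fun p hp => ?_
          rw [← mul_one_div]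
          refine mul_le_mul_of_nonneg_right ?_ (by positivity)
          exact_mod_cast rho_le (mem_pr.1 hp).1 k
      _ = 2 ^ k * rs (pr y) := by rw [← mul_sum]; rfl
      _ ≤ _ := mul_le_mul_of_nonneg_left hrs (by positivity)
  have hJr : (J : ℝ) = 4 * (2 ^ k * (1 + (m : ℝ) ^ 2)) + 2 * m := by
    rw [hJ]
    push_cast
    ring
  have he3 : Real.exp 1 ≤ 3 := Real.exp_one_lt_d9.le.trans (by norm_num)
  refine h.trans (add_le_add ?_ ?_)
  · refine mul_le_mul_of_nonneg_right (Real.exp_le_exp.2 ?_) hK0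
    rw [hJr]
    have h0 : (0 : ℝ) ≤ 2 ^ k * (1 + (m : ℝ) ^ 2) := by positivity
    have h1 : Real.exp 1 * ∑ p ∈ pr y, (rho k p : ℝ) / p ≤ 3 * (2 ^ k * (1 + (m : ℝ) ^ 2)) :=
      mul_le_mul he3 hsum (sum_nonneg fun p _ => by positivity) (by norm_num)
    have hm : (0 : ℝ) ≤ m := Nat.cast_nonneg m
    linarith
  · have h1 : ((2 ^ k * 2 ^ (m ^ 2) : ℕ) : ℝ) ^ (J + 1) =
        (2 : ℝ) ^ ((k + m ^ 2) * (4 * 2 ^ k * (1 + m ^ 2) + 2 * m + 1)) := by
      push_cast
      rw [← pow_add, ← pow_mul]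
      congr 1
      rw [hJ]
      ring
    have h2 : Real.exp (rs (pr y)) ≤ (2 : ℝ) ^ (2 * (1 + m ^ 2)) := by
      calc Real.exp (rs (pr y)) ≤ Real.exp (1 + (m : ℝ) ^ 2) := Real.exp_le_exp.2 hrs
        _ = Real.exp 1 ^ (1 + m ^ 2) := by
            rw [← Real.exp_nat_mul]
            push_cast
            ring_nf
        _ ≤ (4 : ℝ) ^ (1 + m ^ 2) := pow_le_pow_left₀ (Real.exp_pos _).le (by linarith) _
        _ = (2 : ℝ) ^ (2 * (1 + m ^ 2)) := by
            rw [pow_mul]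
            norm_num
    rw [h1]
    unfold GG
    rw [pow_add]
    exact mul_le_mul_of_nonneg_left h2 (by positivity)

theorem GG_le (k n₁ j : ℕ) : GG k (n₁ + j) + j ≤
    (((k + 1) * (4 * 2 ^ k + 1) + 2) * (n₁ + 1) ^ 4 + 1) * (j + 1) ^ 4 := by
  have h1 : n₁ + j + 1 ≤ (n₁ + 1) * (j + 1) := by nlinarith
  have h2 : GG k (n₁ + j) ≤ ((k + 1) * (4 * 2 ^ k + 1) + 2) * (n₁ + j + 1) ^ 4 := by
    generalize n₁ + j = m
    unfold GG
    have a1 : k + m ^ 2 ≤ (k + 1) * (m + 1) ^ 2 := by nlinarith [Nat.zero_le (k * m), Nat.zero_le (k * m ^ 2)]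
    have a2 : 4 * 2 ^ k * (1 + m ^ 2) + 2 * m + 1 ≤ (4 * 2 ^ k + 1) * (m + 1) ^ 2 := by
      generalize 2 ^ k = κ
      nlinarith [Nat.zero_le (κ * m), Nat.zero_le (κ * m ^ 2), Nat.zero_le (m ^ 2)]
    have a3 : 2 * (1 + m ^ 2) ≤ 2 * (m + 1) ^ 4 := by
      have : 1 + m ^ 2 ≤ (m + 1) ^ 2 := by nlinarith
      have h5 : (m + 1) ^ 2 ≤ (m + 1) ^ 4 := Nat.pow_le_pow_right (by omega) (by norm_num)
      omega
    calc (k + m ^ 2) * (4 * 2 ^ k * (1 + m ^ 2) + 2 * m + 1) + 2 * (1 + m ^ 2) ≤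
        ((k + 1) * (m + 1) ^ 2) * ((4 * 2 ^ k + 1) * (m + 1) ^ 2) + 2 * (m + 1) ^ 4 :=
          Nat.add_le_add (Nat.mul_le_mul a1 a2) a3
      _ = _ := by ring
  have h3 : (n₁ + j + 1) ^ 4 ≤ (n₁ + 1) ^ 4 * (j + 1) ^ 4 := by
    rw [← mul_pow]
    exact Nat.pow_le_pow_left h1 4
  have h4 : j ≤ (j + 1) ^ 4 := (Nat.le_succ j).trans (Nat.le_self_pow (by norm_num) _)
  calc GG k (n₁ + j) + j ≤ ((k + 1) * (4 * 2 ^ k + 1) + 2) * ((n₁ + 1) ^ 4 * (j + 1) ^ 4) +
      (j + 1) ^ 4 := Nat.add_le_add (h2.trans (Nat.mul_le_mul_left _ h3)) h4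
    _ = _ := by ring

theorem GG_summ (k n₁ : ℕ) : Summable fun j : ℕ => (2 : ℝ) ^ GG k (n₁ + j) / 2 ^ (2 ^ j) := by
  set c := ((k + 1) * (4 * 2 ^ k + 1) + 2) * (n₁ + 1) ^ 4 + 1 with hc
  have hc0 : (0 : ℝ) < c := by rw [hc]; positivity
  have h1 : Tendsto (fun j : ℕ => ((j + 1 : ℕ) : ℝ) ^ 4 / 2 ^ (j + 1)) atTop (nhds 0) :=
    (tendsto_add_atTop_iff_nat 1).2 (tendsto_pow_const_div_const_pow_of_one_lt 4 (by norm_num : (1 : ℝ) < 2))
  have h2 : ∀ᶠ j : ℕ in atTop, GG k (n₁ + j) + j ≤ 2 ^ j := by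
    filter_upwards [h1.eventually_lt_const (by positivity : (0 : ℝ) < 1 / (2 * c))] with j hj
    rw [div_lt_div_iff₀ (by positivity) (by positivity), one_mul, pow_succ 2 j] at hj
    have h3 : (c : ℝ) * ((j + 1 : ℕ) : ℝ) ^ 4 < 2 ^ j := by nlinarith
    have h4 : c * (j + 1) ^ 4 < 2 ^ j := by exact_mod_cast h3
    exact (GG_le k n₁ j).trans h4.le
  refine Summable.of_norm_bounded_eventually_nat
    (summable_geometric_of_lt_one (by norm_num) (by norm_num : (1 / 2 : ℝ) < 1)) ?_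
  filter_upwards [h2] with j hj
  rw [Real.norm_of_nonneg (by positivity), div_le_iff₀ (by positivity), one_div, inv_pow,
    inv_mul_eq_div, le_div_iff₀ (by positivity), ← pow_add]
  exact pow_le_pow_right₀ (by norm_num) hj

theorem W_anti (k : ℕ) : Antitone (W k) := by
  intro y z h
  have h1 : W k z = ∏ p ∈ pr z, (1 - (rho k p : ℝ) / p) := rfl
  have h2 : W k y = ∏ p ∈ pr y, (1 - (rho k p : ℝ) / p) := rfl
  have hsub : pr y ⊆ pr z := fun p hp => by
    rw [mem_pr] at hp ⊢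
    exact ⟨hp.1, hp.2.trans h⟩
  rw [h1, h2, ← prod_sdiff hsub]
  have h3 : ∏ p ∈ pr z \ pr y, (1 - (rho k p : ℝ) / p) ≤ 1 := by
    refine prod_le_one (fun p hp => ?_) fun p _ => ?_
    · have := t_bounds (k := k) (mem_pr.1 (mem_sdiff.1 hp).1).1
      linarith
    · have : 0 ≤ (rho k p : ℝ) / p := by positivity
      linarith
  have h4 : 0 ≤ ∏ p ∈ pr y, (1 - (rho k p : ℝ) / p) := (W_pos k y).le
  exact mul_le_of_le_one_left h4 h3

theorem W_summ (k : ℕ) : Summable fun n : ℕ => W k (2 ^ (n ^ 2)) := by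
  obtain ⟨c, C, _, hC, hb⟩ := W_bounds k
  have hl2 : 0 < Real.log 2 := Real.log_pos (by norm_num)
  have hs : Summable fun n : ℕ => C / Real.log 2 * (1 / (n : ℝ) ^ 2) :=
    (Real.summable_one_div_nat_pow.2 (by norm_num)).mul_left _
  refine Summable.of_norm_bounded_eventually_nat hs ?_
  filter_upwards [eventually_ge_atTop 2] with n hn
  have h3 : 3 ≤ 2 ^ (n ^ 2) := by
    calc 3 ≤ 2 ^ (2 ^ 2) := by norm_num
      _ ≤ 2 ^ (n ^ 2) := Nat.pow_le_pow_right (by norm_num) (Nat.pow_le_pow_left hn 2)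
  rw [Real.norm_of_nonneg (W_pos k _).le]
  refine ((hb _ h3).2).trans (le_of_eq ?_)
  push_cast
  rw [Real.log_pow]
  push_cast
  have hn0 : (0 : ℝ) < n := by exact_mod_cast (by omega : 0 < n)
  field_simp

theorem ratio_pert {S S' A A' : ℕ → ℝ} {M M' : ℝ} (hS : ∀ N, |S N - S' N| ≤ M)
    (hA : ∀ N, |A N - A' N| ≤ M') (ha : Tendsto A' atTop atTop)
    (h : Tendsto (fun N => S' N / A' N) atTop (nhds 1)) :
    Tendsto (fun N => S N / A N) atTop (nhds 1) := by
  have h1 : Tendsto (fun N => (S N - S' N) / A' N) atTop (nhds 0) := by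
    refine squeeze_zero_norm' ?_ (ha.const_div_atTop M)
    filter_upwards [ha.eventually_gt_atTop 0] with N hN
    rw [norm_div, Real.norm_of_nonneg hN.le]
    exact div_le_div_of_nonneg_right (hS N) hN.le
  have h2 : Tendsto (fun N => (A N - A' N) / A' N) atTop (nhds 0) := by
    refine squeeze_zero_norm' ?_ (ha.const_div_atTop M')
    filter_upwards [ha.eventually_gt_atTop 0] with N hN
    rw [norm_div, Real.norm_of_nonneg hN.le]
    exact div_le_div_of_nonneg_right (hA N) hN.le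
  have h3 := (h1.add h).div (h2.add_const 1) (by norm_num)
  simp only [zero_add, div_one] at h3
  refine h3.congr' ?_
  filter_upwards [ha.eventually_gt_atTop 0] with N hN
  simp only [Pi.div_apply]
  field_simp
  congr 1 <;> ring

/-- the law for bounded thresholds -/
theorem law_bdd (k : ℕ) (ψ : ℕ → ℕ) (hψ : ∀ n, ψ n ≤ 2 ^ (n ^ 2)) :
    ∀ᵐ u : ℝ, 0 < u → (Summable (fun n => W k (ψ n)) → ∀ᶠ n in atTop, ¬ NF k (ψ n) (X 2 n u)) ∧
      (¬ Summable (fun n => W k (ψ n)) → Tendsto (fun N => (∑ n ∈ range N,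
        ({v | NF k (ψ n) (X 2 n v)} : Set ℝ).indicator (fun _ => (1 : ℝ)) u) /
          ∑ n ∈ range N, W k (ψ n)) atTop (nhds 1)) := by
  refine law (d := 2) le_rfl (P := fun n => NF k (ψ n)) (V := fun n => W k (ψ n))
    (e := fun n : ℕ => Real.exp (-(n : ℝ))) (E := fun n => (2 : ℝ) ^ GG k n) (L₀ := 0)
    (fun m => eqd_k k m (hψ m)) (fun m => (W_pos k _).le) (fun m => W_le_one k _)
    (fun m => (Real.exp_pos _).le) Real.summable_exp_neg_nat (fun m => by positivity) fun n₁ => ?_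
  exact GG_summ k n₁

/-- **The law, all thresholds.** -/
theorem law_all (k : ℕ) (ψ : ℕ → ℕ) :
    ∀ᵐ u : ℝ, 0 < u → (Summable (fun n => W k (ψ n)) → ∀ᶠ n in atTop, ¬ NF k (ψ n) (X 2 n u)) ∧
      (¬ Summable (fun n => W k (ψ n)) → Tendsto (fun N => (∑ n ∈ range N,
        ({v | NF k (ψ n) (X 2 n v)} : Set ℝ).indicator (fun _ => (1 : ℝ)) u) /
          ∑ n ∈ range N, W k (ψ n)) atTop (nhds 1)) := by
  set ψ' : ℕ → ℕ := fun n => min (ψ n) (2 ^ (n ^ 2)) with hψ'
  have h1 := law_bdd k ψ' fun n => min_le_right _ _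
  have h2 := law_bdd k (fun n => 2 ^ (n ^ 2)) fun n => le_rfl
  have hT := W_summ k
  have hNF : ∀ {y z x : ℕ}, y ≤ z → NF k z x → NF k y x := by
    intro y z x h hz p hp
    rw [mem_pr] at hp
    exact hz p (mem_pr.2 ⟨hp.1, hp.2.trans h⟩)
  have hW1 : ∀ n, W k (ψ n) ≤ W k (ψ' n) := fun n => W_anti k (min_le_left _ _)
  have hW2 : ∀ n, W k (ψ' n) ≤ W k (ψ n) + W k (2 ^ (n ^ 2)) := by
    intro n
    rcases le_total (ψ n) (2 ^ (n ^ 2)) with h | h
    · have : ψ' n = ψ n := min_eq_left h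
      rw [this]
      linarith [W_pos k (2 ^ (n ^ 2))]
    · have : ψ' n = 2 ^ (n ^ 2) := min_eq_right h
      rw [this]
      linarith [W_pos k (ψ n)]
  filter_upwards [h1, h2] with u h1 h2 hu
  have h2' := (h2 hu).1 hT
  constructor
  · intro hs
    have hs' : Summable fun n => W k (ψ' n) :=
      Summable.of_nonneg_of_le (fun n => (W_pos k _).le) hW2 (hs.add hT)
    filter_upwards [(h1 hu).1 hs'] with n hn hc
    exact hn (hNF (min_le_left _ _) hc)
  · intro hs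
    have hs' : ¬ Summable fun n => W k (ψ' n) := fun h =>
      hs (Summable.of_nonneg_of_le (fun n => (W_pos k _).le) hW1 h)
    have h3 := (h1 hu).2 hs'
    obtain ⟨n₁, hn₁⟩ := eventually_atTop.1 h2'
    refine ratio_pert (M := n₁) (M' := ∑' n : ℕ, W k (2 ^ (n ^ 2))) ?_ ?_
      ((not_summable_iff_tendsto_nat_atTop_of_nonneg fun n => (W_pos k _).le).1 hs') h3
    · intro N
      rw [← sum_sub_distrib]
      refine (abs_sum_le_sum_abs _ _).trans ?_
      have h4 : ∀ n ∈ range N, |({v | NF k (ψ n) (X 2 n v)} : Set ℝ).indicator (fun _ => (1 : ℝ)) u -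
          ({v | NF k (ψ' n) (X 2 n v)} : Set ℝ).indicator (fun _ => (1 : ℝ)) u| ≤
            if n < n₁ then 1 else 0 := by
        intro n _
        by_cases hn : n < n₁
        · rw [if_pos hn]
          have a1 : ∀ s : Set ℝ, 0 ≤ s.indicator (fun _ => (1 : ℝ)) u ∧
              s.indicator (fun _ => (1 : ℝ)) u ≤ 1 := fun s =>
            ⟨Set.indicator_nonneg (fun _ _ => zero_le_one) _,
              Set.indicator_le_self' (fun _ _ => zero_le_one) _⟩
          rw [abs_le]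
          constructor <;> linarith [(a1 {v | NF k (ψ n) (X 2 n v)}).1,
            (a1 {v | NF k (ψ n) (X 2 n v)}).2, (a1 {v | NF k (ψ' n) (X 2 n v)}).1,
            (a1 {v | NF k (ψ' n) (X 2 n v)}).2]
        · rw [if_neg hn]
          have h5 := hn₁ n (by omega)
          rcases le_total (ψ n) (2 ^ (n ^ 2)) with h | h
          · have : ψ' n = ψ n := min_eq_left h
            rw [this, sub_self, abs_zero]
          · have e : ψ' n = 2 ^ (n ^ 2) := min_eq_right h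
            rw [Set.indicator_of_notMem, Set.indicator_of_notMem, sub_self, abs_zero]
            · rw [Set.mem_ofPred_eq, e]
              exact h5
            · rw [Set.mem_ofPred_eq]
              exact fun hc => h5 (hNF h hc)
      refine (sum_le_sum h4).trans ?_
      rw [← sum_filter, sum_const, nsmul_eq_mul, mul_one]
      have h6 : (range N).filter (fun n => n < n₁) ⊆ range n₁ := fun n hn => by
        rw [mem_filter] at hn
        exact mem_range.2 hn.2
      have h7 := card_le_card h6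
      rw [card_range] at h7
      exact_mod_cast h7
    · intro N
      rw [← sum_sub_distrib]
      refine (abs_sum_le_sum_abs _ _).trans (le_trans (sum_le_sum fun n _ => ?_)
        (hT.sum_le_tsum (range N) fun n _ => (W_pos k _).le))
      rw [abs_le]
      constructor <;> linarith [hW1 n, hW2 n, W_pos k (2 ^ (n ^ 2))]

end Pool.Agent.MFN
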