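import Mathlib

/-!
# MFN: definitions (MP_1b976e_nt)
-/

set_option autoImplicit false

namespace Pool.Agent.MFN

/-- `⌊α^(2^n)⌋^(2^k) + 1`, which for `α = 2` is the Fermat number of index `n + k` -/
noncomputable def F (k n : ℕ) (α : ℝ) : ℕ := ⌊α ^ 2 ^ n⌋₊ ^ 2 ^ k + 1

/-- `⌊log₂ F⌋ - ⌊log₂ P⌋`, where `P` is the least prime factor of `F = F k n α` -/
noncomputable def a (k n : ℕ) (α : ℝ) : ℕ := Nat.log 2 (F k n α) - Nat.log 2 (F k n α).minFac

/-- the number of roots of `x^(2^k) + 1` modulo `p` -/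
def rho (k p : ℕ) : ℕ := ((Finset.range p).filter fun r => p ∣ r ^ 2 ^ k + 1).card

/-- `∏_{p ≤ y} (1 - ρ_k(p)/p)` -/
noncomputable def W (k y : ℕ) : ℝ :=
  ∏ p ∈ (Finset.range (y + 1)).filter Nat.Prime, (1 - (rho k p : ℝ) / p)

end Pool.Agent.MFN
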