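import Pool.Agent.MFN.Core

/-!
# MFN / Fin: the statements for `α`
-/

set_option autoImplicit false

namespace Pool.Agent.MFN

open Finset MeasureTheory Filter

/-- from `u = log α` to `α` -/
theorem ae_transfer {Q : ℝ → Prop} (h : ∀ᵐ u : ℝ, 0 < u → Q (Real.exp u)) :
    ∀ᵐ α : ℝ, 1 < α → Q α := by
  have h1 : volume {u : ℝ | ¬ (0 < u → Q (Real.exp u))} = 0 := h
  have h2 : volume (Real.exp '' {u : ℝ | ¬ (0 < u → Q (Real.exp u))}) = 0 :=
    addHaar_image_eq_zero_of_differentiableOn_of_addHaar_eq_zero volume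
      Real.differentiable_exp.differentiableOn h1
  refine measure_mono_null (fun α hα => ?_) h2
  have hα' : ¬ (1 < α → Q α) := hα
  push Not at hα'
  refine ⟨Real.log α, ?_, Real.exp_log (by linarith [hα'.1])⟩
  have h3 : ¬ (0 < Real.log α → Q (Real.exp (Real.log α))) := by
    rw [Real.exp_log (by linarith [hα'.1])]
    push Not
    exact ⟨Real.log_pos hα'.1, hα'.2⟩
  exact h3

theorem X_exp (n : ℕ) (u : ℝ) : X 2 n u = ⌊Real.exp u ^ 2 ^ n⌋₊ := by
  unfold X
  rw [← Real.exp_nat_mul]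
  push_cast
  rfl

theorem F_eq (k n : ℕ) (u : ℝ) : F k n (Real.exp u) = X 2 n u ^ 2 ^ k + 1 := by
  unfold F
  rw [X_exp]

theorem NF_iff {k y x : ℕ} (hx : 1 ≤ x) : NF k y x ↔ y < (x ^ 2 ^ k + 1).minFac := by
  have h1 : x ^ 2 ^ k + 1 ≠ 1 := by
    have : 0 < x ^ 2 ^ k := by positivity
    omega
  constructor
  · intro h
    by_contra hc
    push Not at hc
    exact h _ (mem_pr.2 ⟨Nat.minFac_prime h1, hc⟩) (Nat.minFac_dvd _)
  · intro h p hp hd
    rw [mem_pr] at hp
    have := Nat.minFac_le_of_dvd hp.1.two_le hd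
    omega

theorem NF_iff' {k n y : ℕ} {u : ℝ} (hu : 0 < u) :
    NF k y (X 2 n u) ↔ y < (F k n (Real.exp u)).minFac := by
  have h1 : 1 ≤ X 2 n u := by
    unfold X
    refine Nat.le_floor ?_
    rw [Nat.cast_one]
    exact Real.one_le_exp (by positivity)
  rw [F_eq, NF_iff h1]

/-- **The counting law.** -/
theorem count_law (ψ : ℕ → ℕ) : ∀ᵐ α : ℝ, 1 < α → ∀ k : ℕ,
    (Summable (fun n => W k (ψ n)) → ∀ᶠ n in atTop, (F k n α).minFac ≤ ψ n) ∧
    (¬ Summable (fun n => W k (ψ n)) → Tendsto (fun N : ℕ =>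
      (((range N).filter fun n => ψ n < (F k n α).minFac).card : ℝ) / ∑ n ∈ range N, W k (ψ n))
        atTop (nhds 1)) := by
  refine ae_transfer ?_
  filter_upwards [ae_all_iff.2 fun k => law_all k ψ] with u hu hu0 k
  obtain ⟨h1, h2⟩ := hu k hu0
  refine ⟨fun hs => ?_, fun hs => ?_⟩
  · filter_upwards [h1 hs] with n hn
    rw [NF_iff' hu0] at hn
    omega
  · refine (h2 hs).congr fun N => ?_
    congr 1
    rw [card_filter]
    push_cast
    refine sum_congr rfl fun n _ => ?_
    by_cases h : ψ n < (F k n (Real.exp u)).minFac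
    · have h3 : u ∈ ({v | NF k (ψ n) (X 2 n v)} : Set ℝ) := (NF_iff' hu0).2 h
      rw [Set.indicator_of_mem h3, if_pos h]
    · have h3 : u ∉ ({v | NF k (ψ n) (X 2 n v)} : Set ℝ) := fun hc => h ((NF_iff' hu0).1 hc)
      rw [Set.indicator_of_notMem h3, if_neg h]

/-- comparison with `1/φ` -/
theorem W_phi (k : ℕ) : ∃ c C : ℝ, 0 < c ∧ 0 < C ∧ ∀ x : ℝ, 1 ≤ x →
    c * (1 / x) ≤ W k ⌊Real.exp x⌋₊ ∧ W k ⌊Real.exp x⌋₊ ≤ C * (1 / x) := by
  obtain ⟨c, C, hc, hC, hb⟩ := W_bounds k
  have hl2 : 0 < Real.log 2 := Real.log_pos (by norm_num)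
  have hl2' : Real.log 2 < 0.7 := Real.log_two_lt_d9.trans (by norm_num)
  refine ⟨min c (1 / 4), max (4 * C) 2, lt_min hc (by norm_num), lt_max_of_lt_right (by norm_num),
    fun x hx => ?_⟩
  have hx0 : 0 < x := by linarith
  set y := ⌊Real.exp x⌋₊ with hy
  have he : Real.exp 1 ≤ Real.exp x := Real.exp_le_exp.2 hx
  have he2 : (2 : ℝ) < Real.exp 1 := by
    have := Real.exp_one_gt_d9
    linarith
  have hy2 : 2 ≤ y := Nat.le_floor (by push_cast; linarith)
  have hyx : (y : ℝ) ≤ Real.exp x := Nat.floor_le (Real.exp_pos x).le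
  have hyx2 : Real.exp x < y + 1 := Nat.lt_floor_add_one _
  by_cases h3 : 3 ≤ y
  · obtain ⟨h4, h5⟩ := hb y h3
    have hy0 : (0 : ℝ) < y := by exact_mod_cast (by omega : 0 < y)
    have hly : 0 < Real.log y := Real.log_pos (by exact_mod_cast (by omega : 1 < y))
    have hlx : Real.log y ≤ x := by
      rw [Real.log_le_iff_le_exp hy0]
      exact hyx
    have hlx2 : x / 4 ≤ Real.log y := by
      have h6 : Real.exp x / 2 ≤ y := by
        have : (2 : ℝ) ≤ y := by exact_mod_cast hy2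
        linarith
      have h7 : Real.log (Real.exp x / 2) ≤ Real.log y := Real.log_le_log (by positivity) h6
      rw [Real.log_div (Real.exp_pos x).ne' (by norm_num), Real.log_exp] at h7
      linarith
    constructor
    · refine le_trans ?_ h4
      rw [mul_one_div, div_le_div_iff₀ hx0 hly]
      have : min c (1 / 4) ≤ c := min_le_left _ _
      nlinarith
    · refine h5.trans ?_
      rw [mul_one_div, div_le_div_iff₀ hly hx0]
      have : 4 * C ≤ max (4 * C) 2 := le_max_left _ _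
      nlinarith
  · have hy2' : y = 2 := by omega
    have hW2 : W k 2 = 1 / 2 := by
      have : W k 2 = ∏ p ∈ pr 2, (1 - (rho k p : ℝ) / p) := rfl
      have h4 : pr 2 = {2} := by
        ext p
        rw [mem_pr, mem_singleton]
        constructor
        · rintro ⟨h5, h6⟩
          have := h5.two_le
          omega
        · rintro rfl
          exact ⟨Nat.prime_two, le_rfl⟩
      rw [this, h4, prod_singleton, rho_two]
      norm_num
    have hx4 : x ≤ 2 := by
      rw [hy2'] at hyx2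
      have h6 : Real.exp x < Real.exp 2 := by
        have e : Real.exp 2 = Real.exp 1 * Real.exp 1 := by
          rw [← Real.exp_add]; norm_num
        rw [e]
        push_cast at hyx2
        nlinarith
      exact (Real.exp_lt_exp.1 h6).le
    rw [hy2', hW2]
    constructor
    · rw [mul_one_div, div_le_div_iff₀ hx0 (by norm_num)]
      have : min c (1 / 4) ≤ 1 / 4 := min_le_right _ _
      nlinarith
    · rw [mul_one_div, div_le_div_iff₀ (by norm_num) hx0]
      have : 2 ≤ max (4 * C) 2 := le_max_right _ _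
      nlinarith

/-- **The zero-one law.** -/
theorem zero_one (φ : ℕ → ℝ) (hφ : ∀ n, 1 ≤ φ n) : ∀ᵐ α : ℝ, 1 < α → ∀ k : ℕ,
    (Summable (fun n => 1 / φ n) → ∀ᶠ n in atTop, Real.log (F k n α).minFac ≤ φ n) ∧
    (¬ Summable (fun n => 1 / φ n) → ∃ᶠ n in atTop, φ n < Real.log (F k n α).minFac) := by
  have hF : ∀ (k n : ℕ) (α : ℝ), 0 < (F k n α).minFac := fun k n α => Nat.minFac_pos _
  have hiff : ∀ (k n : ℕ) (α : ℝ), ⌊Real.exp (φ n)⌋₊ < (F k n α).minFac ↔
      φ n < Real.log (F k n α).minFac := by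
    intro k n α
    rw [Nat.floor_lt (Real.exp_pos _).le, Real.lt_log_iff_exp_lt (by exact_mod_cast hF k n α)]
  filter_upwards [count_law fun n => ⌊Real.exp (φ n)⌋₊] with α hα h1 k
  obtain ⟨g1, g2⟩ := hα h1 k
  obtain ⟨c, C, hc, hC, hb⟩ := W_phi k
  refine ⟨fun hs => ?_, fun hs => ?_⟩
  · have hs' : Summable fun n => W k ⌊Real.exp (φ n)⌋₊ :=
      Summable.of_nonneg_of_le (fun n => (W_pos k _).le) (fun n => (hb (φ n) (hφ n)).2)
        (hs.mul_left C)
    filter_upwards [g1 hs'] with n hn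
    by_contra hc'
    push Not at hc'
    have := (hiff k n α).2 hc'
    omega
  · have hs' : ¬ Summable fun n => W k ⌊Real.exp (φ n)⌋₊ := by
      intro h
      apply hs
      have h3 : Summable fun n => c⁻¹ * W k ⌊Real.exp (φ n)⌋₊ := h.mul_left _
      refine Summable.of_nonneg_of_le (fun n => by have := hφ n; positivity) (fun n => ?_) h3
      rw [← inv_mul_le_iff₀ (inv_pos.2 hc), inv_inv]
      exact (hb (φ n) (hφ n)).1
    have h3 := g2 hs'
    have h4 := (not_summable_iff_tendsto_nat_atTop_of_nonneg fun n => (W_pos k _).le).1 hs'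
    rw [Filter.Frequently]
    intro hev
    obtain ⟨n₀, hn₀⟩ := eventually_atTop.1 hev
    have h5 : Tendsto (fun N : ℕ => (((range N).filter fun n =>
        ⌊Real.exp (φ n)⌋₊ < (F k n α).minFac).card : ℝ) / ∑ n ∈ range N, W k ⌊Real.exp (φ n)⌋₊)
        atTop (nhds 0) := by
      refine squeeze_zero' (Eventually.of_forall fun N => div_nonneg (Nat.cast_nonneg _)
        (sum_nonneg fun n _ => (W_pos k _).le)) ?_ (h4.const_div_atTop (n₀ : ℝ))
      filter_upwards [h4.eventually_gt_atTop 0] with N hN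
      refine div_le_div_of_nonneg_right ?_ hN.le
      have h6 : (range N).filter (fun n => ⌊Real.exp (φ n)⌋₊ < (F k n α).minFac) ⊆ range n₀ := by
        intro n hn
        rw [mem_filter] at hn
        rw [mem_range]
        by_contra hcon
        push Not at hcon
        exact hn₀ n hcon ((hiff k n α).1 hn.2)
      have h7 := card_le_card h6
      rw [card_range] at h7
      exact_mod_cast h7
    exact zero_ne_one (tendsto_nhds_unique h5 h3)

/-- size of `F` -/
theorem F_log {α : ℝ} (hα : 1 < α) (k n : ℕ) :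
    |Real.log (F k n α) - 2 ^ (n + k) * Real.log α| ≤ 2 ^ k + 1 := by
  have hl2 : Real.log 2 ≤ 1 := Real.log_two_lt_d9.le.trans (by norm_num)
  set t := α ^ 2 ^ n with ht
  have ht1 : 1 ≤ t := one_le_pow₀ hα.le
  set x := ⌊t⌋₊ with hx
  have hx1 : 1 ≤ x := Nat.le_floor (by simpa using ht1)
  have hx1r : (1 : ℝ) ≤ x := by exact_mod_cast hx1
  have hxt : (x : ℝ) ≤ t := Nat.floor_le (by linarith)
  have htx : t ≤ 2 * x := by
    have := Nat.lt_floor_add_one t
    linarith
  have hlt : Real.log t = 2 ^ n * Real.log α := by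
    rw [ht, Real.log_pow]
    push_cast
    ring
  have h1 : Real.log x ≤ Real.log t := Real.log_le_log (by linarith) hxt
  have h2 : Real.log t ≤ Real.log 2 + Real.log x := by
    rw [← Real.log_mul (by norm_num) (by linarith)]
    exact Real.log_le_log (by linarith) htx
  have hF : (F k n α : ℝ) = (x : ℝ) ^ 2 ^ k + 1 := by
    unfold F
    push_cast
    rfl
  have hp : (1 : ℝ) ≤ (x : ℝ) ^ 2 ^ k := one_le_pow₀ hx1r
  have h3 : Real.log (F k n α) ≤ Real.log 2 + 2 ^ k * Real.log x := by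
    rw [hF]
    have : Real.log (2 * (x : ℝ) ^ 2 ^ k) = Real.log 2 + 2 ^ k * Real.log x := by
      rw [Real.log_mul (by norm_num) (by positivity), Real.log_pow]
      push_cast
      ring
    rw [← this]
    exact Real.log_le_log (by linarith) (by linarith)
  have h4 : 2 ^ k * Real.log x ≤ Real.log (F k n α) := by
    rw [hF]
    have : Real.log ((x : ℝ) ^ 2 ^ k) = 2 ^ k * Real.log x := by
      rw [Real.log_pow]
      push_cast
      ring
    rw [← this]
    exact Real.log_le_log (by positivity) (by linarith)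
  have hk : (1 : ℝ) ≤ 2 ^ k := one_le_pow₀ (by norm_num)
  have e : (2 : ℝ) ^ (n + k) * Real.log α = 2 ^ k * Real.log t := by
    rw [hlt, pow_add]
    ring
  rw [e, abs_le]
  have h5 := mul_le_mul_of_nonneg_left h1 (by positivity : (0 : ℝ) ≤ 2 ^ k)
  have h6 := mul_le_mul_of_nonneg_left h2 (by positivity : (0 : ℝ) ≤ 2 ^ k)
  constructor <;> nlinarith

theorem natLog_bounds {x : ℕ} (hx : 1 ≤ x) :
    |(Nat.log 2 x : ℝ) - Real.log x / Real.log 2| ≤ 1 := by
  have hl2 : 0 < Real.log 2 := Real.log_pos (by norm_num)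
  have hx0 : (0 : ℝ) < x := by exact_mod_cast hx
  have h1 : 2 ^ Nat.log 2 x ≤ x := Nat.pow_log_le_self 2 (by omega)
  have h2 : x < 2 ^ (Nat.log 2 x + 1) := Nat.lt_pow_succ_log_self (by norm_num) x
  have h3 : (Nat.log 2 x : ℝ) * Real.log 2 ≤ Real.log x := by
    rw [← Real.log_pow]
    exact Real.log_le_log (by positivity) (by exact_mod_cast h1)
  have h4 : Real.log x ≤ ((Nat.log 2 x : ℝ) + 1) * Real.log 2 := by
    have : ((Nat.log 2 x : ℝ) + 1) * Real.log 2 = Real.log ((2 : ℝ) ^ (Nat.log 2 x + 1)) := by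
      rw [Real.log_pow]
      push_cast
      ring
    rw [this]
    exact Real.log_le_log hx0 (by exact_mod_cast h2.le)
  have h5 : (Nat.log 2 x : ℝ) ≤ Real.log x / Real.log 2 := by
    rw [le_div_iff₀ hl2]
    exact h3
  have h6 : Real.log x / Real.log 2 ≤ (Nat.log 2 x : ℝ) + 1 := by
    rw [div_le_iff₀ hl2]
    exact h4
  rw [abs_le]
  constructor <;> linarith

theorem a_bound {α : ℝ} (hα : 1 < α) (k n : ℕ) {R : ℝ} (hR : Real.log (F k n α).minFac ≤ R) :
    |(a k n α : ℝ) - 2 ^ (n + k) * Real.logb 2 α| ≤ 2 * (2 ^ k + 1) + 2 * R + 2 := by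
  have hl2 : 0 < Real.log 2 := Real.log_pos (by norm_num)
  have hl2h : 1 / 2 ≤ Real.log 2 := by
    have := Real.log_two_gt_d9
    linarith
  have hF1 : 1 ≤ F k n α := Nat.succ_le_succ (Nat.zero_le _)
  have hP1 : 1 ≤ (F k n α).minFac := Nat.minFac_pos _
  have hle : Nat.log 2 (F k n α).minFac ≤ Nat.log 2 (F k n α) :=
    Nat.log_mono_right (Nat.minFac_le hF1)
  have e : (a k n α : ℝ) = (Nat.log 2 (F k n α) : ℝ) - (Nat.log 2 (F k n α).minFac : ℝ) := by
    unfold a
    rw [Nat.cast_sub hle]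
  have h1 := natLog_bounds hF1
  have h2 := natLog_bounds hP1
  have h3 := F_log hα k n
  have hP0 : 0 ≤ Real.log (F k n α).minFac := Real.log_natCast_nonneg _
  have h4 : Real.log (F k n α).minFac / Real.log 2 ≤ 2 * R := by
    rw [div_le_iff₀ hl2]
    nlinarith
  have h5 : 0 ≤ Real.log (F k n α).minFac / Real.log 2 := div_nonneg hP0 hl2.le
  have h6 : |Real.log (F k n α) / Real.log 2 - 2 ^ (n + k) * Real.logb 2 α| ≤ 2 * (2 ^ k + 1) := by
    have e2 : Real.log (F k n α) / Real.log 2 - 2 ^ (n + k) * Real.logb 2 α =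
        (Real.log (F k n α) - 2 ^ (n + k) * Real.log α) / Real.log 2 := by
      unfold Real.logb
      ring
    rw [e2, abs_div, abs_of_pos hl2, div_le_iff₀ hl2]
    have hk : (0 : ℝ) ≤ 2 ^ k + 1 := by positivity
    nlinarith
  rw [e, abs_le]
  rw [abs_le] at h1 h2 h6
  constructor <;> linarith [h1.1, h1.2, h2.1, h2.2, h6.1, h6.2]

/-- **The analogue of Q1 for almost every `α`.** -/
theorem a_asymp : ∀ᵐ α : ℝ, 1 < α → ∀ k : ℕ,
    Tendsto (fun n : ℕ => (a k n α : ℝ) / (2 ^ (n + k) * Real.logb 2 α)) atTop (nhds 1) := by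
  filter_upwards [zero_one (fun n => (n : ℝ) ^ 2 + 1) fun n => by
    have : (0 : ℝ) ≤ (n : ℝ) ^ 2 := by positivity
    linarith] with α hα h1 k
  have hs : Summable fun n : ℕ => 1 / ((n : ℝ) ^ 2 + 1) := by
    refine Summable.of_norm_bounded_eventually_nat
      (Real.summable_one_div_nat_pow.2 (by norm_num : 1 < 2)) ?_
    filter_upwards [eventually_ge_atTop 1] with n hn
    have hn0 : (0 : ℝ) < n := by exact_mod_cast hn
    rw [Real.norm_of_nonneg (by positivity)]
    exact one_div_le_one_div_of_le (by positivity) (by linarith)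
  have hev := (hα h1 k).1 hs
  have hlα : 0 < Real.logb 2 α := Real.logb_pos (by norm_num) h1
  -- the error divided by 2^n
  have hlim : Tendsto (fun n : ℕ => (2 * (2 ^ k + 1) + 2 * ((n : ℝ) ^ 2 + 1) + 2) /
      (2 ^ (n + k) * Real.logb 2 α)) atTop (nhds 0) := by
    have t1 : Tendsto (fun n : ℕ => (n : ℝ) ^ 2 / 2 ^ n) atTop (nhds 0) :=
      tendsto_pow_const_div_const_pow_of_one_lt 2 (by norm_num)
    have t2 : Tendsto (fun n : ℕ => (n : ℝ) ^ 0 / 2 ^ n) atTop (nhds 0) :=
      tendsto_pow_const_div_const_pow_of_one_lt 0 (by norm_num)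
    have t3 := ((t1.const_mul (2 / (2 ^ k * Real.logb 2 α))).add
      (t2.const_mul ((2 * (2 ^ k + 1) + 4) / (2 ^ k * Real.logb 2 α))))
    rw [mul_zero, mul_zero, add_zero] at t3
    refine t3.congr fun n => ?_
    rw [pow_zero, pow_add]
    have : (2 : ℝ) ^ n ≠ 0 := by positivity
    field_simp
    ring
  have hsub : Tendsto (fun n : ℕ => (a k n α : ℝ) / (2 ^ (n + k) * Real.logb 2 α) - 1) atTop
      (nhds 0) := by
    refine squeeze_zero_norm' ?_ hlim
    filter_upwards [hev] with n hn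
    have hD : 0 < 2 ^ (n + k) * Real.logb 2 α := by positivity
    have e : (a k n α : ℝ) / (2 ^ (n + k) * Real.logb 2 α) - 1 =
        ((a k n α : ℝ) - 2 ^ (n + k) * Real.logb 2 α) / (2 ^ (n + k) * Real.logb 2 α) := by
      field_simp
    rw [e, norm_div, Real.norm_of_nonneg hD.le, Real.norm_eq_abs]
    exact div_le_div_of_nonneg_right (a_bound h1 k n hn) hD.le
  have := hsub.add_const 1
  simpa using this

end Pool.Agent.MFN
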