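import Pool.Agent.MFN.Sv

/-!
# MFN / Gen: a two sided sieve for residue classes
-/

set_option autoImplicit false

namespace Pool.Agent.MFN

open Finset Pool.MedDiv

/-! ### counting periodic conditions -/

theorem crt_count {P p : ℕ} (hP : 0 < P) (hp : 0 < p) (hc : P.Coprime p) (S T : ℕ → Prop)
    [DecidablePred S] [DecidablePred T] (hS : Function.Periodic S P) (hT : Function.Periodic T p) :
    ((range (P * p)).filter fun r => S r ∧ T r).card =
      ((range P).filter S).card * ((range p).filter T).card := by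
  rw [← card_product]
  refine card_bij (fun r _ => (r % P, r % p)) ?_ ?_ ?_
  · intro r hr
    rw [mem_filter, mem_range] at hr
    rw [mem_product, mem_filter, mem_filter, mem_range, mem_range]
    refine ⟨⟨Nat.mod_lt _ hP, ?_⟩, Nat.mod_lt _ hp, ?_⟩
    · rw [hS.map_mod_nat]; exact hr.2.1
    · rw [hT.map_mod_nat]; exact hr.2.2
  · intro r hr s hs h
    rw [mem_filter, mem_range] at hr hs
    rw [Prod.mk.injEq] at h
    have h1 : r ≡ s [MOD P * p] := (Nat.modEq_and_modEq_iff_modEq_mul hc).1 ⟨h.1, h.2⟩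
    have h2 := Nat.ModEq.eq_of_lt_of_lt h1 hr.1 hs.1
    exact h2
  · rintro ⟨x, y⟩ hxy
    rw [mem_product, mem_filter, mem_filter, mem_range, mem_range] at hxy
    obtain ⟨⟨hx, hSx⟩, hy, hTy⟩ := hxy
    have hPp : 0 < P * p := Nat.mul_pos hP hp
    set k := (Nat.chineseRemainder hc x y : ℕ) with hk
    have h1 : k ≡ x [MOD P] := (Nat.chineseRemainder hc x y).2.1
    have h2 : k ≡ y [MOD p] := (Nat.chineseRemainder hc x y).2.2
    have h3 : k % (P * p) % P = x := by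
      rw [Nat.mod_mul_right_mod]
      have e : k % P = x % P := h1
      rw [e]
      exact Nat.mod_eq_of_lt hx
    have h4 : k % (P * p) % p = y := by
      rw [Nat.mod_mul_left_mod]
      have e : k % p = y % p := h2
      rw [e]
      exact Nat.mod_eq_of_lt hy
    refine ⟨k % (P * p), ?_, ?_⟩
    · rw [mem_filter, mem_range]
      refine ⟨Nat.mod_lt _ hPp, ?_, ?_⟩
      · rw [← hS.map_mod_nat, h3]; exact hSx
      · rw [← hT.map_mod_nat, h4]; exact hTy
    · simp only [h3, h4]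

/-- a periodic condition in an interval -/
theorem periodic_count {P : ℕ} (hP : 0 < P) (S : ℕ → Prop) [DecidablePred S]
    (hS : Function.Periodic S P) (a X : ℕ) :
    |(((Ico a (a + X)).filter S).card : ℝ) - X * (((range P).filter S).card / (P : ℝ))| ≤
      ((range P).filter S).card := by
  have hfull : ∀ b, ((Ico b (b + P)).filter S).card = ((range P).filter S).card := by
    intro b
    rw [Nat.filter_Ico_card_eq_of_periodic b P S hS, Nat.count_eq_card_filter_range]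
  have hP0 : (0 : ℝ) < P := by exact_mod_cast hP
  set R := ((range P).filter S).card with hR
  have hR0 : (0 : ℝ) ≤ R := Nat.cast_nonneg R
  induction X using Nat.strong_induction_on with
  | _ X ih =>
    by_cases h : X < P
    · have h1 : ((Ico a (a + X)).filter S).card ≤ R := by
        rw [← hfull a]
        refine card_le_card (filter_subset_filter _ ?_)
        exact Ico_subset_Ico_right (by omega)
      have h2 : (((Ico a (a + X)).filter S).card : ℝ) ≤ R := by exact_mod_cast h1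
      have h3 : (X : ℝ) * (R / (P : ℝ)) ≤ R := by
        rw [mul_div_assoc', div_le_iff₀ hP0]
        have : (X : ℝ) ≤ P := by exact_mod_cast h.le
        nlinarith
      have h4 : 0 ≤ (X : ℝ) * (R / (P : ℝ)) := by positivity
      have h5 : (0 : ℝ) ≤ ((Ico a (a + X)).filter S).card := Nat.cast_nonneg _
      rw [abs_le]
      constructor <;> linarith
    · push Not at h
      obtain ⟨Y, rfl⟩ := Nat.exists_eq_add_of_le' h
      have h1 := ih Y (by omega)
      have h2 : ((Ico a (a + (Y + P))).filter S).card = ((Ico a (a + Y)).filter S).card + R := by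
        rw [← hfull (a + Y), ← card_union_of_disjoint, ← filter_union]
        · rw [← add_assoc, Ico_union_Ico_eq_Ico (by omega) (by omega)]
        · rw [disjoint_left]
          intro m hm hm'
          rw [mem_filter, mem_Ico] at hm hm'
          omega
      rw [h2]
      push_cast
      have h3 : ((((Ico a (a + Y)).filter S).card : ℝ) + R) - ((Y : ℝ) + P) * (R / P) =
          (((Ico a (a + Y)).filter S).card : ℝ) - Y * (R / P) := by
        field_simp
        ring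
      rw [h3]
      exact h1

section

variable (B : ℕ → ℕ → Prop) [∀ p, DecidablePred (B p)]

/-- number of forbidden classes -/
def om1 (p : ℕ) : ℕ := ((range p).filter (B p)).card

theorem periodic_all {D : Finset ℕ} (hB : ∀ p ∈ D, Function.Periodic (B p) p) :
    Function.Periodic (fun m => ∀ p ∈ D, B p m) (∏ p ∈ D, p) := by
  intro m
  have : ∀ p ∈ D, (B p (m + ∏ p ∈ D, p) ↔ B p m) := by
    intro p hp
    obtain ⟨c, hc⟩ := dvd_prod_of_mem (fun p => p) hp
    rw [hc, mul_comm]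
    have := (hB p hp).nat_mul c m
    simp only [Nat.cast_id] at this
    rw [this]
  exact propext (forall₂_congr this)

theorem crt_all {D : Finset ℕ} (hD : ∀ p ∈ D, p.Prime) (hB : ∀ p ∈ D, Function.Periodic (B p) p) :
    ((range (∏ p ∈ D, p)).filter fun m => ∀ p ∈ D, B p m).card = ∏ p ∈ D, om1 B p := by
  classical
  induction D using Finset.induction_on with
  | empty => simp
  | insert q D hq ih =>
    have hD' : ∀ p ∈ D, p.Prime := fun p hp => hD p (mem_insert_of_mem hp)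
    have hB' : ∀ p ∈ D, Function.Periodic (B p) p := fun p hp => hB p (mem_insert_of_mem hp)
    have hqp := hD q (mem_insert_self q D)
    rw [prod_insert hq, prod_insert hq, ← ih hD' hB']
    have hc : q.Coprime (∏ p ∈ D, p) := by
      refine Nat.Coprime.prod_right fun p hp => ?_
      rw [Nat.coprime_primes hqp (hD' p hp)]
      rintro rfl
      exact hq hp
    have h1 := crt_count hqp.pos (prod_pos fun p hp => (hD' p hp).pos) hc (B q)
      (fun m => ∀ p ∈ D, B p m) (hB q (mem_insert_self q D)) (periodic_all B hB')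
    unfold om1
    rw [← h1]
    congr 1
    refine filter_congr fun m _ => ?_
    simp only [mem_insert, forall_eq_or_imp]

/-- number of `m` in `[a, a+X)` with `B p m` for all `p ∈ D` -/
def cntB (a X : ℕ) (D : Finset ℕ) : ℕ := ((Ico a (a + X)).filter (fun m => ∀ p ∈ D, B p m)).card

theorem cntB_bounds (a X : ℕ) {D : Finset ℕ} (hD : ∀ p ∈ D, p.Prime)
    (hB : ∀ p ∈ D, Function.Periodic (B p) p) :
    |(cntB B a X D : ℝ) - X * ∏ p ∈ D, ((om1 B p : ℝ) / p)| ≤ ∏ p ∈ D, (om1 B p : ℝ) := by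
  have hpos : 0 < ∏ p ∈ D, p := prod_pos fun p hp => (hD p hp).pos
  have h := periodic_count hpos (fun m => ∀ p ∈ D, B p m) (periodic_all B hB) a X
  rw [crt_all B hD hB] at h
  push_cast at h
  rw [← prod_div_distrib] at h
  exact h

theorem sum_choose_eqB (Q : Finset ℕ) (J m : ℕ) :
    ∑ j ∈ range (J + 1), (-1 : ℝ) ^ j * (((Q.filter fun p => B p m).card.choose j : ℕ) : ℝ) =
      ∑ D ∈ sub Q J, if ∀ p ∈ D, B p m then (-1 : ℝ) ^ D.card else 0 := by
  have h1 : ∀ j ∈ range (J + 1), (-1 : ℝ) ^ j * (((Q.filter fun p => B p m).card.choose j : ℕ) : ℝ) =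
      ∑ D ∈ (Q.filter (fun p => B p m)).powersetCard j, (-1 : ℝ) ^ D.card := by
    intro j _
    have : ∀ D ∈ (Q.filter (fun p => B p m)).powersetCard j, (-1 : ℝ) ^ D.card = (-1) ^ j := by
      intro D hD
      rw [(mem_powersetCard.1 hD).2]
    rw [sum_congr rfl this, sum_const, card_powersetCard, nsmul_eq_mul]
    ring
  rw [sum_congr rfl h1, ← sum_filter, ← sum_biUnion]
  · refine sum_congr ?_ fun _ _ => rfl
    ext D
    simp only [mem_biUnion, mem_range, mem_powersetCard, mem_filter, mem_sub, subset_iff]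
    constructor
    · rintro ⟨j, hj, hD, hc⟩
      exact ⟨⟨fun p hp => (hD hp).1, by omega⟩, fun p hp => (hD hp).2⟩
    · rintro ⟨⟨hD, hc⟩, hd⟩
      exact ⟨D.card, by omega, fun p hp => ⟨hD hp, hd p hp⟩, rfl⟩
  · intro i _ j _ hij
    rw [Function.onFun, disjoint_left]
    intro D hD hD'
    rw [mem_powersetCard] at hD hD'
    exact hij (hD.2.symm.trans hD'.2)

theorem sum_truncB (Q : Finset ℕ) (J a X : ℕ) :
    ∑ m ∈ Ico a (a + X), ∑ j ∈ range (J + 1),
      (-1 : ℝ) ^ j * (((Q.filter fun p => B p m).card.choose j : ℕ) : ℝ) =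
      ∑ D ∈ sub Q J, (-1 : ℝ) ^ D.card * (cntB B a X D : ℝ) := by
  rw [sum_congr rfl fun m _ => sum_choose_eqB B Q J m, sum_comm]
  refine sum_congr rfl fun D _ => ?_
  rw [← sum_filter, sum_const, nsmul_eq_mul]
  unfold cntB
  ring

theorem sum_powerset_exp {Q : Finset ℕ} {g : ℕ → ℝ} (hg : ∀ p ∈ Q, 0 ≤ g p) :
    ∑ D ∈ Q.powerset, ∏ p ∈ D, g p ≤ Real.exp (∑ p ∈ Q, g p) := by
  rw [← prod_add_one, Real.exp_sum]
  exact prod_le_prod (fun p hp => by linarith [hg p hp]) fun p _ => Real.add_one_le_exp (g p)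

theorem tailB {Q : Finset ℕ} {g : ℕ → ℝ} (hg : ∀ p ∈ Q, 0 ≤ g p) (J : ℕ) :
    ∑ D ∈ Q.powerset.filter (fun D => J ≤ D.card), ∏ p ∈ D, g p ≤
      Real.exp (Real.exp 1 * ∑ p ∈ Q, g p - J) := by
  have hgD : ∀ D ∈ Q.powerset, 0 ≤ ∏ p ∈ D, g p := fun D hD =>
    prod_nonneg fun p hp => hg p (mem_powerset.1 hD hp)
  have h1 : ∀ D ∈ Q.powerset.filter (fun D => J ≤ D.card), ∏ p ∈ D, g p ≤
      Real.exp (-(J : ℝ)) * ∏ p ∈ D, (Real.exp 1 * g p) := by
    intro D hD
    have hJ : (J : ℝ) ≤ D.card := by exact_mod_cast (mem_filter.1 hD).2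
    rw [prod_mul_distrib, prod_const, ← Real.exp_nat_mul, mul_one, ← mul_assoc, ← Real.exp_add]
    have : 1 ≤ Real.exp (-(J : ℝ) + D.card) := Real.one_le_exp (by linarith)
    nlinarith [hgD D (mem_filter.1 hD).1]
  calc _ ≤ ∑ D ∈ Q.powerset.filter (fun D => J ≤ D.card),
        Real.exp (-(J : ℝ)) * ∏ p ∈ D, (Real.exp 1 * g p) := sum_le_sum h1
    _ ≤ ∑ D ∈ Q.powerset, Real.exp (-(J : ℝ)) * ∏ p ∈ D, (Real.exp 1 * g p) := by
        refine sum_le_sum_of_subset_of_nonneg (filter_subset _ _) fun D hD _ => ?_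
        exact mul_nonneg (Real.exp_pos _).le (prod_nonneg fun p hp =>
          mul_nonneg (Real.exp_pos _).le (hg p (mem_powerset.1 hD hp)))
    _ ≤ Real.exp (-(J : ℝ)) * Real.exp (∑ p ∈ Q, Real.exp 1 * g p) := by
        rw [← mul_sum]
        exact mul_le_mul_of_nonneg_left (sum_powerset_exp fun p hp =>
          mul_nonneg (Real.exp_pos _).le (hg p hp)) (Real.exp_pos _).le
    _ = _ := by
        rw [← mul_sum, ← Real.exp_add]
        ring_nf

theorem mainB {Q : Finset ℕ} {g : ℕ → ℝ} (hg : ∀ p ∈ Q, 0 ≤ g p) (J : ℕ) :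
    |∑ D ∈ sub Q J, (-1 : ℝ) ^ D.card * ∏ p ∈ D, g p - ∏ p ∈ Q, (1 - g p)| ≤
      Real.exp (Real.exp 1 * ∑ p ∈ Q, g p - J) := by
  have e1 : ∏ p ∈ Q, (1 - g p) = ∑ D ∈ Q.powerset, (-1 : ℝ) ^ D.card * ∏ p ∈ D, g p := by
    have : ∀ p ∈ Q, 1 - g p = (-1) * g p + 1 := fun p _ => by ring
    rw [prod_congr rfl this, prod_add_one]
    refine sum_congr rfl fun D _ => ?_
    rw [prod_mul_distrib, prod_const]
  have e2 : ∑ D ∈ Q.powerset, (-1 : ℝ) ^ D.card * ∏ p ∈ D, g p =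
      ∑ D ∈ sub Q J, (-1 : ℝ) ^ D.card * ∏ p ∈ D, g p +
        ∑ D ∈ Q.powerset.filter (fun D => J + 1 ≤ D.card), (-1 : ℝ) ^ D.card * ∏ p ∈ D, g p := by
    unfold sub
    rw [← sum_filter_add_sum_filter_not Q.powerset (fun D => D.card ≤ J)]
    congr 1
    refine sum_congr ?_ fun _ _ => rfl
    exact filter_congr fun D _ => by omega
  rw [e1, e2, sub_add_cancel_left, abs_neg]
  have h3 := tailB hg (J + 1)
  have h4 : Real.exp (Real.exp 1 * ∑ p ∈ Q, g p - (J + 1 : ℕ)) ≤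
      Real.exp (Real.exp 1 * ∑ p ∈ Q, g p - J) := by
    refine Real.exp_le_exp.2 ?_
    push_cast
    linarith
  refine (abs_sum_le_sum_abs _ _).trans ((sum_le_sum fun D hD => ?_).trans (h3.trans h4))
  have hDg : 0 ≤ ∏ p ∈ D, g p :=
    prod_nonneg fun p hp => hg p (mem_powerset.1 (mem_filter.1 hD).1 hp)
  rw [abs_mul, abs_pow, abs_neg, abs_one, one_pow, one_mul, abs_of_nonneg hDg]

theorem truncB {Q : Finset ℕ} {z κ : ℕ} (hQ : ∀ p ∈ Q, p.Prime ∧ p ≤ z) (hz : 1 ≤ z)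
    (hκ : 1 ≤ κ) (hB : ∀ p ∈ Q, Function.Periodic (B p) p) (hω : ∀ p ∈ Q, om1 B p ≤ κ)
    (J a X : ℕ) :
    |∑ D ∈ sub Q J, (-1 : ℝ) ^ D.card * (cntB B a X D : ℝ) -
        X * ∏ p ∈ Q, (1 - (om1 B p : ℝ) / p)| ≤
      X * Real.exp (Real.exp 1 * ∑ p ∈ Q, (om1 B p : ℝ) / p - J) +
        ((κ * z : ℕ) : ℝ) ^ J * Real.exp (rs Q) := by
  have hQ' : ∀ p ∈ Q, p.Prime := fun p hp => (hQ p hp).1
  have hκ1 : (1 : ℝ) ≤ κ := by exact_mod_cast hκ
  have h1 : |∑ D ∈ sub Q J, (-1 : ℝ) ^ D.card * (cntB B a X D : ℝ) -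
      ∑ D ∈ sub Q J, (-1 : ℝ) ^ D.card * (X * ∏ p ∈ D, ((om1 B p : ℝ) / p))| ≤
        ((κ * z : ℕ) : ℝ) ^ J * Real.exp (rs Q) := by
    rw [← sum_sub_distrib]
    refine (abs_sum_le_sum_abs _ _).trans ?_
    have : ∀ D ∈ sub Q J, |(-1 : ℝ) ^ D.card * (cntB B a X D : ℝ) -
        (-1 : ℝ) ^ D.card * (X * ∏ p ∈ D, ((om1 B p : ℝ) / p))| ≤ (κ : ℝ) ^ J := by
      intro D hD
      rw [mem_sub] at hD
      rw [← mul_sub, abs_mul, abs_pow, abs_neg, abs_one, one_pow, one_mul]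
      refine (cntB_bounds B a X (D := D) (fun p hp => hQ' p (hD.1 hp))
        fun p hp => hB p (hD.1 hp)).trans ?_
      calc ∏ p ∈ D, (om1 B p : ℝ) ≤ ∏ p ∈ D, (κ : ℝ) :=
            prod_le_prod (fun p _ => Nat.cast_nonneg _) fun p hp => by
              exact_mod_cast hω p (hD.1 hp)
        _ = (κ : ℝ) ^ D.card := prod_const _
        _ ≤ _ := pow_le_pow_right₀ hκ1 hD.2
    calc _ ≤ ∑ D ∈ sub Q J, (κ : ℝ) ^ J := sum_le_sum this
      _ = (κ : ℝ) ^ J * ((sub Q J).card : ℝ) := by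
          rw [sum_const, nsmul_eq_mul]
          ring
      _ ≤ (κ : ℝ) ^ J * ((z : ℝ) ^ J * Real.exp (rs Q)) :=
          mul_le_mul_of_nonneg_left (sub_card_le hQ hz J) (by positivity)
      _ = _ := by
          push_cast
          rw [mul_pow]
          ring
  have h2 : ∑ D ∈ sub Q J, (-1 : ℝ) ^ D.card * (X * ∏ p ∈ D, ((om1 B p : ℝ) / p)) =
      X * ∑ D ∈ sub Q J, (-1 : ℝ) ^ D.card * ∏ p ∈ D, ((om1 B p : ℝ) / p) := by
    rw [mul_sum]
    exact sum_congr rfl fun D _ => by ring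
  have hX : (0 : ℝ) ≤ X := Nat.cast_nonneg _
  have h4 : |(X : ℝ) * ∑ D ∈ sub Q J, (-1 : ℝ) ^ D.card * ∏ p ∈ D, ((om1 B p : ℝ) / p) -
      X * ∏ p ∈ Q, (1 - (om1 B p : ℝ) / p)| ≤
        X * Real.exp (Real.exp 1 * ∑ p ∈ Q, (om1 B p : ℝ) / p - J) := by
    rw [← mul_sub, abs_mul, abs_of_nonneg hX]
    exact mul_le_mul_of_nonneg_left (mainB (g := fun p => (om1 B p : ℝ) / p)
      (fun p _ => by positivity) J) hX
  rw [h2] at h1
  have := abs_sub_le (∑ D ∈ sub Q J, (-1 : ℝ) ^ D.card * (cntB B a X D : ℝ))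
    (X * ∑ D ∈ sub Q J, (-1 : ℝ) ^ D.card * ∏ p ∈ D, ((om1 B p : ℝ) / p))
    (X * ∏ p ∈ Q, (1 - (om1 B p : ℝ) / p))
  linarith

/-- **Two sided sieve for residue classes in an interval.** -/
theorem sieve_gen {Q : Finset ℕ} {z κ : ℕ} (hQ : ∀ p ∈ Q, p.Prime ∧ p ≤ z) (hz : 1 ≤ z)
    (hκ : 1 ≤ κ) (hB : ∀ p ∈ Q, Function.Periodic (B p) p) (hω : ∀ p ∈ Q, om1 B p ≤ κ)
    {J : ℕ} (hJ : Even J) (a X : ℕ) :
    |(((Ico a (a + X)).filter (fun m => ∀ p ∈ Q, ¬ B p m)).card : ℝ) -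
        X * ∏ p ∈ Q, (1 - (om1 B p : ℝ) / p)| ≤
      X * Real.exp (Real.exp 1 * ∑ p ∈ Q, (om1 B p : ℝ) / p - J) +
        ((κ * z : ℕ) : ℝ) ^ (J + 1) * Real.exp (rs Q) := by
  have hX : (0 : ℝ) ≤ X := Nat.cast_nonneg _
  have hκz : 1 ≤ κ * z := Nat.mul_pos hκ hz
  have hz1 : (1 : ℝ) ≤ ((κ * z : ℕ) : ℝ) := by exact_mod_cast hκz
  have h0 : ∀ m, (Q.filter fun p => B p m).card = 0 ↔ ∀ p ∈ Q, ¬ B p m := by
    intro m
    rw [card_eq_zero, filter_eq_empty_iff]
  have h3 : ∑ m ∈ Ico a (a + X), (1 - 1 : ℝ) ^ (Q.filter fun p => B p m).card =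
      (((Ico a (a + X)).filter (fun m => ∀ p ∈ Q, ¬ B p m)).card : ℝ) := by
    rw [card_filter]
    push_cast
    refine sum_congr rfl fun m _ => ?_
    simp only [← h0]
    split_ifs with h
    · rw [h]; simp
    · rw [sub_self, zero_pow h]
  rw [abs_le]
  constructor
  · have h1 : ∑ m ∈ Ico a (a + X), ∑ j ∈ range (J + 1 + 1),
        (-1 : ℝ) ^ j * (((Q.filter fun p => B p m).card.choose j : ℕ) : ℝ) ≤
        ∑ m ∈ Ico a (a + X), (1 - 1 : ℝ) ^ (Q.filter fun p => B p m).card :=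
      sum_le_sum fun m _ => bon_odd 1 zero_le_one le_rfl _ (J + 1) (Even.add_one hJ)
    rw [sum_truncB, h3] at h1
    have h2 := (abs_le.1 (truncB B hQ hz hκ hB hω (J + 1) a X)).1
    have h4 : Real.exp (Real.exp 1 * ∑ p ∈ Q, (om1 B p : ℝ) / p - (J + 1 : ℕ)) ≤
        Real.exp (Real.exp 1 * ∑ p ∈ Q, (om1 B p : ℝ) / p - J) := by
      refine Real.exp_le_exp.2 ?_
      push_cast
      linarith
    have h5 := mul_le_mul_of_nonneg_left h4 hX
    linarith
  · have h1 : ∑ m ∈ Ico a (a + X), (1 - 1 : ℝ) ^ (Q.filter fun p => B p m).card ≤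
        ∑ m ∈ Ico a (a + X), ∑ j ∈ range (J + 1),
        (-1 : ℝ) ^ j * (((Q.filter fun p => B p m).card.choose j : ℕ) : ℝ) :=
      sum_le_sum fun m _ => bon_even 1 zero_le_one le_rfl _ J hJ
    rw [sum_truncB, h3] at h1
    have h2 := (abs_le.1 (truncB B hQ hz hκ hB hω J a X)).2
    have h4 : ((κ * z : ℕ) : ℝ) ^ J * Real.exp (rs Q) ≤
        ((κ * z : ℕ) : ℝ) ^ (J + 1) * Real.exp (rs Q) :=
      mul_le_mul_of_nonneg_right (pow_le_pow_right₀ hz1 (Nat.le_succ J)) (Real.exp_pos _).le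
    linarith

end

end Pool.Agent.MFN
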