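import Mathlib

/-!
# MFN / Mert: the theorem of Mertens in an arithmetic progression
-/

set_option autoImplicit false

namespace Pool.Agent.MFN

open Finset MeasureTheory

/-- `n^(-t)`, written with the exponential -/
private noncomputable def ex (n : ℕ) (t : ℝ) : ℝ := Real.exp (-(t * Real.log n))

private theorem ex_pos (n : ℕ) (t : ℝ) : 0 < ex n t := Real.exp_pos _

private theorem ex_anti {n : ℕ} {s t : ℝ} (h : s ≤ t) : ex n t ≤ ex n s := by
  unfold ex
  refine Real.exp_le_exp.2 (neg_le_neg ?_)
  exact mul_le_mul_of_nonneg_right h (Real.log_natCast_nonneg n)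

private theorem ex_cont (n : ℕ) : Continuous (ex n) := by
  unfold ex
  fun_prop

private theorem ex_int {n : ℕ} (hn : 2 ≤ n) (x : ℝ) :
    ∫ t in x..2, ex n t = (ex n x - ex n 2) / Real.log n := by
  have hl : 0 < Real.log n := Real.log_pos (by exact_mod_cast (by omega : 1 < n))
  have h1 : ∀ t ∈ Set.uIcc x 2, HasDerivAt (fun t => -(ex n t) / Real.log n) (ex n t) t := by
    intro t _
    have h2 : HasDerivAt (fun t => -(t * Real.log n)) (-(1 * Real.log n)) t :=
      ((hasDerivAt_id t).mul_const (Real.log n)).neg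
    have h3 := (h2.exp.neg).div_const (Real.log n)
    refine HasDerivAt.congr_deriv h3 ?_
    unfold ex
    rw [one_mul, mul_neg, neg_neg, mul_div_assoc, div_self hl.ne', mul_one]
  rw [intervalIntegral.integral_eq_sub_of_hasDerivAt h1 ((ex_cont n).intervalIntegrable _ _)]
  ring

/-- An elementary inversion. -/
theorem mert_abs {b : ℕ → ℝ} (hb : ∀ n, 0 ≤ b n) (hb0 : b 0 = 0) (hb1 : b 1 = 0) {c : ℝ}
    (hc : 0 ≤ c) {h : ℝ → ℝ} (hh : ContinuousOn h (Set.Icc 1 2))
    (hs : ∀ x, 1 < x → x ≤ 2 → Summable fun n : ℕ => b n * Real.exp (-(x * Real.log n)))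
    (hS : ∀ x, 1 < x → x ≤ 2 →
      ∑' n : ℕ, b n * Real.exp (-(x * Real.log n)) = h x + c / (x - 1)) :
    ∃ K, ∀ y : ℕ, 3 ≤ y →
      |∑ n ∈ Icc 2 y, b n / (n * Real.log n) - c * Real.log (Real.log y)| ≤ K := by
  obtain ⟨M, hM⟩ := (isCompact_Icc (a := (1 : ℝ)) (b := 2)).exists_bound_of_continuousOn hh
  have hM0 : 0 ≤ M := (norm_nonneg _).trans (hM 1 ⟨le_rfl, by norm_num⟩)
  have hl2 : 0 < Real.log 2 := Real.log_pos (by norm_num)
  have hlog : ∀ n : ℕ, 2 ≤ n → Real.log 2 ≤ Real.log n := fun n hn =>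
    Real.log_le_log (by norm_num) (by exact_mod_cast hn)
  have hcase : ∀ n : ℕ, n = 0 ∨ n = 1 ∨ 2 ≤ n := fun n => by omega
  have hlnn : ∀ n : ℕ, 0 ≤ Real.log n := fun n => Real.log_natCast_nonneg n
  -- the series with the logarithms
  set g : ℝ → ℕ → ℝ := fun x n => b n * ex n x / Real.log n with hg
  have hg0 : ∀ x n, 0 ≤ g x n := fun x n =>
    div_nonneg (mul_nonneg (hb n) (ex_pos n x).le) (hlnn n)
  have hgs : ∀ x, 1 < x → x ≤ 2 → Summable (g x) := by
    intro x h1 h2
    refine Summable.of_nonneg_of_le (hg0 x) (fun n => ?_) ((hs x h1 h2).mul_left (Real.log 2)⁻¹)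
    rcases hcase n with rfl | rfl | hn
    · simp [hg, hb0]
    · simp [hg, hb1]
    · simp only [hg]
      rw [div_eq_inv_mul]
      refine mul_le_mul_of_nonneg_right ?_ (mul_nonneg (hb n) (ex_pos n x).le)
      exact inv_anti₀ hl2 (hlog n hn)
  -- integration
  have hint : ∀ x, 1 < x → x < 2 →
      |∑' n, g x n + c * Real.log (x - 1)| ≤ M + ∑' n, g 2 n := by
    intro x hx1 hx2
    have hF : ∀ n, Integrable (fun t => b n * ex n t) (volume.restrict (Set.Ioc x 2)) := by
      intro n
      have : Continuous fun t => b n * ex n t := continuous_const.mul (ex_cont n)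
      exact (this.integrableOn_Icc (a := x) (b := 2)).mono_set Set.Ioc_subset_Icc_self
    have hFs : Summable fun n => ∫ t in Set.Ioc x 2, ‖b n * ex n t‖ := by
      refine Summable.of_nonneg_of_le (fun n => integral_nonneg fun t => norm_nonneg _)
        (fun n => ?_) ((hs x hx1 hx2.le).mul_left (2 - x))
      have h1 : ∫ t in Set.Ioc x 2, ‖b n * ex n t‖ ≤ ∫ t in Set.Ioc x 2, b n * ex n x := by
        refine setIntegral_mono_on (hF n).norm (integrable_const _) measurableSet_Ioc fun t ht => ?_
        rw [Real.norm_of_nonneg (mul_nonneg (hb n) (ex_pos n t).le)]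
        exact mul_le_mul_of_nonneg_left (ex_anti ht.1.le) (hb n)
      refine h1.trans (le_of_eq ?_)
      rw [setIntegral_const, Real.volume_real_Ioc_of_le hx2.le, smul_eq_mul]
      rfl
    have h2 := hasSum_integral_of_summable_integral_norm hF hFs
    have h3 : ∀ n, ∫ t in Set.Ioc x 2, b n * ex n t = g x n - g 2 n := by
      intro n
      rw [← intervalIntegral.integral_of_le hx2.le, intervalIntegral.integral_const_mul]
      rcases hcase n with rfl | rfl | hn
      · simp [hg, hb0]
      · simp [hg, hb1]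
      · rw [ex_int hn]
        simp only [hg]
        ring
    simp only [h3] at h2
    have h4 : ∫ t in Set.Ioc x 2, ∑' n, b n * ex n t =
        ∫ t in Set.Ioc x 2, (h t + c / (t - 1)) := by
      refine setIntegral_congr_fun measurableSet_Ioc fun t ht => ?_
      exact hS t (hx1.trans ht.1) ht.2
    have hhi : IntegrableOn h (Set.Ioc x 2) :=
      (hh.integrableOn_Icc).mono_set (Set.Ioc_subset_Icc_self.trans (Set.Icc_subset_Icc_left hx1.le))
    have hci : IntegrableOn (fun t => c / (t - 1)) (Set.Ioc x 2) := by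
      refine (ContinuousOn.integrableOn_Icc (a := x) (b := 2) ?_).mono_set Set.Ioc_subset_Icc_self
      refine continuousOn_const.div (continuousOn_id.sub continuousOn_const) fun t ht => ?_
      have h0 : 0 < t - 1 := by linarith [ht.1]
      exact h0.ne'
    have h5 : ∫ t in Set.Ioc x 2, c / (t - 1) = -(c * Real.log (x - 1)) := by
      rw [← intervalIntegral.integral_of_le hx2.le]
      have h6 : ∀ t ∈ Set.uIcc x 2, HasDerivAt (fun t => c * Real.log (t - 1)) (c / (t - 1)) t := by
        intro t ht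
        rw [Set.uIcc_of_le hx2.le] at ht
        have h7 : t - 1 ≠ 0 := by linarith [ht.1]
        have h8 := (((hasDerivAt_id t).sub_const 1).log h7).const_mul c
        refine HasDerivAt.congr_deriv h8 ?_
        simp only [id]
        ring
      rw [intervalIntegral.integral_eq_sub_of_hasDerivAt h6]
      · norm_num
      · rw [intervalIntegrable_iff_integrableOn_Ioc_of_le hx2.le]
        exact hci
    have h6 : ∫ t in Set.Ioc x 2, (h t + c / (t - 1)) =
        (∫ t in Set.Ioc x 2, h t) + -(c * Real.log (x - 1)) := by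
      rw [integral_add hhi hci, h5]
    have h7 : |∫ t in Set.Ioc x 2, h t| ≤ M := by
      have h8 : ‖∫ t in Set.Ioc x 2, h t‖ ≤ M * volume.real (Set.Ioc x 2) := by
        refine norm_setIntegral_le_of_norm_le_const measure_Ioc_lt_top fun t ht => ?_
        exact hM t ⟨hx1.le.trans ht.1.le, ht.2⟩
      rw [Real.volume_real_Ioc_of_le hx2.le, Real.norm_eq_abs] at h8
      nlinarith
    have h9 : ∑' n, g x n - ∑' n, g 2 n = (∫ t in Set.Ioc x 2, h t) + -(c * Real.log (x - 1)) := by
      rw [← (hgs x hx1 hx2.le).tsum_sub (hgs 2 (by norm_num) le_rfl), h2.tsum_eq, h4, h6]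
    have h10 : 0 ≤ ∑' n, g 2 n := tsum_nonneg (hg0 2)
    rw [abs_le] at h7 ⊢
    constructor <;> linarith [h7.1, h7.2]
  refine ⟨M + ∑' n, g 2 n + Real.exp 1 * (M + c), fun y hy => ?_⟩
  have hy0 : (0 : ℝ) < y := by exact_mod_cast (by omega : 0 < y)
  have hly : 1 < Real.log y := by
    have h1 : (1 : ℝ) < Real.log 3 := by
      rw [Real.lt_log_iff_exp_lt (by norm_num)]
      exact Real.exp_one_lt_d9.trans (by norm_num)
    exact h1.trans_le (Real.log_le_log (by norm_num) (by exact_mod_cast hy))
  have hly0 : 0 < Real.log y := by linarith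
  set x : ℝ := 1 + 1 / Real.log y with hx
  have hx1 : 1 < x := by rw [hx]; linarith [one_div_pos.2 hly0]
  have hx2 : x < 2 := by
    have : 1 / Real.log y < 1 := by rw [div_lt_one hly0]; exact hly
    rw [hx]; linarith
  have hxm : x - 1 = 1 / Real.log y := by rw [hx]; ring
  have h1 := hint x hx1 hx2
  have hlx : Real.log (x - 1) = -Real.log (Real.log y) := by
    rw [hxm, one_div, Real.log_inv]
  rw [hlx] at h1
  have hSx := hS x hx1 hx2.le
  have hSb : (∑' n : ℕ, b n * ex n x) / Real.log y ≤ M + c := by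
    have e : ∑' n : ℕ, b n * ex n x = h x + c / (x - 1) := hSx
    rw [e, hxm, div_le_iff₀ hly0]
    have h2 : h x ≤ M := (le_abs_self _).trans (hM x ⟨hx1.le, hx2.le⟩)
    have h3 : c / (1 / Real.log y) = c * Real.log y := by field_simp
    rw [h3]
    nlinarith
  have hS0 : 0 ≤ ∑' n : ℕ, b n * ex n x := tsum_nonneg fun n => mul_nonneg (hb n) (ex_pos n x).le
  set T := ∑ n ∈ Icc 2 y, b n / (n * Real.log n) with hT
  -- n^(-x) and 1/n
  have hex1 : ∀ n : ℕ, 2 ≤ n → ex n x ≤ 1 / n := by
    intro n hn
    have hn0 : (0 : ℝ) < n := by exact_mod_cast (by omega : 0 < n)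
    have h2 := ex_anti (n := n) hx1.le
    have h3 : ex n 1 = 1 / n := by
      unfold ex
      rw [one_mul, Real.exp_neg, Real.exp_log hn0, one_div]
    rwa [h3] at h2
  have hex2 : ∀ n : ℕ, 2 ≤ n → n ≤ y → 1 / (n : ℝ) ≤ Real.exp 1 * ex n x := by
    intro n hn hny
    have hn0 : (0 : ℝ) < n := by exact_mod_cast (by omega : 0 < n)
    have hlny : Real.log n ≤ Real.log y := Real.log_le_log hn0 (by exact_mod_cast hny)
    unfold ex
    rw [← Real.exp_add, one_div, ← Real.exp_log (inv_pos.2 hn0), Real.log_inv]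
    refine Real.exp_le_exp.2 ?_
    have h3 : 1 / Real.log y * Real.log n ≤ 1 := by
      rw [one_div_mul_eq_div, div_le_one hly0]
      exact hlny
    rw [hx, add_mul]
    linarith
  have hex3 : ∀ n : ℕ, 2 ≤ n → 1 / (n : ℝ) - ex n x ≤ 1 / (n : ℝ) * (Real.log n / Real.log y) := by
    intro n hn
    have hn0 : (0 : ℝ) < n := by exact_mod_cast (by omega : 0 < n)
    have h2 : ex n x = 1 / (n : ℝ) * Real.exp (-(Real.log n / Real.log y)) := by
      unfold ex
      rw [one_div, ← Real.exp_log (inv_pos.2 hn0), Real.log_inv, ← Real.exp_add, hx]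
      congr 1
      ring
    rw [h2]
    have h3 := Real.add_one_le_exp (-(Real.log n / Real.log y))
    have h4 : 0 < 1 / (n : ℝ) := by positivity
    nlinarith
  -- upper bound for T
  have hup : T ≤ ∑' n, g x n + Real.exp 1 * (M + c) := by
    have h2 : T ≤ ∑ n ∈ Icc 2 y, g x n + ∑ n ∈ Icc 2 y, Real.exp 1 * (b n * ex n x) / Real.log y := by
      rw [hT, ← sum_add_distrib]
      refine sum_le_sum fun n hn => ?_
      rw [mem_Icc] at hn
      have hn0 : (0 : ℝ) < n := by exact_mod_cast (by omega : 0 < n)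
      have hln : 0 < Real.log n := hl2.trans_le (hlog n hn.1)
      have h3 := hex3 n hn.1
      have h4 := hex2 n hn.1 hn.2
      have h5 : b n / (n * Real.log n) = b n * (1 / n) / Real.log n := by field_simp
      rw [h5]
      simp only [hg]
      rw [div_add_div _ _ hln.ne' hly0.ne', div_le_div_iff₀ hln (by positivity)]
      have h6 : 1 / (n : ℝ) * Real.log y ≤ ex n x * Real.log y + Real.exp 1 * ex n x * Real.log n := by
        have h7 : 1 / (n : ℝ) * (Real.log n / Real.log y) * Real.log y = 1 / (n : ℝ) * Real.log n := by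
          field_simp
        have h8 := mul_le_mul_of_nonneg_right h3 hly0.le
        rw [h7] at h8
        have h9 := mul_le_mul_of_nonneg_right h4 hln.le
        linarith
      have h10 : b n * (1 / (n : ℝ)) * (Real.log n * Real.log y) =
          b n * Real.log n * (1 / (n : ℝ) * Real.log y) := by ring
      rw [h10]
      have h11 := mul_le_mul_of_nonneg_left h6 (mul_nonneg (hb n) hln.le)
      refine h11.trans (le_of_eq ?_)
      ring
    have h3 : ∑ n ∈ Icc 2 y, g x n ≤ ∑' n, g x n :=
      (hgs x hx1 hx2.le).sum_le_tsum _ fun n _ => hg0 x n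
    have h4 : ∑ n ∈ Icc 2 y, Real.exp 1 * (b n * ex n x) / Real.log y ≤ Real.exp 1 * (M + c) := by
      have h5 : ∑ n ∈ Icc 2 y, b n * ex n x ≤ ∑' n, b n * ex n x :=
        (hs x hx1 hx2.le).sum_le_tsum _ fun n _ => mul_nonneg (hb n) (ex_pos n x).le
      rw [← sum_div, ← mul_sum, mul_div_assoc]
      refine mul_le_mul_of_nonneg_left (le_trans ?_ hSb) (Real.exp_pos _).le
      exact div_le_div_of_nonneg_right h5 hly0.le
    linarith
  -- lower bound
  have hlo : ∑' n, g x n ≤ T + (M + c) := by
    have hsfin : Summable fun n => if n ∈ Icc 2 y then g x n else 0 :=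
      summable_of_ne_finset_zero (s := Icc 2 y) fun n hn => if_neg hn
    have h2 : ∑' n, g x n ≤ ∑' n, ((if n ∈ Icc 2 y then g x n else 0) + b n * ex n x / Real.log y) := by
      refine (hgs x hx1 hx2.le).tsum_le_tsum (fun n => ?_) (hsfin.add ((hs x hx1 hx2.le).div_const _))
      have h5 : 0 ≤ b n * ex n x := mul_nonneg (hb n) (ex_pos n x).le
      split_ifs with hn
      · exact le_add_of_nonneg_right (div_nonneg h5 hly0.le)
      · rw [zero_add]
        rcases hcase n with rfl | rfl | h2n
        · simp [hg, hb0]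
        · simp [hg, hb1]
        · rw [mem_Icc] at hn
          have hyn : y < n := by omega
          refine div_le_div_of_nonneg_left h5 hly0 ?_
          exact Real.log_le_log hy0 (by exact_mod_cast hyn.le)
    have hs' : Summable fun n : ℕ => b n * ex n x / Real.log y :=
      (hs x hx1 hx2.le).div_const (Real.log y)
    rw [hsfin.tsum_add hs', tsum_div_const] at h2
    have h3 : ∑' n, (if n ∈ Icc 2 y then g x n else 0) = ∑ n ∈ Icc 2 y, g x n := by
      rw [tsum_eq_sum (s := Icc 2 y) fun n hn => if_neg hn]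
      exact sum_congr rfl fun n hn => if_pos hn
    rw [h3] at h2
    have h4 : ∑ n ∈ Icc 2 y, g x n ≤ T := by
      rw [hT]
      refine sum_le_sum fun n hn => ?_
      rw [mem_Icc] at hn
      have hn0 : (0 : ℝ) < n := by exact_mod_cast (by omega : 0 < n)
      have hln : 0 < Real.log n := hl2.trans_le (hlog n hn.1)
      have h5 : b n / (n * Real.log n) = b n * (1 / n) / Real.log n := by field_simp
      rw [h5]
      exact div_le_div_of_nonneg_right (mul_le_mul_of_nonneg_left (hex1 n hn.1) (hb n)) hln.le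
    linarith
  have he1 : 1 ≤ Real.exp 1 := Real.one_le_exp (by norm_num)
  have hMc : 0 ≤ M + c := by linarith
  have h12 : M + c ≤ Real.exp 1 * (M + c) := le_mul_of_one_le_left hMc he1
  rw [abs_le] at h1 ⊢
  constructor <;> linarith [h1.1, h1.2]

end Pool.Agent.MFN
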