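import Pool.Agent.MedDiv.Brun

/-!
# MFN / Sv: a two sided sieve in short intervals, with decreasing weights
-/

set_option autoImplicit false

namespace Pool.Agent.MFN

open Finset Pool.MedDiv

/-- **Two sided sieve in an interval.** -/
theorem sieve_two {Q : Finset ℕ} {z : ℕ} (hQ : ∀ p ∈ Q, p.Prime ∧ p ≤ z) (hz : 1 ≤ z)
    {J : ℕ} (hJ : Even J) (a X : ℕ) :
    |(((Ico a (a + X)).filter (fun m => om Q m = 0)).card : ℝ) - X * ∏ p ∈ Q, (1 - 1 / (p : ℝ))| ≤
      X * Real.exp (Real.exp 1 * rs Q - J) + (z : ℝ) ^ (J + 1) * Real.exp (rs Q) := by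
  have hX : (0 : ℝ) ≤ X := Nat.cast_nonneg _
  have hz1 : (1 : ℝ) ≤ z := by exact_mod_cast hz
  rw [abs_le]
  constructor
  · have h1 := brun_low hQ hz (Even.add_one hJ) a X
    have h2 : Real.exp (Real.exp 1 * rs Q - (J + 1 : ℕ)) ≤ Real.exp (Real.exp 1 * rs Q - J) := by
      refine Real.exp_le_exp.2 ?_
      push_cast
      linarith
    have h3 := mul_le_mul_of_nonneg_left h2 hX
    linarith
  · have h1 : ∑ m ∈ Ico a (a + X), (1 - 1 : ℝ) ^ (om Q m) ≤
        ∑ m ∈ Ico a (a + X), ∑ j ∈ range (J + 1), (-1 : ℝ) ^ j * ((om Q m).choose j : ℝ) :=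
      sum_le_sum fun m _ => bon_even 1 zero_le_one le_rfl _ J hJ
    rw [sum_trunc] at h1
    have h2 := (abs_le.1 (trunc_bound hQ hz zero_le_one le_rfl J a X)).2
    have h3 : ∑ m ∈ Ico a (a + X), (1 - 1 : ℝ) ^ (om Q m) =
        (((Ico a (a + X)).filter (fun m => om Q m = 0)).card : ℝ) := by
      rw [card_filter]
      push_cast
      refine sum_congr rfl fun m _ => ?_
      split_ifs with h
      · rw [h]; simp
      · rw [sub_self, zero_pow h]
    have h4 : (z : ℝ) ^ J * Real.exp (rs Q) ≤ (z : ℝ) ^ (J + 1) * Real.exp (rs Q) :=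
      mul_le_mul_of_nonneg_right (pow_le_pow_right₀ hz1 (Nat.le_succ J)) (Real.exp_pos _).le
    linarith

/-- Abel summation, decreasing weights -/
theorem abel {g w : ℕ → ℝ} (hw : Antitone w) (hw0 : ∀ i, 0 ≤ w i) {e E : ℝ} (X : ℕ)
    (h : ∀ K ≤ X, |∑ i ∈ range K, g i| ≤ e * K + E) :
    |∑ i ∈ range X, g i * w i| ≤ e * ∑ i ∈ range X, w i + E * w 0 := by
  have id1 : ∀ K, ∑ i ∈ range K, g i * w i = (∑ i ∈ range K, g i) * w K +
      ∑ i ∈ range K, (∑ l ∈ range (i + 1), g l) * (w i - w (i + 1)) := by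
    intro K
    induction K with
    | zero => simp
    | succ K ih =>
      rw [sum_range_succ, ih, sum_range_succ (fun i => (∑ l ∈ range (i + 1), g l) * (w i - w (i + 1))),
        sum_range_succ g]
      ring
  have id2 : ∀ K : ℕ, (e * K + E) * w K + ∑ i ∈ range K, (e * (i + 1 : ℕ) + E) * (w i - w (i + 1)) =
      e * ∑ i ∈ range K, w i + E * w 0 := by
    intro K
    induction K with
    | zero => simp
    | succ K ih =>
      rw [sum_range_succ, sum_range_succ w, mul_add, ← add_assoc] at *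
      have : (e * ((K + 1 : ℕ) : ℝ) + E) * w (K + 1) +
          ∑ i ∈ range K, (e * ((i + 1 : ℕ) : ℝ) + E) * (w i - w (i + 1)) +
          (e * ((K + 1 : ℕ) : ℝ) + E) * (w K - w (K + 1)) = ((e * K + E) * w K +
          ∑ i ∈ range K, (e * ((i + 1 : ℕ) : ℝ) + E) * (w i - w (i + 1))) + e * w K := by
        push_cast
        ring
      rw [this, ih]
      ring
  rw [id1 X, ← id2 X]
  refine (abs_add_le _ _).trans (add_le_add ?_ ?_)
  · rw [abs_mul, abs_of_nonneg (hw0 X)]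
    exact mul_le_mul_of_nonneg_right (h X le_rfl) (hw0 X)
  · refine (abs_sum_le_sum_abs _ _).trans (sum_le_sum fun i hi => ?_)
    have h1 : 0 ≤ w i - w (i + 1) := sub_nonneg.2 (hw (Nat.le_succ i))
    rw [abs_mul, abs_of_nonneg h1]
    exact mul_le_mul_of_nonneg_right (h (i + 1) (mem_range.1 hi)) h1

/-- primes up to `y` -/
def pr (y : ℕ) : Finset ℕ := (range (y + 1)).filter Nat.Prime

theorem mem_pr {y p : ℕ} : p ∈ pr y ↔ p.Prime ∧ p ≤ y := by
  unfold pr
  rw [mem_filter, mem_range]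
  constructor
  · rintro ⟨h1, h2⟩
    exact ⟨h2, by omega⟩
  · rintro ⟨h1, h2⟩
    exact ⟨by omega, h1⟩

theorem rs_nonneg (Q : Finset ℕ) : 0 ≤ rs Q := sum_nonneg fun p _ => by positivity

theorem rs_le {y z : ℕ} (hy : y ≤ z) : rs (pr y) ≤ 1 + Real.log z := by
  have h1 : rs (pr y) ≤ ((harmonic z : ℚ) : ℝ) := by
    rw [harmonic_eq_sum_Icc]
    push_cast
    unfold rs
    calc ∑ p ∈ pr y, 1 / (p : ℝ) ≤ ∑ p ∈ Icc 1 z, 1 / (p : ℝ) := by
          refine sum_le_sum_of_subset_of_nonneg (fun p hp => ?_) fun p _ _ => by positivity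
          rw [mem_pr] at hp
          rw [mem_Icc]
          exact ⟨hp.1.one_lt.le, hp.2.trans hy⟩
      _ = _ := sum_congr rfl fun p _ => one_div _
  exact h1.trans (harmonic_le_one_add_log z)

/-- The predicate `P` holds for a proportion `V` of every interval above `L`, with errors. -/
def Eqd (P : ℕ → Prop) (V e E : ℝ) (L : ℕ) : Prop :=
  ∀ A : ℕ, L ≤ A → ∀ K : ℕ, ∀ S : Finset ℕ, (∀ i, i ∈ S ↔ i < K ∧ P (A + i)) →
    |(S.card : ℝ) - V * K| ≤ e * K + E

theorem Eqd.mono {P : ℕ → Prop} {V e E e' E' : ℝ} {L L' : ℕ} (h : Eqd P V e E L) (he : e ≤ e')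
    (hE : E ≤ E') (hL : L ≤ L') : Eqd P V e' E' L' := by
  intro A hA K S hS
  refine (h A (hL.trans hA) K S hS).trans (add_le_add ?_ hE)
  exact mul_le_mul_of_nonneg_right he (Nat.cast_nonneg K)

/-- **decreasing weights** -/
theorem Eqd.weights {P : ℕ → Prop} [DecidablePred P] {V e E : ℝ} {L : ℕ} (h : Eqd P V e E L)
    {A : ℕ} (hA : L ≤ A) (X : ℕ) {w : ℕ → ℝ} (hw : Antitone w) (hw0 : ∀ i, 0 ≤ w i) :
    |∑ i ∈ range X, (if P (A + i) then w i else 0) - V * ∑ i ∈ range X, w i| ≤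
      e * ∑ i ∈ range X, w i + E * w 0 := by
  have key : ∀ K ≤ X, |∑ i ∈ range K, ((if P (A + i) then (1 : ℝ) else 0) - V)| ≤ e * K + E := by
    intro K _
    have h1 := h A hA K ((range K).filter fun i => P (A + i)) (fun i => by
      rw [mem_filter, mem_range])
    rw [card_filter] at h1
    push_cast at h1
    rw [sum_sub_distrib, sum_const, card_range, nsmul_eq_mul, mul_comm (K : ℝ)]
    exact h1
  have h3 := abel hw hw0 X key
  have e : ∑ i ∈ range X, ((if P (A + i) then (1 : ℝ) else 0) - V) * w i =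
      ∑ i ∈ range X, (if P (A + i) then w i else 0) - V * ∑ i ∈ range X, w i := by
    rw [mul_sum, ← sum_sub_distrib]
    refine sum_congr rfl fun i _ => ?_
    split_ifs <;> ring
  rw [e] at h3
  exact h3

end Pool.Agent.MFN
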