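import Pool.Agent.MFN.UFin

/-!
# MFN / UBase: typical bases, uniformly in the bound for the least prime factor
-/

set_option autoImplicit false

namespace Pool.Agent.MFN

open Finset Filter

theorem NQ_of_lt' {k b s : ℕ} {L : ℝ} (hs : (s : ℝ) ≤ L) {Q : Finset ℕ} (hQ : Q ⊆ pr (2 ^ s))
    (h : (2 : ℝ) ^ L < ((b ^ 2 ^ k + 1).minFac : ℝ)) : NQ k Q b := by
  intro p hp hd
  have hp' := mem_pr.1 (hQ hp)
  have h1 := Nat.minFac_le_of_dvd hp'.1.two_le hd
  have h2 : ((b ^ 2 ^ k + 1).minFac : ℝ) ≤ ((2 ^ s : ℕ) : ℝ) := by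
    exact_mod_cast h1.trans hp'.2
  have h3 : ((2 ^ s : ℕ) : ℝ) ≤ (2 : ℝ) ^ L := by
    push_cast
    rw [← Real.rpow_natCast]
    exact Real.rpow_le_rpow_of_exponent_le (by norm_num) hs
  linarith

/-- the sizes -/
theorem ev_size {x : ℝ} (hx : 0 < x) (hx1 : x ≤ 1) : ∃ L₀ : ℝ, 1 ≤ L₀ ∧ ∀ L : ℝ, L₀ ≤ L →
    2 * L ^ (1 - x) * (4 * Real.log L + 9) + 2 * Real.log L ≤ L ∧ 2 ≤ L ^ (1 - x) ∨ x = 1 := by
  by_cases h : x = 1
  · exact ⟨1, le_rfl, fun L _ => Or.inr h⟩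
  · have hx1' : x < 1 := lt_of_le_of_ne hx1 h
    have h1 := (isLittleO_log_rpow_atTop hx).bound (show (0 : ℝ) < 1 / 32 by norm_num)
    have h2 : ∀ᶠ L : ℝ in atTop, 72 ≤ L ^ x := (tendsto_rpow_atTop hx).eventually_ge_atTop 72
    have h3 : ∀ᶠ L : ℝ in atTop, 2 ≤ L ^ (1 - x) :=
      (tendsto_rpow_atTop (by linarith)).eventually_ge_atTop 2
    obtain ⟨L₀, hL₀⟩ := eventually_atTop.1 (((h1.and h2).and h3).and (eventually_ge_atTop 1))
    refine ⟨max 1 L₀, le_max_left _ _, fun L hL => Or.inl ?_⟩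
    obtain ⟨⟨⟨a1, a2⟩, a3⟩, a4⟩ := hL₀ L ((le_max_right _ _).trans hL)
    have hL0 : 0 < L := by linarith
    rw [Real.norm_of_nonneg (Real.rpow_nonneg hL0.le _)] at a1
    have b1 := (Real.le_norm_self _).trans a1
    have b2 : L ^ (1 - x) * L ^ x = L := by
      rw [← Real.rpow_add hL0]
      simp
    have b3 : 0 ≤ L ^ (1 - x) := by positivity
    have b4 : 2 * (4 * Real.log L + 9) ≤ 1 / 2 * L ^ x := by linarith
    have b5 : 2 * L ^ (1 - x) * (4 * Real.log L + 9) ≤ 1 / 2 * L := by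
      calc 2 * L ^ (1 - x) * (4 * Real.log L + 9) = L ^ (1 - x) * (2 * (4 * Real.log L + 9)) := by
            ring
        _ ≤ L ^ (1 - x) * (1 / 2 * L ^ x) := mul_le_mul_of_nonneg_left b4 b3
        _ = 1 / 2 * (L ^ (1 - x) * L ^ x) := by ring
        _ = _ := by rw [b2]
    have b6 : 2 * Real.log L ≤ 1 / 2 * L := by
      have c1 : L ^ x ≤ L := by
        calc L ^ x ≤ L ^ (1 : ℝ) := Real.rpow_le_rpow_of_exponent_le a4 hx1
          _ = L := Real.rpow_one L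
      linarith
    exact ⟨by linarith, a3⟩

/-- **Typical bases.** -/
theorem V_unif {ε : ℝ} (hε : 0 < ε) : ∃ C : ℝ, 0 < C ∧ ∀ (n : ℕ) (L : ℝ) (A X : ℕ), 1 ≤ n →
    1 ≤ L → (2 : ℝ) ^ L ≤ X →
    (((Ico A (A + X)).filter fun b => (2 : ℝ) ^ L < ((b ^ 2 ^ n + 1).minFac : ℝ)).card : ℝ) ≤
      C * X * ((n : ℝ) ^ (1 + ε) / L ^ (1 - ε)) := by
  classical
  set e : ℝ := min ε (1 / 4) with he
  have he0 : 0 < e := lt_min hε (by norm_num)
  have he1 : e ≤ 1 / 4 := min_le_right _ _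
  have heε : e ≤ ε := min_le_left _ _
  set η : ℝ := e / 4 with hη
  set κ : ℝ := 1 + e / 2 with hκ
  have hη0 : 0 < η := by positivity
  obtain ⟨A₀, hA₀, hR⟩ := R_up (η := η) (κ := κ) hη0 (by linarith)
  obtain ⟨L₀, hL₀, hsz⟩ := ev_size hη0 (by linarith)
  have hl2 : 0 < Real.log 2 := Real.log_pos (by norm_num)
  refine ⟨L₀ + 300 * A₀, by positivity, fun n L A X hn hL hX => ?_⟩
  have hn1 : (1 : ℝ) ≤ n := by exact_mod_cast hn
  have hn0 : (0 : ℝ) < n := by linarith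
  have hL0 : 0 < L := by linarith
  have hX0 : (0 : ℝ) ≤ X := Nat.cast_nonneg X
  -- comparison with the exponent `e`
  set T : ℝ := (n : ℝ) ^ (1 + e) / L ^ (1 - e) with hT
  have hT0 : 0 < T := by positivity
  have hTε : T ≤ (n : ℝ) ^ (1 + ε) / L ^ (1 - ε) := by
    refine div_le_div₀ (by positivity) ?_ (by positivity) ?_
    · exact Real.rpow_le_rpow_of_exponent_le hn1 (by linarith)
    · exact Real.rpow_le_rpow_of_exponent_le hL (by linarith)
  suffices h : (((Ico A (A + X)).filter fun b =>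
      (2 : ℝ) ^ L < ((b ^ 2 ^ n + 1).minFac : ℝ)).card : ℝ) ≤ (L₀ + 300 * A₀) * X * T by
    exact h.trans (mul_le_mul_of_nonneg_left hTε (by positivity))
  -- the trivial bound
  have htriv : (((Ico A (A + X)).filter fun b =>
      (2 : ℝ) ^ L < ((b ^ 2 ^ n + 1).minFac : ℝ)).card : ℝ) ≤ X := by
    have h1 := card_filter_le (Ico A (A + X)) fun b =>
      (2 : ℝ) ^ L < ((b ^ 2 ^ n + 1).minFac : ℝ)
    rw [Nat.card_Ico, Nat.add_sub_cancel_left] at h1
    exact_mod_cast h1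
  have htr : ∀ c : ℝ, 0 < c → c ≤ L₀ + 300 * A₀ → 1 ≤ c * T →
      (((Ico A (A + X)).filter fun b =>
      (2 : ℝ) ^ L < ((b ^ 2 ^ n + 1).minFac : ℝ)).card : ℝ) ≤ (L₀ + 300 * A₀) * X * T := by
    intro c hc hc1 hcT
    refine htriv.trans ?_
    have h1 : 1 ≤ (L₀ + 300 * A₀) * T := hcT.trans (mul_le_mul_of_nonneg_right hc1 hT0.le)
    nlinarith
  have hLe : L ^ (1 - η) ≤ L := by
    calc L ^ (1 - η) ≤ L ^ (1 : ℝ) := Real.rpow_le_rpow_of_exponent_le hL (by linarith)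
      _ = L := Real.rpow_one L
  have hLee : L ^ (1 - e) ≤ L ^ (1 - η) := Real.rpow_le_rpow_of_exponent_le hL (by linarith)
  have hLep : 0 < L ^ (1 - e) := by positivity
  by_cases c1 : L < L₀
  · refine htr L₀ (by linarith) (by linarith) ?_
    rw [hT, ← mul_div_assoc, le_div_iff₀ hLep, one_mul]
    have h1 : (1 : ℝ) ≤ (n : ℝ) ^ (1 + e) := Real.one_le_rpow hn1 (by linarith)
    have h2 : L ^ (1 - e) ≤ L₀ := by linarith
    nlinarith
  push Not at c1
  obtain ⟨z1, z2⟩ : 2 * L ^ (1 - η) * (4 * Real.log L + 9) + 2 * Real.log L ≤ L ∧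
      2 ≤ L ^ (1 - η) := by
    rcases hsz L c1 with h | h
    · exact h
    · exfalso
      linarith
  set s : ℕ := ⌊L ^ (1 - η)⌋₊ with hs
  have hs1 : (s : ℝ) ≤ L ^ (1 - η) := Nat.floor_le (by positivity)
  have hs2 : L ^ (1 - η) / 2 ≤ s := by
    have := Nat.lt_floor_add_one (L ^ (1 - η))
    linarith
  have hs0 : (1 : ℝ) ≤ s := by linarith
  have hs0' : 1 ≤ s := by exact_mod_cast hs0
  by_cases c2 : s < n
  · refine htr 1 one_pos (by linarith) ?_
    rw [hT, one_mul, le_div_iff₀ hLep, one_mul]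
    have h1 : L ^ (1 - η) < n := (Nat.floor_lt (by positivity)).1 c2
    have h2 : (n : ℝ) ≤ (n : ℝ) ^ (1 + e) := by
      calc (n : ℝ) = (n : ℝ) ^ (1 : ℝ) := (Real.rpow_one _).symm
        _ ≤ _ := Real.rpow_le_rpow_of_exponent_le hn1 (by linarith)
    linarith
  push Not at c2
  set J : ℝ := (s : ℝ) * Real.log 2 / (1 + η) with hJ
  have hJ0 : 0 < J := by positivity
  -- size of the threshold
  have hκ1 : 1 < κ := by rw [hκ]; linarith
  have hκ2 : κ ≤ 2 := by rw [hκ]; linarith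
  have hthr : A₀ * ((n : ℝ) + 4) ^ κ ≤ 25 * A₀ * (n : ℝ) ^ κ := by
    have h1 : ((n : ℝ) + 4) ^ κ ≤ (5 * n) ^ κ :=
      Real.rpow_le_rpow (by linarith) (by linarith) (by linarith)
    have h2 : (5 * (n : ℝ)) ^ κ ≤ 25 * (n : ℝ) ^ κ := by
      rw [Real.mul_rpow (by norm_num) hn0.le]
      refine mul_le_mul_of_nonneg_right ?_ (by positivity)
      calc (5 : ℝ) ^ κ ≤ (5 : ℝ) ^ (2 : ℝ) := Real.rpow_le_rpow_of_exponent_le (by norm_num) hκ2
        _ = 25 := by norm_num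
    calc A₀ * ((n : ℝ) + 4) ^ κ ≤ A₀ * (25 * (n : ℝ) ^ κ) :=
          mul_le_mul_of_nonneg_left (h1.trans h2) (by linarith)
      _ = _ := by ring
  have hJL : L ^ (1 - η) ≤ 4 * J := by
    rw [hJ]
    have h1 := Real.log_two_gt_d9
    have h2 : (s : ℝ) / 2 ≤ (s : ℝ) * Real.log 2 / (1 + η) := by
      rw [div_le_div_iff₀ (by norm_num) (by linarith)]
      nlinarith
    linarith
  have hnκ : (n : ℝ) ^ κ ≤ (n : ℝ) ^ (1 + e) := Real.rpow_le_rpow_of_exponent_le hn1 (by linarith)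
  by_cases c3 : J < A₀ * ((n : ℝ) + 4) ^ κ
  · refine htr (100 * A₀) (by linarith) (by linarith) ?_
    rw [hT, ← mul_div_assoc, le_div_iff₀ hLep, one_mul]
    have h1 : L ^ (1 - η) ≤ 100 * A₀ * (n : ℝ) ^ κ := by linarith
    have h2 : 100 * A₀ * (n : ℝ) ^ κ ≤ 100 * A₀ * (n : ℝ) ^ (1 + e) :=
      mul_le_mul_of_nonneg_left hnκ (by linarith)
    linarith
  push Not at c3
  have hAn0 : 0 < A₀ * ((n : ℝ) + 4) ^ κ := by positivity
  set L' : ℝ := (1 - η) * (Real.log J - Real.log (A₀ * ((n : ℝ) + 4) ^ κ)) with hL'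
  have hη1 : η ≤ 1 / 16 := by rw [hη]; linarith
  have hL'0 : 0 ≤ L' :=
    mul_nonneg (by linarith) (sub_nonneg.2 (Real.log_le_log hAn0 c3))
  have hy : Real.exp ((1 + η) * J) ≤ ((2 ^ s : ℕ) : ℝ) := by
    have h1 : (1 + η) * J = (s : ℝ) * Real.log 2 := by
      rw [hJ]
      field_simp
    rw [h1, ← Real.log_pow, Real.exp_log (by positivity)]
    push_cast
    exact le_rfl
  have hRn := hR n J (2 ^ s) c3 hy
  rw [← hL'] at hRn
  obtain ⟨Q, hQ1, hQ2, hQ3⟩ := subset_sum (f := fun p => (rho n p : ℝ) / p) (L := L')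
    (fun p hp => t_bounds (mem_pr.1 hp).1) hL'0 hRn
  have hE := eqd_q (k := n) (s := s) c2 hs0' hQ1 hQ3
  have hV := prod_le_exp (k := n) (fun p hp => (mem_pr.1 (hQ1 hp)).1) hQ2
  set S := (range X).filter fun i => NQ n Q (A + i) with hS
  have hSm : ∀ i, i ∈ S ↔ i < X ∧ NQ n Q (A + i) := by
    intro i
    rw [hS, mem_filter, mem_range]
  have h5 := hE A (Nat.zero_le _) X S hSm
  have hsL : (s : ℝ) ≤ L := hs1.trans hLe
  have h6 : ((Ico A (A + X)).filter fun b =>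
      (2 : ℝ) ^ L < ((b ^ 2 ^ n + 1).minFac : ℝ)).card ≤ S.card := by
    refine card_le_card_of_injOn (fun b => b - A) ?_ ?_
    · intro b hb
      simp only [coe_filter, mem_Ico, Set.mem_ofPred_eq] at hb
      have : b - A ∈ S := by
        rw [hSm]
        refine ⟨by omega, ?_⟩
        rw [Nat.add_sub_cancel' hb.1.1]
        exact NQ_of_lt' hsL hQ1 hb.2
      simpa using this
    · intro b hb c hc hbc
      simp only [coe_filter, mem_Ico, Set.mem_ofPred_eq] at hb hc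
      simp only at hbc
      omega
  have h6' : (((Ico A (A + X)).filter fun b =>
      (2 : ℝ) ^ L < ((b ^ 2 ^ n + 1).minFac : ℝ)).card : ℝ) ≤ S.card := by
    exact_mod_cast h6
  -- sizes
  have hlogL0 : 0 ≤ Real.log L := Real.log_nonneg hL
  have hL'L : L' ≤ Real.log L := by
    have h1 : Real.log J ≤ Real.log L := by
      refine Real.log_le_log hJ0 ?_
      rw [hJ, div_le_iff₀ (by linarith)]
      have := Real.log_two_lt_d9
      nlinarith
    have h2 : 0 ≤ Real.log (A₀ * ((n : ℝ) + 4) ^ κ) := by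
      refine Real.log_nonneg ?_
      have h3 : (1 : ℝ) ≤ ((n : ℝ) + 4) ^ κ := Real.one_le_rpow (by linarith) (by linarith)
      nlinarith
    have h3 : Real.log J - Real.log (A₀ * ((n : ℝ) + 4) ^ κ) ≤ Real.log L := by linarith
    have h4 : 0 ≤ Real.log J - Real.log (A₀ * ((n : ℝ) + 4) ^ κ) :=
      sub_nonneg.2 (Real.log_le_log hAn0 c3)
    rw [hL']
    nlinarith
  have hEX : (2 : ℝ) ^ (2 * s * (2 * ⌈2 * (L' + 1)⌉₊ + 3)) ≤ Real.exp (-L') * X := by
    have h1 : Real.exp L' ≤ (2 : ℝ) ^ (2 * L') := by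
      rw [Real.rpow_def_of_pos (by norm_num : (0 : ℝ) < 2)]
      refine Real.exp_le_exp.2 ?_
      have := Real.log_two_gt_d9
      nlinarith
    have h2 : Real.exp L' * (2 : ℝ) ^ (2 * s * (2 * ⌈2 * (L' + 1)⌉₊ + 3)) ≤ X := by
      refine le_trans ?_ hX
      rw [← Real.rpow_natCast 2 (2 * s * (2 * ⌈2 * (L' + 1)⌉₊ + 3))]
      refine (mul_le_mul_of_nonneg_right h1 (by positivity)).trans ?_
      rw [← Real.rpow_add (by norm_num)]
      refine Real.rpow_le_rpow_of_exponent_le (by norm_num) ?_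
      push_cast
      have h5 : (⌈2 * (L' + 1)⌉₊ : ℝ) ≤ 2 * (L' + 1) + 1 := (Nat.ceil_lt_add_one (by positivity)).le
      have h6 : 2 * (s : ℝ) * (2 * ⌈2 * (L' + 1)⌉₊ + 3) ≤
          2 * L ^ (1 - η) * (4 * Real.log L + 9) := by
        refine mul_le_mul (by linarith) (by linarith) (by positivity) (by positivity)
      linarith
    have h3 : Real.exp (-L') * Real.exp L' = 1 := by
      rw [← Real.exp_add, neg_add_cancel, Real.exp_zero]
    calc (2 : ℝ) ^ (2 * s * (2 * ⌈2 * (L' + 1)⌉₊ + 3)) =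
        Real.exp (-L') * (Real.exp L' * (2 : ℝ) ^ (2 * s * (2 * ⌈2 * (L' + 1)⌉₊ + 3))) := by
          rw [← mul_assoc, h3, one_mul]
      _ ≤ Real.exp (-L') * X := mul_le_mul_of_nonneg_left h2 (Real.exp_pos _).le
  have hexp : Real.exp (-L') ≤ 100 * A₀ * T := by
    have h1 : Real.exp (-L') = (A₀ * ((n : ℝ) + 4) ^ κ / J) ^ (1 - η) := by
      rw [Real.rpow_def_of_pos (by positivity), Real.log_div hAn0.ne' hJ0.ne', hL']
      congr 1
      ring
    have h2 : A₀ * ((n : ℝ) + 4) ^ κ / J ≤ 100 * A₀ * (n : ℝ) ^ κ / L ^ (1 - η) := by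
      rw [div_le_div_iff₀ hJ0 (by positivity)]
      calc A₀ * ((n : ℝ) + 4) ^ κ * L ^ (1 - η) ≤ 25 * A₀ * (n : ℝ) ^ κ * (4 * J) :=
            mul_le_mul hthr hJL (by positivity) (by positivity)
        _ = _ := by ring
    have h3 : (A₀ * ((n : ℝ) + 4) ^ κ / J) ^ (1 - η) ≤
        (100 * A₀ * (n : ℝ) ^ κ / L ^ (1 - η)) ^ (1 - η) :=
      Real.rpow_le_rpow (by positivity) h2 (by linarith)
    have h4 : (100 * A₀ * (n : ℝ) ^ κ / L ^ (1 - η)) ^ (1 - η) =
        (100 * A₀) ^ (1 - η) * ((n : ℝ) ^ κ) ^ (1 - η) / (L ^ (1 - η)) ^ (1 - η) := by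
      rw [Real.div_rpow (by positivity) (by positivity), Real.mul_rpow (by positivity) (by positivity)]
    have h5 : (100 * A₀) ^ (1 - η) ≤ 100 * A₀ := by
      calc (100 * A₀) ^ (1 - η) ≤ (100 * A₀) ^ (1 : ℝ) :=
            Real.rpow_le_rpow_of_exponent_le (by linarith) (by linarith)
        _ = _ := Real.rpow_one _
    have h6 : ((n : ℝ) ^ κ) ^ (1 - η) ≤ (n : ℝ) ^ (1 + e) := by
      rw [← Real.rpow_mul hn0.le]
      refine Real.rpow_le_rpow_of_exponent_le hn1 ?_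
      rw [hκ]
      nlinarith
    have h7 : L ^ (1 - e) ≤ (L ^ (1 - η)) ^ (1 - η) := by
      rw [← Real.rpow_mul hL0.le]
      refine Real.rpow_le_rpow_of_exponent_le hL ?_
      rw [hη]
      nlinarith [sq_nonneg e]
    rw [h1]
    refine h3.trans ?_
    rw [h4, hT, ← mul_div_assoc]
    exact div_le_div₀ (by positivity) (mul_le_mul h5 h6 (by positivity) (by positivity)) hLep h7
  have h7 := (abs_le.1 h5).2
  have w1 := mul_le_mul_of_nonneg_right hV hX0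
  have w2 : (S.card : ℝ) ≤ 3 * (Real.exp (-L') * X) := by linarith
  have w3 : Real.exp (-L') * X ≤ 100 * A₀ * T * X := mul_le_mul_of_nonneg_right hexp hX0
  have w4 : 0 ≤ L₀ * X * T := by positivity
  calc (((Ico A (A + X)).filter fun b =>
      (2 : ℝ) ^ L < ((b ^ 2 ^ n + 1).minFac : ℝ)).card : ℝ) ≤ 3 * (Real.exp (-L') * X) :=
        h6'.trans w2
    _ ≤ (L₀ + 300 * A₀) * X * T := by nlinarith

end Pool.Agent.MFN
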