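import Pool.Agent.MFN.UGauss

/-!
# MFN / UChar: prime powers `≡ 1 (mod 2^m)` with Gaussian weights: the sum over the characters
-/

set_option autoImplicit false

namespace Pool.Agent.MFN

open ArithmeticFunction Finset Filter

/-- `n ≡ 1 (mod 8)` is a square modulo every power of two -/
theorem sq_mod {n : ℤ} (hn : (8 : ℤ) ∣ n - 1) (m : ℕ) :
    ∃ u : ℤ, Odd u ∧ (2 : ℤ) ^ (m + 3) ∣ u ^ 2 - n := by
  induction m with
  | zero =>
    refine ⟨1, odd_one, ?_⟩
    have h1 : (1 : ℤ) ^ 2 - n = -(n - 1) := by ring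
    rw [h1, dvd_neg]
    norm_num
    exact hn
  | succ m ih =>
    obtain ⟨u, hu, q, hq⟩ := ih
    rcases Int.even_or_odd q with he | ho
    · obtain ⟨r, hr⟩ := he
      refine ⟨u, hu, r, ?_⟩
      rw [hq, hr]
      ring
    · obtain ⟨r, hr⟩ := ho.add_odd hu
      refine ⟨u + 2 ^ (m + 2), ?_, r + 2 ^ m, ?_⟩
      · refine hu.add_even ?_
        rw [pow_succ]
        exact even_two.mul_left _
      · have h1 : (u + 2 ^ (m + 2)) ^ 2 - n = (u ^ 2 - n) + 2 ^ (m + 3) * u + 2 ^ (m + 3) * 2 ^ (m + 1) := by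
          ring
        rw [h1, hq]
        have h2 : (2 : ℤ) ^ (m + 3) * q + 2 ^ (m + 3) * u + 2 ^ (m + 3) * 2 ^ (m + 1) =
            2 ^ (m + 3) * (q + u + 2 ^ (m + 1)) := by ring
        rw [h2, hr]
        ring

section

variable {M : ℕ} [NeZero M]

open Classical in
/-- the real characters -/
noncomputable def HH (M : ℕ) [NeZero M] : Finset (DirichletCharacter ℂ M) :=
  univ.filter fun χ => χ ^ 2 = 1

theorem mem_HH {χ : DirichletCharacter ℂ M} : χ ∈ HH M ↔ χ ^ 2 = 1 := by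
  unfold HH
  rw [mem_filter]
  exact and_iff_right (mem_univ _)

theorem one_mem_HH : (1 : DirichletCharacter ℂ M) ∈ HH M := mem_HH.2 (one_pow 2)

theorem HH_re {χ : DirichletCharacter ℂ M} (hχ : χ ^ 2 = 1) (a : ZMod M) (h1 : χ a ≠ -1) :
    0 ≤ (χ a).re := by
  have h2 : (χ a) ^ 2 = (1 : DirichletCharacter ℂ M) a := by
    rw [← MulChar.pow_apply' _ two_ne_zero, hχ]
  by_cases ha : IsUnit a
  · rw [MulChar.one_apply ha, sq_eq_one_iff] at h2
    rcases h2 with h2 | h2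
    · rw [h2]; simp
    · exact absurd h2 h1
  · rw [MulChar.map_nonunit _ ha]
    simp

theorem Q_nonneg (a : ZMod M) : 0 ≤ (∑ χ ∈ HH M, χ a).re := by
  by_cases h : ∃ ψ ∈ HH M, ψ a = -1
  · obtain ⟨ψ, hψ, hψa⟩ := h
    have hψ2 := mem_HH.1 hψ
    have h1 : ∑ χ ∈ HH M, χ a = ∑ χ ∈ HH M, (χ * ψ) a := by
      refine (sum_nbij' (fun χ => χ * ψ) (fun χ => χ * ψ) ?_ ?_ ?_ ?_ ?_).symm
      · intro χ hχ
        rw [mem_HH] at hχ ⊢
        rw [mul_pow, hχ, hψ2, one_mul]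
      · intro χ hχ
        rw [mem_HH] at hχ ⊢
        rw [mul_pow, hχ, hψ2, one_mul]
      · intro χ _
        rw [mul_assoc, ← sq, hψ2, mul_one]
      · intro χ _
        rw [mul_assoc, ← sq, hψ2, mul_one]
      · intro χ _
        rfl
    have h2 : ∑ χ ∈ HH M, (χ * ψ) a = -∑ χ ∈ HH M, χ a := by
      rw [← sum_neg_distrib]
      refine sum_congr rfl fun χ _ => ?_
      rw [MulChar.mul_apply, hψa, mul_neg_one]
    rw [h2] at h1
    have h3 : ∑ χ ∈ HH M, χ a = 0 := self_eq_neg.1 h1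
    rw [h3, Complex.zero_re]
  · push Not at h
    rw [Complex.re_sum]
    exact sum_nonneg fun χ hχ => HH_re (mem_HH.1 hχ) a (h χ hχ)

theorem Q_ge_card {a : ZMod M} (ha : ∃ u : ZMod M, IsUnit u ∧ u ^ 2 = a) :
    (∑ χ ∈ HH M, χ a).re = (HH M).card := by
  obtain ⟨u, hu, rfl⟩ := ha
  rw [Complex.re_sum]
  have h1 : ∀ χ ∈ HH M, (χ (u ^ 2)).re = 1 := by
    intro χ hχ
    have h2 : χ (u ^ 2) = 1 := by
      rw [map_pow, ← MulChar.pow_apply' _ two_ne_zero, mem_HH.1 hχ, MulChar.one_apply hu]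
    rw [h2, Complex.one_re]
  rw [sum_congr rfl h1, sum_const, nsmul_eq_mul, mul_one]

end

theorem card_char {M : ℕ} [NeZero M] : Fintype.card (DirichletCharacter ℂ M) = M.totient := by
  rw [← Nat.card_eq_fintype_card]
  exact DirichletCharacter.card_eq_totient_of_hasEnoughRootsOfUnity ℂ M

theorem sq_eight (χ : DirichletCharacter ℂ 8) : χ ^ 2 = 1 := by
  refine MulChar.ext fun u => ?_
  have h1 : ∀ u : (ZMod 8)ˣ, u ^ 2 = 1 := by decide
  rw [MulChar.pow_apply' _ two_ne_zero, ← map_pow, ← Units.val_pow_eq_pow_val, h1 u,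
    MulChar.one_apply_coe, Units.val_one, map_one]

theorem HH_card (m : ℕ) : 4 ≤ (HH (2 ^ (m + 3))).card := by
  classical
  have hd : 8 ∣ 2 ^ (m + 3) := ⟨2 ^ m, by ring⟩
  have hinj := DirichletCharacter.changeLevel_injective (R := ℂ) hd
  have h1 : (univ : Finset (DirichletCharacter ℂ 8)).image (DirichletCharacter.changeLevel hd) ⊆
      HH (2 ^ (m + 3)) := by
    intro ψ hψ
    rw [mem_image] at hψ
    obtain ⟨χ, -, rfl⟩ := hψ
    rw [mem_HH, ← map_pow, sq_eight, map_one]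
  have h2 := card_le_card h1
  rw [card_image_of_injective _ hinj, card_univ, card_char] at h2
  have h3 : (8 : ℕ).totient = 4 := by decide
  rwa [h3] at h2

theorem Q_ge (m : ℕ) {n : ℕ} (hn : (n : ZMod 8) = 1) :
    4 ≤ (∑ χ ∈ HH (2 ^ (m + 3)), χ (n : ZMod (2 ^ (m + 3)))).re := by
  suffices h : (∑ χ ∈ HH (2 ^ (m + 3)), χ (n : ZMod (2 ^ (m + 3)))).re = (HH (2 ^ (m + 3))).card by
    rw [h]
    exact_mod_cast HH_card m
  refine Q_ge_card ?_
  have h8 : (8 : ℤ) ∣ (n : ℤ) - 1 := by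
    have h1 : (((n : ℤ) - 1 : ℤ) : ZMod 8) = 0 := by
      push_cast
      rw [hn, sub_self]
    exact (ZMod.intCast_zmod_eq_zero_iff_dvd _ 8).1 h1
  obtain ⟨u, hu, hd⟩ := sq_mod h8 m
  refine ⟨(u : ZMod (2 ^ (m + 3))), ?_, ?_⟩
  · have h1 : IsCoprime u ((2 ^ (m + 3) : ℕ) : ℤ) := by
      push_cast
      exact (Int.isCoprime_iff_gcd_eq_one.2 (by
        rw [Int.gcd_comm, ← Int.isCoprime_iff_gcd_eq_one]
        exact (Int.isCoprime_two_left.2 hu))).pow_right
    exact (ZMod.coe_int_isUnit_iff_isCoprime u _).2 h1.symm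
  · have h1 : ((u ^ 2 - (n : ℤ) : ℤ) : ZMod (2 ^ (m + 3))) = 0 := by
      rw [ZMod.intCast_zmod_eq_zero_iff_dvd]
      push_cast
      exact hd
    push_cast at h1
    exact sub_eq_zero.1 h1

/-- the weights -/
noncomputable def gs (w : ℝ) (n : ℕ) : ℝ :=
  vonMangoldt n / n * Real.exp (-(Real.log n - w) ^ 2 / 2)

theorem gs_nonneg (w : ℝ) (n : ℕ) : 0 ≤ gs w n := by
  unfold gs
  have := vonMangoldt_nonneg (n := n)
  positivity

theorem summ_two : Summable fun n : ℕ => vonMangoldt n / (n : ℝ) ^ 2 := by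
  have h1 := (LSeriesSummable_vonMangoldt (s := (2 : ℂ)) (by norm_num)).norm
  refine h1.congr fun n => ?_
  rw [LSeries.norm_term_eq]
  rcases Nat.eq_zero_or_pos n with rfl | hn
  · simp
  · rw [if_neg hn.ne']
    simp [Real.norm_of_nonneg vonMangoldt_nonneg]

theorem gs_summable (w : ℝ) : Summable (gs w) := by
  refine Summable.of_nonneg_of_le (gs_nonneg w) (fun n => ?_)
    (summ_two.mul_left (Real.exp (w + 1 / 2)))
  unfold gs
  rcases Nat.eq_zero_or_pos n with rfl | hn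
  · simp
  have hn0 : (0 : ℝ) < n := by exact_mod_cast hn
  have h1 : Real.exp (-(Real.log n - w) ^ 2 / 2) ≤ Real.exp (w + 1 / 2) * (1 / n) := by
    have h2 : (1 : ℝ) / n = Real.exp (-Real.log n) := by
      rw [Real.exp_neg, Real.exp_log hn0, one_div]
    rw [h2, ← Real.exp_add]
    refine Real.exp_le_exp.2 ?_
    nlinarith [sq_nonneg (Real.log n - w - 1)]
  have h3 : 0 ≤ vonMangoldt n / (n : ℝ) := by
    have := vonMangoldt_nonneg (n := n)
    positivity
  calc vonMangoldt n / n * Real.exp (-(Real.log n - w) ^ 2 / 2) ≤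
      vonMangoldt n / n * (Real.exp (w + 1 / 2) * (1 / n)) := mul_le_mul_of_nonneg_left h1 h3
    _ = _ := by
      field_simp

/-- the sum over the prime powers `≡ 1 (mod M)` -/
noncomputable def SS (M : ℕ) (w : ℝ) : ℝ := ∑' n : ℕ, if (n : ZMod M) = 1 then gs w n else 0

theorem SS_summable (M : ℕ) (w : ℝ) :
    Summable fun n : ℕ => if (n : ZMod M) = 1 then gs w n else 0 := by
  refine Summable.of_nonneg_of_le (fun n => ?_) (fun n => ?_) (gs_summable w)
  · split_ifs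
    · exact gs_nonneg w n
    · exact le_rfl
  · split_ifs
    · exact le_rfl
    · exact gs_nonneg w n

section

variable {M : ℕ} [NeZero M]

omit [NeZero M] in
theorem ug_gs (χ : DirichletCharacter ℂ M) (w : ℝ) : ug χ w = ∑' n : ℕ, χ n * (gs w n : ℂ) := by
  unfold ug gs
  refine tsum_congr fun n => ?_
  push_cast
  ring

omit [NeZero M] in
theorem ug_summable (χ : DirichletCharacter ℂ M) (w : ℝ) :
    Summable fun n : ℕ => χ n * (gs w n : ℂ) := by
  refine Summable.of_norm_bounded (gs_summable w) fun n => ?_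
  rw [norm_mul, Complex.norm_real, Real.norm_of_nonneg (gs_nonneg w n)]
  exact mul_le_of_le_one_left (gs_nonneg w n) (DirichletCharacter.norm_le_one χ n)

omit [NeZero M] in
theorem sum_ug (s : Finset (DirichletCharacter ℂ M)) (w : ℝ) :
    (∑ χ ∈ s, ug χ w).re = ∑' n : ℕ, (∑ χ ∈ s, χ n).re * gs w n := by
  have h1 : ∑ χ ∈ s, ug χ w = ∑' n : ℕ, (∑ χ ∈ s, χ n) * (gs w n : ℂ) := by
    simp only [ug_gs]
    rw [← Summable.tsum_finsetSum fun χ _ => ug_summable χ w]
    refine tsum_congr fun n => ?_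
    rw [sum_mul]
  have h2 : Summable fun n : ℕ => (∑ χ ∈ s, χ n) * (gs w n : ℂ) := by
    have h3 : Summable fun n : ℕ => ∑ χ ∈ s, χ n * (gs w n : ℂ) :=
      summable_sum fun χ _ => ug_summable χ w
    refine h3.congr fun n => ?_
    rw [sum_mul]
  rw [h1, Complex.re_tsum h2]
  refine tsum_congr fun n => ?_
  rw [Complex.re_mul_ofReal]

omit [NeZero M] in
theorem sum_ug_summable (s : Finset (DirichletCharacter ℂ M)) (w : ℝ) :
    Summable fun n : ℕ => (∑ χ ∈ s, χ n).re * gs w n := by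
  have h3 : Summable fun n : ℕ => ∑ χ ∈ s, χ n * (gs w n : ℂ) :=
    summable_sum fun χ _ => ug_summable χ w
  refine (Complex.hasSum_re h3.hasSum).summable.congr fun n => ?_
  rw [← sum_mul, Complex.re_mul_ofReal]

theorem phi_SS (w : ℝ) : (M.totient : ℝ) * SS M w = (∑ χ : DirichletCharacter ℂ M, ug χ w).re := by
  rw [sum_ug]
  unfold SS
  rw [← tsum_mul_left]
  refine tsum_congr fun n => ?_
  rw [DirichletCharacter.sum_characters_eq]
  split_ifs with h
  · simp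
  · simp

end

/-- the lower bound, with an error from the complex characters -/
theorem SS_low1 (m : ℕ) {w B : ℝ} (hB0 : 0 ≤ B)
    (hB : ∀ χ : DirichletCharacter ℂ (2 ^ (m + 3)), χ ^ 2 ≠ 1 → ‖ug χ w‖ ≤ B) :
    4 * SS 8 w - ((2 ^ (m + 3) : ℕ).totient : ℝ) * B ≤ ((2 ^ (m + 3) : ℕ).totient : ℝ) * SS (2 ^ (m + 3)) w := by
  classical
  rw [phi_SS]
  have h1 : ∑ χ : DirichletCharacter ℂ (2 ^ (m + 3)), ug χ w = ∑ χ ∈ HH (2 ^ (m + 3)), ug χ w +
      ∑ χ ∈ univ \ HH (2 ^ (m + 3)), ug χ w := by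
    exact ((add_comm _ _).trans (Finset.sum_sdiff (f := fun χ => ug χ w)
      (Finset.subset_univ (HH (2 ^ (m + 3)))))).symm
  rw [h1, Complex.add_re]
  have h2 : 4 * SS 8 w ≤ (∑ χ ∈ HH (2 ^ (m + 3)), ug χ w).re := by
    rw [sum_ug]
    unfold SS
    rw [← tsum_mul_left]
    refine Summable.tsum_le_tsum (fun n => ?_) ((SS_summable 8 w).mul_left 4) (sum_ug_summable _ w)
    split_ifs with h
    · have h3 := Q_ge m h
      have h4 := gs_nonneg w n
      nlinarith
    · rw [mul_zero]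
      exact mul_nonneg (Q_nonneg _) (gs_nonneg w n)
  have h3 : -(((2 ^ (m + 3) : ℕ).totient : ℝ) * B) ≤ (∑ χ ∈ univ \ HH (2 ^ (m + 3)), ug χ w).re := by
    have h4 : |(∑ χ ∈ univ \ HH (2 ^ (m + 3)), ug χ w).re| ≤ ((2 ^ (m + 3) : ℕ).totient : ℝ) * B := by
      refine (Complex.abs_re_le_norm _).trans ((norm_sum_le _ _).trans ?_)
      calc ∑ χ ∈ univ \ HH (2 ^ (m + 3)), ‖ug χ w‖ ≤ ∑ χ ∈ univ \ HH (2 ^ (m + 3)), B := by
            refine sum_le_sum fun χ hχ => hB χ ?_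
            rw [Finset.mem_sdiff, mem_HH] at hχ
            exact hχ.2
        _ ≤ ∑ χ : DirichletCharacter ℂ (2 ^ (m + 3)), B :=
            sum_le_sum_of_subset_of_nonneg (subset_univ _) fun _ _ _ => hB0
        _ = _ := by rw [sum_const, nsmul_eq_mul, card_univ, card_char]
    linarith [(abs_le.1 h4).1]
  linarith

end Pool.Agent.MFN
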