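import Pool.Agent.MFN.Defs

/-!
# MFN / UDefs: the conclusion of Q1 for the base `b`
-/

set_option autoImplicit false

namespace Pool.Agent.MFN

/-- the least prime factor of `b^(2^n) + 1` is at most `2^L`, and `|a(n) - 2^n log₂ b| ≤ L + 1`
for the number `a(n)` of the base `b` -/
def Good (L : ℝ) (n b : ℕ) : Prop :=
  ((b ^ 2 ^ n + 1).minFac : ℝ) ≤ (2 : ℝ) ^ L ∧
    |(a 0 n b : ℝ) - 2 ^ n * Real.logb 2 b| ≤ L + 1

end Pool.Agent.MFN
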