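import Mathlib

/-!
# MFN / UNp: prime powers which are not primes
-/

set_option autoImplicit false

namespace Pool.Agent.MFN

open ArithmeticFunction

/-- the weights of the prime powers which are not primes -/
noncomputable def F0 (n : ℕ) : ℝ :=
  (if n.Prime then 0 else vonMangoldt n) * (n : ℝ) ^ (-(3 / 4) : ℝ)

private noncomputable def F1 (pk : Nat.Primes × ℕ) : ℝ := F0 (pk.1 ^ (pk.2 + 1))

private noncomputable def F2 : Nat.Primes × ℕ → ℝ := F1 ∘ (Prod.map _root_.id (· + 1))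

theorem F0_nonneg (n : ℕ) : 0 ≤ F0 n := by
  unfold F0
  split_ifs
  · simp
  · exact mul_nonneg vonMangoldt_nonneg (Real.rpow_nonneg (Nat.cast_nonneg n) _)

private theorem F2_le (p : Nat.Primes) (k : ℕ) :
    F2 (p, k) ≤ (8 * (p : ℝ) ^ (-(11 / 8) : ℝ)) * (3 / 4) ^ k := by
  have hp2 : (2 : ℝ) ≤ (p : ℝ) := by exact_mod_cast p.prop.two_le
  have hp0 : (0 : ℝ) < (p : ℝ) := by linarith
  have e1 : F2 (p, k) = Real.log p * ((p : ℝ) ^ (-(3 / 4) : ℝ)) ^ (k + 2) := by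
    have h1 : ¬ ((p : ℕ) ^ (k + 1 + 1)).Prime := Nat.Prime.not_prime_pow (by omega)
    simp only [F2, Function.comp_apply, F1, F0, Prod.map_apply, id_eq]
    rw [if_neg h1, vonMangoldt_apply_pow (by omega), vonMangoldt_apply_prime p.prop]
    congr 1
    push_cast
    rw [← Real.rpow_natCast, ← Real.rpow_natCast, ← Real.rpow_mul hp0.le, ← Real.rpow_mul hp0.le]
    congr 1
    push_cast
    ring
  have hx : (p : ℝ) ^ (-(3 / 4) : ℝ) ≤ 3 / 4 := by
    have h1 : (p : ℝ) ^ (-(3 / 4) : ℝ) ≤ (2 : ℝ) ^ (-(3 / 4) : ℝ) :=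
      Real.rpow_le_rpow_of_nonpos (by norm_num) hp2 (by norm_num)
    refine h1.trans ?_
    have h2 : ((2 : ℝ) ^ (-(3 / 4) : ℝ)) ^ 4 ≤ (3 / 4) ^ 4 := by
      rw [← Real.rpow_natCast, ← Real.rpow_mul (by norm_num)]
      norm_num
    exact le_of_pow_le_pow_left₀ (by norm_num) (by norm_num) h2
  have hx0 : 0 ≤ (p : ℝ) ^ (-(3 / 4) : ℝ) := Real.rpow_nonneg hp0.le _
  have hlog : Real.log p ≤ 8 * (p : ℝ) ^ (1 / 8 : ℝ) := by
    have h1 := Real.log_le_rpow_div hp0.le (by norm_num : (0 : ℝ) < 1 / 8)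
    refine h1.trans (le_of_eq ?_)
    ring
  have h3 : 8 * (p : ℝ) ^ (1 / 8 : ℝ) * ((p : ℝ) ^ (-(3 / 4) : ℝ)) ^ 2 =
      8 * (p : ℝ) ^ (-(11 / 8) : ℝ) := by
    rw [← Real.rpow_natCast, ← Real.rpow_mul hp0.le, mul_assoc, ← Real.rpow_add hp0]
    norm_num
  rw [e1, pow_add, ← h3]
  have h4 : ((p : ℝ) ^ (-(3 / 4) : ℝ)) ^ k ≤ (3 / 4) ^ k := pow_le_pow_left₀ hx0 hx k
  have h5 : 0 ≤ Real.log p := Real.log_nonneg (by linarith)
  calc Real.log p * (((p : ℝ) ^ (-(3 / 4) : ℝ)) ^ k * ((p : ℝ) ^ (-(3 / 4) : ℝ)) ^ 2) =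
      (Real.log p * ((p : ℝ) ^ (-(3 / 4) : ℝ)) ^ 2) * ((p : ℝ) ^ (-(3 / 4) : ℝ)) ^ k := by ring
    _ ≤ (8 * (p : ℝ) ^ (1 / 8 : ℝ) * ((p : ℝ) ^ (-(3 / 4) : ℝ)) ^ 2) * (3 / 4) ^ k := by
        refine mul_le_mul (mul_le_mul_of_nonneg_right hlog (by positivity)) h4 (by positivity)
          (by positivity)

private theorem F2_summ : Summable F2 := by
  have h1 : Summable fun p : Nat.Primes => 8 * (p : ℝ) ^ (-(11 / 8) : ℝ) :=
    (Nat.Primes.summable_rpow.mpr (by norm_num : (-(11 / 8) : ℝ) < -1)).mul_left 8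
  have h2 : Summable fun k : ℕ => (3 / 4 : ℝ) ^ k :=
    summable_geometric_of_lt_one (by norm_num) (by norm_num)
  have h3 := h1.mul_of_nonneg h2 (fun p => by positivity) (fun k => by positivity)
  refine Summable.of_nonneg_of_le (fun pk => ?_) (fun pk => F2_le pk.1 pk.2) h3
  exact F0_nonneg _

theorem F0_summ : Summable F0 := by
  have hF₀ (p : Nat.Primes) : F0 p.val = 0 := by
    simp only [p.prop, ↓reduceIte, zero_mul, F0]
  refine (summable_subtype_iff_indicator (s := {n | IsPrimePow n}).mp ?_).congr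
      fun n ↦ Set.indicator_apply_eq_self.mpr fun (hn : ¬ IsPrimePow n) ↦ ?_
  swap
  · have h0 : vonMangoldt n = 0 := (vonMangoldt_eq_zero_iff).2 hn
    simp [F0, h0]
  have hFF' :
      F0 ∘ Subtype.val (p := fun n ↦ n ∈ {n | IsPrimePow n}) = F1 ∘ ⇑Nat.Primes.prodNatEquiv.symm := by
    refine (Equiv.eq_comp_symm Nat.Primes.prodNatEquiv (F0 ∘ Subtype.val) F1).mpr ?_
    ext1 n
    simp only [Function.comp_apply, F1]
    congr
  rw [hFF']
  refine (Nat.Primes.prodNatEquiv.symm.summable_iff (f := F1)).mpr ?_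
  have hF'₀ (p : Nat.Primes) : F1 (p, 0) = 0 := by simp only [zero_add, pow_one, hF₀, F1]
  have hF'₁ : F2 = F1 ∘ (Prod.map _root_.id (· + 1)) := rfl
  refine (Function.Injective.summable_iff ?_ fun u hu ↦ ?_).mp <| hF'₁ ▸ F2_summ
  · exact Function.Injective.prodMap (fun ⦃a₁ a₂⦄ a ↦ a) <| add_left_injective 1
  · simp only [Set.range_prodMap, Set.range_id, Set.mem_prod, Set.mem_univ, Set.mem_range,
      Nat.exists_add_one_eq, true_and, not_lt, nonpos_iff_eq_zero] at hu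
    rw [← hF'₀ u.1, ← hu]

end Pool.Agent.MFN
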