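import Pool.Agent.MFN.UChar
import Pool.Agent.MFN.UNp
import Pool.Agent.VKZ.PrimeG
import Pool.Agent.VKC.PrimeC

/-!
# MFN / UEight: prime powers `≡ 1 (mod 8)` with Gaussian weights
-/

set_option autoImplicit false

namespace Pool.Agent.MFN

open ArithmeticFunction Filter Finset

/-- the exponentials -/
theorem exp_np {w x : ℝ} : Real.exp (-x) * Real.exp (-(x - w) ^ 2 / 2) ≤
    Real.exp (-(w / 4)) * (2 * Real.exp (-(3 / 4) * x)) := by
  have h32 : Real.exp (1 / 32) ≤ 2 := by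
    have h5 : Real.exp (1 / 32) ≤ Real.exp (Real.log 2) := by
      refine Real.exp_le_exp.2 ?_
      have := Real.log_two_gt_d9
      linarith
    rwa [Real.exp_log (by norm_num)] at h5
  have h4 : Real.exp (-x) * Real.exp (-(x - w) ^ 2 / 2) ≤
      Real.exp (-(w / 4)) * (Real.exp (1 / 32) * Real.exp (-(3 / 4) * x)) := by
    rw [← Real.exp_add, ← Real.exp_add, ← Real.exp_add]
    refine Real.exp_le_exp.2 ?_
    nlinarith [sq_nonneg (x - w + 1 / 4)]
  refine h4.trans ?_
  gcongr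

theorem gs_exp (w : ℝ) {n : ℕ} (hn : 0 < n) : gs w n = vonMangoldt n *
    (Real.exp (-Real.log n) * Real.exp (-(Real.log n - w) ^ 2 / 2)) := by
  have hn0 : (0 : ℝ) < n := by exact_mod_cast hn
  unfold gs
  rw [Real.exp_neg (Real.log n), Real.exp_log hn0]
  ring

theorem gs_np (w : ℝ) (n : ℕ) :
    gs w n ≤ Real.exp (-(w / 4)) * (2 * (vonMangoldt n * (n : ℝ) ^ (-(3 / 4) : ℝ))) := by
  rcases Nat.eq_zero_or_pos n with rfl | hn
  · unfold gs
    simp
  · have hn0 : (0 : ℝ) < n := by exact_mod_cast hn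
    rw [gs_exp w hn, Real.rpow_def_of_pos hn0, mul_comm (Real.log n)]
    have h1 := mul_le_mul_of_nonneg_left (exp_np (w := w) (x := Real.log n))
      (vonMangoldt_nonneg (n := n))
    refine h1.trans (le_of_eq ?_)
    ring

theorem gs_even (w : ℝ) {n : ℕ} (hn : ¬ n.Coprime 8) :
    gs w n ≤ Real.exp (-(w / 4)) * (2 * (F0 n + if n = 2 then 1 else 0)) := by
  refine (gs_np w n).trans ?_
  have h2 : vonMangoldt n * (n : ℝ) ^ (-(3 / 4) : ℝ) ≤ F0 n + if n = 2 then 1 else 0 := by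
    by_cases hp : n.Prime
    · have hn2 : n = 2 := by
        rcases hp.eq_two_or_odd' with h | h
        · exact h
        · exact absurd (Nat.Coprime.pow_right 3 h.coprime_two_right) hn
      subst hn2
      rw [if_pos rfl]
      have h3 := F0_nonneg 2
      have h4 : vonMangoldt 2 = Real.log 2 := vonMangoldt_apply_prime Nat.prime_two
      have h5 : ((2 : ℕ) : ℝ) ^ (-(3 / 4) : ℝ) ≤ 1 :=
        Real.rpow_le_one_of_one_le_of_nonpos (by norm_num) (by norm_num)
      have h6 : 0 ≤ ((2 : ℕ) : ℝ) ^ (-(3 / 4) : ℝ) := by positivity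
      have h7 : 0 < Real.log 2 := Real.log_pos (by norm_num)
      have h8 : Real.log 2 ≤ 1 := Real.log_two_lt_d9.le.trans (by norm_num)
      rw [h4]
      nlinarith
    · have h3 : (0 : ℝ) ≤ if n = 2 then 1 else 0 := by split_ifs <;> norm_num
      unfold F0
      rw [if_neg hp]
      linarith
  gcongr

/-- the principal character modulo `8` -/
theorem ug_one_low {ε : ℝ} (hε : 0 < ε) :
    ∀ᶠ w : ℝ in atTop, √(2 * Real.pi) - ε ≤ (ug (1 : DirichletCharacter ℂ 8) w).re := by
  obtain ⟨w₀, -, hz⟩ := VKZ.prime_gauss 0 1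
  set K : ℝ := ∑' n : ℕ, 2 * (F0 n + if n = 2 then 1 else 0) with hK
  have hs2 : Summable fun n : ℕ => (if n = 2 then (1 : ℝ) else 0) :=
    summable_of_ne_finset_zero (s := {2}) fun n hn => if_neg (by simpa using hn)
  have hKs : Summable fun n : ℕ => 2 * (F0 n + if n = 2 then 1 else 0) :=
    (F0_summ.add hs2).mul_left 2
  have h1 : Tendsto (fun w : ℝ => w ^ (-(1 : ℝ))) atTop (nhds 0) :=
    tendsto_rpow_neg_atTop (by norm_num)
  have h2 : Tendsto (fun w : ℝ => K * Real.exp (-(w / 4))) atTop (nhds (K * 0)) := by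
    refine Tendsto.const_mul _ ?_
    have h2 : Tendsto (fun w : ℝ => w / 4) atTop atTop := tendsto_id.atTop_div_const (by norm_num)
    exact Real.tendsto_exp_neg_atTop_nhds_zero.comp h2
  rw [mul_zero] at h2
  filter_upwards [h1.eventually_le_const (by linarith : 0 < ε / 2),
    h2.eventually_le_const (by linarith : 0 < ε / 2), eventually_ge_atTop w₀] with w hw1 hw2 hw3
  have h3 := hz w 0 hw3 (by simp)
  have hgs : VKZ.gs (fun n => vonMangoldt n) w 0 = ((∑' n : ℕ, gs w n : ℝ) : ℂ) := by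
    unfold VKZ.gs gs
    rw [Complex.ofReal_tsum]
    refine tsum_congr fun n => ?_
    have e : (-(1 + ((0 : ℝ) : ℂ) * Complex.I)) = ((-1 : ℤ) : ℂ) := by
      push_cast
      ring
    rw [e, Complex.cpow_intCast, zpow_neg_one]
    push_cast
    ring
  rw [hgs] at h3
  have h4 : √(2 * Real.pi) - ε / 2 ≤ ∑' n : ℕ, gs w n := by
    have h5 := (Complex.abs_re_le_norm _).trans h3
    have h6 : (((∑' n : ℕ, gs w n : ℝ) : ℂ) - Real.sqrt (2 * Real.pi) *
        Real.exp (-(0 : ℝ) ^ 2 / 2) * Complex.exp (-((0 : ℝ) * w * Complex.I))).re =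
        ∑' n : ℕ, gs w n - √(2 * Real.pi) := by
      simp
    rw [h6] at h5
    linarith [(abs_le.1 h5).1]
  have h5 : (ug (1 : DirichletCharacter ℂ 8) w).re = ∑' n : ℕ,
      ((1 : DirichletCharacter ℂ 8) n).re * gs w n := by
    have := sum_ug ({1} : Finset (DirichletCharacter ℂ 8)) w
    simpa using this
  have h6s : Summable fun n : ℕ => ((1 : DirichletCharacter ℂ 8) n).re * gs w n := by
    have := sum_ug_summable ({1} : Finset (DirichletCharacter ℂ 8)) w
    simpa using this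
  rw [h5]
  have h6 : ∑' n : ℕ, gs w n ≤ ∑' n : ℕ, (((1 : DirichletCharacter ℂ 8) n).re * gs w n +
      Real.exp (-(w / 4)) * (2 * (F0 n + if n = 2 then 1 else 0))) := by
    refine Summable.tsum_le_tsum (fun n => ?_) (gs_summable w) (h6s.add (hKs.mul_left _))
    have hF := F0_nonneg n
    have h7 : (0 : ℝ) ≤ if n = 2 then 1 else 0 := by split_ifs <;> norm_num
    have h8 : 0 ≤ Real.exp (-(w / 4)) * (2 * (F0 n + if n = 2 then 1 else 0)) := by positivity
    by_cases hn : n.Coprime 8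
    · have h9 : IsUnit ((n : ℕ) : ZMod 8) := (ZMod.isUnit_iff_coprime n 8).2 hn
      rw [MulChar.one_apply h9, Complex.one_re, one_mul]
      linarith
    · have h9 : ¬ IsUnit ((n : ℕ) : ZMod 8) := fun h => hn ((ZMod.isUnit_iff_coprime n 8).1 h)
      rw [MulChar.map_nonunit _ h9, Complex.zero_re, zero_mul, zero_add]
      exact gs_even w hn
  rw [(h6s).tsum_add (hKs.mul_left _), tsum_mul_left, ← hK] at h6
  linarith

/-- **Prime powers `≡ 1 (mod 8)`.** -/
theorem SS_eight {ε : ℝ} (hε : 0 < ε) : ∀ᶠ w : ℝ in atTop, √(2 * Real.pi) - ε ≤ 4 * SS 8 w := by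
  classical
  have h1 : ∀ χ : DirichletCharacter ℂ 8, χ ≠ 1 → ∀ᶠ w : ℝ in atTop, ‖ug χ w‖ ≤ ε / 8 := by
    intro χ hχ
    obtain ⟨w₀, -, hz⟩ := VKC.prime_gauss hχ 0 1
    have h1 : Tendsto (fun w : ℝ => w ^ (-(1 : ℝ))) atTop (nhds 0) :=
      tendsto_rpow_neg_atTop (by norm_num)
    filter_upwards [h1.eventually_le_const (by linarith : 0 < ε / 8), eventually_ge_atTop w₀]
      with w hw1 hw3
    have h3 := hz w 0 hw3 (by simp)
    have hgs : VKC.gc χ (fun n => vonMangoldt n) w 0 = ug χ w := by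
      unfold VKC.gc ug
      refine tsum_congr fun n => ?_
      have e : (-(1 + ((0 : ℝ) : ℂ) * Complex.I)) = ((-1 : ℤ) : ℂ) := by
        push_cast
        ring
      rw [e, Complex.cpow_intCast, zpow_neg_one]
      ring
    rw [hgs] at h3
    exact h3.trans hw1
  have h2 : ∀ᶠ w : ℝ in atTop, ∀ χ : DirichletCharacter ℂ 8, χ ≠ 1 → ‖ug χ w‖ ≤ ε / 8 := by
    rw [eventually_all]
    intro χ
    by_cases hχ : χ = 1
    · exact Eventually.of_forall fun w h => absurd hχ h
    · filter_upwards [h1 χ hχ] with w hw _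
      exact hw
  filter_upwards [h2, ug_one_low (by linarith : 0 < ε / 2)] with w hw1 hw2
  have h3 := phi_SS (M := 8) w
  have h4 : ((8 : ℕ).totient : ℝ) = 4 := by
    have : (8 : ℕ).totient = 4 := by decide
    rw [this]
    norm_num
  rw [h4] at h3
  rw [h3]
  have h5 : ∑ χ : DirichletCharacter ℂ 8, ug χ w = ug 1 w +
      ∑ χ ∈ (univ : Finset (DirichletCharacter ℂ 8)).erase 1, ug χ w :=
    (add_sum_erase _ _ (mem_univ _)).symm
  rw [h5, Complex.add_re]
  have h6 : |(∑ χ ∈ (univ : Finset (DirichletCharacter ℂ 8)).erase 1, ug χ w).re| ≤ 4 * (ε / 8) := by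
    refine (Complex.abs_re_le_norm _).trans ((norm_sum_le _ _).trans ?_)
    calc ∑ χ ∈ (univ : Finset (DirichletCharacter ℂ 8)).erase 1, ‖ug χ w‖ ≤
        ∑ χ ∈ (univ : Finset (DirichletCharacter ℂ 8)).erase 1, ε / 8 :=
          sum_le_sum fun χ hχ => hw1 χ (ne_of_mem_erase hχ)
      _ ≤ ∑ χ : DirichletCharacter ℂ 8, ε / 8 :=
          sum_le_sum_of_subset_of_nonneg (erase_subset _ _) fun _ _ _ => by positivity
      _ = _ := by rw [sum_const, nsmul_eq_mul, card_univ, card_char, h4]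
  linarith [(abs_le.1 h6).1]

end Pool.Agent.MFN
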