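import Pool.Agent.MFN.UFin

/-!
# MFN / UFlo: the numbers `a`
-/

set_option autoImplicit false

namespace Pool.Agent.MFN

open Finset Filter

/-- the number `⌊log₂ m⌋ - ⌊log₂ P⌋`, where `P` is the least prime factor of `m` -/
theorem a_gen {m : ℕ} (hm : 1 ≤ m) {T e x : ℝ} (he : 0 ≤ e) (hx : 0 ≤ x)
    (h1 : T - e ≤ Real.logb 2 m) (h2 : Real.logb 2 m ≤ T + 1)
    (h : (m.minFac : ℝ) ≤ (2 : ℝ) ^ x) :
    |((Nat.log 2 m - Nat.log 2 m.minFac : ℕ) : ℝ) - T| ≤ x + 1 + e := by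
  have hP1 : 1 ≤ m.minFac := Nat.minFac_pos _
  have hle : Nat.log 2 m.minFac ≤ Nat.log 2 m := Nat.log_mono_right (Nat.minFac_le hm)
  rw [Nat.cast_sub hle]
  have g1 : (Nat.log 2 m : ℝ) ≤ Real.logb 2 m := by exact_mod_cast Real.natLog_le_logb m 2
  have g2 : Real.logb 2 m < Nat.log 2 m + 1 := by
    have h3 := Nat.lt_floor_add_one (Real.logb 2 m)
    have h4 : ⌊Real.logb 2 m⌋₊ = Nat.log 2 m := by exact_mod_cast Real.natFloor_logb_natCast 2 m
    rwa [h4] at h3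
  have g3 : (Nat.log 2 m.minFac : ℝ) ≤ x := by
    have g4 : (Nat.log 2 m.minFac : ℝ) ≤ Real.logb 2 m.minFac := by
      exact_mod_cast Real.natLog_le_logb m.minFac 2
    have g5 : Real.logb 2 m.minFac ≤ x := by
      rw [Real.logb_le_iff_le_rpow (by norm_num) (by exact_mod_cast hP1)]
      exact h
    linarith
  have g6 : (0 : ℝ) ≤ Nat.log 2 m.minFac := Nat.cast_nonneg _
  rw [abs_le]
  constructor <;> linarith

/-- the number `a` for integral bases -/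
theorem a_base {b n : ℕ} {x : ℝ} (hx : 0 ≤ x)
    (h : ((b ^ 2 ^ n + 1).minFac : ℝ) ≤ (2 : ℝ) ^ x) :
    |(a 0 n (b : ℝ) : ℝ) - 2 ^ n * Real.logb 2 b| ≤ x + 1 := by
  have hF : F 0 n (b : ℝ) = b ^ 2 ^ n + 1 := by
    unfold F
    rw [pow_zero, pow_one]
    have : ((b : ℝ) ^ 2 ^ n) = ((b ^ 2 ^ n : ℕ) : ℝ) := by push_cast; rfl
    rw [this, Nat.floor_natCast]
  have hT : (2 : ℝ) ^ n * Real.logb 2 b ≤ Real.logb 2 ((b ^ 2 ^ n + 1 : ℕ) : ℝ) ∧
      Real.logb 2 ((b ^ 2 ^ n + 1 : ℕ) : ℝ) ≤ 2 ^ n * Real.logb 2 b + 1 := by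
    rcases Nat.eq_zero_or_pos b with rfl | hb
    · rw [zero_pow (by positivity)]
      simp
    · have hb0 : (1 : ℝ) ≤ b := by exact_mod_cast hb
      have hp : (1 : ℝ) ≤ (b : ℝ) ^ 2 ^ n := one_le_pow₀ hb0
      have e1 : (2 : ℝ) ^ n * Real.logb 2 b = Real.logb 2 ((b : ℝ) ^ 2 ^ n) := by
        rw [Real.logb_pow]
        push_cast
        ring
      rw [e1]
      push_cast
      constructor
      · exact Real.logb_le_logb_of_le (by norm_num) (by linarith) (by linarith)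
      · have e2 : Real.logb 2 ((b : ℝ) ^ 2 ^ n) + 1 = Real.logb 2 ((b : ℝ) ^ 2 ^ n * 2) := by
          rw [Real.logb_mul (by positivity) (by norm_num), Real.logb_self_eq_one (by norm_num)]
        rw [e2]
        exact Real.logb_le_logb_of_le (by norm_num) (by positivity) (by linarith)
  unfold a
  rw [hF]
  have h3 := a_gen (m := b ^ 2 ^ n + 1) (Nat.succ_le_succ (Nat.zero_le _)) le_rfl hx
    (by linarith [hT.1]) hT.2 h
  linarith

/-- the number `a` for real bases -/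
theorem a_real {k n : ℕ} {α x : ℝ} (hα : 1 < α) (hx : 0 ≤ x)
    (hN : (2 : ℝ) ^ (k + 1) ≤ α ^ 2 ^ n)
    (h : ((F k n α).minFac : ℝ) ≤ (2 : ℝ) ^ x) :
    |(a k n α : ℝ) - 2 ^ (n + k) * Real.logb 2 α| ≤ x + 2 := by
  have hl2 : 1 / 2 < Real.log 2 := by
    have := Real.log_two_gt_d9
    linarith
  set y : ℝ := α ^ 2 ^ n with hy
  have hy1 : 1 ≤ y := one_le_pow₀ hα.le
  set N := ⌊y⌋₊ with hNd
  have hN1 : 2 ^ (k + 1) ≤ N := Nat.le_floor (by exact_mod_cast hN)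
  have hN1' : (2 : ℝ) ^ (k + 1) ≤ N := by exact_mod_cast hN1
  have h2k : (1 : ℝ) ≤ 2 ^ k := one_le_pow₀ (by norm_num)
  have hN2 : (1 : ℝ) ≤ N := by
    rw [pow_succ] at hN1'
    linarith
  have hNy : (N : ℝ) ≤ y := Nat.floor_le (by linarith)
  have hyN : y < N + 1 := Nat.lt_floor_add_one y
  have hT : (2 : ℝ) ^ (n + k) * Real.logb 2 α = 2 ^ k * Real.logb 2 y := by
    rw [hy, Real.logb_pow, pow_add]
    push_cast
    ring
  have hlog1 : Real.logb 2 y ≤ Real.logb 2 N + 2 * (1 / N) := by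
    have e1 : Real.logb 2 y ≤ Real.logb 2 (N * (1 + 1 / N)) := by
      refine Real.logb_le_logb_of_le (by norm_num) (by linarith) ?_
      rw [mul_add, mul_one, mul_one_div_cancel (by positivity)]
      exact hyN.le
    have e2 : Real.logb 2 ((N : ℝ) * (1 + 1 / N)) = Real.logb 2 N + Real.logb 2 (1 + 1 / N) :=
      Real.logb_mul (by positivity) (by positivity)
    have e3 : Real.logb 2 (1 + 1 / (N : ℝ)) ≤ 2 * (1 / N) := by
      unfold Real.logb
      rw [div_le_iff₀ (by linarith)]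
      have e4 : Real.log (1 + 1 / (N : ℝ)) ≤ 1 / N := by
        have := Real.log_le_sub_one_of_pos (by positivity : (0 : ℝ) < 1 + 1 / N)
        linarith
      have e5 : (0 : ℝ) ≤ 1 / N := by positivity
      nlinarith
    linarith
  have hlog2 : Real.logb 2 N ≤ Real.logb 2 y :=
    Real.logb_le_logb_of_le (by norm_num) (by linarith) hNy
  have hF : F k n α = N ^ 2 ^ k + 1 := rfl
  have hp : (1 : ℝ) ≤ (N : ℝ) ^ 2 ^ k := one_le_pow₀ hN2
  have e1 : (2 : ℝ) ^ k * Real.logb 2 N = Real.logb 2 ((N : ℝ) ^ 2 ^ k) := by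
    rw [Real.logb_pow]
    push_cast
    ring
  have hT1 : 2 ^ k * Real.logb 2 y - 1 ≤ Real.logb 2 ((N ^ 2 ^ k + 1 : ℕ) : ℝ) := by
    have e2 : Real.logb 2 ((N : ℝ) ^ 2 ^ k) ≤ Real.logb 2 ((N ^ 2 ^ k + 1 : ℕ) : ℝ) := by
      push_cast
      exact Real.logb_le_logb_of_le (by norm_num) (by linarith) (by linarith)
    have e3 : 2 ^ k * Real.logb 2 y ≤ 2 ^ k * Real.logb 2 N + 2 ^ k * (2 * (1 / N)) := by
      rw [← mul_add]
      exact mul_le_mul_of_nonneg_left hlog1 (by positivity)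
    have e4 : (2 : ℝ) ^ k * (2 * (1 / N)) ≤ 1 := by
      have e5 : (2 : ℝ) ^ k * (2 * (1 / N)) = 2 ^ (k + 1) / N := by
        rw [pow_succ]
        ring
      rw [e5, div_le_one (by linarith)]
      exact hN1'
    linarith
  have hT2 : Real.logb 2 ((N ^ 2 ^ k + 1 : ℕ) : ℝ) ≤ 2 ^ k * Real.logb 2 y + 1 := by
    have e2 : Real.logb 2 ((N : ℝ) ^ 2 ^ k) + 1 = Real.logb 2 ((N : ℝ) ^ 2 ^ k * 2) := by
      rw [Real.logb_mul (by positivity) (by norm_num), Real.logb_self_eq_one (by norm_num)]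
    have e3 : Real.logb 2 ((N ^ 2 ^ k + 1 : ℕ) : ℝ) ≤ Real.logb 2 ((N : ℝ) ^ 2 ^ k) + 1 := by
      rw [e2]
      push_cast
      exact Real.logb_le_logb_of_le (by norm_num) (by positivity) (by linarith)
    have e4 : (2 : ℝ) ^ k * Real.logb 2 N ≤ 2 ^ k * Real.logb 2 y :=
      mul_le_mul_of_nonneg_left hlog2 (by positivity)
    linarith
  unfold a
  rw [hF, hT]
  rw [hF] at h
  have h3 := a_gen (m := N ^ 2 ^ k + 1) (Nat.succ_le_succ (Nat.zero_le _)) zero_le_one hx hT1 hT2 h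
  linarith

/-- the numbers `a`, for almost every `α` -/
theorem U_a {B : ℝ} (hB : 3 < B) : ∀ᵐ α : ℝ, 1 < α →
    ∀ᶠ n : ℕ in atTop, ∀ k : ℕ, (k : ℝ) + B * Real.logb 2 n ≤ n →
      ((F k (n - k) α).minFac : ℝ) ≤ (2 : ℝ) ^ ((n : ℝ) ^ B) ∧
      |(a k (n - k) α : ℝ) - 2 ^ n * Real.logb 2 α| ≤ (n : ℝ) ^ B + 2 := by
  filter_upwards [U_all hB] with α hα h1
  have hlα : 0 < Real.logb 2 α := Real.logb_pos (by norm_num) h1
  set l := Real.logb 2 α with hl
  have hev1 : ∀ᶠ n : ℕ in atTop, 2 / l * (n : ℝ) ^ (1 : ℝ) ≤ (n : ℝ) ^ B := ev_rpow (by linarith)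
  filter_upwards [hα h1, hev1, eventually_ge_atTop 1] with n hn e1 hn1' k hk
  refine ⟨hn k hk, ?_⟩
  have hn1 : (1 : ℝ) ≤ n := by exact_mod_cast hn1'
  have hn0 : (0 : ℝ) < n := by linarith
  have hlog0 : 0 ≤ Real.logb 2 n := Real.logb_nonneg (by norm_num) hn1
  have hkn' : (k : ℝ) ≤ n := by nlinarith
  have hkn : k ≤ n := by exact_mod_cast hkn'
  have h3 : (n : ℝ) ^ B ≤ (2 : ℝ) ^ (n - k) := by
    have h5 : (n : ℝ) ^ B = (2 : ℝ) ^ (B * Real.logb 2 n) := by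
      rw [mul_comm, Real.rpow_mul (by norm_num), Real.rpow_logb (by norm_num) (by norm_num) hn0]
    rw [h5, ← Real.rpow_natCast]
    refine Real.rpow_le_rpow_of_exponent_le (by norm_num) ?_
    rw [Nat.cast_sub hkn]
    linarith
  have h4 : (2 : ℝ) ^ (k + 1) ≤ α ^ 2 ^ (n - k) := by
    have h5 : α ^ 2 ^ (n - k) = (2 : ℝ) ^ ((2 : ℝ) ^ (n - k) * l) := by
      rw [mul_comm, Real.rpow_mul (by norm_num), hl, Real.rpow_logb (by norm_num) (by norm_num)
        (by linarith)]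
      have h6 : ((2 : ℝ) ^ (n - k)) = ((2 ^ (n - k) : ℕ) : ℝ) := by push_cast; rfl
      rw [h6, Real.rpow_natCast]
    rw [h5, ← Real.rpow_natCast]
    refine Real.rpow_le_rpow_of_exponent_le (by norm_num) ?_
    push_cast
    rw [Real.rpow_one] at e1
    have h7 : 2 * (n : ℝ) ≤ l * (n : ℝ) ^ B := by
      have h8 := mul_le_mul_of_nonneg_left e1 hlα.le
      have h9 : l * (2 / l * (n : ℝ)) = 2 * n := by field_simp
      rwa [h9] at h8
    have h8 := mul_le_mul_of_nonneg_left h3 hlα.le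
    linarith
  have h5 := a_real h1 (by positivity) h4 (hn k hk)
  rwa [Nat.sub_add_cancel hkn] at h5

end Pool.Agent.MFN
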