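import Pool.Agent.MFN.UDefs
import Pool.Agent.MFN.UFlo
import Pool.Agent.MFN.UBase

/-!
# MFN / UEnd: typical bases, with the numbers `a`
-/

set_option autoImplicit false

namespace Pool.Agent.MFN

open Finset Filter

theorem F_base (n b : ℕ) : F 0 n (b : ℝ) = b ^ 2 ^ n + 1 := by
  unfold F
  rw [pow_zero, pow_one]
  have : ((b : ℝ) ^ 2 ^ n) = ((b ^ 2 ^ n : ℕ) : ℝ) := by push_cast; rfl
  rw [this, Nat.floor_natCast]

theorem not_good {L : ℝ} (hL : 0 ≤ L) {n b : ℕ} : ¬ Good L n b ↔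
    (2 : ℝ) ^ L < ((b ^ 2 ^ n + 1).minFac : ℝ) := by
  unfold Good
  constructor
  · intro h
    by_contra hc
    push Not at hc
    exact h ⟨hc, a_base hL hc⟩
  · intro h h1
    exact absurd h1.1 (not_le.2 h)

open Classical in
theorem V_unif' (ε : ℝ) (hε : 0 < ε) : ∃ C : ℝ, 0 < C ∧ ∀ (n : ℕ) (L : ℝ) (A X : ℕ), 1 ≤ n →
    1 ≤ L → (2 : ℝ) ^ L ≤ X →
      (((Ico A (A + X)).filter fun b => ¬ Good L n b).card : ℝ) ≤
        C * X * ((n : ℝ) ^ (1 + ε) / L ^ (1 - ε)) := by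
  obtain ⟨C, hC, h⟩ := V_unif hε
  refine ⟨C, hC, fun n L A X hn hL hX => le_trans (le_of_eq ?_) (h n L A X hn hL hX)⟩
  norm_cast
  exact congrArg card (filter_congr fun b _ => not_good (by linarith))

open Classical in
theorem V_all' (B δ : ℝ) (hB : 2 < B) (hδ : 0 < δ) :
    ∃ N : ℕ, ∀ M A X : ℕ, (2 : ℝ) ^ ((M : ℝ) ^ B) ≤ X →
      (((Ico A (A + X)).filter fun b => ∃ n : ℕ, N ≤ n ∧ n ≤ M ∧
        ¬ Good ((n : ℝ) ^ B) n b).card : ℝ) ≤ δ * X := by
  obtain ⟨N, hN⟩ := V_all hB hδ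
  refine ⟨N, fun M A X hX => le_trans (le_of_eq ?_) (hN M A X hX)⟩
  norm_cast
  refine congrArg card (filter_congr fun b _ => exists_congr fun n =>
    and_congr_right fun _ => and_congr_right fun _ => not_good (by positivity))

end Pool.Agent.MFN
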