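import Pool.Agent.MFN.UW
import Pool.Agent.MFN.Fin

/-!
# MFN / UFin: the final statements, uniform in `k`
-/

set_option autoImplicit false

namespace Pool.Agent.MFN

open Finset Filter MeasureTheory

/-! ### comparison of functions of `n` -/

theorem ev_rpow {x y K : ℝ} (h : x < y) : ∀ᶠ n : ℕ in atTop, K * (n : ℝ) ^ x ≤ (n : ℝ) ^ y := by
  have h1 : Tendsto (fun n : ℕ => (n : ℝ) ^ (y - x)) atTop atTop :=
    (tendsto_rpow_atTop (by linarith)).comp tendsto_natCast_atTop_atTop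
  filter_upwards [h1.eventually_ge_atTop K, eventually_ge_atTop 1] with n hn hn1
  have hn0 : (0 : ℝ) < n := by exact_mod_cast hn1
  have h2 : (n : ℝ) ^ y = (n : ℝ) ^ (y - x) * (n : ℝ) ^ x := by
    rw [← Real.rpow_add hn0]
    congr 1
    ring
  rw [h2]
  exact mul_le_mul_of_nonneg_right hn (by positivity)

/-! ### bases -/

theorem pow_floor {B B' : ℝ} (h : B' ≤ B) {n : ℕ} (hn : 1 ≤ n) :
    (((2 ^ ⌊(n : ℝ) ^ B'⌋₊ : ℕ)) : ℝ) ≤ (2 : ℝ) ^ ((n : ℝ) ^ B) := by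
  have hn1 : (1 : ℝ) ≤ n := by exact_mod_cast hn
  push_cast
  rw [← Real.rpow_natCast]
  refine Real.rpow_le_rpow_of_exponent_le (by norm_num) ?_
  exact (Nat.floor_le (by positivity)).trans (Real.rpow_le_rpow_of_exponent_le hn1 h)

theorem NQ_of_lt {k n b : ℕ} {B B' : ℝ} (hB : B' ≤ B) (hn : 1 ≤ n) {Q : Finset ℕ}
    (hQ : Q ⊆ pr (2 ^ ⌊(n : ℝ) ^ B'⌋₊))
    (h : (2 : ℝ) ^ ((n : ℝ) ^ B) < ((b ^ 2 ^ k + 1).minFac : ℝ)) : NQ k Q b := by
  intro p hp hd
  have hp' := mem_pr.1 (hQ hp)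
  have h1 := Nat.minFac_le_of_dvd hp'.1.two_le hd
  have h2 : ((b ^ 2 ^ k + 1).minFac : ℝ) ≤ ((2 ^ ⌊(n : ℝ) ^ B'⌋₊ : ℕ) : ℝ) := by
    exact_mod_cast h1.trans hp'.2
  linarith [pow_floor hB hn]

/-- **Typical bases.** -/
theorem V_count {D B : ℝ} (hD : 0 ≤ D) (hB : D + 1 < B) :
    ∀ᶠ n : ℕ in atTop, ∀ A X : ℕ, (2 : ℝ) ^ ((n : ℝ) ^ B) ≤ X →
      (((Ico A (A + X)).filter fun b =>
        (2 : ℝ) ^ ((n : ℝ) ^ B) < ((b ^ 2 ^ n + 1).minFac : ℝ)).card : ℝ) ≤ X / (n : ℝ) ^ D := by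
  classical
  set ε := (B - D - 1) / 4 with hε
  have hε0 : 0 < ε := by rw [hε]; linarith
  set κ : ℝ := 1 + min ε 1 with hκ
  have hκ0 : 1 < κ := by
    rw [hκ]
    linarith [lt_min hε0 one_pos]
  have hκ2 : κ ≤ 2 := by
    rw [hκ]
    linarith [min_le_right ε 1]
  have hκε : κ ≤ 1 + ε := by
    rw [hκ]
    linarith [min_le_left ε 1]
  set D' := D + ε with hD'
  set B' := D + 1 + 3 * ε with hB'
  have hB'B : B' < B := by rw [hB', hε]; linarith
  filter_upwards [sieve_n (D := D') (B := B') (C := B) (κ := κ) (by linarith) hκ0 hκ2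
      (by linarith) hB'B,
    ev_rpow (K := 3) (by linarith : D < D'), eventually_ge_atTop 4] with n h1 h2 hn A X hX
  have hn1 : (1 : ℝ) ≤ n := by exact_mod_cast (by omega : 1 ≤ n)
  have hn0 : (0 : ℝ) < n := by linarith
  have hX0 : (0 : ℝ) ≤ X := Nat.cast_nonneg X
  have hnD : 0 < (n : ℝ) ^ D := by positivity
  have hnD' : 0 < (n : ℝ) ^ D' := by positivity
  obtain ⟨Q, hQ, V, E, hE, hV, hE0, hE1⟩ := h1 n le_rfl
  set S := (range X).filter fun i => NQ n Q (A + i) with hS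
  have hSm : ∀ i, i ∈ S ↔ i < X ∧ NQ n Q (A + i) := by
    intro i
    rw [hS, mem_filter, mem_range]
  have h5 := hE A (Nat.zero_le _) X S hSm
  have h6 : ((Ico A (A + X)).filter fun b =>
      (2 : ℝ) ^ ((n : ℝ) ^ B) < ((b ^ 2 ^ n + 1).minFac : ℝ)).card ≤ S.card := by
    refine card_le_card_of_injOn (fun b => b - A) ?_ ?_
    · intro b hb
      simp only [coe_filter, mem_Ico, Set.mem_ofPred_eq] at hb
      have : b - A ∈ S := by
        rw [hSm]
        refine ⟨by omega, ?_⟩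
        rw [Nat.add_sub_cancel' hb.1.1]
        exact NQ_of_lt hB'B.le (by omega) hQ hb.2
      simpa using this
    · intro b hb c hc hbc
      simp only [coe_filter, mem_Ico, Set.mem_ofPred_eq] at hb hc
      simp only at hbc
      omega
  have h6' : (((Ico A (A + X)).filter fun b =>
      (2 : ℝ) ^ ((n : ℝ) ^ B) < ((b ^ 2 ^ n + 1).minFac : ℝ)).card : ℝ) ≤ S.card := by
    exact_mod_cast h6
  refine h6'.trans ?_
  have h7 := (abs_le.1 h5).2
  have w1 := mul_le_mul_of_nonneg_right hV hX0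
  have w3 : E ≤ 1 / (n : ℝ) ^ D' * X := by
    rw [one_div, inv_mul_eq_div, le_div_iff₀ hnD', mul_comm]
    exact hE1.trans hX
  have h8 : 3 * (1 / (n : ℝ) ^ D' * X) ≤ X / (n : ℝ) ^ D := by
    have h9 : 3 * (1 / (n : ℝ) ^ D' * X) = 3 * X / (n : ℝ) ^ D' := by ring
    rw [h9, div_le_div_iff₀ hnD' hnD]
    nlinarith
  linarith

open Classical in
/-- **Typical bases, all exponents.** -/
theorem V_all {B δ : ℝ} (hB : 2 < B) (hδ : 0 < δ) :
    ∃ N : ℕ, ∀ M A X : ℕ, (2 : ℝ) ^ ((M : ℝ) ^ B) ≤ X →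
      (((Ico A (A + X)).filter fun b => ∃ n : ℕ, N ≤ n ∧ n ≤ M ∧
        (2 : ℝ) ^ ((n : ℝ) ^ B) < ((b ^ 2 ^ n + 1).minFac : ℝ)).card : ℝ) ≤ δ * X := by
  set D := B / 2 with hD
  have hD1 : 1 < D := by rw [hD]; linarith
  obtain ⟨N₁, hN₁⟩ := eventually_atTop.1
    (V_count (D := D) (B := B) (by linarith) (by rw [hD]; linarith))
  have hsum : Summable fun n : ℕ => 1 / (n : ℝ) ^ D := Real.summable_one_div_nat_rpow.2 hD1
  have htail := tendsto_sum_nat_add fun n : ℕ => 1 / (n : ℝ) ^ D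
  obtain ⟨N₂, hN₂⟩ := eventually_atTop.1 (htail.eventually_le_const hδ)
  refine ⟨max N₁ N₂, fun M A X hX => ?_⟩
  set N := max N₁ N₂ with hN
  have hX0 : (0 : ℝ) ≤ X := Nat.cast_nonneg X
  have hsub : ((Ico A (A + X)).filter fun b => ∃ n : ℕ, N ≤ n ∧ n ≤ M ∧
      (2 : ℝ) ^ ((n : ℝ) ^ B) < ((b ^ 2 ^ n + 1).minFac : ℝ)) ⊆
      (Icc N M).biUnion fun n => (Ico A (A + X)).filter fun b =>
        (2 : ℝ) ^ ((n : ℝ) ^ B) < ((b ^ 2 ^ n + 1).minFac : ℝ) := by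
    intro b hb
    rw [mem_filter] at hb
    obtain ⟨hb1, n, hn1, hn2, hn3⟩ := hb
    rw [mem_biUnion]
    exact ⟨n, mem_Icc.2 ⟨hn1, hn2⟩, mem_filter.2 ⟨hb1, hn3⟩⟩
  have h1 := (card_le_card hsub).trans card_biUnion_le
  have h1' : (((Ico A (A + X)).filter fun b => ∃ n : ℕ, N ≤ n ∧ n ≤ M ∧
      (2 : ℝ) ^ ((n : ℝ) ^ B) < ((b ^ 2 ^ n + 1).minFac : ℝ)).card : ℝ) ≤
      ∑ n ∈ Icc N M, (((Ico A (A + X)).filter fun b =>
        (2 : ℝ) ^ ((n : ℝ) ^ B) < ((b ^ 2 ^ n + 1).minFac : ℝ)).card : ℝ) := by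
    exact_mod_cast h1
  refine h1'.trans ?_
  have h2 : ∀ n ∈ Icc N M, (((Ico A (A + X)).filter fun b =>
      (2 : ℝ) ^ ((n : ℝ) ^ B) < ((b ^ 2 ^ n + 1).minFac : ℝ)).card : ℝ) ≤
      1 / (n : ℝ) ^ D * X := by
    intro n hn
    rw [mem_Icc] at hn
    have h3 : (2 : ℝ) ^ ((n : ℝ) ^ B) ≤ X := by
      refine le_trans (Real.rpow_le_rpow_of_exponent_le (by norm_num) ?_) hX
      exact Real.rpow_le_rpow (Nat.cast_nonneg n) (by exact_mod_cast hn.2) (by linarith)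
    refine (hN₁ n ((le_max_left _ _).trans hn.1) A X h3).trans (le_of_eq ?_)
    rw [one_div, inv_mul_eq_div]
  refine (sum_le_sum h2).trans ?_
  rw [← sum_mul]
  refine mul_le_mul_of_nonneg_right ?_ hX0
  have h3 := hN₂ N (le_max_right _ _)
  refine le_trans ?_ h3
  have h4 : ∑ n ∈ Icc N M, 1 / (n : ℝ) ^ D = ∑ i ∈ range (M + 1 - N), 1 / ((i + N : ℕ) : ℝ) ^ D := by
    have h5 : Icc N M = Ico N (M + 1) := by
      ext x
      simp only [mem_Icc, mem_Ico]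
      omega
    rw [h5, sum_Ico_eq_sum_range]
    refine sum_congr rfl fun i _ => ?_
    rw [add_comm i N]
  rw [h4]
  have h5 : Summable fun i : ℕ => 1 / ((i + N : ℕ) : ℝ) ^ D :=
    (summable_nat_add_iff (f := fun n : ℕ => 1 / (n : ℝ) ^ D) N).2 hsum
  exact h5.sum_le_tsum _ fun i _ => by positivity

theorem U_cell {B : ℝ} (hB : 3 < B) {n₀ N₀ : ℕ} (hN : 2 ≤ N₀) :
    ∀ᵐ u : ℝ, u ∈ C 2 n₀ N₀ → ∀ᶠ n : ℕ in atTop, ∀ k : ℕ,
      (k : ℝ) + B * Real.logb 2 n ≤ n →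
        ((X 2 (n - k) u ^ 2 ^ k + 1).minFac : ℝ) ≤ (2 : ℝ) ^ ((n : ℝ) ^ B) := by
  set ε := (B - 3) / 5 with hε
  have hε0 : 0 < ε := by rw [hε]; linarith
  set κ : ℝ := 1 + min ε 1 with hκ
  have hκ0 : 1 < κ := by
    rw [hκ]
    linarith [lt_min hε0 one_pos]
  have hκ2 : κ ≤ 2 := by
    rw [hκ]
    linarith [min_le_right ε 1]
  have hκε : κ ≤ 1 + ε := by
    rw [hκ]
    linarith [min_le_left ε 1]
  set D := 2 + ε with hD
  set B' := 3 + 3 * ε with hB'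
  set C' := 3 + 4 * ε with hC'
  have hBC : C' < B := by rw [hC', hε]; linarith
  have hlogn : Tendsto (fun n : ℕ => B * Real.logb 2 n) atTop atTop :=
    ((Real.tendsto_logb_atTop (by norm_num)).comp tendsto_natCast_atTop_atTop).const_mul_atTop
      (by linarith)
  obtain ⟨n₁, hn₁⟩ := eventually_atTop.1 ((((sieve_n (D := D) (B := B') (C := C') (κ := κ)
    (by linarith) hκ0 hκ2 (by linarith) (by linarith)).and (ev_rpow (K := 2 ^ (n₀ + 1)) hBC)).and
    (hlogn.eventually_ge_atTop ((n₀ : ℝ) + 1))).and (eventually_ge_atTop 4))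
  set cell := C 2 n₀ N₀ with hcell
  set μ := volume.restrict cell with hμ
  have hfin : IsFiniteMeasure μ := ⟨by
    rw [hμ, Measure.restrict_apply_univ]
    exact (C_finite 2 n₀ N₀).lt_top⟩
  have hreal : ∀ s : Set ℝ, MeasurableSet s → μ.real s = volume.real (s ∩ cell) := fun s hs =>
    measureReal_restrict_apply hs
  have huniv : μ.real Set.univ = volume.real cell := by
    rw [hreal _ MeasurableSet.univ, Set.univ_inter]
  have hsat : ∀ k, n₀ ≤ k → ∀ u ∈ cell, ∀ v, X 2 k v = X 2 k u → v ∈ cell := by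
    intro k hk u hu v hv
    rw [hcell, mem_C (by norm_num) (by omega)] at hu ⊢
    rw [X_factor (by norm_num) hk hv, hu]
  set G : ℕ → ℕ → Set ℝ := fun n k => {u | (k : ℝ) + B * Real.logb 2 n ≤ n ∧
    (2 : ℝ) ^ ((n : ℝ) ^ B) < ((X 2 (n - k) u ^ 2 ^ k + 1).minFac : ℝ)} with hG
  have hGm : ∀ n k, MeasurableSet (G n k) := fun n k =>
    set_meas 2 (n - k) fun x => (k : ℝ) + B * Real.logb 2 n ≤ n ∧
      (2 : ℝ) ^ ((n : ℝ) ^ B) < ((x ^ 2 ^ k + 1).minFac : ℝ)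
  have hGk : ∀ n k : ℕ, n₁ ≤ n → μ.real (G n k) ≤ 3 * (1 / (n : ℝ) ^ D) * μ.real Set.univ := by
    intro n k hn
    obtain ⟨⟨⟨r1, r3⟩, r4⟩, r5⟩ := hn₁ n hn
    have hn1 : (1 : ℝ) ≤ n := by exact_mod_cast (by omega : 1 ≤ n)
    have hn0 : (0 : ℝ) < n := by linarith
    by_cases hk : (k : ℝ) + B * Real.logb 2 n ≤ n
    · have hkn' : (k : ℝ) + ((n₀ : ℝ) + 1) ≤ n := by linarith
      have hkn : k + (n₀ + 1) ≤ n := by exact_mod_cast hkn'
      have hjn : n - k = (n - k - 1) + 1 := by omega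
      set j := n - k - 1 with hj
      obtain ⟨Q, hQ, V, E, hE, hV, hE0, hE1⟩ := r1 k (by omega)
      have hb := sat_bound (d := 2) le_rfl hN (by omega : n₀ ≤ j) hE hE0
        (Nat.zero_le _) subset_rfl (hsat j (by omega))
      have hset : G n k ⊆ {u | NQ k Q (X 2 (j + 1) u)} := by
        rw [hG]
        intro u hu
        simp only [Set.mem_ofPred_eq] at hu ⊢
        rw [hjn] at hu
        exact NQ_of_lt (by linarith) (by omega) hQ hu.2
      have hset' : volume.real (G n k ∩ cell) ≤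
          volume.real ({u | NQ k Q (X 2 (j + 1) u)} ∩ cell) :=
        measureReal_mono (Set.inter_subset_inter_left _ hset)
          (ne_top_of_le_ne_top (C_finite 2 n₀ N₀) (measure_mono Set.inter_subset_right))
      rw [hreal _ (hGm n k), huniv]
      refine hset'.trans ?_
      have h1 := (abs_le.1 hb).2
      have hv0 : 0 ≤ volume.real cell := measureReal_nonneg
      have w3 : E / 2 ^ (2 ^ (j - n₀)) ≤ 1 / (n : ℝ) ^ D := by
        rw [div_le_div_iff₀ (by positivity) (by positivity), one_mul, mul_comm]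
        refine hE1.trans ?_
        have h3 : ((2 : ℝ) ^ (2 ^ (j - n₀) : ℕ)) = (2 : ℝ) ^ (((2 ^ (j - n₀) : ℕ) : ℝ)) :=
          (Real.rpow_natCast _ _).symm
        rw [h3]
        refine Real.rpow_le_rpow_of_exponent_le (by norm_num) ?_
        have h4 : (n : ℝ) ^ B ≤ (2 : ℝ) ^ (n - k) := by
          have h5 : (n : ℝ) ^ B = (2 : ℝ) ^ (B * Real.logb 2 n) := by
            rw [mul_comm, Real.rpow_mul (by norm_num), Real.rpow_logb (by norm_num) (by norm_num) hn0]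
          rw [h5, ← Real.rpow_natCast, Nat.cast_sub (by omega)]
          exact Real.rpow_le_rpow_of_exponent_le (by norm_num) (by linarith)
        have h5 : (2 : ℝ) ^ (n - k) = 2 ^ (n₀ + 1) * ((2 ^ (j - n₀) : ℕ) : ℝ) := by
          push_cast
          rw [← pow_add]
          congr 1
          omega
        rw [h5] at h4
        exact le_of_mul_le_mul_left (r3.trans h4) (by positivity)
      have w4 := mul_le_mul_of_nonneg_right (add_le_add (add_le_add hV (le_refl (1 / (n : ℝ) ^ D))) w3) hv0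
      calc volume.real ({u | NQ k Q (X 2 (j + 1) u)} ∩ cell) ≤
          (V + 1 / (n : ℝ) ^ D + E / 2 ^ (2 ^ (j - n₀))) * volume.real cell := by
            rw [add_assoc, add_mul]
            linarith
        _ ≤ _ := w4
        _ = _ := by ring
    · have hempty : G n k = ∅ := by
        rw [hG]
        ext u
        simp only [Set.mem_ofPred_eq, Set.mem_empty_iff_false, iff_false]
        exact fun h => hk h.1
      rw [hempty, measureReal_empty]
      positivity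
  set H : ℕ → Set ℝ := fun j => ⋃ k ∈ range (n₁ + j + 1), G (n₁ + j) k with hH
  have hH1 : ∀ j, |μ.real (H j) - (fun _ : ℕ => (0 : ℝ)) j * μ.real Set.univ| ≤
      (fun j : ℕ => 6 * (1 / ((n₁ + j : ℕ) : ℝ) ^ (D - 1))) j * μ.real Set.univ := by
    intro j
    simp only
    rw [zero_mul, sub_zero, abs_of_nonneg measureReal_nonneg]
    have h1 : μ.real (H j) ≤ ∑ k ∈ range (n₁ + j + 1), μ.real (G (n₁ + j) k) :=
      measureReal_biUnion_finset_le _ _
    refine h1.trans ?_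
    have h2 : ∑ k ∈ range (n₁ + j + 1), μ.real (G (n₁ + j) k) ≤
        ∑ k ∈ range (n₁ + j + 1), 3 * (1 / ((n₁ + j : ℕ) : ℝ) ^ D) * μ.real Set.univ :=
      sum_le_sum fun k _ => hGk (n₁ + j) k (by omega)
    refine h2.trans ?_
    rw [sum_const, card_range, nsmul_eq_mul, ← mul_assoc]
    refine mul_le_mul_of_nonneg_right ?_ measureReal_nonneg
    obtain ⟨_, r5⟩ := hn₁ (n₁ + j) (by omega)
    set n := n₁ + j with hn
    have hn1 : (1 : ℝ) ≤ n := by exact_mod_cast (by omega : 1 ≤ n)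
    have hn0 : (0 : ℝ) < n := by linarith
    have h3 : 1 / (n : ℝ) ^ (D - 1) = n * (1 / (n : ℝ) ^ D) := by
      rw [Real.rpow_sub hn0, Real.rpow_one, one_div_div, mul_one_div]
    rw [h3]
    push_cast
    have h4 : 0 ≤ 1 / (n : ℝ) ^ D := by positivity
    nlinarith
  have hs : Summable fun j : ℕ => 6 * (1 / ((n₁ + j : ℕ) : ℝ) ^ (D - 1)) := by
    have h1 : Summable fun n : ℕ => 1 / (n : ℝ) ^ (D - 1) :=
      Real.summable_one_div_nat_rpow.2 (by linarith)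
    have h2 := (summable_nat_add_iff (f := fun n : ℕ => 1 / (n : ℝ) ^ (D - 1)) n₁).2 h1
    refine (h2.mul_left 6).congr fun j => ?_
    rw [add_comm j n₁]
  rw [← ae_restrict_iff' (C_meas 2 n₀ N₀)]
  have h3 := ae_eventually_of_summable (E := H) (W := fun _ => 0) μ (fun n => le_rfl)
    (fun j => by positivity) hs hH1 summable_zero
  filter_upwards [h3] with u hu
  obtain ⟨j₀, hj₀⟩ := eventually_atTop.1 hu
  refine eventually_atTop.2 ⟨n₁ + j₀, fun n hn k hk => ?_⟩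
  by_contra hNF
  push Not at hNF
  have h4 := hj₀ (n - n₁) (by omega)
  apply h4
  simp only [hH, Set.mem_iUnion, mem_range]
  rw [Nat.add_sub_cancel' (by omega : n₁ ≤ n)]
  obtain ⟨⟨_, r4⟩, _⟩ := hn₁ n (by omega)
  have hkn : k ≤ n := by
    have h5 : (k : ℝ) ≤ n := by
      have : (0 : ℝ) ≤ n₀ := Nat.cast_nonneg n₀
      linarith
    exact_mod_cast h5
  exact ⟨k, by omega, hk, hNF⟩

theorem U_all {B : ℝ} (hB : 3 < B) : ∀ᵐ α : ℝ, 1 < α →
    ∀ᶠ n : ℕ in atTop, ∀ k : ℕ, (k : ℝ) + B * Real.logb 2 n ≤ n →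
      ((F k (n - k) α).minFac : ℝ) ≤ (2 : ℝ) ^ ((n : ℝ) ^ B) := by
  refine ae_transfer ?_
  have h1 : ∀ᵐ u : ℝ, ∀ q : ℕ × ℕ, 2 ≤ q.2 → u ∈ C 2 q.1 q.2 →
      ∀ᶠ n : ℕ in atTop, ∀ k : ℕ, (k : ℝ) + B * Real.logb 2 n ≤ n →
        ((X 2 (n - k) u ^ 2 ^ k + 1).minFac : ℝ) ≤ (2 : ℝ) ^ ((n : ℝ) ^ B) := by
    rw [ae_all_iff]
    intro q
    by_cases h2 : 2 ≤ q.2
    · filter_upwards [U_cell hB h2 (n₀ := q.1)] with u hu _
      exact hu
    · exact Eventually.of_forall fun u h => absurd h h2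
  filter_upwards [h1] with u hu hu0
  obtain ⟨n₀, hn₀⟩ := ((X_tendsto (d := 2) le_rfl hu0).eventually_ge_atTop 2).exists
  filter_upwards [hu (n₀, X 2 n₀ u) hn₀ ((mem_C (by norm_num) (by omega)).2 rfl)] with n hn k hk
  rw [F_eq]
  exact hn k hk

end Pool.Agent.MFN
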