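import Pool.Agent.MFN.UHalf
import Pool.Agent.VKZ.LandauL

/-!
# MFN / UFree: a zero free region for complex characters, uniform in the modulus
-/

set_option autoImplicit false

namespace Pool.Agent.MFN

open Complex

/-- `log (M (|t| + 3))` -/
noncomputable def el (M : ℕ) (t : ℝ) : ℝ := Real.log (M * (|t| + 3))

section

variable {M : ℕ} [NeZero M]

theorem el_arg (t : ℝ) : 3 ≤ (M : ℝ) * (|t| + 3) := by
  have hM : (1 : ℝ) ≤ M := by exact_mod_cast NeZero.pos M
  have := abs_nonneg t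
  nlinarith

theorem el_ge (M : ℕ) [NeZero M] (t : ℝ) : 1 ≤ el M t := by
  unfold el
  have h1 := el_arg (M := M) t
  rw [Real.le_log_iff_exp_le (by linarith)]
  have := Real.exp_one_lt_d9
  linarith

theorem exp_el (M : ℕ) [NeZero M] (t : ℝ) : Real.exp (el M t) = M * (|t| + 3) := by
  unfold el
  exact Real.exp_log (by linarith [el_arg (M := M) t])

end

theorem U_par {K l : ℝ} (hK : 20 ≤ K) (hl : 1 ≤ l) :
    403200 * K * l * Real.exp l ≤ Real.exp (K * l) := by
  have h1 : K * l = l + (l + (18 + (K - 20))) + (K - 2) * (l - 1) := by ring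
  have h2 : 0 ≤ (K - 2) * (l - 1) := mul_nonneg (by linarith) (by linarith)
  have h3 : Real.exp (l + (l + (18 + (K - 20)))) ≤ Real.exp (K * l) :=
    Real.exp_le_exp.2 (by linarith)
  refine le_trans ?_ h3
  rw [Real.exp_add, Real.exp_add l, Real.exp_add 18]
  have h4 : (8064000 : ℝ) ≤ Real.exp 18 := by
    have e : Real.exp 18 = Real.exp 1 ^ 18 := by
      rw [← Real.exp_nat_mul]; norm_num
    rw [e]
    calc (8064000 : ℝ) ≤ 2.7 ^ 18 := by norm_num
      _ ≤ Real.exp 1 ^ 18 := pow_le_pow_left₀ (by norm_num)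
          (by have := Real.exp_one_gt_d9; linarith) 18
  have h5 : K / 20 ≤ Real.exp (K - 20) := by
    have := Real.add_one_le_exp (K - 20)
    linarith
  have h6 : l ≤ Real.exp l := by
    have := Real.add_one_le_exp l
    linarith
  have h7 : 403200 * K ≤ Real.exp 18 * Real.exp (K - 20) := by
    have := mul_le_mul h4 h5 (by linarith) (Real.exp_pos _).le
    linarith
  have h8 : 403200 * K * l ≤ Real.exp l * (Real.exp 18 * Real.exp (K - 20)) := by
    rw [mul_comm]
    exact mul_le_mul h6 h7 (by linarith) (Real.exp_pos _).le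
  rw [mul_comm (403200 * K * l)]
  exact mul_le_mul_of_nonneg_left h8 (Real.exp_pos _).le

section

variable {M : ℕ} [NeZero M] {χ : DirichletCharacter ℂ M}

theorem U_an (hχ : χ ≠ 1) (z : ℂ) : AnalyticAt ℂ χ.LFunction z :=
  (DirichletCharacter.differentiable_LFunction hχ).analyticAt z

omit [NeZero M] in
theorem U_sq (hχ : χ ^ 2 ≠ 1) : χ ≠ 1 := by
  rintro rfl
  exact hχ (one_pow 2)

/-- the bound in a disc -/
theorem U_disc {ψ : DirichletCharacter ℂ M} (hψ : ψ ≠ 1) {t τ δ r : ℝ} (hδ : 0 ≤ δ)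
    (hδ1 : δ ≤ 1) (hr : r ≤ 1 / 2) (hτ : |τ| ≤ 2 * |t|) {z : ℂ}
    (hz : z ∈ Metric.closedBall ((1 + δ : ℝ) + τ * I : ℂ) r) :
    ‖ψ.LFunction z‖ ≤ 14 * Real.exp (el M t) := by
  have hM : (1 : ℝ) ≤ M := by exact_mod_cast NeZero.pos M
  have hz' : ‖z - ((1 + δ : ℝ) + τ * I)‖ ≤ r := by
    rw [Metric.mem_closedBall, dist_eq_norm] at hz
    exact hz
  have hre : |z.re - (1 + δ)| ≤ r := by
    have h1 := (Complex.abs_re_le_norm (z - ((1 + δ : ℝ) + τ * I))).trans hz'
    simpa using h1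
  have him : |z.im - τ| ≤ r := by
    have h1 := (Complex.abs_im_le_norm (z - ((1 + δ : ℝ) + τ * I))).trans hz'
    simpa using h1
  have him2 : |z.im| ≤ |τ| + r := by
    have := abs_sub_abs_le_abs_sub z.im τ
    linarith
  have hre2 := abs_le.1 hre
  have hn : ‖z‖ ≤ |z.re| + |z.im| := Complex.norm_le_abs_re_add_abs_im z
  have hre3 : |z.re| ≤ 1 + δ + r := by
    rw [abs_le]
    constructor <;> linarith
  refine (L_poly hψ (by linarith)).trans ?_
  rw [exp_el]
  have h2 : ‖z‖ + 1 ≤ 2 * (|t| + 3) := by linarith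
  calc 7 * (M : ℝ) * (‖z‖ + 1) ≤ 7 * M * (2 * (|t| + 3)) :=
        mul_le_mul_of_nonneg_left h2 (by positivity)
    _ = _ := by ring

end

/-- **Zero free region.** -/
theorem U_free : ∃ K : ℝ, 20 ≤ K ∧ ∀ (M : ℕ) [NeZero M] (χ : DirichletCharacter ℂ M),
    χ ^ 2 ≠ 1 → ∀ s : ℂ, 1 - 1 / (1600 * K * el M s.im) ≤ s.re → χ.LFunction s ≠ 0 := by
  obtain ⟨C1, hC1, hder⟩ := VKZ.logderiv_upper
  refine ⟨20 + C1, by linarith, ?_⟩
  intro M _ χ hχ2 s hs hs0
  have hχ1 : χ ≠ 1 := U_sq hχ2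
  set K : ℝ := 20 + C1 with hK
  have hK20 : 20 ≤ K := by linarith
  set t : ℝ := s.im with ht
  set l : ℝ := el M t with hl
  have hl1 : 1 ≤ l := el_ge M t
  set MM : ℝ := K * l with hMM
  have hMM20 : 20 ≤ MM := by nlinarith
  set r : ℝ := 1 / 2 with hr
  set δ : ℝ := r / (100 * MM) with hδ
  have hr0 : 0 < r := by norm_num
  have hδ0 : 0 < δ := by positivity
  have hrδ : r = 100 * MM * δ := by
    rw [hδ]
    have : MM ≠ 0 := by positivity
    field_simp
  have hδr : 100 * δ ≤ r := by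
    rw [hrδ]
    nlinarith
  have hδ1 : δ ≤ 1 := by
    have : r ≤ 1 := by norm_num
    linarith
  have hδe : δ = 1 / (200 * K * l) := by
    rw [hδ, hr, hMM]
    field_simp
    norm_num
  have hδ8 : 1 / (1600 * K * l) = δ / 8 := by
    rw [hδe]
    field_simp
    norm_num
  -- the zero
  have hβ1 : s.re < 1 := by
    by_contra hc
    exact χ.LFunction_ne_zero_of_one_le_re (Or.inl hχ1) (not_lt.1 hc) hs0
  have hβ2 : 1 - s.re ≤ δ / 8 := by linarith
  have hτ1 : |t| ≤ 2 * |t| := by linarith [abs_nonneg t]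
  have hτ2 : |2 * t| ≤ 2 * |t| := by rw [abs_mul, abs_two]
  have hlowz : ∀ (ψ : DirichletCharacter ℂ M) (τ : ℝ),
      1 / 3 * δ ≤ ‖ψ.LFunction ((1 + δ : ℝ) + τ * I)‖ := by
    intro ψ τ
    have h1 := L_lower ψ (s := ((1 + δ : ℝ) + τ * I)) (by simpa using hδ0) (by simp; linarith)
    simpa using h1
  have hexp : 14 * Real.exp l ≤ Real.exp MM * (1 / 3 * δ) := by
    have h1 := U_par hK20 hl1
    have h2 : 14 * Real.exp l * (3 * (200 * K * l)) ≤ Real.exp (K * l) := by
      have h3 : 0 ≤ K * l * Real.exp l := by positivity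
      nlinarith
    have h4 : 14 * Real.exp l ≤ Real.exp (K * l) / (3 * (200 * K * l)) := by
      rw [le_div_iff₀ (by positivity)]
      exact h2
    refine h4.trans (le_of_eq ?_)
    rw [hδe, hMM]
    field_simp
  have hbd : ∀ (ψ : DirichletCharacter ℂ M) (τ : ℝ), ψ ≠ 1 → |τ| ≤ 2 * |t| →
      ∀ z ∈ Metric.closedBall ((1 + δ : ℝ) + τ * I : ℂ) r,
      ‖ψ.LFunction z‖ ≤ Real.exp MM * ‖ψ.LFunction ((1 + δ : ℝ) + τ * I)‖ := by
    intro ψ τ hψ hτ z hz
    refine (U_disc hψ hδ0.le hδ1 le_rfl hτ hz).trans (hexp.trans ?_)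
    exact mul_le_mul_of_nonneg_left (hlowz ψ τ) (Real.exp_pos _).le
  have hne0 : ∀ (ψ : DirichletCharacter ℂ M) (τ : ℝ), ψ.LFunction ((1 + δ : ℝ) + τ * I) ≠ 0 := by
    intro ψ τ h0
    have h1 := hlowz ψ τ
    rw [h0, norm_zero] at h1
    have h2 : 0 < 1 / 3 * δ := by positivity
    linarith
  have hzz : ∀ (ψ : DirichletCharacter ℂ M) (τ : ℝ), ψ ≠ 1 →
      ∀ z ∈ Metric.closedBall ((1 + δ : ℝ) + τ * I : ℂ) r,
      ψ.LFunction z = 0 → z.re ≤ ((1 + δ : ℝ) + τ * I : ℂ).re := by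
    intro ψ τ hψ z _ hz
    have h1 : z.re < 1 := by
      by_contra hc
      exact ψ.LFunction_ne_zero_of_one_le_re (Or.inl hψ) (not_lt.1 hc) hz
    simp
    linarith
  have hM0 : 0 ≤ MM := by linarith
  obtain ⟨-, a1⟩ := VKZ.landau_point hr0 hM0 (fun z _ => U_an hχ1 z)
    (hne0 χ t) (hbd χ t hχ1 hτ1) (hzz χ t hχ1)
  obtain ⟨a2, -⟩ := VKZ.landau_point hr0 hM0 (fun z _ => U_an hχ2 z)
    (hne0 (χ ^ 2) (2 * t)) (hbd (χ ^ 2) (2 * t) hχ2 hτ2) (hzz (χ ^ 2) (2 * t) hχ2)
  set d : ℝ := 1 + δ - s.re with hd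
  have hd0 : 0 < d := by linarith
  have hd9 : d ≤ 9 / 8 * δ := by linarith
  have hdr : d < r := by linarith
  have hs' : ((1 + δ : ℝ) + t * I : ℂ) - (d : ℂ) = s := by
    apply Complex.ext
    · simp [hd]
    · simp [ht]
  have a3 := a1 d hd0 hdr (by rw [hs']; exact hs0)
  have a4 : -(deriv riemannZeta ((1 + δ : ℝ) : ℂ) / riemannZeta ((1 + δ : ℝ) : ℂ)).re ≤
      1 / δ + C1 := by
    have h1 := hder ((1 + δ : ℝ) : ℂ) (by simpa using hδ0)
    have h2 := Complex.abs_re_le_norm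
      (deriv riemannZeta ((1 + δ : ℝ) : ℂ) / riemannZeta ((1 + δ : ℝ) : ℂ))
    have h3 := neg_le_abs (deriv riemannZeta ((1 + δ : ℝ) : ℂ) / riemannZeta ((1 + δ : ℝ) : ℂ)).re
    simp only [Complex.ofReal_re] at h1
    have h4 : (1 : ℝ) + δ - 1 = δ := by ring
    rw [h4] at h1
    linarith
  have a5 := L_341 χ t (σ := 1 + δ) (by linarith)
  -- numerical contradiction
  have b1 : 2 * MM / r = 1 / (50 * δ) := by
    rw [hrδ]
    have : MM ≠ 0 := by positivity
    field_simp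
    norm_num
  have b2 : d * (1 / d ^ 2 - 1 / r ^ 2) = 1 / d - d / r ^ 2 := by field_simp
  have b3 : 8 / (9 * δ) ≤ 1 / d := by
    rw [div_le_div_iff₀ (by positivity) hd0]
    linarith
  have b4 : d / r ^ 2 ≤ 1 / (1000 * δ) := by
    rw [div_le_div_iff₀ (by positivity) (by positivity)]
    have h1 : (100 * δ) ^ 2 ≤ r ^ 2 := pow_le_pow_left₀ (by positivity) hδr 2
    nlinarith
  have b5 : C1 ≤ 1 / 30 * (1 / δ) := by
    have h1 : 1 / δ = 200 * K * l := by
      rw [hδe, one_div_one_div]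
    rw [h1]
    nlinarith
  set x : ℝ := 1 / δ with hx
  have hx0 : 0 < x := by positivity
  have c1 : 1 / (50 * δ) = x / 50 := by rw [hx]; field_simp
  have c2 : 8 / (9 * δ) = 8 / 9 * x := by rw [hx]; field_simp
  have c3 : 1 / (1000 * δ) = x / 1000 := by rw [hx]; field_simp
  rw [b1, c1] at a2 a3
  rw [b2] at a3
  rw [c2] at b3
  rw [c3] at b4
  linarith

/-- **Zero free region with a bound for the logarithmic derivative.** -/
theorem U_region : ∃ c C : ℝ, 0 < c ∧ c ≤ 1 / 4 ∧ 1 ≤ C ∧ ∀ (M : ℕ) [NeZero M]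
    (χ : DirichletCharacter ℂ M), χ ^ 2 ≠ 1 → ∀ s : ℂ, s.re ≤ 3 → 1 - c / el M s.im ≤ s.re →
    χ.LFunction s ≠ 0 ∧ ‖deriv χ.LFunction s / χ.LFunction s‖ ≤ C * el M s.im ^ 2 := by
  obtain ⟨K, hK, hfree⟩ := U_free
  obtain ⟨C2, hC2, hlog⟩ := L_log
  have hK0 : 0 < K := by linarith
  refine ⟨1 / (9600 * K), 57600 * K ^ 2 + 3200 * K + C2, by positivity, ?_, ?_, ?_⟩
  · rw [div_le_div_iff₀ (by positivity) (by norm_num)]
    linarith
  · nlinarith
  intro M _ χ hχ2 s hs3 hs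
  have hχ1 : χ ≠ 1 := U_sq hχ2
  have hM : (1 : ℝ) ≤ M := by exact_mod_cast NeZero.pos M
  set t : ℝ := s.im with ht
  set l : ℝ := el M t with hl
  have hl1 : 1 ≤ l := el_ge M t
  set η : ℝ := 1 / (9600 * K * l) with hη
  have hη0 : 0 < η := by positivity
  have hcl : 1 / (9600 * K) / l = η := by
    rw [hη, div_div]
  rw [hcl] at hs
  have hKl : 20 ≤ K * l := by nlinarith
  have hη1 : η ≤ 1 / 100 := by
    rw [hη, div_le_div_iff₀ (by positivity) (by norm_num)]
    nlinarith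
  -- zeros in the disc
  have hdiscne : ∀ z ∈ Metric.closedBall ((1 + η : ℝ) + t * I : ℂ) (4 * η),
      χ.LFunction z ≠ 0 := by
    intro z hz
    have hz' : ‖z - ((1 + η : ℝ) + t * I)‖ ≤ 4 * η := by
      rw [Metric.mem_closedBall, dist_eq_norm] at hz
      exact hz
    have hre : |z.re - (1 + η)| ≤ 4 * η := by
      have h1 := (Complex.abs_re_le_norm (z - ((1 + η : ℝ) + t * I))).trans hz'
      simpa using h1
    have him : |z.im - t| ≤ 4 * η := by
      have h1 := (Complex.abs_im_le_norm (z - ((1 + η : ℝ) + t * I))).trans hz'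
      simpa using h1
    have him2 : |z.im| ≤ |t| + 1 := by
      have := abs_sub_abs_le_abs_sub z.im t
      linarith
    have hel : el M z.im ≤ 2 * l := by
      have h1 := el_arg (M := M) t
      have h2 : (M : ℝ) * (|z.im| + 3) ≤ (M * (|t| + 3)) * (M * (|t| + 3)) := by
        have h3 : |z.im| + 3 ≤ (|t| + 3) * 3 := by
          have := abs_nonneg t
          linarith
        have h4 : (|t| + 3) * 3 ≤ (|t| + 3) * (M * (|t| + 3)) :=
          mul_le_mul_of_nonneg_left h1 (by positivity)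
        have h5 := mul_le_mul_of_nonneg_left (h3.trans h4) (by linarith : (0 : ℝ) ≤ M)
        linarith
      have h6 : el M z.im ≤ Real.log ((M * (|t| + 3)) * (M * (|t| + 3))) :=
        Real.log_le_log (by linarith [el_arg (M := M) z.im]) h2
      rw [Real.log_mul (by linarith) (by linarith)] at h6
      have h7 : l = Real.log (M * (|t| + 3)) := rfl
      linarith
    have hel1 : 1 ≤ el M z.im := el_ge M z.im
    refine hfree M χ hχ2 z ?_
    have h8 : 3 * η ≤ 1 / (1600 * K * el M z.im) := by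
      rw [hη, mul_one_div, div_le_div_iff₀ (by positivity) (by positivity)]
      nlinarith
    have := (abs_le.1 hre).1
    linarith
  have hτ1 : |t| ≤ 2 * |t| := by linarith [abs_nonneg t]
  have hlowz : 1 / 3 * η ≤ ‖χ.LFunction ((1 + η : ℝ) + t * I)‖ := by
    have h1 := L_lower χ (s := ((1 + η : ℝ) + t * I)) (by simpa using hη0) (by simp; linarith)
    simpa using h1
  have hbd : ∀ z ∈ Metric.closedBall ((1 + η : ℝ) + t * I : ℂ) (4 * η),
      ‖χ.LFunction z‖ ≤ Real.exp (K * l) * ‖χ.LFunction ((1 + η : ℝ) + t * I)‖ := by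
    intro z hz
    have h1 := U_disc hχ1 hη0.le (by linarith) (by linarith) hτ1 hz
    refine h1.trans (le_trans ?_ (mul_le_mul_of_nonneg_left hlowz (Real.exp_pos _).le))
    have h2 := U_par hK hl1
    have h3 : 14 * Real.exp l ≤ Real.exp (K * l) / (3 * (9600 * K * l)) := by
      rw [le_div_iff₀ (by positivity)]
      linarith
    refine h3.trans (le_of_eq ?_)
    rw [hη]
    field_simp
  by_cases hcase : s.re ≤ 1 + 3 * η
  · have hmem : s ∈ Metric.closedBall ((1 + η : ℝ) + t * I : ℂ) (4 * η / 2) := by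
      rw [Metric.mem_closedBall, dist_eq_norm]
      have h1 : s - ((1 + η : ℝ) + t * I) = ((s.re - (1 + η) : ℝ) : ℂ) := by
        apply Complex.ext
        · simp
        · simp [ht]
      rw [h1, Complex.norm_real, Real.norm_eq_abs, abs_le]
      constructor <;> linarith
    have hmem' : s ∈ Metric.closedBall ((1 + η : ℝ) + t * I : ℂ) (4 * η) :=
      Metric.closedBall_subset_closedBall (by linarith) hmem
    have h1 := VKZ.landau_free (by positivity : 0 < 4 * η) (by positivity : 0 < K * l)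
      (fun z _ => U_an hχ1 z) hdiscne hbd s hmem
    refine ⟨hdiscne s hmem', h1.trans ?_⟩
    have h2 : 24 * (K * l) / (4 * η) = 57600 * K ^ 2 * l ^ 2 := by
      rw [hη]
      field_simp
      norm_num
    rw [h2]
    have h3 : 0 ≤ (3200 * K + C2) * l ^ 2 := by positivity
    linarith
  · push Not at hcase
    have hs1 : 1 < s.re := by linarith
    refine ⟨χ.LFunction_ne_zero_of_one_le_re (Or.inl hχ1) hs1.le, (hlog M χ s hs1).trans ?_⟩
    have h1 : 1 / (s.re - 1) ≤ 1 / (3 * η) :=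
      one_div_le_one_div_of_le (by positivity) (by linarith)
    have h2 : 1 / (3 * η) = 3200 * K * l := by
      rw [hη]
      field_simp
      norm_num
    rw [h2] at h1
    have h3 : l ≤ l ^ 2 := by nlinarith
    have h4 : 3200 * K * l ≤ 3200 * K * l ^ 2 := mul_le_mul_of_nonneg_left h3 (by positivity)
    have h5 : C2 ≤ C2 * l ^ 2 := by
      have : 1 ≤ l ^ 2 := one_le_pow₀ hl1
      nlinarith
    have h6 : 0 ≤ 57600 * K ^ 2 * l ^ 2 := by positivity
    linarith

end Pool.Agent.MFN
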