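import Pool.Agent.MFN.UFree
import Pool.Agent.VKZ.Contour

/-!
# MFN / UGauss: Gaussian sums over prime powers twisted by complex characters, uniform in the modulus
-/

set_option autoImplicit false

namespace Pool.Agent.MFN

open ArithmeticFunction

/-- the Gaussian sum -/
noncomputable def ug {M : ℕ} (χ : DirichletCharacter ℂ M) (w : ℝ) : ℂ :=
  ∑' n : ℕ, χ n * ((vonMangoldt n : ℝ) : ℂ) * (n : ℂ)⁻¹ * Real.exp (-(Real.log n - w) ^ 2 / 2)

private theorem gint_congr {F G : ℂ → ℂ} {σ : ℝ} (w τ : ℝ)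
    (h : ∀ z : ℂ, z.re = 1 + σ → F z = G z) : VKZ.gint F σ w τ = VKZ.gint G σ w τ := by
  unfold VKZ.gint
  congr 1
  refine MeasureTheory.integral_congr_ae (Filter.Eventually.of_forall fun v => ?_)
  simp only
  rw [h]
  simp

private theorem series {f : ℕ → ℂ} (h0 : f 0 = 0) (z : ℂ) :
    ∑' n : ℕ, f n * (n : ℂ) ^ (-z) = LSeries f z := by
  unfold LSeries
  refine tsum_congr fun n => ?_
  rcases Nat.eq_zero_or_pos n with rfl | hn
  · simp [h0]
  · rw [LSeries.term_of_ne_zero hn.ne', Complex.cpow_neg, div_eq_mul_inv]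

private theorem summ {f : ℕ → ℂ} (h0 : f 0 = 0) {σ : ℝ} (h : LSeriesSummable f σ) :
    Summable fun n : ℕ => ‖f n‖ * (n : ℝ) ^ (-σ) := by
  have h1 : Summable fun n => ‖LSeries.term f σ n‖ := h.norm
  refine h1.congr fun n => ?_
  rcases Nat.eq_zero_or_pos n with rfl | hn
  · simp [h0]
  · rw [LSeries.norm_term_eq, if_neg hn.ne', Complex.ofReal_re, Real.rpow_neg (by positivity),
      div_eq_mul_inv]

theorem ug_eq {M : ℕ} [NeZero M] (χ : DirichletCharacter ℂ M) {σ : ℝ} (hσ : 0 < σ) (w : ℝ) :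
    ug χ w = VKZ.gint (fun z => -(deriv χ.LFunction z / χ.LFunction z)) σ w 0 := by
  have h0 : (fun n : ℕ => χ n * ((vonMangoldt n : ℝ) : ℂ)) 0 = 0 := by simp
  have hs : ∀ σ : ℝ, 1 < σ → LSeriesSummable (fun n : ℕ => χ n * ((vonMangoldt n : ℝ) : ℂ)) σ :=
    fun σ hσ => DirichletCharacter.LSeriesSummable_twist_vonMangoldt χ (by simpa using hσ)
  have h1 := VKZ.gauss_mellin (fun σ hσ => summ h0 (hs σ hσ)) h0 hσ w 0
  have h2 : ug χ w = ∑' n : ℕ, χ n * ((vonMangoldt n : ℝ) : ℂ) *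
      (n : ℂ) ^ (-(1 + ((0 : ℝ) : ℂ) * Complex.I)) * Real.exp (-(Real.log n - w) ^ 2 / 2) := by
    unfold ug
    refine tsum_congr fun n => ?_
    have e : (-(1 + ((0 : ℝ) : ℂ) * Complex.I)) = ((-1 : ℤ) : ℂ) := by
      push_cast
      ring
    rw [e, Complex.cpow_intCast, zpow_neg_one]
  rw [h2, h1]
  refine gint_congr w 0 fun z hz => ?_
  rw [series h0]
  have hz1 : 1 < z.re := by rw [hz]; linarith
  have h3 := DirichletCharacter.LSeries_twist_vonMangoldt_eq χ hz1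
  have h4 := DirichletCharacter.deriv_LFunction_eq_deriv_LSeries χ hz1
  have h5 := DirichletCharacter.LFunction_eq_LSeries χ hz1
  have h6 : LSeries (fun n => χ n * ((ArithmeticFunction.vonMangoldt n : ℝ) : ℂ)) z =
      -deriv (LSeries (χ ·)) z / LSeries (χ ·) z := h3
  rw [h6, h4, h5, neg_div]

/-- **The Gaussian sum is small.** -/
theorem ug_small : ∃ c D : ℝ, 0 < c ∧ c ≤ 1 / 4 ∧ 0 < D ∧ ∀ (M : ℕ) [NeZero M]
    (χ : DirichletCharacter ℂ M), χ ^ 2 ≠ 1 → ∀ w : ℝ, 1 ≤ w →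
    ‖ug χ w‖ ≤ D * w * el M w ^ 2 * Real.exp (-(c * w / el M w)) := by
  obtain ⟨c, C, hc, hc1, hC, hreg⟩ := U_region
  obtain ⟨C2, hC2, hlog⟩ := L_log
  refine ⟨c, C * Real.exp 1 + 4 * C * Real.exp 2 + 6 * (1 + C2) * Real.exp 2, hc, hc1,
    by positivity, fun M _ χ hχ w hw => ?_⟩
  have hwp : 0 < w := by linarith
  rw [ug_eq χ (σ := 1 / w) (by positivity) w]
  set l := el M w with hl
  have hl1 : 1 ≤ l := el_ge M w
  set b := c / l with hb
  have hb0 : 0 < b := by positivity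
  have hbc : b ≤ c := by
    rw [hb, div_le_iff₀ (by linarith)]
    nlinarith
  have hb1 : b ≤ 1 / 4 := hbc.trans hc1
  have hσ0 : 0 < 1 / w := by positivity
  have hσ1 : 1 / w ≤ 1 := by
    rw [div_le_one hwp]
    exact hw
  have han : ∀ z : ℂ, AnalyticAt ℂ χ.LFunction z := fun z => U_an (U_sq hχ) z
  have hregion : ∀ z : ℂ, 1 - b ≤ z.re → z.re ≤ 2 → |z.im - 0| ≤ w →
      AnalyticAt ℂ (fun z => -(deriv χ.LFunction z / χ.LFunction z)) z ∧
        ‖-(deriv χ.LFunction z / χ.LFunction z)‖ ≤ C * l ^ 2 := by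
    intro z h1 h2 h3
    rw [sub_zero] at h3
    have h4 : el M z.im ≤ l := by
      have hM : (1 : ℝ) ≤ M := by exact_mod_cast NeZero.pos M
      refine Real.log_le_log (by linarith [el_arg (M := M) z.im]) ?_
      refine mul_le_mul_of_nonneg_left ?_ (by linarith)
      have := le_abs_self w
      linarith
    have h5 : 1 ≤ el M z.im := el_ge M z.im
    have h6 : b ≤ c / el M z.im := by
      rw [hb]
      exact div_le_div_of_nonneg_left hc.le (by linarith) h4
    obtain ⟨h7, h8⟩ := hreg M χ hχ z (by linarith) (by linarith)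
    refine ⟨((han z).deriv.div (han z) h7).neg, ?_⟩
    rw [norm_neg]
    refine h8.trans (mul_le_mul_of_nonneg_left ?_ (by linarith))
    exact pow_le_pow_left₀ (by linarith) h4 2
  have hline : ∀ v : ℝ, (1 + ((0 : ℝ) : ℂ) * Complex.I + (((1 / w : ℝ) : ℂ) + v * Complex.I)).re =
      1 + 1 / w := by
    intro v
    simp
  have hbd : ∀ v : ℝ, ‖-(deriv χ.LFunction (1 + ((0 : ℝ) : ℂ) * Complex.I +
      (((1 / w : ℝ) : ℂ) + v * Complex.I)) / χ.LFunction (1 + ((0 : ℝ) : ℂ) * Complex.I +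
      (((1 / w : ℝ) : ℂ) + v * Complex.I)))‖ ≤ (1 + C2) * w := by
    intro v
    rw [norm_neg]
    have h1 := hlog M χ (1 + ((0 : ℝ) : ℂ) * Complex.I + (((1 / w : ℝ) : ℂ) + v * Complex.I))
      (by rw [hline]; linarith)
    rw [hline] at h1
    have h2 : 1 / (1 + 1 / w - 1) = w := by
      field_simp
      ring
    rw [h2] at h1
    nlinarith
  have hcont : Continuous fun v : ℝ => (fun z => -(deriv χ.LFunction z / χ.LFunction z))
      (1 + ((0 : ℝ) : ℂ) * Complex.I + (((1 / w : ℝ) : ℂ) + v * Complex.I)) := by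
    rw [continuous_iff_continuousAt]
    intro v
    have h1 : ContinuousAt (fun z => -(deriv χ.LFunction z / χ.LFunction z))
        (1 + ((0 : ℝ) : ℂ) * Complex.I + (((1 / w : ℝ) : ℂ) + v * Complex.I)) := by
      have h2 : χ.LFunction (1 + ((0 : ℝ) : ℂ) * Complex.I +
          (((1 / w : ℝ) : ℂ) + v * Complex.I)) ≠ 0 :=
        χ.LFunction_ne_zero_of_one_le_re (Or.inl (U_sq hχ)) (by rw [hline]; linarith)
      exact ((han _).deriv.div (han _) h2).neg.continuousAt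
    refine ContinuousAt.comp (f := fun v : ℝ => 1 + ((0 : ℝ) : ℂ) * Complex.I +
      (((1 / w : ℝ) : ℂ) + v * Complex.I)) h1 ?_
    fun_prop
  have hsh := VKZ.shift_le (F := fun z => -(deriv χ.LFunction z / χ.LFunction z)) (b := b)
    (B := C * l ^ 2) (B' := (1 + C2) * w) (σ := 1 / w) (w := w) (τ := 0)
    (V := w) hb0 (by linarith) hσ0 hσ1 hwp.le hw (by positivity) (by positivity) hregion hbd hcont
  refine hsh.trans ?_
  have hσw : 1 / w * w = 1 := by field_simp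
  have hσsq : (1 / w) ^ 2 ≤ 1 := pow_le_one₀ hσ0.le hσ1
  have hbsq : b ^ 2 ≤ 1 := pow_le_one₀ hb0.le (by linarith)
  have hww : w ≤ w ^ 2 := by nlinarith
  have hbw : c * w / l = b * w := by rw [hb]; ring
  rw [hbw]
  have hbw4 : b * w ≤ w / 4 := by nlinarith
  -- the three exponentials
  have e1 : Real.exp (b ^ 2 / 2 - b * w) ≤ Real.exp 1 * Real.exp (-(b * w)) := by
    rw [← Real.exp_add]
    refine Real.exp_le_exp.2 ?_
    linarith
  have e2 : Real.exp (((1 / w) ^ 2 + b ^ 2 - w ^ 2) / 2 + 1 / w * w) ≤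
      Real.exp 2 * Real.exp (-(b * w)) := by
    rw [← Real.exp_add, hσw]
    refine Real.exp_le_exp.2 ?_
    linarith
  have e3 : Real.exp ((1 / w) ^ 2 / 2 + 1 / w * w - w ^ 2 / 4) ≤
      Real.exp 2 * Real.exp (-(b * w)) := by
    rw [← Real.exp_add, hσw]
    refine Real.exp_le_exp.2 ?_
    linarith
  have hEp : 0 < Real.exp (-(b * w)) := Real.exp_pos _
  have hbσ : b + 1 / w ≤ 2 := by linarith
  have hl2 : 1 ≤ l ^ 2 := one_le_pow₀ hl1
  have hB1 : C * l ^ 2 ≤ C * (w * l ^ 2) := by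
    refine mul_le_mul_of_nonneg_left ?_ (by linarith)
    nlinarith
  have hB2 : (1 + C2) * w ≤ (1 + C2) * (w * l ^ 2) := by
    refine mul_le_mul_of_nonneg_left ?_ (by linarith)
    nlinarith
  calc C * l ^ 2 * Real.exp (b ^ 2 / 2 - b * w) +
      2 * (C * l ^ 2) * (b + 1 / w) * Real.exp (((1 / w) ^ 2 + b ^ 2 - w ^ 2) / 2 + 1 / w * w) +
      6 * ((1 + C2) * w) * Real.exp ((1 / w) ^ 2 / 2 + 1 / w * w - w ^ 2 / 4)
      ≤ (C * (w * l ^ 2)) * (Real.exp 1 * Real.exp (-(b * w))) +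
      2 * (C * (w * l ^ 2)) * 2 * (Real.exp 2 * Real.exp (-(b * w))) +
      6 * ((1 + C2) * (w * l ^ 2)) * (Real.exp 2 * Real.exp (-(b * w))) := by
        gcongr
    _ = _ := by ring

end Pool.Agent.MFN
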