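import Pool.Agent.VKZ.Approx
import Pool.Agent.PNE.Cut

/-!
# MFN / UHalf: L-functions, bounds uniform in the modulus

`L_lower`, `L_log`, `L_341` as in `Pool/Agent/VKC/LHalf.lean`, with constants which do not depend on the modulus;
`L_poly`: a polynomial bound to the right of `1/2`.
-/

set_option autoImplicit false

namespace Pool.Agent.MFN

private theorem UHalf_vm {M : ℕ} [NeZero M] (χ : DirichletCharacter ℂ M) {s : ℂ} (hs : 1 < s.re) :
    deriv χ.LFunction s / χ.LFunction s =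
      -LSeries (fun n => χ n * ((ArithmeticFunction.vonMangoldt n : ℝ) : ℂ)) s := by
  have h1 := DirichletCharacter.LSeries_twist_vonMangoldt_eq χ hs
  have h2 := DirichletCharacter.deriv_LFunction_eq_deriv_LSeries χ hs
  have h3 := DirichletCharacter.LFunction_eq_LSeries χ hs
  have h4 : LSeries (fun n => χ n * ((ArithmeticFunction.vonMangoldt n : ℝ) : ℂ)) s =
      -deriv (LSeries (χ ·)) s / LSeries (χ ·) s := h1
  rw [h4, h2, h3, neg_div, neg_neg]

private theorem UHalf_sum {M : ℕ} [NeZero M] (χ : DirichletCharacter ℂ M) {s : ℂ} (hs : 1 < s.re) :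
    Summable (LSeries.term (fun n => χ n * ((ArithmeticFunction.vonMangoldt n : ℝ) : ℂ)) s) :=
  DirichletCharacter.LSeriesSummable_twist_vonMangoldt χ hs

/-- the weights -/
private noncomputable def UHalf_r (σ : ℝ) (n : ℕ) : ℝ :=
  ArithmeticFunction.vonMangoldt n * Real.exp (-(σ * Real.log n))

private theorem UHalf_r_nonneg (σ : ℝ) (n : ℕ) : 0 ≤ UHalf_r σ n :=
  mul_nonneg ArithmeticFunction.vonMangoldt_nonneg (Real.exp_pos _).le

/-- the unimodular factor -/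
private noncomputable def UHalf_u {M : ℕ} (χ : DirichletCharacter ℂ M) (t : ℝ) (n : ℕ) : ℂ :=
  χ n * Complex.exp (-(t * Real.log n) * Complex.I)

private theorem UHalf_u_norm {M : ℕ} (χ : DirichletCharacter ℂ M) (t : ℝ) (n : ℕ) :
    ‖UHalf_u χ t n‖ ≤ 1 := by
  unfold UHalf_u
  rw [norm_mul]
  have h : ‖Complex.exp (-(t * Real.log n) * Complex.I)‖ = 1 := by
    have h1 : -((t : ℂ) * (Real.log n : ℝ)) * Complex.I = ((-(t * Real.log n) : ℝ) : ℂ) * Complex.I := by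
      push_cast
      ring
    rw [h1, Complex.norm_exp_ofReal_mul_I]
  rw [h, mul_one]
  exact DirichletCharacter.norm_le_one χ n

private theorem UHalf_pow (σ t : ℝ) {n : ℕ} (hn : n ≠ 0) :
    ((n : ℂ) ^ ((σ : ℂ) + t * Complex.I))⁻¹ = (Real.exp (-(σ * Real.log n)) : ℝ) *
      Complex.exp (-(t * Real.log n) * Complex.I) := by
  have hn0 : (n : ℂ) ≠ 0 := by exact_mod_cast hn
  rw [← Complex.cpow_neg, Complex.cpow_def_of_ne_zero hn0, Complex.ofReal_exp, ← Complex.exp_add,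
    ← Complex.natCast_log]
  congr 1
  push_cast
  ring

private theorem UHalf_term {M : ℕ} (χ : DirichletCharacter ℂ M) (σ t : ℝ) (n : ℕ) :
    LSeries.term (fun n => χ n * ((ArithmeticFunction.vonMangoldt n : ℝ) : ℂ))
      ((σ : ℂ) + t * Complex.I) n = (UHalf_r σ n : ℂ) * UHalf_u χ t n := by
  rcases eq_or_ne n 0 with rfl | hn
  · simp [UHalf_r]
  · rw [LSeries.term_of_ne_zero hn, div_eq_mul_inv, UHalf_pow σ t hn]
    unfold UHalf_r UHalf_u
    push_cast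
    ring

private theorem UHalf_term0 (σ : ℝ) (n : ℕ) :
    LSeries.term (fun n => ((ArithmeticFunction.vonMangoldt n : ℝ) : ℂ)) (σ : ℂ) n =
      ((UHalf_r σ n : ℝ) : ℂ) := by
  rcases eq_or_ne n 0 with rfl | hn
  · simp [UHalf_r]
  · rw [LSeries.term_of_ne_zero hn, div_eq_mul_inv]
    have h := UHalf_pow σ 0 hn
    simp only [Complex.ofReal_zero, zero_mul, add_zero, neg_zero, Complex.exp_zero, mul_one] at h
    rw [h]
    unfold UHalf_r
    push_cast
    ring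

private theorem UHalf_r_sum {σ : ℝ} (hσ : 1 < σ) : Summable (UHalf_r σ) := by
  have h1 : Summable (LSeries.term (fun n => ((ArithmeticFunction.vonMangoldt n : ℝ) : ℂ)) (σ : ℂ)) :=
    ArithmeticFunction.LSeriesSummable_vonMangoldt (s := (σ : ℂ)) (by simpa using hσ)
  refine h1.norm.congr fun n => ?_
  rw [UHalf_term0, Complex.norm_real, Real.norm_of_nonneg (UHalf_r_nonneg σ n)]

private theorem UHalf_zeta {σ : ℝ} (hσ : 1 < σ) :
    deriv riemannZeta (σ : ℂ) / riemannZeta (σ : ℂ) = -((∑' n, UHalf_r σ n : ℝ) : ℂ) := by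
  have h1 := ArithmeticFunction.LSeries_vonMangoldt_eq_deriv_riemannZeta_div
    (s := (σ : ℂ)) (by simpa using hσ)
  have h2 : LSeries (fun n => ((ArithmeticFunction.vonMangoldt n : ℝ) : ℂ)) (σ : ℂ) =
      ((∑' n, UHalf_r σ n : ℝ) : ℂ) := by
    unfold LSeries
    rw [Complex.ofReal_tsum]
    exact tsum_congr fun n => UHalf_term0 σ n
  have h3 : LSeries (fun n => ((ArithmeticFunction.vonMangoldt n : ℝ) : ℂ)) (σ : ℂ) =
      -deriv riemannZeta (σ : ℂ) / riemannZeta (σ : ℂ) := h1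
  rw [← h2, h3, neg_div, neg_neg]

theorem L_lower {M : ℕ} [NeZero M] (χ : DirichletCharacter ℂ M) {s : ℂ} (hs : 1 < s.re)
    (hs3 : s.re ≤ 3) : 1 / 3 * (s.re - 1) ≤ ‖χ.LFunction s‖ := by
  have hz : 0 < s.re - 1 := by linarith
  have h0 := DirichletCharacter.LSeries.mul_mu_eq_one χ hs
  have h0' : LSeries (fun n => χ n) s * LSeries (fun n => χ n * ((ArithmeticFunction.moebius n : ℤ) : ℂ)) s =
      1 := h0
  rw [DirichletCharacter.LFunction_eq_LSeries χ hs]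
  have h1 := Pool.Hhelper76.SC.zb_LSeries_le
    (f := fun n => χ n * ((ArithmeticFunction.moebius n : ℤ) : ℂ)) (fun n => by
      rw [norm_mul, Complex.norm_intCast]
      have h2 : ‖χ n‖ ≤ 1 := DirichletCharacter.norm_le_one χ n
      have h3 : |((ArithmeticFunction.moebius n : ℤ) : ℝ)| ≤ 1 := by
        exact_mod_cast ArithmeticFunction.abs_moebius_le_one
      calc ‖χ n‖ * |((ArithmeticFunction.moebius n : ℤ) : ℝ)| ≤ 1 * 1 :=
            mul_le_mul h2 h3 (abs_nonneg _) zero_le_one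
        _ = 1 := one_mul 1) hs
  have h2 := Pool.Hhelper76.SC.zb_real_le hz
  rw [show 1 + (s.re - 1) = s.re by ring] at h2
  have h3 := congrArg (fun z : ℂ => ‖z‖) h0'
  simp only [norm_mul, norm_one] at h3
  have h4 : (1 + 1 / (s.re - 1)) * (s.re - 1) = s.re := by
    field_simp
    ring
  have h5 : 1 ≤ ‖LSeries (fun n => χ n) s‖ * (1 + 1 / (s.re - 1)) := by
    exact h3.symm.le.trans (mul_le_mul_of_nonneg_left (h1.trans h2) (norm_nonneg _))
  have h6 : s.re - 1 ≤ ‖LSeries (fun n => χ n) s‖ * s.re := by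
    calc s.re - 1 = 1 * (s.re - 1) := (one_mul _).symm
      _ ≤ (‖LSeries (fun n => χ n) s‖ * (1 + 1 / (s.re - 1))) * (s.re - 1) :=
          mul_le_mul_of_nonneg_right h5 hz.le
      _ = ‖LSeries (fun n => χ n) s‖ * ((1 + 1 / (s.re - 1)) * (s.re - 1)) := by ring
      _ = _ := by rw [h4]
  have h7 : ‖LSeries (fun n => χ n) s‖ * s.re ≤ ‖LSeries (fun n => χ n) s‖ * 3 :=
    mul_le_mul_of_nonneg_left hs3 (norm_nonneg _)
  show 1 / 3 * (s.re - 1) ≤ ‖LSeries (fun n => χ n) s‖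
  linarith

theorem L_log : ∃ C : ℝ, 0 < C ∧ ∀ (M : ℕ) [NeZero M] (χ : DirichletCharacter ℂ M) (s : ℂ),
    1 < s.re → ‖deriv χ.LFunction s / χ.LFunction s‖ ≤ 1 / (s.re - 1) + C := by
  obtain ⟨C, hC, h⟩ := VKZ.logderiv_upper
  refine ⟨C, hC, fun M _ χ s hs => ?_⟩
  have hs' : 1 < ((s.re : ℝ) : ℂ).re := by simpa using hs
  have h1 := h (s.re : ℂ) hs'
  rw [Complex.ofReal_re, UHalf_zeta hs, norm_neg, Complex.norm_real,
    Real.norm_of_nonneg (tsum_nonneg fun n => UHalf_r_nonneg _ n)] at h1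
  refine le_trans ?_ h1
  rw [UHalf_vm χ hs, norm_neg]
  have h2 : s = ((s.re : ℝ) : ℂ) + ((s.im : ℝ) : ℂ) * Complex.I := (Complex.re_add_im s).symm
  have hsum := (UHalf_sum χ hs).norm
  have hle : ∀ n, ‖LSeries.term (fun n => χ n * ((ArithmeticFunction.vonMangoldt n : ℝ) : ℂ)) s n‖ ≤
      UHalf_r s.re n := by
    intro n
    rw [h2, UHalf_term, norm_mul, Complex.norm_real, Real.norm_of_nonneg (UHalf_r_nonneg _ n)]
    have h3 : (((s.re : ℝ) : ℂ) + ((s.im : ℝ) : ℂ) * Complex.I).re = s.re := by rw [← h2]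
    rw [h3]
    exact mul_le_of_le_one_right (UHalf_r_nonneg _ n) (UHalf_u_norm χ _ n)
  exact (norm_tsum_le_tsum_norm hsum).trans (hsum.tsum_le_tsum hle (UHalf_r_sum hs))

theorem L_341 {M : ℕ} [NeZero M] (χ : DirichletCharacter ℂ M) {σ : ℝ} (t : ℝ) (hσ : 1 < σ) :
    0 ≤ 3 * (-(deriv riemannZeta (σ : ℂ) / riemannZeta (σ : ℂ)).re) +
      4 * (-(deriv χ.LFunction (σ + t * Complex.I) / χ.LFunction (σ + t * Complex.I)).re) +
      (-(deriv (χ ^ 2).LFunction (σ + (2 * t : ℝ) * Complex.I) /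
        (χ ^ 2).LFunction (σ + (2 * t : ℝ) * Complex.I)).re) := by
  have hre : ∀ τ : ℝ, 1 < ((σ : ℂ) + τ * Complex.I).re := by
    intro τ
    simpa using hσ
  have hval : ∀ (ψ : DirichletCharacter ℂ M) (τ : ℝ),
      -(deriv ψ.LFunction (σ + τ * Complex.I) / ψ.LFunction (σ + τ * Complex.I)).re =
      ∑' n, UHalf_r σ n * (UHalf_u ψ τ n).re := by
    intro ψ τ
    rw [UHalf_vm ψ (hre τ), Complex.neg_re, neg_neg, LSeries, Complex.re_tsum (UHalf_sum ψ (hre τ))]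
    refine tsum_congr fun n => ?_
    rw [UHalf_term, Complex.re_ofReal_mul]
  have hs : ∀ (ψ : DirichletCharacter ℂ M) (τ : ℝ), Summable fun n => UHalf_r σ n * (UHalf_u ψ τ n).re := by
    intro ψ τ
    refine (Complex.hasSum_re (UHalf_sum ψ (hre τ)).hasSum).summable.congr fun n => ?_
    rw [UHalf_term, Complex.re_ofReal_mul]
  have h0 : -(deriv riemannZeta (σ : ℂ) / riemannZeta (σ : ℂ)).re = ∑' n, UHalf_r σ n := by
    rw [UHalf_zeta hσ, Complex.neg_re, neg_neg, Complex.ofReal_re]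
  rw [h0, hval χ t, hval (χ ^ 2) (2 * t), ← tsum_mul_left, ← tsum_mul_left,
    ← ((UHalf_r_sum hσ).mul_left 3).tsum_add ((hs χ t).mul_left 4),
    ← (((UHalf_r_sum hσ).mul_left 3).add ((hs χ t).mul_left 4)).tsum_add (hs (χ ^ 2) (2 * t))]
  refine tsum_nonneg fun n => ?_
  have h1 : UHalf_u (χ ^ 2) (2 * t) n = UHalf_u χ t n * UHalf_u χ t n := by
    unfold UHalf_u
    have h2 : (χ ^ 2) (n : ZMod M) = χ n * χ n := by
      rw [MulChar.pow_apply' χ two_ne_zero, sq]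
    rw [h2, show -(((2 * t : ℝ) : ℂ) * (Real.log n : ℝ)) * Complex.I =
      -((t : ℂ) * (Real.log n : ℝ)) * Complex.I + -((t : ℂ) * (Real.log n : ℝ)) * Complex.I by
        push_cast; ring, Complex.exp_add]
    ring
  have h3 := UHalf_u_norm χ t n
  set u := UHalf_u χ t n with hu
  have h4 : u.re ^ 2 + u.im ^ 2 ≤ 1 := by
    have h5 : ‖u‖ ^ 2 ≤ 1 := by
      calc ‖u‖ ^ 2 ≤ 1 ^ 2 := pow_le_pow_left₀ (norm_nonneg _) h3 2
        _ = 1 := one_pow 2
    rw [← Complex.normSq_eq_norm_sq, Complex.normSq_apply] at h5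
    nlinarith
  have h6 : (UHalf_u (χ ^ 2) (2 * t) n).re = u.re ^ 2 - u.im ^ 2 := by
    rw [h1, Complex.mul_re]
    ring
  rw [h6]
  have h7 := UHalf_r_nonneg σ n
  have h8 : 3 * UHalf_r σ n + 4 * (UHalf_r σ n * u.re) + UHalf_r σ n * (u.re ^ 2 - u.im ^ 2) =
      UHalf_r σ n * (3 + 4 * u.re + (u.re ^ 2 - u.im ^ 2)) := by ring
  rw [h8]
  refine mul_nonneg h7 ?_
  nlinarith [sq_nonneg (1 + u.re)]

/-- polynomial bound -/
theorem L_poly {M : ℕ} [NeZero M] {χ : DirichletCharacter ℂ M} (hχ : χ ≠ 1) {s : ℂ}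
    (hs : 1 / 2 ≤ s.re) : ‖χ.LFunction s‖ ≤ 7 * M * (‖s‖ + 1) := by
  have hM : (1 : ℝ) ≤ M := by exact_mod_cast NeZero.pos M
  have key : ∀ z : ℂ, 1 / 2 ≤ z.re → z ≠ 1 → ‖χ.LFunction z‖ ≤ 7 * M * (‖z‖ + 1) := by
    intro z hz hz1
    have hz0 : 0 < z.re := by linarith
    have h := Pool.Agent.PNE.L_eq_cut χ (le_refl (1 : ℝ)) hz0 hz1
    have hd : Pool.Agent.PNE.dlt χ = 0 := by
      unfold Pool.Agent.PNE.dlt
      rw [MulChar.sum_eq_zero_of_ne_one hχ, zero_div]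
    rw [hd, zero_mul, zero_div, add_zero, Nat.floor_one, Finset.Icc_self, Finset.sum_singleton] at h
    rw [h]
    have h1 : ‖χ ((1 : ℕ) : ZMod M) * ((1 : ℕ) : ℂ) ^ (-z)‖ ≤ 1 := by
      simp
    have h2 : ‖Pool.Agent.PNE.Ech χ 1 * ((1 : ℝ) : ℂ) ^ (-z)‖ ≤ 2 * M := by
      have h3 := Pool.Agent.PNE.norm_Ech_le χ (zero_le_one (α := ℝ))
      simpa using h3
    have h3 : ‖z * Pool.Agent.PNE.Tail χ 1 z‖ ≤ ‖z‖ * (4 * M) := by
      rw [norm_mul]
      refine mul_le_mul_of_nonneg_left ?_ (norm_nonneg z)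
      have h4 := Pool.Agent.PNE.norm_Tail_le χ (zero_lt_one (α := ℝ)) hz0
      rw [Real.one_rpow, mul_one] at h4
      refine h4.trans ?_
      rw [div_le_iff₀ hz0]
      nlinarith
    have h5 := norm_add_le (χ ((1 : ℕ) : ZMod M) * ((1 : ℕ) : ℂ) ^ (-z) -
      Pool.Agent.PNE.Ech χ 1 * ((1 : ℝ) : ℂ) ^ (-z)) (z * Pool.Agent.PNE.Tail χ 1 z)
    have h6 := norm_sub_le (χ ((1 : ℕ) : ZMod M) * ((1 : ℕ) : ℂ) ^ (-z))
      (Pool.Agent.PNE.Ech χ 1 * ((1 : ℝ) : ℂ) ^ (-z))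
    have h7 := norm_nonneg z
    refine h5.trans ?_
    nlinarith
  by_cases h1 : s = 1
  · subst h1
    have hc : ContinuousAt (fun z : ℂ => 7 * M * (‖z‖ + 1) - ‖χ.LFunction z‖) 1 := by
      have h2 : Continuous χ.LFunction :=
        (DirichletCharacter.differentiable_LFunction hχ).continuous
      fun_prop
    have h2 : Filter.Tendsto (fun z : ℂ => 7 * M * (‖z‖ + 1) - ‖χ.LFunction z‖)
        (nhdsWithin 1 {1}ᶜ) (nhds (7 * M * (‖(1 : ℂ)‖ + 1) - ‖χ.LFunction 1‖)) :=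
      hc.tendsto.mono_left nhdsWithin_le_nhds
    have h3 : ∀ᶠ z : ℂ in nhdsWithin 1 {1}ᶜ, 0 ≤ 7 * M * (‖z‖ + 1) - ‖χ.LFunction z‖ := by
      have h4 : ∀ᶠ z : ℂ in nhds 1, 1 / 2 < z.re :=
        (Complex.continuous_re.tendsto 1).eventually_const_lt (by simp; norm_num)
      filter_upwards [self_mem_nhdsWithin, mem_nhdsWithin_of_mem_nhds h4] with z hz1 hz2
      have := key z hz2.le hz1
      linarith
    have h4 := ge_of_tendsto h2 h3
    linarith
  · exact key s hs h1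

end Pool.Agent.MFN
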