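import Pool.Agent.MFN.UEight

/-!
# MFN / ULow: a lower bound for the Gaussian sums over prime powers `≡ 1 (mod 2^m)`, uniform in `m`
-/

set_option autoImplicit false

namespace Pool.Agent.MFN

open ArithmeticFunction Filter

theorem ev_log {ε : ℝ} (hε : 0 < ε) : ∀ᶠ w : ℝ in atTop, Real.log (w + 3) ≤ ε * √w := by
  have h1 := (isLittleO_log_rpow_atTop (show (0 : ℝ) < 1 / 2 by norm_num)).bound
    (show 0 < ε / 2 by linarith)
  have h2 : Tendsto (fun w : ℝ => w + 3) atTop atTop := tendsto_atTop_add_const_right _ _ tendsto_id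
  filter_upwards [h2.eventually h1, eventually_ge_atTop 1] with w hw hw1
  rw [← Real.sqrt_eq_rpow, Real.norm_of_nonneg (Real.sqrt_nonneg _)] at hw
  have h3 : √(w + 3) ≤ 2 * √w := by
    have e : 2 * √w = √(4 * w) := by
      rw [Real.sqrt_mul (by norm_num)]
      congr 1
      rw [show (4 : ℝ) = 2 ^ 2 by norm_num, Real.sqrt_sq (by norm_num)]
    rw [e]
    exact Real.sqrt_le_sqrt (by linarith)
  have h4 := le_trans (Real.le_norm_self _) hw
  nlinarith

theorem ev_exp (D : ℝ) {η : ℝ} (hη : 0 < η) :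
    ∀ᶠ w : ℝ in atTop, D * (√w) ^ 4 * Real.exp (-(√w)) ≤ η := by
  have h1 : Tendsto (fun x : ℝ => D * (x ^ 4 * Real.exp (-x))) atTop (nhds (D * 0)) :=
    (Real.tendsto_pow_mul_exp_neg_atTop_nhds_zero 4).const_mul D
  rw [mul_zero] at h1
  have h2 := (h1.comp Real.tendsto_sqrt_atTop).eventually_le_const hη
  filter_upwards [h2] with w hw
  simp only [Function.comp_apply] at hw
  linarith

/-- **The lower bound.** -/
theorem SS_low {ε : ℝ} (hε : 0 < ε) : ∃ A : ℝ, 1 ≤ A ∧ ∀ (m : ℕ) (w : ℝ),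
    A * ((m : ℝ) + 4) ^ 2 ≤ w → √(2 * Real.pi) - ε ≤ 2 ^ (m + 2) * SS (2 ^ (m + 3)) w := by
  obtain ⟨c, D, hc, hc1, hD, hsm⟩ := ug_small
  obtain ⟨w₈, hw₈⟩ := eventually_atTop.1 (SS_eight (by linarith : 0 < ε / 2))
  obtain ⟨w₁, hw₁⟩ := eventually_atTop.1 (((ev_log (by positivity : 0 < c / 6)).and
    (ev_exp D (by linarith : 0 < ε / 2))).and (eventually_ge_atTop (max 1 w₈)))
  refine ⟨max ((6 / c) ^ 2) (max 1 w₁), le_max_of_le_right (le_max_left _ _), fun m w hw => ?_⟩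
  have hm4 : (1 : ℝ) ≤ ((m : ℝ) + 4) ^ 2 := one_le_pow₀ (by have := Nat.cast_nonneg (α := ℝ) m; linarith)
  have hAw : max ((6 / c) ^ 2) (max 1 w₁) ≤ w := by
    have h0 : 0 ≤ max ((6 / c) ^ 2) (max 1 w₁) := le_max_of_le_left (by positivity)
    nlinarith
  have hw1 : w₁ ≤ w := (le_max_right _ _).trans ((le_max_right _ _).trans hAw)
  obtain ⟨⟨h1, h2⟩, h3⟩ := hw₁ w hw1
  have hw0 : 1 ≤ w := (le_max_left _ _).trans h3
  have h8 := hw₈ w ((le_max_right _ _).trans h3)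
  set x := √w with hx
  have hx0 : 0 ≤ x := Real.sqrt_nonneg w
  have hxx : x ^ 2 = w := Real.sq_sqrt (by linarith)
  have hx1 : 1 ≤ x := by
    rw [hx, ← Real.sqrt_one]
    exact Real.sqrt_le_sqrt hw0
  have hmx : (m : ℝ) + 4 ≤ c / 6 * x := by
    have h4 : (6 / c * ((m : ℝ) + 4)) ^ 2 ≤ x ^ 2 := by
      rw [hxx, mul_pow]
      refine le_trans ?_ hw
      exact mul_le_mul_of_nonneg_right (le_max_left _ _) (by positivity)
    have h5 : 6 / c * ((m : ℝ) + 4) ≤ x := le_of_sq_le_sq h4 hx0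
    have h6 := mul_le_mul_of_nonneg_left h5 (by positivity : 0 ≤ c / 6)
    refine le_trans (le_of_eq ?_) h6
    field_simp
  set l := el (2 ^ (m + 3)) w with hl
  have hl1 : 1 ≤ l := el_ge _ w
  have hlx : l ≤ c / 3 * x := by
    have e : l = ((m + 3 : ℕ) : ℝ) * Real.log 2 + Real.log (w + 3) := by
      rw [hl]
      unfold el
      rw [abs_of_nonneg (by linarith), Real.log_mul (by positivity) (by linarith)]
      push_cast
      rw [Real.log_pow]
      push_cast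
      ring
    have hl2 : Real.log 2 ≤ 1 := Real.log_two_lt_d9.le.trans (by norm_num)
    have h5 : ((m + 3 : ℕ) : ℝ) * Real.log 2 ≤ ((m + 3 : ℕ) : ℝ) * 1 :=
      mul_le_mul_of_nonneg_left hl2 (Nat.cast_nonneg _)
    rw [e]
    push_cast at h5 ⊢
    linarith
  have hl0 : 0 < l := by linarith
  have hlx' : l ≤ x := by nlinarith
  have hexp : 3 * x ≤ c * w / l := by
    rw [le_div_iff₀ hl0, ← hxx]
    nlinarith [mul_le_mul_of_nonneg_left hlx (by positivity : 0 ≤ 3 * x)]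
  have hB : ∀ χ : DirichletCharacter ℂ (2 ^ (m + 3)), χ ^ 2 ≠ 1 →
      ‖ug χ w‖ ≤ D * x ^ 4 * Real.exp (-(3 * x)) := by
    intro χ hχ
    refine (hsm _ χ hχ w hw0).trans ?_
    have h5 : Real.exp (-(c * w / l)) ≤ Real.exp (-(3 * x)) := Real.exp_le_exp.2 (by linarith)
    have h6 : D * w * l ^ 2 ≤ D * x ^ 4 := by
      have h7 : l ^ 2 ≤ x ^ 2 := pow_le_pow_left₀ hl0.le hlx' 2
      have h8 : D * w * l ^ 2 ≤ D * w * x ^ 2 := mul_le_mul_of_nonneg_left h7 (by positivity)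
      refine h8.trans (le_of_eq ?_)
      rw [← hxx]
      ring
    exact mul_le_mul h6 h5 (Real.exp_pos _).le (by positivity)
  have hlow := SS_low1 m (by positivity) hB
  have hφ : ((2 ^ (m + 3) : ℕ).totient : ℝ) = 2 ^ (m + 2) := by
    rw [Nat.totient_prime_pow_succ Nat.prime_two]
    push_cast
    ring
  rw [hφ] at hlow
  have hφx : (2 : ℝ) ^ (m + 2) ≤ Real.exp (2 * x) := by
    have h5 : (2 : ℝ) ^ (m + 2) ≤ Real.exp 1 ^ (m + 2) :=
      pow_le_pow_left₀ (by norm_num) (by have := Real.exp_one_gt_d9; linarith) _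
    refine h5.trans ?_
    rw [← Real.exp_nat_mul]
    refine Real.exp_le_exp.2 ?_
    push_cast
    nlinarith
  have herr : (2 : ℝ) ^ (m + 2) * (D * x ^ 4 * Real.exp (-(3 * x))) ≤ ε / 2 := by
    refine le_trans ?_ h2
    have h5 : (2 : ℝ) ^ (m + 2) * (D * x ^ 4 * Real.exp (-(3 * x))) ≤
        Real.exp (2 * x) * (D * x ^ 4 * Real.exp (-(3 * x))) :=
      mul_le_mul_of_nonneg_right hφx (by positivity)
    refine h5.trans (le_of_eq ?_)
    have h6 : Real.exp (2 * x) * Real.exp (-(3 * x)) = Real.exp (-x) := by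
      rw [← Real.exp_add]
      congr 1
      ring
    rw [← h6]
    ring
  linarith

end Pool.Agent.MFN
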