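import Pool.Agent.MFN.VLow

/-!
# MFN / UPrime: the sum of `1/p` over the primes `p ≡ 1 (mod 2^m)`, a lower bound uniform in `m`
-/

set_option autoImplicit false

namespace Pool.Agent.MFN

open ArithmeticFunction Filter Finset

/-- the primes `p ≡ 1 (mod 2^(m+3))` up to `e^x` -/
noncomputable def PS (m : ℕ) (x : ℝ) : Finset ℕ :=
  (Finset.Icc 2 ⌊Real.exp x⌋₊).filter
    (fun p : ℕ => p.Prime ∧ (p : ZMod (2 ^ (m + 3))) = 1)

theorem mem_PS {m : ℕ} {x : ℝ} {p : ℕ} :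
    p ∈ PS m x ↔ p.Prime ∧ (p : ZMod (2 ^ (m + 3))) = 1 ∧ (p : ℝ) ≤ Real.exp x := by
  unfold PS
  rw [mem_filter, Finset.mem_Icc, Nat.le_floor_iff (Real.exp_pos _).le]
  constructor
  · rintro ⟨⟨-, h2⟩, h3, h4⟩
    exact ⟨h3, h4, h2⟩
  · rintro ⟨h3, h4, h2⟩
    exact ⟨⟨h3.two_le, h2⟩, h3, h4⟩

theorem PS_mono (m : ℕ) {x y : ℝ} (h : x ≤ y) : PS m x ⊆ PS m y := by
  intro p hp
  rw [mem_PS] at hp ⊢
  exact ⟨hp.1, hp.2.1, hp.2.2.trans (Real.exp_le_exp.2 h)⟩

private theorem pointwise {δ : ℝ} (hδ : 0 < δ) {m : ℕ} {w : ℝ} (hw : 0 ≤ w) (n : ℕ) :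
    (if (n : ZMod (2 ^ (m + 3))) = 1 then gs w n else 0) ≤
      (if n ∈ PS m ((1 + δ) * w) then gs w n else 0) + Real.exp (-(w / 4)) *
        (2 * F0 n + Real.exp (2 * ((1 + δ) / δ) ^ 2) * (vonMangoldt n / (n : ℝ) ^ 2)) := by
  have hv : 0 ≤ vonMangoldt n := vonMangoldt_nonneg
  have hF := F0_nonneg n
  set E := Real.exp (2 * ((1 + δ) / δ) ^ 2) with hE
  have hE0 : 0 < E := Real.exp_pos _
  have hR : 0 ≤ Real.exp (-(w / 4)) * (2 * F0 n + E * (vonMangoldt n / (n : ℝ) ^ 2)) := by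
    positivity
  have hg := gs_nonneg w n
  have hS0 : 0 ≤ (if n ∈ PS m ((1 + δ) * w) then gs w n else 0) := by
    split_ifs
    · exact hg
    · exact le_rfl
  split_ifs with h1 h2 h2
  · linarith
  · rw [zero_add]
    rcases Nat.eq_zero_or_pos n with rfl | hn
    · refine le_trans (le_of_eq ?_) hR
      unfold gs
      simp
    have hn0 : (0 : ℝ) < n := by exact_mod_cast hn
    by_cases hbig : Real.exp ((1 + δ) * w) < n
    · set x := Real.log n with hx
      have hnx : (n : ℝ) = Real.exp x := (Real.exp_log hn0).symm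
      have hx2 : (1 + δ) * w < x := by
        rw [hnx] at hbig
        exact Real.exp_lt_exp.1 hbig
      have hwx : w ≤ x := by nlinarith
      have hxw : x ≤ (1 + δ) / δ * (x - w) := by
        rw [div_mul_eq_mul_div, le_div_iff₀ hδ]
        nlinarith
      have h3 : Real.exp (-x) * Real.exp (-(x - w) ^ 2 / 2) ≤
          Real.exp (-(w / 4)) * (E * (1 / (n : ℝ) ^ 2)) := by
        have e : 1 / (n : ℝ) ^ 2 = Real.exp (-(2 * x)) := by
          rw [hnx, ← Real.exp_nat_mul, Real.exp_neg, one_div]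
          push_cast
          rfl
        rw [e, hE, ← Real.exp_add, ← Real.exp_add, ← Real.exp_add]
        refine Real.exp_le_exp.2 ?_
        have h5 : 2 * x ≤ 2 * ((1 + δ) / δ) ^ 2 + (x - w) ^ 2 / 2 := by
          nlinarith [sq_nonneg (2 * ((1 + δ) / δ) - (x - w))]
        linarith
      have h4 := mul_le_mul_of_nonneg_left h3 hv
      rw [gs_exp w hn]
      refine h4.trans ?_
      have h5 : 0 ≤ Real.exp (-(w / 4)) * (2 * F0 n) := by positivity
      have h6 : vonMangoldt n * (Real.exp (-(w / 4)) * (E * (1 / (n : ℝ) ^ 2))) =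
          Real.exp (-(w / 4)) * (E * (vonMangoldt n / (n : ℝ) ^ 2)) := by ring
      rw [h6, mul_add]
      linarith
    · have hnp : ¬ n.Prime := fun hp => h2 (mem_PS.2 ⟨hp, h1, not_lt.1 hbig⟩)
      have hF0 : F0 n = vonMangoldt n * (n : ℝ) ^ (-(3 / 4) : ℝ) := by
        unfold F0
        rw [if_neg hnp]
      have h3 := gs_np w n
      rw [← hF0] at h3
      refine h3.trans ?_
      have h5 : 0 ≤ Real.exp (-(w / 4)) * (E * (vonMangoldt n / (n : ℝ) ^ 2)) := by
        positivity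
      rw [mul_add]
      linarith
  · linarith
  · linarith

/-- **Primes with Gaussian weights.** -/
theorem prime_low {ε δ κ : ℝ} (hε : 0 < ε) (hδ : 0 < δ) (hκ : 1 < κ) :
    ∃ A : ℝ, 1 ≤ A ∧ ∀ (m : ℕ) (w : ℝ), A * ((m : ℝ) + 4) ^ κ ≤ w →
    √(2 * Real.pi) - ε ≤ 2 ^ (m + 2) * ∑ p ∈ PS m ((1 + δ) * w), gs w p := by
  obtain ⟨A, hA, hlow⟩ := SS_low' (by linarith : 0 < ε / 2) hκ
  set E := Real.exp (2 * ((1 + δ) / δ) ^ 2) with hE
  have hE0 : 0 < E := Real.exp_pos _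
  set K : ℝ := ∑' n : ℕ, (2 * F0 n + E * (vonMangoldt n / (n : ℝ) ^ 2)) with hK
  have hKs : Summable fun n : ℕ => 2 * F0 n + E * (vonMangoldt n / (n : ℝ) ^ 2) :=
    (F0_summ.mul_left 2).add (summ_two.mul_left _)
  have hK0 : 0 ≤ K := tsum_nonneg fun n => by
    have h1 := F0_nonneg n
    have h2 : 0 ≤ vonMangoldt n := vonMangoldt_nonneg
    positivity
  have h1 : Tendsto (fun w : ℝ => K * Real.exp (-(w / 8))) atTop (nhds (K * 0)) := by
    refine Tendsto.const_mul _ ?_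
    have h2 : Tendsto (fun w : ℝ => w / 8) atTop atTop := tendsto_id.atTop_div_const (by norm_num)
    exact Real.tendsto_exp_neg_atTop_nhds_zero.comp h2
  rw [mul_zero] at h1
  obtain ⟨w₁, hw₁⟩ := eventually_atTop.1 (h1.eventually_le_const (by linarith : 0 < ε / 2))
  refine ⟨max A (max 8 w₁), le_max_of_le_left hA, fun m w hw => ?_⟩
  have hm0 : (0 : ℝ) ≤ m := Nat.cast_nonneg m
  have hm4 : (1 : ℝ) ≤ ((m : ℝ) + 4) ^ κ := Real.one_le_rpow (by linarith) (by linarith)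
  have hm5 : (m : ℝ) + 4 ≤ ((m : ℝ) + 4) ^ κ := by
    calc (m : ℝ) + 4 = ((m : ℝ) + 4) ^ (1 : ℝ) := (Real.rpow_one _).symm
      _ ≤ ((m : ℝ) + 4) ^ κ := Real.rpow_le_rpow_of_exponent_le (by linarith) hκ.le
  have hA0 : 0 ≤ max A (max 8 w₁) := le_max_of_le_left (by linarith)
  have hAw : max A (max 8 w₁) ≤ w := by nlinarith
  have hw1 : w₁ ≤ w := (le_max_right _ _).trans ((le_max_right _ _).trans hAw)
  have hw8 : 8 * ((m : ℝ) + 4) ≤ w := by
    have h8 : (8 : ℝ) ≤ max A (max 8 w₁) := (le_max_left _ _).trans (le_max_right _ _)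
    nlinarith
  have hwA : A * ((m : ℝ) + 4) ^ κ ≤ w :=
    (mul_le_mul_of_nonneg_right (le_max_left _ _) (by positivity)).trans hw
  have hw0 : 0 ≤ w := by linarith
  have h2 := hlow m w hwA
  have h3 : SS (2 ^ (m + 3)) w ≤ ∑ p ∈ PS m ((1 + δ) * w), gs w p + Real.exp (-(w / 4)) * K := by
    unfold SS
    have h4 : ∑ p ∈ PS m ((1 + δ) * w), gs w p =
        ∑' n : ℕ, if n ∈ PS m ((1 + δ) * w) then gs w n else 0 := by
      rw [tsum_eq_sum (s := PS m ((1 + δ) * w)) (fun n hn => if_neg hn)]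
      exact sum_congr rfl fun n hn => (if_pos hn).symm
    have h5 : Summable fun n : ℕ => if n ∈ PS m ((1 + δ) * w) then gs w n else 0 :=
      summable_of_ne_finset_zero (s := PS m ((1 + δ) * w)) fun n hn => if_neg hn
    rw [h4, hK, ← tsum_mul_left, ← h5.tsum_add (hKs.mul_left _)]
    exact Summable.tsum_le_tsum (fun n => pointwise hδ hw0 n) (SS_summable _ w)
      (h5.add (hKs.mul_left _))
  have h4 : 2 ^ (m + 2) * (Real.exp (-(w / 4)) * K) ≤ ε / 2 := by
    refine le_trans ?_ (hw₁ w hw1)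
    have h5 : (2 : ℝ) ^ (m + 2) ≤ Real.exp (w / 8) := by
      have h6 : (2 : ℝ) ^ (m + 2) ≤ Real.exp 1 ^ (m + 2) :=
        pow_le_pow_left₀ (by norm_num) (by have := Real.exp_one_gt_d9; linarith) _
      refine h6.trans ?_
      rw [← Real.exp_nat_mul]
      refine Real.exp_le_exp.2 ?_
      push_cast
      linarith
    have h7 : Real.exp (-(w / 4)) * Real.exp (w / 8) = Real.exp (-(w / 8)) := by
      rw [← Real.exp_add]
      congr 1
      ring
    calc 2 ^ (m + 2) * (Real.exp (-(w / 4)) * K) =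
        K * (Real.exp (-(w / 4)) * 2 ^ (m + 2)) := by ring
      _ ≤ K * (Real.exp (-(w / 4)) * Real.exp (w / 8)) := by gcongr
      _ = _ := by rw [h7]
  have h5 := mul_le_mul_of_nonneg_left h3 (by positivity : (0 : ℝ) ≤ 2 ^ (m + 2))
  rw [mul_add] at h5
  linarith

theorem gint_eq (c : ℝ) : ∫ w : ℝ, Real.exp (-(c - w) ^ 2 / 2) = √(2 * Real.pi) := by
  rw [MeasureTheory.integral_sub_left_eq_self (fun w : ℝ => Real.exp (-w ^ 2 / 2)) MeasureTheory.volume c]
  have h := integral_gaussian (1 / 2)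
  have e : ∀ x : ℝ, -(1 / 2) * x ^ 2 = -x ^ 2 / 2 := fun x => by ring
  simp only [e] at h
  rw [h]
  congr 1
  ring

theorem gint_int (c : ℝ) : MeasureTheory.Integrable fun w : ℝ => Real.exp (-(c - w) ^ 2 / 2) := by
  have h := integrable_exp_neg_mul_sq (by norm_num : (0 : ℝ) < 1 / 2)
  have e : ∀ x : ℝ, -(1 / 2) * x ^ 2 = -x ^ 2 / 2 := fun x => by ring
  simp only [e] at h
  exact h.comp_sub_left c

/-- **The sum of `1/p`, uniformly.** -/
theorem sum_low {ε δ κ : ℝ} (hε : 0 < ε) (hδ : 0 < δ) (hκ : 1 < κ) :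
    ∃ A : ℝ, 1 ≤ A ∧ ∀ (m : ℕ) (w₀ J : ℝ), A * ((m : ℝ) + 4) ^ κ ≤ w₀ → w₀ ≤ J →
    (√(2 * Real.pi) - ε) * (Real.log J - Real.log w₀) ≤
      2 ^ (m + 2) * (1 + δ) * √(2 * Real.pi) * ∑ p ∈ PS m ((1 + δ) * J), 1 / (p : ℝ) := by
  obtain ⟨A, hA, hlow⟩ := prime_low hε hδ hκ
  refine ⟨A, hA, fun m w₀ J hw hJ => ?_⟩
  have hm4 : (1 : ℝ) ≤ ((m : ℝ) + 4) ^ κ := Real.one_le_rpow (by
    have := Nat.cast_nonneg (α := ℝ) m
    linarith) (by linarith)
  have hw0 : 0 < w₀ := by nlinarith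
  have hJ0 : 0 < J := by linarith
  set S := PS m ((1 + δ) * J) with hS
  have hterm : ∀ w ∈ Set.Icc w₀ J, (√(2 * Real.pi) - ε) * (1 / w) ≤
      ∑ p ∈ S, 2 ^ (m + 2) * (1 + δ) * (1 / (p : ℝ)) * Real.exp (-(Real.log p - w) ^ 2 / 2) := by
    rintro w ⟨hw1, hw2⟩
    have hwp : 0 < w := by linarith
    have h1 := hlow m w (hw.trans hw1)
    have h2 := mul_le_mul_of_nonneg_right h1 (by positivity : 0 ≤ 1 / w)
    refine h2.trans ?_
    rw [mul_assoc, sum_mul, mul_sum]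
    have h3 : ∀ p ∈ PS m ((1 + δ) * w), 2 ^ (m + 2) * (gs w p * (1 / w)) ≤
        2 ^ (m + 2) * (1 + δ) * (1 / (p : ℝ)) * Real.exp (-(Real.log p - w) ^ 2 / 2) := by
      intro p hp
      rw [mem_PS] at hp
      obtain ⟨hp1, hp2, hp3⟩ := hp
      have hp0 : (0 : ℝ) < p := by exact_mod_cast hp1.pos
      have hlp : Real.log p ≤ (1 + δ) * w := by
        rw [Real.log_le_iff_le_exp hp0]
        exact hp3
      unfold gs
      rw [vonMangoldt_apply_prime hp1]
      have h4 : Real.log p * (1 / w) ≤ 1 + δ := by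
        rw [mul_one_div, div_le_iff₀ hwp]
        exact hlp
      have h5 : 0 ≤ 2 ^ (m + 2) * (1 / (p : ℝ) * Real.exp (-(Real.log p - w) ^ 2 / 2)) := by
        positivity
      calc 2 ^ (m + 2) * (Real.log p / p * Real.exp (-(Real.log p - w) ^ 2 / 2) * (1 / w)) =
          (Real.log p * (1 / w)) * (2 ^ (m + 2) * (1 / (p : ℝ) *
            Real.exp (-(Real.log p - w) ^ 2 / 2))) := by ring
        _ ≤ (1 + δ) * (2 ^ (m + 2) * (1 / (p : ℝ) * Real.exp (-(Real.log p - w) ^ 2 / 2))) :=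
            mul_le_mul_of_nonneg_right h4 h5
        _ = _ := by ring
    refine (sum_le_sum h3).trans ?_
    refine sum_le_sum_of_subset_of_nonneg (PS_mono m ?_) fun p _ _ => ?_
    · exact mul_le_mul_of_nonneg_left hw2 (by linarith)
    · positivity
  have hcont : ∀ p : ℕ, Continuous fun w : ℝ =>
      2 ^ (m + 2) * (1 + δ) * (1 / (p : ℝ)) * Real.exp (-(Real.log p - w) ^ 2 / 2) := by
    intro p
    fun_prop
  have hint1 : IntervalIntegrable (fun w : ℝ => (√(2 * Real.pi) - ε) * (1 / w))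
      MeasureTheory.volume w₀ J := by
    refine ContinuousOn.intervalIntegrable ?_
    rw [Set.uIcc_of_le hJ]
    refine continuousOn_const.mul (continuousOn_const.div continuousOn_id fun w hw => ?_)
    exact (lt_of_lt_of_le hw0 hw.1).ne'
  have hint2 : IntervalIntegrable (fun w : ℝ => ∑ p ∈ S,
      2 ^ (m + 2) * (1 + δ) * (1 / (p : ℝ)) * Real.exp (-(Real.log p - w) ^ 2 / 2))
      MeasureTheory.volume w₀ J :=
    (continuous_finsetSum _ fun p _ => hcont p).intervalIntegrable _ _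
  have h1 := intervalIntegral.integral_mono_on hJ hint1 hint2 hterm
  rw [intervalIntegral.integral_const_mul, integral_one_div_of_pos hw0 hJ0,
    Real.log_div hJ0.ne' hw0.ne',
    intervalIntegral.integral_finsetSum fun p _ => (hcont p).intervalIntegrable _ _] at h1
  refine h1.trans ?_
  rw [mul_sum]
  refine sum_le_sum fun p hp => ?_
  rw [intervalIntegral.integral_const_mul]
  have h2 : ∫ w in w₀..J, Real.exp (-(Real.log p - w) ^ 2 / 2) ≤ √(2 * Real.pi) := by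
    rw [intervalIntegral.integral_of_le hJ, ← gint_eq (Real.log p)]
    exact MeasureTheory.setIntegral_le_integral (gint_int _)
      (Eventually.of_forall fun w => (Real.exp_pos _).le)
  have h3 := mul_le_mul_of_nonneg_left h2
    (by positivity : (0 : ℝ) ≤ 2 ^ (m + 2) * (1 + δ) * (1 / (p : ℝ)))
  refine h3.trans (le_of_eq ?_)
  ring

end Pool.Agent.MFN
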