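import Pool.Agent.MFN.UPrime
import Pool.Agent.MFN.Core

/-!
# MFN / UW: the sieve, uniformly in `k`
-/

set_option autoImplicit false

namespace Pool.Agent.MFN

open Finset Filter Pool.MedDiv

/-- the sum of `ρ_k(p)/p` over the primes up to `y` -/
noncomputable def RR (k y : ℕ) : ℝ := ∑ p ∈ pr y, (rho k p : ℝ) / p

theorem R_prime (m : ℕ) {y : ℕ} {x : ℝ} (hy : Real.exp x ≤ y) :
    2 ^ (m + 2) * ∑ p ∈ PS m x, 1 / (p : ℝ) ≤ RR (m + 2) y := by
  unfold RR
  rw [mul_sum]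
  have hsub : PS m x ⊆ pr y := by
    intro p hp
    rw [mem_PS] at hp
    rw [mem_pr]
    refine ⟨hp.1, ?_⟩
    exact_mod_cast hp.2.2.trans hy
  refine le_trans (sum_le_sum fun p hp => ?_)
    (sum_le_sum_of_subset_of_nonneg hsub fun p _ _ => by positivity)
  rw [mem_PS] at hp
  obtain ⟨hp1, hp2, -⟩ := hp
  have hp3 : p ≡ 1 [MOD 2 ^ (m + 2 + 1)] := by
    have := ZMod.natCast_eq_natCast_iff p 1 (2 ^ (m + 3))
    rw [Nat.cast_one] at this
    exact this.1 hp2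
  have hpne : p ≠ 2 := by
    rintro rfl
    have h6 : 2 ^ (m + 2 + 1) ∣ 2 - 1 :=
      (Nat.ModEq.comm.trans (Nat.modEq_iff_dvd' (by norm_num))).1 hp3
    have h7 := Nat.le_of_dvd (by norm_num) h6
    have h8 : 1 ≤ 2 ^ (m + 2) := Nat.one_le_two_pow
    rw [pow_succ] at h7
    omega
  rw [rho_odd hp1 hpne, if_pos hp3]
  push_cast
  rw [mul_one_div]

/-- **The sum is large.** -/
theorem R_up {η κ : ℝ} (hη : 0 < η) (hκ : 1 < κ) : ∃ A : ℝ, 1 ≤ A ∧ ∀ (k : ℕ) (J : ℝ) (y : ℕ),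
    A * ((k : ℝ) + 4) ^ κ ≤ J → Real.exp ((1 + η) * J) ≤ y →
    (1 - η) * (Real.log J - Real.log (A * ((k : ℝ) + 4) ^ κ)) ≤ RR k y := by
  set R := √(2 * Real.pi) with hR
  have hR0 : 0 < R := Real.sqrt_pos.2 (by positivity)
  obtain ⟨A, hA, hlow⟩ := sum_low (ε := R * (η / 2)) (δ := η / 2) (by positivity) (by positivity) hκ
  obtain ⟨K0, hK0⟩ := sum_t_bounds 0
  obtain ⟨K1, hK1⟩ := sum_t_bounds 1
  set A' := max A (max (Real.exp K0) (Real.exp K1)) with hA'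
  have hA'1 : 1 ≤ A' := le_max_of_le_left hA
  refine ⟨A', hA'1, fun k J y hJ hy => ?_⟩
  have hk0 : (0 : ℝ) ≤ k := Nat.cast_nonneg k
  have hk4 : (1 : ℝ) ≤ ((k : ℝ) + 4) ^ κ := Real.one_le_rpow (by linarith) (by linarith)
  have hAk : 0 < A' * ((k : ℝ) + 4) ^ κ := by positivity
  have hJ0 : 0 < J := by linarith
  have hJ1 : 1 ≤ J := by nlinarith
  have hlog0 : 0 ≤ Real.log J - Real.log (A' * ((k : ℝ) + 4) ^ κ) :=
    sub_nonneg.2 (Real.log_le_log hAk hJ)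
  -- small k
  have hsmall : ∀ K : ℝ, Real.exp K ≤ A' → (∀ y : ℕ, 3 ≤ y → |RR k y - Real.log (Real.log y)| ≤ K) →
      (1 - η) * (Real.log J - Real.log (A' * ((k : ℝ) + 4) ^ κ)) ≤ RR k y := by
    intro K hCA hb
    have hJ16 : 4 ≤ J := by
      have : (4 : ℝ) ≤ ((k : ℝ) + 4) ^ κ := by
        calc (4 : ℝ) ≤ (k : ℝ) + 4 := by linarith
          _ = ((k : ℝ) + 4) ^ (1 : ℝ) := (Real.rpow_one _).symm
          _ ≤ ((k : ℝ) + 4) ^ κ := Real.rpow_le_rpow_of_exponent_le (by linarith) hκ.le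
      nlinarith
    have hyJ : Real.exp J ≤ y := (Real.exp_le_exp.2 (by nlinarith)).trans hy
    have hy3 : 3 ≤ y := by
      have h1 := Real.add_one_le_exp J
      have h2 : (3 : ℝ) ≤ y := by linarith
      exact_mod_cast h2
    have hy0 : (0 : ℝ) < y := by exact_mod_cast (by omega : 0 < y)
    have hly : J ≤ Real.log y := by
      rw [Real.le_log_iff_exp_le hy0]
      exact hyJ
    have h1 := (abs_le.1 (hb y hy3)).1
    have h2 : Real.log J ≤ Real.log (Real.log y) := Real.log_le_log hJ0 hly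
    have h3 : K ≤ Real.log (A' * ((k : ℝ) + 4) ^ κ) := by
      rw [Real.le_log_iff_exp_le hAk]
      nlinarith
    nlinarith
  match k, hsmall, hJ, hlog0, hk4 with
  | 0, hsmall, _, _, _ =>
    exact hsmall K0 ((le_max_left _ _).trans (le_max_right _ _)) hK0
  | 1, hsmall, _, _, _ =>
    exact hsmall K1 ((le_max_right _ _).trans (le_max_right _ _)) hK1
  | m + 2, _, hJ, hlog0, hk4 =>
    have hm0 : (0 : ℝ) ≤ m := Nat.cast_nonneg m
    have hy' : Real.exp ((1 + η / 2) * J) ≤ y := (Real.exp_le_exp.2 (by nlinarith)).trans hy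
    have h1 := R_prime m hy'
    have hw0 : A * ((m : ℝ) + 4) ^ κ ≤ A' * (((m + 2 : ℕ) : ℝ) + 4) ^ κ := by
      refine mul_le_mul (le_max_left _ _) ?_ (by positivity) (by linarith)
      refine Real.rpow_le_rpow (by positivity) ?_ (by linarith)
      push_cast
      linarith
    have h2 := hlow m (A' * (((m + 2 : ℕ) : ℝ) + 4) ^ κ) J hw0 hJ
    rw [← hR] at h2
    set L := Real.log J - Real.log (A' * (((m + 2 : ℕ) : ℝ) + 4) ^ κ) with hL
    set T := ∑ p ∈ PS m ((1 + η / 2) * J), 1 / (p : ℝ) with hT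
    have h3 : (1 - η) * L ≤ 2 ^ (m + 2) * T := by
      have h4 : R * ((1 - η / 2) * L) ≤ R * ((1 + η / 2) * (2 ^ (m + 2) * T)) := by
        linarith
      have h5 := le_of_mul_le_mul_left h4 hR0
      have h6 : (1 + η / 2) * ((1 - η) * L) ≤ (1 - η / 2) * L := by nlinarith [sq_nonneg η]
      exact le_of_mul_le_mul_left (h6.trans h5) (by linarith)
    linarith

/-- **The sum is large, uniformly.** -/
theorem R_large {D B κ : ℝ} (hD : 0 ≤ D) (hκ : 1 < κ) (hκ2 : κ ≤ 2) (hB : D + κ < B) : ∀ᶠ n : ℕ in atTop, ∀ k ≤ n,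
    D * Real.log n ≤ RR k (2 ^ ⌊(n : ℝ) ^ B⌋₊) := by
  set η : ℝ := (B - κ - D) / (2 * (B - κ)) with hη
  have hB2 : 0 < B - κ := by linarith
  have hη0 : 0 < η := div_pos (by linarith) (by linarith)
  have hη1 : η ≤ 1 := by
    rw [hη, div_le_one (by linarith)]
    linarith
  have hηB : (1 - η) * (B - κ) = (B - κ + D) / 2 := by
    rw [hη]
    field_simp
    ring
  obtain ⟨A, hA, hW⟩ := R_up hη0 hκ
  have hl2 : 0 < Real.log 2 := Real.log_pos (by norm_num)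
  set c : ℝ := Real.log 2 / (2 * (1 + η)) with hc
  have hc0 : 0 < c := by positivity
  set K : ℝ := |Real.log c| + Real.log (4 * A) with hK
  have hlogn : Tendsto (fun n : ℕ => Real.log n) atTop atTop :=
    Real.tendsto_log_atTop.comp tendsto_natCast_atTop_atTop
  have hKev : ∀ᶠ n : ℕ in atTop, K ≤ (B - κ - D) / 4 * Real.log n :=
    (hlogn.const_mul_atTop (by linarith : 0 < (B - κ - D) / 4)).eventually_ge_atTop K
  filter_upwards [hKev, eventually_ge_atTop 4] with n hn hn4 k hk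
  have hn1 : (1 : ℝ) ≤ n := by exact_mod_cast (by omega : 1 ≤ n)
  have hn4r : (4 : ℝ) ≤ n := by exact_mod_cast hn4
  have hn0 : (0 : ℝ) < n := by linarith
  have hkn : (k : ℝ) ≤ n := by exact_mod_cast hk
  have hln : 0 ≤ Real.log n := Real.log_nonneg hn1
  set s := ⌊(n : ℝ) ^ B⌋₊ with hs
  have hnB : (4 : ℝ) ≤ (n : ℝ) ^ B := by
    calc (4 : ℝ) ≤ n := hn4r
      _ = (n : ℝ) ^ (1 : ℝ) := (Real.rpow_one _).symm
      _ ≤ (n : ℝ) ^ B := Real.rpow_le_rpow_of_exponent_le hn1 (by linarith)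
  have hs2 : (n : ℝ) ^ B / 2 ≤ s := by
    have := Nat.lt_floor_add_one ((n : ℝ) ^ B)
    linarith
  set J : ℝ := c * (n : ℝ) ^ B with hJ
  have hJ0 : 0 < J := by positivity
  have hy : Real.exp ((1 + η) * J) ≤ ((2 ^ s : ℕ) : ℝ) := by
    push_cast
    have h1 : (2 : ℝ) ^ s = Real.exp ((s : ℝ) * Real.log 2) := by
      rw [← Real.log_pow, Real.exp_log (by positivity)]
    rw [h1]
    refine Real.exp_le_exp.2 ?_
    have h2 : (1 + η) * J = (n : ℝ) ^ B / 2 * Real.log 2 := by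
      rw [hJ, hc]
      field_simp
    rw [h2]
    exact mul_le_mul_of_nonneg_right hs2 hl2.le
  have hlJ : Real.log J = Real.log c + B * Real.log n := by
    rw [hJ, Real.log_mul hc0.ne' (by positivity), Real.log_rpow hn0]
  have hk4 : A * ((k : ℝ) + 4) ^ κ ≤ 4 * A * (n : ℝ) ^ κ := by
    have hk0 : (0 : ℝ) ≤ k := Nat.cast_nonneg k
    have h1 : ((k : ℝ) + 4) ^ κ ≤ (2 * n) ^ κ :=
      Real.rpow_le_rpow (by linarith) (by linarith) (by linarith)
    have h2 : (2 * (n : ℝ)) ^ κ ≤ 4 * (n : ℝ) ^ κ := by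
      rw [Real.mul_rpow (by norm_num) hn0.le]
      refine mul_le_mul_of_nonneg_right ?_ (by positivity)
      calc (2 : ℝ) ^ κ ≤ (2 : ℝ) ^ (2 : ℝ) := Real.rpow_le_rpow_of_exponent_le (by norm_num) hκ2
        _ = 4 := by norm_num
    calc A * ((k : ℝ) + 4) ^ κ ≤ A * (4 * (n : ℝ) ^ κ) :=
          mul_le_mul_of_nonneg_left (h1.trans h2) (by linarith)
      _ = _ := by ring
  have hAk : 0 < A * ((k : ℝ) + 4) ^ κ := by
    have hk0 : (0 : ℝ) ≤ k := Nat.cast_nonneg k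
    positivity
  have hlA : Real.log (A * ((k : ℝ) + 4) ^ κ) ≤ Real.log (4 * A) + κ * Real.log n := by
    have h1 := Real.log_le_log hAk hk4
    have e : Real.log (4 * A * (n : ℝ) ^ κ) = Real.log (4 * A) + κ * Real.log n := by
      rw [Real.log_mul (by positivity) (by positivity), Real.log_rpow hn0]
    rwa [e] at h1
  have hca : -|Real.log c| ≤ Real.log c := neg_abs_le _
  have hgap : (B - κ) * Real.log n - K ≤ Real.log J - Real.log (A * ((k : ℝ) + 4) ^ κ) := by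
    rw [hlJ, hK]
    linarith
  have hgap0 : 0 ≤ Real.log J - Real.log (A * ((k : ℝ) + 4) ^ κ) := by
    refine le_trans ?_ hgap
    nlinarith
  have hJA : A * ((k : ℝ) + 4) ^ κ ≤ J := by
    by_contra hcon
    push Not at hcon
    have := Real.log_lt_log hJ0 hcon
    linarith
  have h1 := hW k J (2 ^ s) hJA hy
  refine le_trans ?_ h1
  have h3 := mul_le_mul_of_nonneg_left hgap (by linarith : 0 ≤ 1 - η)
  have hK0 : (1 - η) * K ≤ (B - κ - D) / 4 * Real.log n := by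
    have hK1 : 0 ≤ K := by
      rw [hK]
      have h4 : 0 ≤ Real.log (4 * A) := Real.log_nonneg (by linarith)
      positivity
    nlinarith
  have h5 : (1 - η) * ((B - κ) * Real.log n - K) = (B - κ + D) / 2 * Real.log n - (1 - η) * K := by
    rw [← hηB]
    ring
  rw [h5] at h3
  have h6 : (B - κ + D) / 2 * Real.log n - (B - κ - D) / 4 * Real.log n - D * Real.log n =
      (B - κ - D) / 4 * Real.log n := by ring
  have h7 : 0 ≤ (B - κ - D) / 4 * Real.log n := mul_nonneg (by linarith) hln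
  linarith

/-- a subset with a prescribed sum -/
theorem subset_sum {Q : Finset ℕ} {f : ℕ → ℝ} (hf : ∀ p ∈ Q, f p ≤ 1 / 2) {L : ℝ} (hL : 0 ≤ L)
    (h : L ≤ ∑ p ∈ Q, f p) : ∃ Q' ⊆ Q, L ≤ ∑ p ∈ Q', f p ∧ ∑ p ∈ Q', f p ≤ L + 1 / 2 := by
  classical
  induction Q using Finset.induction_on with
  | empty =>
    refine ⟨∅, subset_rfl, h, ?_⟩
    rw [sum_empty]
    linarith
  | insert p s hp ih =>
    by_cases h1 : L ≤ ∑ q ∈ s, f q
    · obtain ⟨Q', h2, h3⟩ := ih (fun q hq => hf q (mem_insert_of_mem hq)) h1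
      exact ⟨Q', h2.trans (subset_insert _ _), h3⟩
    · refine ⟨insert p s, subset_rfl, h, ?_⟩
      rw [sum_insert hp]
      have := hf p (mem_insert_self _ _)
      linarith

/-- no prime of `Q` divides `x^(2^k) + 1` -/
def NQ (k : ℕ) (Q : Finset ℕ) (x : ℕ) : Prop := ∀ p ∈ Q, ¬ p ∣ x ^ 2 ^ k + 1

/-- **The sieve.** -/
theorem eqd_q {k s : ℕ} (hk : k ≤ s) (hs : 1 ≤ s) {L : ℝ} {Q : Finset ℕ}
    (hQs : Q ⊆ pr (2 ^ s)) (h2 : ∑ p ∈ Q, (rho k p : ℝ) / p ≤ L + 1 / 2) :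
    Eqd (NQ k Q) (∏ p ∈ Q, (1 - (rho k p : ℝ) / p)) (Real.exp (-L))
      ((2 : ℝ) ^ (2 * s * (2 * ⌈2 * (L + 1)⌉₊ + 3))) 0 := by
  intro A _ K S hS
  have hQ : ∀ p ∈ Q, p.Prime ∧ p ≤ 2 ^ s := by
    intro p hp
    have := hQs hp
    rwa [mem_pr] at this
  have hz : 1 ≤ 2 ^ s := Nat.one_le_two_pow
  have hκ : 1 ≤ 2 ^ k := Nat.one_le_two_pow
  have hrho : ∀ p, om1 (fun p x => p ∣ x ^ 2 ^ k + 1) p = rho k p := fun p => rfl
  set J := 2 * ⌈2 * (L + 1)⌉₊ with hJ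
  have h := sieve_gen (fun p x => p ∣ x ^ 2 ^ k + 1) hQ hz hκ (fun p _ => per k p)
    (fun p hp => by rw [hrho]; exact rho_le (hQ p hp).1 k) (J := J) (even_two_mul _) A K
  simp only [hrho] at h
  have hcard : ((Ico A (A + K)).filter (fun x => ∀ p ∈ Q, ¬ p ∣ x ^ 2 ^ k + 1)).card =
      S.card := by
    refine (card_nbij' (fun i => A + i) (fun x => x - A) ?_ ?_ ?_ ?_).symm
    · intro i hi
      have hi' := (hS i).1 (by simpa using hi)
      simp only [coe_filter, mem_Ico, Set.mem_ofPred_eq]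
      exact ⟨⟨by omega, by omega⟩, hi'.2⟩
    · intro x hx
      simp only [coe_filter, mem_Ico, Set.mem_ofPred_eq] at hx
      have : x - A ∈ S := by
        rw [hS]
        refine ⟨by omega, ?_⟩
        rw [Nat.add_sub_cancel' hx.1.1]
        exact hx.2
      simpa using this
    · intro i _
      simp
    · intro x hx
      simp only [coe_filter, mem_Ico, Set.mem_ofPred_eq] at hx
      simp only
      omega
  rw [hcard] at h
  rw [mul_comm (K : ℝ) (∏ p ∈ Q, (1 - (rho k p : ℝ) / p)), mul_comm (K : ℝ) (Real.exp _)] at h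
  have hK0 : (0 : ℝ) ≤ K := Nat.cast_nonneg K
  have hl2 : Real.log 2 ≤ 1 := by
    have := Real.log_two_lt_d9
    linarith
  have hls : Real.log ((2 ^ s : ℕ) : ℝ) ≤ s := by
    push_cast
    rw [Real.log_pow]
    have : (s : ℝ) * Real.log 2 ≤ s * 1 := mul_le_mul_of_nonneg_left hl2 (Nat.cast_nonneg s)
    linarith
  have hrs : rs Q ≤ 1 + (s : ℝ) := by
    have h3 : rs Q ≤ rs (pr (2 ^ s)) :=
      sum_le_sum_of_subset_of_nonneg hQs fun p _ _ => by positivity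
    refine h3.trans ((rs_le le_rfl).trans ?_)
    linarith
  have hJr : 4 * (L + 1) ≤ (J : ℝ) := by
    rw [hJ]
    push_cast
    have := Nat.le_ceil (2 * (L + 1))
    linarith
  have he3 : Real.exp 1 ≤ 3 := Real.exp_one_lt_d9.le.trans (by norm_num)
  refine h.trans (add_le_add ?_ ?_)
  · refine mul_le_mul_of_nonneg_right (Real.exp_le_exp.2 ?_) hK0
    have h1 : Real.exp 1 * ∑ p ∈ Q, (rho k p : ℝ) / p ≤ 3 * (L + 1 / 2) :=
      mul_le_mul he3 h2 (sum_nonneg fun p _ => by positivity) (by norm_num)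
    linarith
  · have h1 : ((2 ^ k * 2 ^ s : ℕ) : ℝ) ^ (J + 1) = (2 : ℝ) ^ ((k + s) * (J + 1)) := by
      push_cast
      rw [← pow_add, ← pow_mul]
    have h2 : Real.exp (rs Q) ≤ (2 : ℝ) ^ (2 * (1 + s)) := by
      calc Real.exp (rs Q) ≤ Real.exp (1 + (s : ℝ)) := Real.exp_le_exp.2 hrs
        _ = Real.exp 1 ^ (1 + s) := by
            rw [← Real.exp_nat_mul]
            push_cast
            ring_nf
        _ ≤ (4 : ℝ) ^ (1 + s) := pow_le_pow_left₀ (Real.exp_pos _).le (by linarith) _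
        _ = (2 : ℝ) ^ (2 * (1 + s)) := by
            rw [pow_mul]
            norm_num
    rw [h1]
    calc (2 : ℝ) ^ ((k + s) * (J + 1)) * Real.exp (rs Q) ≤
        (2 : ℝ) ^ ((k + s) * (J + 1)) * (2 : ℝ) ^ (2 * (1 + s)) :=
          mul_le_mul_of_nonneg_left h2 (by positivity)
      _ = (2 : ℝ) ^ ((k + s) * (J + 1) + 2 * (1 + s)) := (pow_add _ _ _).symm
      _ ≤ (2 : ℝ) ^ (2 * s * (J + 3)) := by
          refine pow_le_pow_right₀ (by norm_num) ?_
          have h4 : (k + s) * (J + 1) ≤ (2 * s) * (J + 1) := Nat.mul_le_mul_right _ (by omega)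
          have h5 : 2 * (1 + s) ≤ (2 * s) * 2 := by omega
          calc (k + s) * (J + 1) + 2 * (1 + s) ≤ (2 * s) * (J + 1) + (2 * s) * 2 :=
                Nat.add_le_add h4 h5
            _ = _ := by ring

theorem prod_le_exp {k : ℕ} {Q : Finset ℕ} (hQ : ∀ p ∈ Q, p.Prime) {L : ℝ}
    (h1 : L ≤ ∑ p ∈ Q, (rho k p : ℝ) / p) :
    ∏ p ∈ Q, (1 - (rho k p : ℝ) / p) ≤ Real.exp (-L) := by
  calc ∏ p ∈ Q, (1 - (rho k p : ℝ) / p) ≤ Real.exp (∑ p ∈ Q, -((rho k p : ℝ) / p)) := by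
        rw [Real.exp_sum]
        refine prod_le_prod (fun p hp => by linarith [t_bounds (k := k) (hQ p hp)]) fun p _ => ?_
        have := Real.add_one_le_exp (-((rho k p : ℝ) / p))
        linarith
    _ ≤ _ := by
        refine Real.exp_le_exp.2 ?_
        rw [sum_neg_distrib]
        linarith

/-- **The sieve in the form needed.** -/
theorem sieve_n {D B C κ : ℝ} (hD : 0 ≤ D) (hκ : 1 < κ) (hκ2 : κ ≤ 2) (hB : D + κ < B)
    (hC : B < C) :
    ∀ᶠ n : ℕ in atTop, ∀ k ≤ n, ∃ Q ⊆ pr (2 ^ ⌊(n : ℝ) ^ B⌋₊), ∃ V E : ℝ,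
      Eqd (NQ k Q) V (1 / (n : ℝ) ^ D) E 0 ∧ V ≤ 1 / (n : ℝ) ^ D ∧ 0 ≤ E ∧
      (n : ℝ) ^ D * E ≤ (2 : ℝ) ^ ((n : ℝ) ^ C) := by
  have hlog : ∀ᶠ n : ℕ in atTop, 16 * (D + 1) * (Real.log n + 2) ≤ (n : ℝ) ^ (C - B) := by
    have h1 := (isLittleO_log_rpow_atTop (by linarith : 0 < C - B)).bound
      (by positivity : 0 < 1 / (32 * (D + 1)))
    have h2 : Tendsto (fun n : ℕ => (n : ℝ) ^ (C - B)) atTop atTop :=
      (tendsto_rpow_atTop (by linarith)).comp tendsto_natCast_atTop_atTop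
    filter_upwards [tendsto_natCast_atTop_atTop.eventually h1,
      h2.eventually_ge_atTop (64 * (D + 1))] with n hn1 hn2
    rw [Real.norm_of_nonneg (Real.rpow_nonneg (Nat.cast_nonneg n) _)] at hn1
    have h3 := (Real.le_norm_self _).trans hn1
    have h4 : 32 * (D + 1) * Real.log n ≤ (n : ℝ) ^ (C - B) := by
      have h5 := mul_le_mul_of_nonneg_left h3 (by positivity : 0 ≤ 32 * (D + 1))
      refine h5.trans (le_of_eq ?_)
      field_simp
    linarith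
  filter_upwards [R_large hD hκ hκ2 hB, hlog, eventually_ge_atTop 4] with n h1 h2 hn k hk
  have hn1 : (1 : ℝ) ≤ n := by exact_mod_cast (by omega : 1 ≤ n)
  have hn0 : (0 : ℝ) < n := by linarith
  have hln : 0 ≤ Real.log n := Real.log_nonneg hn1
  set s := ⌊(n : ℝ) ^ B⌋₊ with hs
  have hns : n ≤ s := by
    refine Nat.le_floor ?_
    calc (n : ℝ) = (n : ℝ) ^ (1 : ℝ) := (Real.rpow_one _).symm
      _ ≤ (n : ℝ) ^ B := Real.rpow_le_rpow_of_exponent_le hn1 (by linarith)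
  have hsB : (s : ℝ) ≤ (n : ℝ) ^ B := Nat.floor_le (by positivity)
  set L := D * Real.log n with hL
  have hL0 : 0 ≤ L := by positivity
  have hexp : Real.exp (-L) = 1 / (n : ℝ) ^ D := by
    rw [Real.exp_neg, one_div, Real.rpow_def_of_pos hn0, hL, mul_comm D]
  obtain ⟨Q, hQ1, hQ2, hQ3⟩ := subset_sum (f := fun p => (rho k p : ℝ) / p) (L := L)
    (fun p hp => t_bounds (mem_pr.1 hp).1) hL0 (h1 k hk)
  refine ⟨Q, hQ1, ∏ p ∈ Q, (1 - (rho k p : ℝ) / p),
    (2 : ℝ) ^ (2 * s * (2 * ⌈2 * (L + 1)⌉₊ + 3)), ?_, ?_, by positivity, ?_⟩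
  · have h3 := eqd_q (k := k) (s := s) (hk.trans hns) (by omega) hQ1 hQ3
    rw [hexp] at h3
    exact h3
  · rw [← hexp]
    exact prod_le_exp (fun p hp => (mem_pr.1 (hQ1 hp)).1) hQ2
  · have h3 : (n : ℝ) ^ D ≤ (2 : ℝ) ^ (2 * L) := by
      have h4 : (n : ℝ) ^ D = Real.exp L := by
        rw [Real.rpow_def_of_pos hn0, hL, mul_comm D]
      rw [h4, Real.rpow_def_of_pos (by norm_num : (0 : ℝ) < 2)]
      refine Real.exp_le_exp.2 ?_
      have := Real.log_two_gt_d9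
      nlinarith
    rw [← Real.rpow_natCast 2 (2 * s * (2 * ⌈2 * (L + 1)⌉₊ + 3))]
    refine (mul_le_mul_of_nonneg_right h3 (by positivity)).trans ?_
    rw [← Real.rpow_add (by norm_num)]
    refine Real.rpow_le_rpow_of_exponent_le (by norm_num) ?_
    push_cast
    have h5 : (⌈2 * (L + 1)⌉₊ : ℝ) ≤ 2 * (L + 1) + 1 := (Nat.ceil_lt_add_one (by positivity)).le
    have h6 : 2 * (s : ℝ) * (2 * ⌈2 * (L + 1)⌉₊ + 3) ≤ 2 * (n : ℝ) ^ B * (4 * L + 9) := by
      refine mul_le_mul (by linarith) (by linarith) (by positivity) (by positivity)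
    have h7 : (1 : ℝ) ≤ (n : ℝ) ^ B := Real.one_le_rpow hn1 (by linarith)
    have h8 : 2 * L ≤ 2 * (n : ℝ) ^ B * L := by nlinarith
    have h9 : (n : ℝ) ^ C = (n : ℝ) ^ B * (n : ℝ) ^ (C - B) := by
      rw [← Real.rpow_add hn0]
      congr 1
      ring
    rw [h9]
    have h10 : 2 * (4 * L + 9) + 2 * L ≤ (n : ℝ) ^ (C - B) := by
      refine le_trans ?_ h2
      rw [hL]
      nlinarith [mul_nonneg hD hln]
    have h11 := mul_le_mul_of_nonneg_left h10 (by linarith : 0 ≤ (n : ℝ) ^ B)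
    linarith

end Pool.Agent.MFN
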