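import Pool.Agent.MFN.VMean
import Pool.Agent.MFN.UChar

/-!
# MFN / VL: the mean square of `1 - L M` over the characters, near the line `Re z = 1`
-/

set_option autoImplicit false

namespace Pool.Agent.MFN

open Finset

/-- the Moebius polynomial -/
noncomputable def Mo {M : ℕ} (χ : DirichletCharacter ℂ M) (V : ℕ) (z : ℂ) : ℂ :=
  ∑ d ∈ Icc 1 V, ((ArithmeticFunction.moebius d : ℤ) : ℂ) * (χ d * (d : ℂ) ^ (-z))

section

variable {M : ℕ} [NeZero M]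

theorem norm_pow_le {b : ℝ} {z : ℂ} (hz : 1 - b ≤ z.re) (hb : 0 ≤ b) {k W : ℕ} (hk : 1 ≤ k)
    (hW : k ≤ W) : ‖(k : ℂ) ^ (-z)‖ ≤ (W : ℝ) ^ b * (1 / k) := by
  have hk0 : (0 : ℝ) < k := by exact_mod_cast hk
  have hk1 : (1 : ℝ) ≤ k := by exact_mod_cast hk
  rw [Complex.norm_natCast_cpow_of_pos hk, Complex.neg_re]
  have h1 : (k : ℝ) ^ (-z.re) ≤ (k : ℝ) ^ (b - 1) :=
    Real.rpow_le_rpow_of_exponent_le hk1 (by linarith)
  have h2 : (k : ℝ) ^ (b - 1) = (k : ℝ) ^ b * (1 / k) := by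
    rw [Real.rpow_sub_one hk0.ne', div_eq_mul_one_div]
  have h3 : (k : ℝ) ^ b ≤ (W : ℝ) ^ b :=
    Real.rpow_le_rpow hk0.le (by exact_mod_cast hW) hb
  rw [h2] at h1
  exact h1.trans (mul_le_mul_of_nonneg_right h3 (by positivity))

omit [NeZero M] in
theorem norm_Mo_le (χ : DirichletCharacter ℂ M) {b : ℝ} {z : ℂ} (hz : 1 - b ≤ z.re) (hb : 0 ≤ b)
    (V : ℕ) : ‖Mo χ V z‖ ≤ (V : ℝ) ^ b * hsum V := by
  unfold Mo hsum
  rw [mul_sum]
  refine (norm_sum_le _ _).trans (sum_le_sum fun d hd => ?_)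
  rw [mem_Icc] at hd
  rw [norm_mul, norm_mul, Complex.norm_intCast]
  have h1 : |((ArithmeticFunction.moebius d : ℤ) : ℝ)| ≤ 1 := by
    exact_mod_cast ArithmeticFunction.abs_moebius_le_one
  have h2 : ‖χ d‖ ≤ 1 := DirichletCharacter.norm_le_one χ d
  have h3 := norm_pow_le hz hb hd.1 hd.2
  calc |((ArithmeticFunction.moebius d : ℤ) : ℝ)| * (‖χ d‖ * ‖(d : ℂ) ^ (-z)‖) ≤
      1 * (1 * ‖(d : ℂ) ^ (-z)‖) := by
        refine mul_le_mul h1 ?_ (by positivity) zero_le_one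
        exact mul_le_mul_of_nonneg_right h2 (norm_nonneg _)
    _ = ‖(d : ℂ) ^ (-z)‖ := by ring
    _ ≤ _ := h3

/-- approximation of `L` by a finite sum -/
theorem L_cut {χ : DirichletCharacter ℂ M} (hχ : χ ≠ 1) {z : ℂ} (hz : 3 / 4 ≤ z.re) (hz1 : z ≠ 1)
    {V : ℕ} (hV : 1 ≤ V) :
    ‖χ.LFunction z - ∑ n ∈ Icc 1 V, χ n * (n : ℂ) ^ (-z)‖ ≤
      5 * M * (‖z‖ + 1) * (V : ℝ) ^ (-(3 / 4) : ℝ) := by
  have hz0 : 0 < z.re := by linarith
  have hV1 : (1 : ℝ) ≤ V := by exact_mod_cast hV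
  have hV0 : (0 : ℝ) < V := by linarith
  have h := Pool.Agent.PNE.L_eq_cut χ hV1 hz0 hz1
  have hd : Pool.Agent.PNE.dlt χ = 0 := by
    unfold Pool.Agent.PNE.dlt
    rw [MulChar.sum_eq_zero_of_ne_one hχ, zero_div]
  rw [hd, zero_mul, zero_div, add_zero, Nat.floor_natCast] at h
  have e : χ.LFunction z - ∑ n ∈ Icc 1 V, χ n * (n : ℂ) ^ (-z) =
      -(Pool.Agent.PNE.Ech χ V * ((V : ℝ) : ℂ) ^ (-z)) + z * Pool.Agent.PNE.Tail χ V z := by
    rw [h]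
    ring
  rw [e]
  have hp : (V : ℝ) ^ (-z.re) ≤ (V : ℝ) ^ (-(3 / 4) : ℝ) :=
    Real.rpow_le_rpow_of_exponent_le hV1 (by linarith)
  have hp0 : 0 ≤ (V : ℝ) ^ (-z.re) := by positivity
  have h2 : ‖-(Pool.Agent.PNE.Ech χ V * ((V : ℝ) : ℂ) ^ (-z))‖ ≤
      2 * M * (V : ℝ) ^ (-(3 / 4) : ℝ) := by
    rw [norm_neg, norm_mul, Complex.norm_cpow_eq_rpow_re_of_pos hV0, Complex.neg_re]
    exact mul_le_mul (Pool.Agent.PNE.norm_Ech_le χ hV0.le) hp hp0 (by positivity)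
  have h3 : ‖z * Pool.Agent.PNE.Tail χ V z‖ ≤ ‖z‖ * (3 * M * (V : ℝ) ^ (-(3 / 4) : ℝ)) := by
    rw [norm_mul]
    refine mul_le_mul_of_nonneg_left ?_ (norm_nonneg z)
    refine (Pool.Agent.PNE.norm_Tail_le χ hV0 hz0).trans ?_
    rw [div_le_iff₀ hz0]
    have h4 : 2 * (M : ℝ) * (V : ℝ) ^ (-z.re) ≤ 2 * M * (V : ℝ) ^ (-(3 / 4) : ℝ) :=
      mul_le_mul_of_nonneg_left hp (by positivity)
    have h5 : 0 ≤ (M : ℝ) * (V : ℝ) ^ (-(3 / 4) : ℝ) := by positivity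
    nlinarith
  have h6 : 0 ≤ (M : ℝ) * (V : ℝ) ^ (-(3 / 4) : ℝ) := by positivity
  have h7 := norm_nonneg z
  refine (norm_add_le _ _).trans ?_
  nlinarith [mul_nonneg h7 h6]

/-- the identity -/
theorem one_sub (χ : DirichletCharacter ℂ M) (z : ℂ) {V : ℕ} (hV : 1 ≤ V) :
    1 - χ.LFunction z * Mo χ V z =
      -(∑ k ∈ Ioc V (V * V), (((av V k : ℤ) : ℂ) * (k : ℂ) ^ (-z)) * χ k) -
        (χ.LFunction z - ∑ n ∈ Icc 1 V, χ n * (n : ℂ) ^ (-z)) * Mo χ V z := by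
  have h1 := prod_poly (f := fun n : ℕ => χ n * (n : ℂ) ^ (-z)) (by simp) (fun a b _ _ => by
    rw [Nat.cast_mul, Nat.cast_mul, map_mul, Complex.natCast_mul_natCast_cpow]
    ring) hV
  have h2 : ∑ k ∈ Ioc V (V * V), ((av V k : ℤ) : ℂ) * (χ k * (k : ℂ) ^ (-z)) =
      ∑ k ∈ Ioc V (V * V), (((av V k : ℤ) : ℂ) * (k : ℂ) ^ (-z)) * χ k :=
    sum_congr rfl fun k _ => by ring
  rw [h2] at h1
  have h3 : Mo χ V z = ∑ d ∈ Icc 1 V, ((ArithmeticFunction.moebius d : ℤ) : ℂ) *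
    (χ d * (d : ℂ) ^ (-z)) := rfl
  rw [← h3] at h1
  linear_combination -h1

/-- the main part of the mean square -/
theorem main_part {b : ℝ} {z : ℂ} (hz : 1 - b ≤ z.re) (hb : 0 ≤ b) {V : ℕ} (hV : M ≤ V) :
    ∑ χ : DirichletCharacter ℂ M,
      ‖∑ k ∈ Ioc V (V * V), (((av V k : ℤ) : ℂ) * (k : ℂ) ^ (-z)) * χ k‖ ^ 2 ≤
      (((V * V : ℕ) : ℝ) ^ b) ^ 2 * hsum (V * V) ^ 5 := by
  have hM0 : 0 < M := NeZero.pos M
  have hMr : (0 : ℝ) < M := by exact_mod_cast hM0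
  set Y : ℝ := ((V * V : ℕ) : ℝ) ^ b with hY
  have hY0 : 0 ≤ Y := by positivity
  refine (char_mean _ _).trans ?_
  have h1 : ∀ k ∈ Ioc V (V * V), ‖((av V k : ℤ) : ℂ) * (k : ℂ) ^ (-z)‖ ≤
      Y * ((k.divisors.card : ℝ) / k) := by
    intro k hk
    rw [mem_Ioc] at hk
    rw [norm_mul, Complex.norm_intCast]
    have h2 := av_abs V (k := k) (by omega)
    have h3 := norm_pow_le hz hb (k := k) (W := V * V) (by omega) hk.2
    calc |((av V k : ℤ) : ℝ)| * ‖(k : ℂ) ^ (-z)‖ ≤ (k.divisors.card : ℝ) * (Y * (1 / k)) :=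
          mul_le_mul h2 h3 (norm_nonneg _) (by positivity)
      _ = _ := by ring
  have h2 : ∑ k ∈ Ioc V (V * V), ∑ l ∈ (Ioc V (V * V)).filter (fun l : ℕ => (l : ZMod M) = k),
      ‖((av V k : ℤ) : ℂ) * (k : ℂ) ^ (-z)‖ * ‖((av V l : ℤ) : ℂ) * (l : ℂ) ^ (-z)‖ ≤
      Y ^ 2 * ∑ k ∈ Ioc V (V * V), ∑ l ∈ (Ioc V (V * V)).filter (fun l : ℕ => (l : ZMod M) = k),
        (k.divisors.card : ℝ) / k * ((l.divisors.card : ℝ) / l) := by
    rw [mul_sum]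
    refine sum_le_sum fun k hk => ?_
    rw [mul_sum]
    refine sum_le_sum fun l hl => ?_
    have h3 := h1 k hk
    have h4 := h1 l (mem_of_mem_filter l hl)
    calc ‖((av V k : ℤ) : ℂ) * (k : ℂ) ^ (-z)‖ * ‖((av V l : ℤ) : ℂ) * (l : ℂ) ^ (-z)‖ ≤
        (Y * ((k.divisors.card : ℝ) / k)) * (Y * ((l.divisors.card : ℝ) / l)) :=
          mul_le_mul h3 h4 (norm_nonneg _) (by positivity)
      _ = _ := by ring
  have h3 := pair_sum hM0 hV (W := V * V) (fun k => (k.divisors.card : ℝ))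
  have h4 : ∑ k ∈ Ioc V (V * V), ((k.divisors.card : ℝ)) ^ 2 / k ≤ hsum (V * V) ^ 4 := by
    refine le_trans ?_ (tau_sq (V * V))
    refine sum_le_sum_of_subset_of_nonneg (fun k hk => ?_) fun k _ _ => by positivity
    rw [mem_Ioc] at hk
    rw [mem_Icc]
    omega
  have hh := hsum_nonneg (V * V)
  have hφ : (M.totient : ℝ) ≤ M := by exact_mod_cast Nat.totient_le M
  have hφ0 : (0 : ℝ) ≤ M.totient := Nat.cast_nonneg _
  calc (M.totient : ℝ) * ∑ k ∈ Ioc V (V * V),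
        ∑ l ∈ (Ioc V (V * V)).filter (fun l : ℕ => (l : ZMod M) = k),
        ‖((av V k : ℤ) : ℂ) * (k : ℂ) ^ (-z)‖ * ‖((av V l : ℤ) : ℂ) * (l : ℂ) ^ (-z)‖ ≤
      M * (Y ^ 2 * (hsum (V * V) / M * hsum (V * V) ^ 4)) := by
        refine mul_le_mul hφ (h2.trans ?_) ?_ hMr.le
        · refine mul_le_mul_of_nonneg_left (h3.trans ?_) (by positivity)
          exact mul_le_mul_of_nonneg_left h4 (by positivity)
        · exact sum_nonneg fun _ _ => sum_nonneg fun _ _ => by positivity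
    _ = _ := by
      field_simp

end

theorem mean_sq_ne {M : ℕ} [NeZero M] {w : ℝ} (hw : 1 ≤ w) {V : ℕ}
    (hV1 : Real.exp (4 * el M w) ≤ V) (hV2 : (V : ℝ) ≤ 2 * Real.exp (4 * el M w))
    {s : Finset (DirichletCharacter ℂ M)} (hs : ∀ χ ∈ s, χ ≠ 1)
    {z : ℂ} (hz : 1 - 1 / (4 * el M w) ≤ z.re) (hz2 : z.re ≤ 2) (hzi : |z.im| ≤ w) (hz1 : z ≠ 1) :
    ∑ χ ∈ s, ‖1 - χ.LFunction z * Mo χ V z‖ ^ 2 ≤
      (2 * (Real.exp 5 * 11 ^ 5) + 1800) * el M w ^ 5 := by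
  set l := el M w with hl
  have hl1 : 1 ≤ l := el_ge M w
  have hT : Real.exp l = M * (w + 3) := by
    rw [hl, exp_el, abs_of_nonneg (by linarith)]
  have hM0 : 0 < M := NeZero.pos M
  have hM1 : (1 : ℝ) ≤ M := by exact_mod_cast hM0
  set b : ℝ := 1 / (4 * l) with hb
  have hb0 : 0 < b := by positivity
  have hb1 : b ≤ 1 / 4 := by
    rw [hb]
    exact one_div_le_one_div_of_le (by norm_num) (by linarith)
  have hMe : (M : ℝ) ≤ Real.exp l := by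
    rw [hT]
    nlinarith
  have hexp1 : Real.exp l ≤ Real.exp (4 * l) := Real.exp_le_exp.2 (by linarith)
  have hVM : M ≤ V := by
    have : (M : ℝ) ≤ V := hMe.trans (hexp1.trans hV1)
    exact_mod_cast this
  have hV0 : 1 ≤ V := hM0.trans_le hVM
  have hVr : (1 : ℝ) ≤ V := by exact_mod_cast hV0
  have hVp : (0 : ℝ) < V := by linarith
  have hlogV : Real.log V ≤ 5 * l := by
    have h1 : Real.log V ≤ Real.log (2 * Real.exp (4 * l)) := Real.log_le_log hVp hV2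
    rw [Real.log_mul (by norm_num) (Real.exp_pos _).ne', Real.log_exp] at h1
    have := Real.log_two_lt_d9
    linarith
  have hlogV0 : 0 ≤ Real.log V := Real.log_nonneg hVr
  have hVV : ((V * V : ℕ) : ℝ) = V * V := by push_cast; rfl
  have hh1 : hsum (V * V) ≤ 11 * l := by
    refine (hsum_le _).trans ?_
    rw [hVV, Real.log_mul hVp.ne' hVp.ne']
    linarith
  have hh2 : hsum V ≤ 6 * l := by
    refine (hsum_le _).trans ?_
    linarith
  have hY : (((V * V : ℕ) : ℝ) ^ b) ^ 2 ≤ Real.exp 5 := by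
    rw [hVV, Real.mul_rpow hVp.le hVp.le, Real.rpow_def_of_pos hVp, ← Real.exp_add,
      ← Real.exp_nat_mul]
    refine Real.exp_le_exp.2 ?_
    push_cast
    have h1 : Real.log V * b ≤ 5 * l * b := mul_le_mul_of_nonneg_right hlogV hb0.le
    have h2 : 5 * l * b = 5 / 4 := by
      rw [hb]
      field_simp
    linarith
  -- the error term
  have herr : ∀ χ ∈ s, ‖(χ.LFunction z - ∑ n ∈ Icc 1 V, χ n * (n : ℂ) ^ (-z)) * Mo χ V z‖ ≤
      30 * l * Real.exp (-l) := by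
    intro χ hχ
    rw [norm_mul]
    have h1 := L_cut (hs χ hχ) (z := z) (by linarith) hz1 hV0
    have h2 := norm_Mo_le χ hz hb0.le V
    have h3 : (V : ℝ) ^ b ≤ (V : ℝ) ^ (1 / 4 : ℝ) := Real.rpow_le_rpow_of_exponent_le hVr hb1
    have h4 : ‖Mo χ V z‖ ≤ (V : ℝ) ^ (1 / 4 : ℝ) * (6 * l) :=
      h2.trans (mul_le_mul h3 hh2 (hsum_nonneg V) (by positivity))
    have hn : ‖z‖ + 1 ≤ w + 3 := by
      have h5 := Complex.norm_le_abs_re_add_abs_im z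
      have h6 : |z.re| ≤ 2 := by
        rw [abs_le]
        constructor <;> linarith
      linarith
    have h5 : 5 * M * (‖z‖ + 1) * (V : ℝ) ^ (-(3 / 4) : ℝ) ≤
        5 * Real.exp l * (V : ℝ) ^ (-(3 / 4) : ℝ) := by
      refine mul_le_mul_of_nonneg_right ?_ (by positivity)
      rw [hT]
      nlinarith
    have h6 : (V : ℝ) ^ (-(3 / 4) : ℝ) * (V : ℝ) ^ (1 / 4 : ℝ) = (V : ℝ) ^ (-(1 / 2) : ℝ) := by
      rw [← Real.rpow_add hVp]
      norm_num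
    have h7 : (V : ℝ) ^ (-(1 / 2) : ℝ) ≤ Real.exp (-(2 * l)) := by
      have h8 : Real.exp (4 * l) ^ (-(1 / 2) : ℝ) = Real.exp (-(2 * l)) := by
        rw [← Real.exp_mul]
        congr 1
        ring
      rw [← h8]
      exact Real.rpow_le_rpow_of_nonpos (Real.exp_pos _) hV1 (by norm_num)
    calc ‖χ.LFunction z - ∑ n ∈ Icc 1 V, χ n * (n : ℂ) ^ (-z)‖ * ‖Mo χ V z‖ ≤
        (5 * Real.exp l * (V : ℝ) ^ (-(3 / 4) : ℝ)) * ((V : ℝ) ^ (1 / 4 : ℝ) * (6 * l)) :=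
          mul_le_mul (h1.trans h5) h4 (norm_nonneg _) (by positivity)
      _ = 30 * l * Real.exp l * ((V : ℝ) ^ (-(3 / 4) : ℝ) * (V : ℝ) ^ (1 / 4 : ℝ)) := by ring
      _ ≤ 30 * l * Real.exp l * Real.exp (-(2 * l)) := by
          rw [h6]
          exact mul_le_mul_of_nonneg_left h7 (by positivity)
      _ = 30 * l * Real.exp (-l) := by
          rw [mul_assoc, ← Real.exp_add]
          congr 2
          ring
  have hcard : (s.card : ℝ) ≤ Real.exp l := by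
    have h1 : s.card ≤ M.totient := by
      rw [← card_char]
      exact card_le_univ s
    have h2 : (s.card : ℝ) ≤ M.totient := by exact_mod_cast h1
    have h3 : (M.totient : ℝ) ≤ M := by exact_mod_cast Nat.totient_le M
    linarith
  have hpt : ∀ χ ∈ s, ‖1 - χ.LFunction z * Mo χ V z‖ ^ 2 ≤
      2 * ‖∑ k ∈ Ioc V (V * V), (((av V k : ℤ) : ℂ) * (k : ℂ) ^ (-z)) * χ k‖ ^ 2 +
        2 * (30 * l * Real.exp (-l)) ^ 2 := by
    intro χ hχ
    rw [one_sub χ z hV0]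
    have h1 := herr χ hχ
    set A := ∑ k ∈ Ioc V (V * V), (((av V k : ℤ) : ℂ) * (k : ℂ) ^ (-z)) * χ k
    set B := (χ.LFunction z - ∑ n ∈ Icc 1 V, χ n * (n : ℂ) ^ (-z)) * Mo χ V z
    have h2 : ‖-A - B‖ ≤ ‖A‖ + ‖B‖ := by
      refine (norm_sub_le _ _).trans ?_
      rw [norm_neg]
    have h3 : ‖B‖ ^ 2 ≤ (30 * l * Real.exp (-l)) ^ 2 := pow_le_pow_left₀ (norm_nonneg _) h1 2
    have h4 : ‖-A - B‖ ^ 2 ≤ (‖A‖ + ‖B‖) ^ 2 := pow_le_pow_left₀ (norm_nonneg _) h2 2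
    nlinarith [sq_nonneg (‖A‖ - ‖B‖)]
  refine (sum_le_sum hpt).trans ?_
  rw [sum_add_distrib, sum_const, nsmul_eq_mul, ← mul_sum]
  have h1 : ∑ χ ∈ s, ‖∑ k ∈ Ioc V (V * V), (((av V k : ℤ) : ℂ) * (k : ℂ) ^ (-z)) * χ k‖ ^ 2 ≤
      Real.exp 5 * (11 * l) ^ 5 := by
    calc ∑ χ ∈ s, ‖∑ k ∈ Ioc V (V * V), (((av V k : ℤ) : ℂ) * (k : ℂ) ^ (-z)) * χ k‖ ^ 2 ≤
        ∑ χ : DirichletCharacter ℂ M,
          ‖∑ k ∈ Ioc V (V * V), (((av V k : ℤ) : ℂ) * (k : ℂ) ^ (-z)) * χ k‖ ^ 2 :=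
          sum_le_sum_of_subset_of_nonneg (subset_univ _) fun _ _ _ => by positivity
      _ ≤ (((V * V : ℕ) : ℝ) ^ b) ^ 2 * hsum (V * V) ^ 5 := main_part hz hb0.le hVM
      _ ≤ _ := mul_le_mul hY (pow_le_pow_left₀ (hsum_nonneg _) hh1 5)
          (by have := hsum_nonneg (V * V); positivity) (Real.exp_pos _).le
  have h2 : (s.card : ℝ) * (2 * (30 * l * Real.exp (-l)) ^ 2) ≤ 1800 * l ^ 2 := by
    have h3 : (s.card : ℝ) * (2 * (30 * l * Real.exp (-l)) ^ 2) ≤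
        Real.exp l * (2 * (30 * l * Real.exp (-l)) ^ 2) :=
      mul_le_mul_of_nonneg_right hcard (by positivity)
    have h4 : Real.exp l * (2 * (30 * l * Real.exp (-l)) ^ 2) = 1800 * l ^ 2 * Real.exp (-l) := by
      have h5 : Real.exp l * Real.exp (-l) = 1 := by
        rw [← Real.exp_add, add_neg_cancel, Real.exp_zero]
      calc Real.exp l * (2 * (30 * l * Real.exp (-l)) ^ 2) =
          1800 * l ^ 2 * Real.exp (-l) * (Real.exp l * Real.exp (-l)) := by ring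
        _ = _ := by rw [h5, mul_one]
    have h5 : Real.exp (-l) ≤ 1 := Real.exp_le_one_iff.2 (by linarith)
    rw [h4] at h3
    refine h3.trans ?_
    exact mul_le_of_le_one_right (by positivity) h5
  have h3 : l ^ 2 ≤ l ^ 5 := pow_le_pow_right₀ hl1 (by norm_num)
  have h4 : Real.exp 5 * (11 * l) ^ 5 = Real.exp 5 * 11 ^ 5 * l ^ 5 := by ring
  rw [h4] at h1
  linarith

/-- **The mean square.** -/
theorem mean_sq {M : ℕ} [NeZero M] {w : ℝ} (hw : 1 ≤ w) {V : ℕ}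
    (hV1 : Real.exp (4 * el M w) ≤ V) (hV2 : (V : ℝ) ≤ 2 * Real.exp (4 * el M w))
    {s : Finset (DirichletCharacter ℂ M)} (hs : ∀ χ ∈ s, χ ≠ 1)
    {z : ℂ} (hz : 1 - 1 / (4 * el M w) ≤ z.re) (hz2 : z.re ≤ 2) (hzi : |z.im| ≤ w) :
    ∑ χ ∈ s, ‖1 - χ.LFunction z * Mo χ V z‖ ^ 2 ≤
      (2 * (Real.exp 5 * 11 ^ 5) + 1800) * el M w ^ 5 := by
  by_cases hz1 : z = 1
  · subst hz1
    have hl1 : 1 ≤ el M w := el_ge M w
    have hcont : Continuous fun z : ℂ => ∑ χ ∈ s, ‖1 - χ.LFunction z * Mo χ V z‖ ^ 2 := by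
      refine continuous_finsetSum _ fun χ hχ => ?_
      have h1 : Continuous χ.LFunction :=
        (DirichletCharacter.differentiable_LFunction (hs χ hχ)).continuous
      have h2 : Continuous fun z : ℂ => Mo χ V z := by
        unfold Mo
        refine continuous_finsetSum _ fun d hd => ?_
        rw [mem_Icc] at hd
        have hd0 : (d : ℂ) ≠ 0 := by
          exact_mod_cast (by omega : d ≠ 0)
        have h3 : Continuous fun z : ℂ => (d : ℂ) ^ (-z) :=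
          continuous_const.cpow continuous_neg (fun z => Or.inl (by
            exact_mod_cast (by omega : 0 < d)))
        fun_prop
      fun_prop
    have h1 : Filter.Tendsto (fun t : ℝ => (1 : ℂ) + t * Complex.I) (nhdsWithin 0 (Set.Ioi 0))
        (nhds 1) := by
      have h2 : Continuous fun t : ℝ => (1 : ℂ) + t * Complex.I := by fun_prop
      have h3 := h2.tendsto 0
      simp only [Complex.ofReal_zero, zero_mul, add_zero] at h3
      exact h3.mono_left nhdsWithin_le_nhds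
    have h2 := (hcont.tendsto 1).comp h1
    refine le_of_tendsto h2 ?_
    have h3 : ∀ᶠ t : ℝ in nhdsWithin 0 (Set.Ioi 0), t ≤ w :=
      (nhdsWithin_le_nhds (s := Set.Ioi 0)) (Iic_mem_nhds (by linarith : (0 : ℝ) < w))
    filter_upwards [self_mem_nhdsWithin, h3] with t ht ht2
    have ht0 : 0 < t := ht
    simp only [Function.comp_apply]
    refine mean_sq_ne hw hV1 hV2 hs (by simp; linarith) (by simp) (by simp [abs_of_pos ht0]; exact ht2) ?_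
    intro h
    have h4 := congrArg Complex.im h
    simp at h4
    linarith
  · exact mean_sq_ne hw hV1 hV2 hs hz hz2 hzi hz1

end Pool.Agent.MFN
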