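import Pool.Agent.MFN.VL

/-!
# MFN / VShift: the sum over the complex characters of the Gaussian sums
-/

set_option autoImplicit false

namespace Pool.Agent.MFN

open Finset

/-- bounded and continuous on the line -/
def Nice (F : ℂ → ℂ) (σ : ℝ) : Prop :=
  Continuous (fun v : ℝ => F (1 + ((0 : ℝ) : ℂ) * Complex.I + ((σ : ℂ) + v * Complex.I))) ∧
    ∃ B : ℝ, ∀ v : ℝ, ‖F (1 + ((0 : ℝ) : ℂ) * Complex.I + ((σ : ℂ) + v * Complex.I))‖ ≤ B

theorem ker_int (σ w : ℝ) : MeasureTheory.Integrable fun v : ℝ =>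
    Complex.exp (((σ : ℂ) + v * Complex.I) ^ 2 / 2 + ((σ : ℂ) + v * Complex.I) * w) := by
  have h1 : (fun v : ℝ => Complex.exp (((σ : ℂ) + v * Complex.I) ^ 2 / 2 +
      ((σ : ℂ) + v * Complex.I) * w)) = fun v : ℝ =>
      Complex.exp ((-(1 / 2) : ℂ) * (v : ℂ) ^ 2 + (((σ : ℂ) + w) * Complex.I) * v +
      ((σ : ℂ) ^ 2 / 2 + σ * w)) := by
    ext v
    congr 1
    have h := Complex.I_sq
    linear_combination ((v : ℂ) ^ 2 / 2) * h
  rw [h1]
  exact integrable_cexp_quadratic' (by norm_num) _ _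

theorem Nice.integrable {F : ℂ → ℂ} {σ : ℝ} (h : Nice F σ) (w : ℝ) :
    MeasureTheory.Integrable fun v : ℝ =>
    Complex.exp (((σ : ℂ) + v * Complex.I) ^ 2 / 2 + ((σ : ℂ) + v * Complex.I) * w) *
      F (1 + ((0 : ℝ) : ℂ) * Complex.I + ((σ : ℂ) + v * Complex.I)) := by
  obtain ⟨hc, B, hB⟩ := h
  exact (ker_int σ w).mul_bdd hc.aestronglyMeasurable (Filter.Eventually.of_forall hB)

theorem gint_add' {F G : ℂ → ℂ} {σ : ℝ} (hF : Nice F σ) (hG : Nice G σ) (w : ℝ) :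
    VKZ.gint (fun z => F z + G z) σ w 0 = VKZ.gint F σ w 0 + VKZ.gint G σ w 0 := by
  unfold VKZ.gint
  rw [← mul_add, ← MeasureTheory.integral_add (hF.integrable w) (hG.integrable w)]
  congr 1
  refine MeasureTheory.integral_congr_ae (Filter.Eventually.of_forall fun v => ?_)
  simp only
  ring

theorem gint_sum' {ι : Type*} {F : ι → ℂ → ℂ} {σ : ℝ} (s : Finset ι) (hF : ∀ i ∈ s, Nice (F i) σ)
    (w : ℝ) : VKZ.gint (fun z => ∑ i ∈ s, F i z) σ w 0 = ∑ i ∈ s, VKZ.gint (F i) σ w 0 := by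
  unfold VKZ.gint
  rw [← mul_sum, ← MeasureTheory.integral_finsetSum s fun i hi => (hF i hi).integrable w]
  congr 1
  refine MeasureTheory.integral_congr_ae (Filter.Eventually.of_forall fun v => ?_)
  simp only
  rw [mul_sum]

private theorem gint_congr {F G : ℂ → ℂ} {σ : ℝ} (w τ : ℝ)
    (h : ∀ z : ℂ, z.re = 1 + σ → F z = G z) : VKZ.gint F σ w τ = VKZ.gint G σ w τ := by
  unfold VKZ.gint
  congr 1
  refine MeasureTheory.integral_congr_ae (Filter.Eventually.of_forall fun v => ?_)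
  simp only
  rw [h]
  simp

section

variable {M : ℕ} [NeZero M]

/-- the first part -/
noncomputable def G1 (χ : DirichletCharacter ℂ M) (V : ℕ) (z : ℂ) : ℂ :=
  -(deriv χ.LFunction z * Mo χ V z * (2 - χ.LFunction z * Mo χ V z))

/-- the second part -/
noncomputable def G2 (χ : DirichletCharacter ℂ M) (V : ℕ) (z : ℂ) : ℂ :=
  -(deriv χ.LFunction z / χ.LFunction z) * (1 - χ.LFunction z * Mo χ V z) ^ 2

theorem split_log (χ : DirichletCharacter ℂ M) (V : ℕ) {z : ℂ} (h : χ.LFunction z ≠ 0) :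
    -(deriv χ.LFunction z / χ.LFunction z) = G1 χ V z + G2 χ V z := by
  unfold G1 G2
  field_simp
  ring

theorem Mo_diff (χ : DirichletCharacter ℂ M) (V : ℕ) : Differentiable ℂ (Mo χ V) := by
  unfold Mo
  refine Differentiable.fun_sum fun d hd => ?_
  rw [mem_Icc] at hd
  have hd0 : (d : ℂ) ≠ 0 := by
    exact_mod_cast (by omega : d ≠ 0)
  have h3 : Differentiable ℂ fun z : ℂ => (d : ℂ) ^ (-z) :=
    differentiable_neg.const_cpow (Or.inl hd0)
  fun_prop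

theorem Mo_simple (χ : DirichletCharacter ℂ M) {V : ℕ} (hV : 1 ≤ V) {z : ℂ} (hz : 3 / 4 ≤ z.re) :
    ‖Mo χ V z‖ ≤ (V : ℝ) ^ 2 := by
  have hVr : (1 : ℝ) ≤ V := by exact_mod_cast hV
  refine (norm_Mo_le χ (b := 1 / 4) (z := z) (by linarith) (by norm_num) V).trans ?_
  have h1 : (V : ℝ) ^ (1 / 4 : ℝ) ≤ V := by
    calc (V : ℝ) ^ (1 / 4 : ℝ) ≤ (V : ℝ) ^ (1 : ℝ) :=
          Real.rpow_le_rpow_of_exponent_le hVr (by norm_num)
      _ = V := Real.rpow_one _
  have h2 : hsum V ≤ V := by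
    unfold hsum
    calc ∑ k ∈ Icc 1 V, 1 / (k : ℝ) ≤ ∑ k ∈ Icc 1 V, (1 : ℝ) := by
          refine sum_le_sum fun k hk => ?_
          rw [mem_Icc] at hk
          have : (1 : ℝ) ≤ k := by exact_mod_cast hk.1
          rw [div_le_one (by linarith)]
          exact this
      _ = V := by simp
  rw [sq]
  exact mul_le_mul h1 h2 (hsum_nonneg V) (by linarith)

theorem L_right (χ : DirichletCharacter ℂ M) {z : ℂ} (hz : 1 < z.re) :
    ‖χ.LFunction z‖ ≤ 1 + 1 / (z.re - 1) := by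
  have hz0 : 0 < z.re - 1 := by linarith
  rw [DirichletCharacter.LFunction_eq_LSeries χ hz]
  have h1 := Pool.Hhelper76.SC.zb_LSeries_le (f := fun n => χ n)
    (fun n => DirichletCharacter.norm_le_one χ n) hz
  have h2 := Pool.Hhelper76.SC.zb_real_le hz0
  rw [show 1 + (z.re - 1) = z.re by ring] at h2
  exact h1.trans h2

/-- bound for the derivative -/
theorem L_deriv {χ : DirichletCharacter ℂ M} (hχ : χ ≠ 1) {z : ℂ} (hz : 3 / 4 ≤ z.re) :
    ‖deriv χ.LFunction z‖ ≤ 28 * M * (‖z‖ + 2) := by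
  have hd := DirichletCharacter.differentiable_LFunction hχ
  have h1 := Complex.norm_deriv_le_of_forall_mem_sphere_norm_le (c := z) (R := 1 / 4)
    (C := 7 * M * (‖z‖ + 2)) (f := χ.LFunction) (by norm_num) hd.diffContOnCl (fun ζ hζ => by
      have h2 : ‖ζ - z‖ = 1 / 4 := by
        rw [mem_sphere_iff_norm] at hζ
        exact hζ
      have h3 : |(ζ - z).re| ≤ 1 / 4 := (Complex.abs_re_le_norm _).trans h2.le
      rw [Complex.sub_re] at h3
      have h4 := (abs_le.1 h3).1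
      have h5 : ‖ζ‖ ≤ ‖z‖ + 1 / 4 := by
        calc ‖ζ‖ = ‖z + (ζ - z)‖ := by congr 1; ring
          _ ≤ ‖z‖ + ‖ζ - z‖ := norm_add_le _ _
          _ = _ := by rw [h2]
      refine (L_poly hχ (by linarith)).trans ?_
      refine mul_le_mul_of_nonneg_left ?_ (by positivity)
      linarith)
  refine h1.trans (le_of_eq ?_)
  ring

end

/-- **The sum over the complex characters.** -/
theorem cx_small : ∃ c D : ℝ, 0 < c ∧ c ≤ 1 / 4 ∧ 0 < D ∧ ∀ (M : ℕ) [NeZero M]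
    (s : Finset (DirichletCharacter ℂ M)), (∀ χ ∈ s, χ ^ 2 ≠ 1) → ∀ w : ℝ, 1 ≤ w →
    ‖∑ χ ∈ s, ug χ w‖ ≤ D * (el M w ^ 7 * Real.exp (-(c * w / el M w)) +
      Real.exp (20 * el M w - w / 4)) := by
  obtain ⟨c, C, hc, hc1, hC, hreg⟩ := U_region
  obtain ⟨C2, hC2, hlog⟩ := L_log
  set C5 : ℝ := 2 * (Real.exp 5 * 11 ^ 5) + 1800 with hC5
  have hC50 : 0 < C5 := by positivity
  refine ⟨c, C * C5 * Real.exp 1 + 4 * (C * C5) * Real.exp 2 + 6720 * Real.exp 1 +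
    3 * 6720 * Real.exp 2 + 12 * (81 * (1 + C2)) * Real.exp 2, hc, hc1, by positivity, ?_⟩
  intro M _ s hs w hw
  have hwp : 0 < w := by linarith
  set l := el M w with hl
  have hl1 : 1 ≤ l := el_ge M w
  have hl0 : 0 < l := by linarith
  have hT : Real.exp l = M * (w + 3) := by
    rw [hl, exp_el, abs_of_nonneg (by linarith)]
  have hM1 : (1 : ℝ) ≤ M := by exact_mod_cast NeZero.pos M
  set X := Real.exp l with hX
  have hX0 : 0 < X := Real.exp_pos _
  have hXw : w ≤ X := by rw [hT]; nlinarith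
  have hX1 : 1 ≤ X := by linarith
  have hexp4 : Real.exp (4 * l) = X ^ 4 := by
    rw [hX, ← Real.exp_nat_mul]
    norm_num
  set V : ℕ := ⌈Real.exp (4 * l)⌉₊ with hV
  have hV1 : Real.exp (4 * l) ≤ V := Nat.le_ceil _
  have hV2 : (V : ℝ) ≤ 2 * Real.exp (4 * l) := by
    have h1 := Nat.ceil_lt_add_one (Real.exp_pos (4 * l)).le
    have h2 : 1 ≤ Real.exp (4 * l) := Real.one_le_exp (by linarith)
    rw [← hV] at h1
    linarith
  have hV0 : 1 ≤ V := by
    have h2 : 0 < Real.exp (4 * l) := Real.exp_pos _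
    rw [hV]
    exact Nat.ceil_pos.2 h2
  have hV4 : (V : ℝ) ^ 2 ≤ 4 * X ^ 8 := by
    rw [hexp4] at hV2
    have h1 : (V : ℝ) ^ 2 ≤ (2 * X ^ 4) ^ 2 := pow_le_pow_left₀ (Nat.cast_nonneg _) hV2 2
    refine h1.trans (le_of_eq ?_)
    ring
  have hs1 : ∀ χ ∈ s, χ ≠ 1 := fun χ hχ => U_sq (hs χ hχ)
  have hcard : (s.card : ℝ) ≤ X := by
    have h1 : s.card ≤ M.totient := by
      rw [← card_char]
      exact card_le_univ s
    have h2 : (s.card : ℝ) ≤ M.totient := by exact_mod_cast h1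
    have h3 : (M.totient : ℝ) ≤ M := by exact_mod_cast Nat.totient_le M
    have h4 : (M : ℝ) ≤ X := by rw [hT]; nlinarith
    linarith
  have hMo : ∀ (χ : DirichletCharacter ℂ M) {z : ℂ}, 3 / 4 ≤ z.re → ‖Mo χ V z‖ ≤ 4 * X ^ 8 :=
    fun χ z hz => (Mo_simple χ hV0 hz).trans hV4
  -- analyticity
  have hLd : ∀ χ ∈ s, Differentiable ℂ χ.LFunction := fun χ hχ =>
    DirichletCharacter.differentiable_LFunction (hs1 χ hχ)
  have hLdd : ∀ χ ∈ s, Differentiable ℂ (deriv χ.LFunction) := fun χ hχ => by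
    intro z
    exact ((hLd χ hχ).analyticAt z).deriv.differentiableAt
  have hG1d : ∀ χ ∈ s, Differentiable ℂ (G1 χ V) := fun χ hχ => by
    have h1 := hLd χ hχ
    have h2 := hLdd χ hχ
    have h3 := Mo_diff χ V
    unfold G1
    exact ((h2.mul h3).mul ((differentiable_const _).sub (h1.mul h3))).neg
  -- the line
  have hline : ∀ v : ℝ, (1 + ((0 : ℝ) : ℂ) * Complex.I + (((1 / w : ℝ) : ℂ) + v * Complex.I)).re =
      1 + 1 / w := by
    intro v
    simp
  have hσ0 : 0 < 1 / w := by positivity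
  have hσ1 : 1 / w ≤ 1 := by
    rw [div_le_one hwp]
    exact hw
  have hne : ∀ χ ∈ s, ∀ z : ℂ, 1 < z.re → χ.LFunction z ≠ 0 := fun χ hχ z hz =>
    χ.LFunction_ne_zero_of_one_le_re (Or.inl (hs1 χ hχ)) hz.le
  have hlogz : ∀ χ ∈ s, ∀ z : ℂ, z.re = 1 + 1 / w →
      ‖-(deriv χ.LFunction z / χ.LFunction z)‖ ≤ (1 + C2) * w := by
    intro χ hχ z hz
    rw [norm_neg]
    have h1 := hlog M χ z (by rw [hz]; linarith)
    rw [hz] at h1
    have h2 : 1 / (1 + 1 / w - 1) = w := by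
      field_simp
      ring
    rw [h2] at h1
    nlinarith
  have hLz : ∀ χ ∈ s, ∀ z : ℂ, z.re = 1 + 1 / w → ‖χ.LFunction z‖ ≤ 2 * w := by
    intro χ hχ z hz
    have h1 := L_right χ (z := z) (by rw [hz]; linarith)
    rw [hz] at h1
    have h2 : 1 / (1 + 1 / w - 1) = w := by
      field_simp
      ring
    rw [h2] at h1
    linarith
  have hLM : ∀ χ ∈ s, ∀ z : ℂ, z.re = 1 + 1 / w → ‖χ.LFunction z * Mo χ V z‖ ≤ 8 * X ^ 9 := by
    intro χ hχ z hz
    rw [norm_mul]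
    have h1 := hLz χ hχ z hz
    have h2 := hMo χ (z := z) (by rw [hz]; linarith)
    calc ‖χ.LFunction z‖ * ‖Mo χ V z‖ ≤ (2 * X) * (4 * X ^ 8) :=
          mul_le_mul (by linarith) h2 (norm_nonneg _) (by positivity)
      _ = _ := by ring
  have hX9 : 1 ≤ X ^ 9 := one_le_pow₀ hX1
  have hG2l : ∀ χ ∈ s, ∀ z : ℂ, z.re = 1 + 1 / w → ‖G2 χ V z‖ ≤ 81 * (1 + C2) * X ^ 19 := by
    intro χ hχ z hz
    unfold G2
    rw [norm_mul, norm_pow]
    have h1 := hlogz χ hχ z hz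
    have h2 : ‖1 - χ.LFunction z * Mo χ V z‖ ≤ 9 * X ^ 9 := by
      refine (norm_sub_le _ _).trans ?_
      rw [norm_one]
      have := hLM χ hχ z hz
      linarith
    have h3 : ‖1 - χ.LFunction z * Mo χ V z‖ ^ 2 ≤ (9 * X ^ 9) ^ 2 :=
      pow_le_pow_left₀ (norm_nonneg _) h2 2
    calc ‖-(deriv χ.LFunction z / χ.LFunction z)‖ * ‖1 - χ.LFunction z * Mo χ V z‖ ^ 2 ≤
        ((1 + C2) * X) * (9 * X ^ 9) ^ 2 :=
          mul_le_mul (h1.trans (mul_le_mul_of_nonneg_left hXw (by linarith))) h3 (by positivity)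
            (by positivity)
      _ = _ := by ring
  have hG1l : ∀ χ ∈ s, ∀ z : ℂ, z.re = 1 + 1 / w → ‖G1 χ V z‖ ≤ 81 * (1 + C2) * X ^ 19 := by
    intro χ hχ z hz
    have hz1 : 1 < z.re := by rw [hz]; linarith
    have h0 := hne χ hχ z hz1
    unfold G1
    have e : deriv χ.LFunction z * Mo χ V z * (2 - χ.LFunction z * Mo χ V z) =
        (deriv χ.LFunction z / χ.LFunction z) * (χ.LFunction z * Mo χ V z) *
          (2 - χ.LFunction z * Mo χ V z) := by
      field_simp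
    rw [e, norm_neg, norm_mul, norm_mul]
    have h1 := hlogz χ hχ z hz
    rw [norm_neg] at h1
    have h2 := hLM χ hχ z hz
    have h3 : ‖2 - χ.LFunction z * Mo χ V z‖ ≤ 10 * X ^ 9 := by
      refine (norm_sub_le _ _).trans ?_
      have h4 : ‖(2 : ℂ)‖ = 2 := by norm_num
      rw [h4]
      linarith
    calc ‖deriv χ.LFunction z / χ.LFunction z‖ * ‖χ.LFunction z * Mo χ V z‖ *
        ‖2 - χ.LFunction z * Mo χ V z‖ ≤ ((1 + C2) * X) * (8 * X ^ 9) * (10 * X ^ 9) := by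
          refine mul_le_mul (mul_le_mul (h1.trans (mul_le_mul_of_nonneg_left hXw (by linarith))) h2
            (norm_nonneg _) (by positivity)) h3 (norm_nonneg _) (by positivity)
      _ = 80 * (1 + C2) * X ^ 19 := by ring
      _ ≤ _ := by
        refine mul_le_mul_of_nonneg_right ?_ (by positivity)
        nlinarith
  have hlcont : ∀ {F : ℂ → ℂ}, (∀ z : ℂ, 1 < z.re → ContinuousAt F z) →
      Continuous (fun v : ℝ => F (1 + ((0 : ℝ) : ℂ) * Complex.I +
        (((1 / w : ℝ) : ℂ) + v * Complex.I))) := by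
    intro F hF
    rw [continuous_iff_continuousAt]
    intro v
    refine ContinuousAt.comp (f := fun v : ℝ => 1 + ((0 : ℝ) : ℂ) * Complex.I +
      (((1 / w : ℝ) : ℂ) + v * Complex.I)) (hF _ (by rw [hline]; linarith)) ?_
    fun_prop
  have hG2c : ∀ χ ∈ s, ∀ z : ℂ, χ.LFunction z ≠ 0 → AnalyticAt ℂ (G2 χ V) z := by
    intro χ hχ z hz
    have h1 : AnalyticAt ℂ χ.LFunction z := (hLd χ hχ).analyticAt z
    have h2 : AnalyticAt ℂ (Mo χ V) z := (Mo_diff χ V).analyticAt z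
    unfold G2
    exact ((h1.deriv.div h1 hz).neg).mul ((analyticAt_const.sub (h1.mul h2)).pow 2)
  have nice1 : ∀ χ ∈ s, Nice (G1 χ V) (1 / w) := fun χ hχ =>
    ⟨hlcont fun z _ => (hG1d χ hχ).continuous.continuousAt, _, fun v => hG1l χ hχ _ (hline v)⟩
  have nice2 : ∀ χ ∈ s, Nice (G2 χ V) (1 / w) := fun χ hχ =>
    ⟨hlcont fun z hz => (hG2c χ hχ z (hne χ hχ z hz)).continuousAt, _,
      fun v => hG2l χ hχ _ (hline v)⟩
  have hug : ∑ χ ∈ s, ug χ w = VKZ.gint (fun z => ∑ χ ∈ s, G1 χ V z) (1 / w) w 0 +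
      VKZ.gint (fun z => ∑ χ ∈ s, G2 χ V z) (1 / w) w 0 := by
    rw [gint_sum' s nice1, gint_sum' s nice2, ← sum_add_distrib]
    refine sum_congr rfl fun χ hχ => ?_
    rw [ug_eq χ hσ0 w, ← gint_add' (nice1 χ hχ) (nice2 χ hχ)]
    refine gint_congr w 0 fun z hz => ?_
    exact split_log χ V (hne χ hχ z (by rw [hz]; linarith))
  set B' : ℝ := 81 * (1 + C2) * X ^ 20 with hB'
  have hB'0 : 0 ≤ B' := by positivity
  have hsumB : ∀ {F : DirichletCharacter ℂ M → ℂ → ℂ} {z : ℂ},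
      (∀ χ ∈ s, ‖F χ z‖ ≤ 81 * (1 + C2) * X ^ 19) → ‖∑ χ ∈ s, F χ z‖ ≤ B' := by
    intro F z hF
    refine (norm_sum_le_of_le s hF).trans ?_
    rw [sum_const, nsmul_eq_mul]
    calc (s.card : ℝ) * (81 * (1 + C2) * X ^ 19) ≤ X * (81 * (1 + C2) * X ^ 19) :=
          mul_le_mul_of_nonneg_right hcard (by positivity)
      _ = _ := by rw [hB']; ring
  -- first part
  have hnz : ∀ z : ℂ, 3 / 4 ≤ z.re → z.re ≤ 2 → |z.im - 0| ≤ w → ‖z‖ + 1 ≤ w + 3 := by
    intro z h1 h2 h3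
    rw [sub_zero] at h3
    have h4 := Complex.norm_le_abs_re_add_abs_im z
    have h5 : |z.re| ≤ 2 := by
      rw [abs_le]
      constructor <;> linarith
    linarith
  have hreg1 : ∀ z : ℂ, 1 - 1 / 4 ≤ z.re → z.re ≤ 2 → |z.im - 0| ≤ w →
      AnalyticAt ℂ (fun z => ∑ χ ∈ s, G1 χ V z) z ∧ ‖∑ χ ∈ s, G1 χ V z‖ ≤ 6720 * X ^ 19 := by
    intro z h1 h2 h3
    have hz34 : 3 / 4 ≤ z.re := by linarith
    have hn := hnz z hz34 h2 h3
    refine ⟨?_, ?_⟩
    · have h4 : Differentiable ℂ fun z => ∑ χ ∈ s, G1 χ V z :=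
        Differentiable.fun_sum fun χ hχ => hG1d χ hχ
      exact h4.analyticAt z
    · have h4 : ∀ χ ∈ s, ‖G1 χ V z‖ ≤ 6720 * X ^ 18 := by
        intro χ hχ
        have a1 : ‖deriv χ.LFunction z‖ ≤ 56 * X := by
          refine (L_deriv (hs1 χ hχ) hz34).trans ?_
          rw [hT]
          nlinarith
        have a2 := hMo χ hz34
        have a3 : ‖χ.LFunction z‖ ≤ 7 * X := by
          refine (L_poly (hs1 χ hχ) (by linarith)).trans ?_
          rw [hT]
          nlinarith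
        have a4 : ‖2 - χ.LFunction z * Mo χ V z‖ ≤ 30 * X ^ 9 := by
          refine (norm_sub_le _ _).trans ?_
          have h4 : ‖(2 : ℂ)‖ = 2 := by norm_num
          rw [h4, norm_mul]
          have h5 : ‖χ.LFunction z‖ * ‖Mo χ V z‖ ≤ (7 * X) * (4 * X ^ 8) :=
            mul_le_mul a3 a2 (norm_nonneg _) (by positivity)
          have h6 : (7 * X) * (4 * X ^ 8) = 28 * X ^ 9 := by ring
          linarith
        unfold G1
        rw [norm_neg, norm_mul, norm_mul]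
        calc ‖deriv χ.LFunction z‖ * ‖Mo χ V z‖ * ‖2 - χ.LFunction z * Mo χ V z‖ ≤
            (56 * X) * (4 * X ^ 8) * (30 * X ^ 9) :=
              mul_le_mul (mul_le_mul a1 a2 (norm_nonneg _) (by positivity)) a4 (norm_nonneg _)
                (by positivity)
          _ = _ := by ring
      refine (norm_sum_le_of_le s h4).trans ?_
      rw [sum_const, nsmul_eq_mul]
      calc (s.card : ℝ) * (6720 * X ^ 18) ≤ X * (6720 * X ^ 18) :=
            mul_le_mul_of_nonneg_right hcard (by positivity)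
        _ = _ := by ring
  have c1 : Continuous (fun v : ℝ => (fun z => ∑ χ ∈ s, G1 χ V z)
      (1 + ((0 : ℝ) : ℂ) * Complex.I + (((1 / w : ℝ) : ℂ) + v * Complex.I))) :=
    continuous_finsetSum _ fun χ hχ => (nice1 χ hχ).1
  have c2 : Continuous (fun v : ℝ => (fun z => ∑ χ ∈ s, G2 χ V z)
      (1 + ((0 : ℝ) : ℂ) * Complex.I + (((1 / w : ℝ) : ℂ) + v * Complex.I))) :=
    continuous_finsetSum _ fun χ hχ => (nice2 χ hχ).1
  have sh1 := VKZ.shift_le (F := fun z => ∑ χ ∈ s, G1 χ V z) (b := 1 / 4)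
    (B := 6720 * X ^ 19) (B' := B') (σ := 1 / w) (w := w) (τ := 0)
    (V := w) (by norm_num) (by norm_num) hσ0 hσ1 hwp.le hw (by positivity) hB'0 hreg1
    (fun v => hsumB fun χ hχ => hG1l χ hχ _ (hline v)) c1
  -- second part
  set b := c / l with hb
  have hb0 : 0 < b := by positivity
  have hbc : b ≤ c := by
    rw [hb, div_le_iff₀ (by linarith)]
    nlinarith
  have hb1 : b ≤ 1 / 4 := hbc.trans hc1
  have hb4 : b ≤ 1 / (4 * l) := by
    rw [hb, div_le_div_iff₀ hl0 (by positivity)]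
    nlinarith
  have hreg2 : ∀ z : ℂ, 1 - b ≤ z.re → z.re ≤ 2 → |z.im - 0| ≤ w →
      AnalyticAt ℂ (fun z => ∑ χ ∈ s, G2 χ V z) z ∧
        ‖∑ χ ∈ s, G2 χ V z‖ ≤ C * C5 * l ^ 7 := by
    intro z h1 h2 h3
    rw [sub_zero] at h3
    have h4 : el M z.im ≤ l := by
      refine Real.log_le_log (by linarith [el_arg (M := M) z.im]) ?_
      refine mul_le_mul_of_nonneg_left ?_ (by linarith)
      have := le_abs_self w
      linarith
    have h5 : 1 ≤ el M z.im := el_ge M z.im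
    have h6 : b ≤ c / el M z.im := by
      rw [hb]
      exact div_le_div_of_nonneg_left hc.le (by linarith) h4
    have h7 : ∀ χ ∈ s, χ.LFunction z ≠ 0 ∧
        ‖deriv χ.LFunction z / χ.LFunction z‖ ≤ C * l ^ 2 := by
      intro χ hχ
      obtain ⟨h7, h8⟩ := hreg M χ (hs χ hχ) z (by linarith) (by linarith)
      refine ⟨h7, h8.trans (mul_le_mul_of_nonneg_left ?_ (by linarith))⟩
      exact pow_le_pow_left₀ (by linarith) h4 2
    refine ⟨?_, ?_⟩
    · have h8 : AnalyticAt ℂ (∑ χ ∈ s, G2 χ V) z :=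
        Finset.analyticAt_sum s fun χ hχ => hG2c χ hχ z (h7 χ hχ).1
      have h9 : (∑ χ ∈ s, G2 χ V) = fun z => ∑ χ ∈ s, G2 χ V z := by
        ext z
        simp
      rwa [h9] at h8
    · have h8 : ∀ χ ∈ s, ‖G2 χ V z‖ ≤ C * l ^ 2 * ‖1 - χ.LFunction z * Mo χ V z‖ ^ 2 := by
        intro χ hχ
        unfold G2
        rw [norm_mul, norm_pow, norm_neg]
        exact mul_le_mul_of_nonneg_right (h7 χ hχ).2 (by positivity)
      refine (norm_sum_le_of_le s h8).trans ?_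
      rw [← mul_sum]
      have h9 := mean_sq hw hV1 hV2 hs1 (z := z) (by linarith) h2 h3
      rw [← hl, ← hC5] at h9
      calc C * l ^ 2 * ∑ χ ∈ s, ‖1 - χ.LFunction z * Mo χ V z‖ ^ 2 ≤ C * l ^ 2 * (C5 * l ^ 5) :=
            mul_le_mul_of_nonneg_left h9 (by positivity)
        _ = _ := by ring
  have sh2 := VKZ.shift_le (F := fun z => ∑ χ ∈ s, G2 χ V z) (b := b)
    (B := C * C5 * l ^ 7) (B' := B') (σ := 1 / w) (w := w) (τ := 0)
    (V := w) hb0 (by linarith) hσ0 hσ1 hwp.le hw (by positivity) hB'0 hreg2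
    (fun v => hsumB fun χ hχ => hG2l χ hχ _ (hline v)) c2
  have hσw : 1 / w * w = 1 := by field_simp
  have hσsq : (1 / w) ^ 2 ≤ 1 := pow_le_one₀ hσ0.le hσ1
  have hbsq : b ^ 2 ≤ 1 := pow_le_one₀ hb0.le (by linarith)
  have hww : w ≤ w ^ 2 := by nlinarith
  have hbw : c * w / l = b * w := by rw [hb]; ring
  have hbw4 : b * w ≤ w / 4 := by nlinarith
  rw [hbw]
  set E1 := Real.exp (-(b * w)) with hE1
  set E2 := Real.exp (-(w / 4)) with hE2
  have hE10 : 0 < E1 := Real.exp_pos _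
  have hE20 : 0 < E2 := Real.exp_pos _
  have hE12 : E2 ≤ E1 := Real.exp_le_exp.2 (by linarith)
  have hE3 : Real.exp (20 * l - w / 4) = X ^ 20 * E2 := by
    rw [hX, hE2, ← Real.exp_nat_mul, ← Real.exp_add]
    congr 1
  rw [hE3]
  -- exponentials of the first part
  have f1 : Real.exp ((1 / 4 : ℝ) ^ 2 / 2 - 1 / 4 * w) ≤ Real.exp 1 * E2 := by
    rw [hE2, ← Real.exp_add]
    refine Real.exp_le_exp.2 ?_
    norm_num
    linarith
  have f2 : Real.exp (((1 / w) ^ 2 + (1 / 4 : ℝ) ^ 2 - w ^ 2) / 2 + 1 / w * w) ≤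
      Real.exp 2 * E2 := by
    rw [hE2, ← Real.exp_add, hσw]
    refine Real.exp_le_exp.2 ?_
    nlinarith
  have f3 : Real.exp ((1 / w) ^ 2 / 2 + 1 / w * w - w ^ 2 / 4) ≤ Real.exp 2 * E2 := by
    rw [hE2, ← Real.exp_add, hσw]
    refine Real.exp_le_exp.2 ?_
    linarith
  have e1 : Real.exp (b ^ 2 / 2 - b * w) ≤ Real.exp 1 * E1 := by
    rw [hE1, ← Real.exp_add]
    refine Real.exp_le_exp.2 ?_
    linarith
  have e2 : Real.exp (((1 / w) ^ 2 + b ^ 2 - w ^ 2) / 2 + 1 / w * w) ≤ Real.exp 2 * E1 := by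
    rw [hE1, ← Real.exp_add, hσw]
    refine Real.exp_le_exp.2 ?_
    linarith
  have hX1920 : X ^ 19 ≤ X ^ 20 := pow_le_pow_right₀ hX1 (by norm_num)
  have t1 : 6720 * X ^ 19 * Real.exp ((1 / 4 : ℝ) ^ 2 / 2 - 1 / 4 * w) +
      2 * (6720 * X ^ 19) * (1 / 4 + 1 / w) *
        Real.exp (((1 / w) ^ 2 + (1 / 4 : ℝ) ^ 2 - w ^ 2) / 2 + 1 / w * w) +
      6 * B' * Real.exp ((1 / w) ^ 2 / 2 + 1 / w * w - w ^ 2 / 4) ≤
      (6720 * Real.exp 1 + 3 * 6720 * Real.exp 2 + 6 * (81 * (1 + C2)) * Real.exp 2) *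
        (X ^ 20 * E2) := by
    have g1 : 6720 * X ^ 19 * Real.exp ((1 / 4 : ℝ) ^ 2 / 2 - 1 / 4 * w) ≤
        6720 * X ^ 20 * (Real.exp 1 * E2) := by gcongr
    have g2 : 2 * (6720 * X ^ 19) * (1 / 4 + 1 / w) *
        Real.exp (((1 / w) ^ 2 + (1 / 4 : ℝ) ^ 2 - w ^ 2) / 2 + 1 / w * w) ≤
        2 * (6720 * X ^ 20) * (3 / 2) * (Real.exp 2 * E2) := by
      refine mul_le_mul (mul_le_mul (by linarith) (by linarith) (by positivity) (by positivity)) f2
        (Real.exp_pos _).le (by positivity)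
    have g3 : 6 * B' * Real.exp ((1 / w) ^ 2 / 2 + 1 / w * w - w ^ 2 / 4) ≤
        6 * B' * (Real.exp 2 * E2) := mul_le_mul_of_nonneg_left f3 (by positivity)
    have g4 : 6 * B' * (Real.exp 2 * E2) = 6 * (81 * (1 + C2)) * Real.exp 2 * (X ^ 20 * E2) := by
      rw [hB']; ring
    nlinarith
  have t2 : C * C5 * l ^ 7 * Real.exp (b ^ 2 / 2 - b * w) +
      2 * (C * C5 * l ^ 7) * (b + 1 / w) *
        Real.exp (((1 / w) ^ 2 + b ^ 2 - w ^ 2) / 2 + 1 / w * w) +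
      6 * B' * Real.exp ((1 / w) ^ 2 / 2 + 1 / w * w - w ^ 2 / 4) ≤
      (C * C5 * Real.exp 1 + 4 * (C * C5) * Real.exp 2) * (l ^ 7 * E1) +
        6 * (81 * (1 + C2)) * Real.exp 2 * (X ^ 20 * E2) := by
    have g1 : C * C5 * l ^ 7 * Real.exp (b ^ 2 / 2 - b * w) ≤
        C * C5 * l ^ 7 * (Real.exp 1 * E1) := mul_le_mul_of_nonneg_left e1 (by positivity)
    have g2 : 2 * (C * C5 * l ^ 7) * (b + 1 / w) *
        Real.exp (((1 / w) ^ 2 + b ^ 2 - w ^ 2) / 2 + 1 / w * w) ≤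
        2 * (C * C5 * l ^ 7) * 2 * (Real.exp 2 * E1) :=
      mul_le_mul (mul_le_mul_of_nonneg_left (by linarith) (by positivity)) e2
        (Real.exp_pos _).le (by positivity)
    have g3 : 6 * B' * Real.exp ((1 / w) ^ 2 / 2 + 1 / w * w - w ^ 2 / 4) ≤
        6 * B' * (Real.exp 2 * E2) := mul_le_mul_of_nonneg_left f3 (by positivity)
    have g4 : 6 * B' * (Real.exp 2 * E2) = 6 * (81 * (1 + C2)) * Real.exp 2 * (X ^ 20 * E2) := by
      rw [hB']; ring
    have g5 : C * C5 * l ^ 7 * (Real.exp 1 * E1) + 2 * (C * C5 * l ^ 7) * 2 * (Real.exp 2 * E1) =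
        (C * C5 * Real.exp 1 + 4 * (C * C5) * Real.exp 2) * (l ^ 7 * E1) := by ring
    linarith
  rw [hug]
  refine (norm_add_le _ _).trans ?_
  have p1 := sh1.trans t1
  have p2 := sh2.trans t2
  have hlE : 0 ≤ l ^ 7 * E1 := by positivity
  have hXE : 0 ≤ X ^ 20 * E2 := by positivity
  have q1 : 0 ≤ (6720 * Real.exp 1 + 3 * 6720 * Real.exp 2 + 12 * (81 * (1 + C2)) * Real.exp 2) *
      (l ^ 7 * E1) := by positivity
  have q2 : 0 ≤ (C * C5 * Real.exp 1 + 4 * (C * C5) * Real.exp 2) * (X ^ 20 * E2) := by positivity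
  nlinarith

end Pool.Agent.MFN
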