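import Pool.Agent.MFN.UEight
import Pool.Agent.MFN.VShift

/-!
# MFN / VLow: a lower bound for the Gaussian sums over prime powers `≡ 1 (mod 2^m)`, uniform in `m`
-/

set_option autoImplicit false

namespace Pool.Agent.MFN

open ArithmeticFunction Filter Finset

/-- the lower bound, with an error from the complex characters -/
theorem SS_low2 (m : ℕ) {w B : ℝ}
    (hB : ∀ s : Finset (DirichletCharacter ℂ (2 ^ (m + 3))), (∀ χ ∈ s, χ ^ 2 ≠ 1) →
      ‖∑ χ ∈ s, ug χ w‖ ≤ B) :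
    4 * SS 8 w - B ≤ ((2 ^ (m + 3) : ℕ).totient : ℝ) * SS (2 ^ (m + 3)) w := by
  classical
  rw [phi_SS]
  have h1 : ∑ χ : DirichletCharacter ℂ (2 ^ (m + 3)), ug χ w = ∑ χ ∈ HH (2 ^ (m + 3)), ug χ w +
      ∑ χ ∈ univ \ HH (2 ^ (m + 3)), ug χ w := by
    exact ((add_comm _ _).trans (Finset.sum_sdiff (f := fun χ => ug χ w)
      (Finset.subset_univ (HH (2 ^ (m + 3)))))).symm
  rw [h1, Complex.add_re]
  have h2 : 4 * SS 8 w ≤ (∑ χ ∈ HH (2 ^ (m + 3)), ug χ w).re := by
    rw [sum_ug]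
    unfold SS
    rw [← tsum_mul_left]
    refine Summable.tsum_le_tsum (fun n => ?_) ((SS_summable 8 w).mul_left 4) (sum_ug_summable _ w)
    split_ifs with h
    · have h3 := Q_ge m h
      have h4 := gs_nonneg w n
      nlinarith
    · rw [mul_zero]
      exact mul_nonneg (Q_nonneg _) (gs_nonneg w n)
  have h3 : -B ≤ (∑ χ ∈ univ \ HH (2 ^ (m + 3)), ug χ w).re := by
    have h4 : |(∑ χ ∈ univ \ HH (2 ^ (m + 3)), ug χ w).re| ≤ B := by
      refine (Complex.abs_re_le_norm _).trans (hB _ fun χ hχ => ?_)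
      rw [Finset.mem_sdiff, mem_HH] at hχ
      exact hχ.2
    linarith [(abs_le.1 h4).1]
  linarith

theorem ev_log' {κ : ℝ} (hκ : 1 < κ) : ∀ᶠ w : ℝ in atTop, Real.log (w + 3) ≤ 1 / 2 * w ^ (1 / κ) := by
  have hκ0 : 0 < 1 / κ := by positivity
  have hκ1 : 1 / κ ≤ 1 := by
    rw [div_le_one (by linarith)]
    exact hκ.le
  have h1 := (isLittleO_log_rpow_atTop hκ0).bound (show (0 : ℝ) < 1 / 8 by norm_num)
  have h2 : Tendsto (fun w : ℝ => w + 3) atTop atTop := tendsto_atTop_add_const_right _ _ tendsto_id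
  filter_upwards [h2.eventually h1, eventually_ge_atTop 1] with w hw hw1
  rw [Real.norm_of_nonneg (Real.rpow_nonneg (by linarith) _)] at hw
  have h3 : (w + 3) ^ (1 / κ) ≤ 4 * w ^ (1 / κ) := by
    calc (w + 3) ^ (1 / κ) ≤ (4 * w) ^ (1 / κ) :=
          Real.rpow_le_rpow (by linarith) (by linarith) hκ0.le
      _ = 4 ^ (1 / κ) * w ^ (1 / κ) := Real.mul_rpow (by norm_num) (by linarith)
      _ ≤ 4 ^ (1 : ℝ) * w ^ (1 / κ) := by
          refine mul_le_mul_of_nonneg_right ?_ (Real.rpow_nonneg (by linarith) _)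
          exact Real.rpow_le_rpow_of_exponent_le (by norm_num) hκ1
      _ = _ := by rw [Real.rpow_one]
  have h4 := le_trans (Real.le_norm_self _) hw
  linarith

/-- **The lower bound.** -/
theorem SS_low' {ε κ : ℝ} (hε : 0 < ε) (hκ : 1 < κ) : ∃ A : ℝ, 1 ≤ A ∧ ∀ (m : ℕ) (w : ℝ),
    A * ((m : ℝ) + 4) ^ κ ≤ w → √(2 * Real.pi) - ε ≤ 2 ^ (m + 2) * SS (2 ^ (m + 3)) w := by
  obtain ⟨c, D, hc, hc1, hD, hsm⟩ := cx_small
  obtain ⟨w₈, hw₈⟩ := eventually_atTop.1 (SS_eight (by linarith : 0 < ε / 2))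
  have hκ0 : 0 < κ := by linarith
  set s : ℝ := 1 - 1 / κ with hs
  have hs0 : 0 < s := by
    rw [hs, sub_pos, div_lt_one hκ0]
    exact hκ
  -- two limits
  have l1 : ∀ᶠ w : ℝ in atTop, D * (w ^ (7 : ℝ) * Real.exp (-c * w ^ s)) ≤ ε / 4 := by
    have h1 : Tendsto (fun v : ℝ => D * (v ^ (7 / s) * Real.exp (-c * v))) atTop (nhds (D * 0)) :=
      (tendsto_rpow_mul_exp_neg_mul_atTop_nhds_zero (7 / s) c hc).const_mul D
    rw [mul_zero] at h1
    have h2 := (h1.comp (tendsto_rpow_atTop hs0)).eventually_le_const (by linarith : 0 < ε / 4)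
    filter_upwards [h2, eventually_ge_atTop 0] with w hw hw0
    simp only [Function.comp_apply] at hw
    rw [← Real.rpow_mul hw0] at hw
    have e : s * (7 / s) = 7 := by field_simp
    rwa [e] at hw
  have l2 : ∀ᶠ w : ℝ in atTop, D * Real.exp (-(w / 8)) ≤ ε / 4 := by
    have h1 : Tendsto (fun w : ℝ => D * Real.exp (-(w / 8))) atTop (nhds (D * 0)) := by
      refine Tendsto.const_mul _ ?_
      have h2 : Tendsto (fun w : ℝ => w / 8) atTop atTop := tendsto_id.atTop_div_const (by norm_num)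
      exact Real.tendsto_exp_neg_atTop_nhds_zero.comp h2
    rw [mul_zero] at h1
    exact h1.eventually_le_const (by linarith)
  have l3 : ∀ᶠ w : ℝ in atTop, 160 ≤ w ^ s := (tendsto_rpow_atTop hs0).eventually_ge_atTop 160
  obtain ⟨w₁, hw₁⟩ := eventually_atTop.1 ((((l1.and l2).and l3).and (ev_log' hκ)).and
    (eventually_ge_atTop (max 1 w₈)))
  refine ⟨max (2 ^ κ) (max 1 w₁), le_max_of_le_right (le_max_left _ _), fun m w hw => ?_⟩
  have hm0 : (0 : ℝ) ≤ m := Nat.cast_nonneg m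
  have hm4 : (1 : ℝ) ≤ ((m : ℝ) + 4) ^ κ := Real.one_le_rpow (by linarith) (by linarith)
  have hAw : max (2 ^ κ) (max 1 w₁) ≤ w := by
    have h0 : 0 ≤ max (2 ^ κ) (max 1 w₁) := le_max_of_le_left (by positivity)
    nlinarith
  have hw1 : w₁ ≤ w := (le_max_right _ _).trans ((le_max_right _ _).trans hAw)
  obtain ⟨⟨⟨⟨h1, h2⟩, h3⟩, h4⟩, h5⟩ := hw₁ w hw1
  have hw0 : 1 ≤ w := (le_max_left _ _).trans h5
  have h8 := hw₈ w ((le_max_right _ _).trans h5)
  have hwp : 0 < w := by linarith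
  set u := w ^ (1 / κ) with hu
  have hu0 : 0 < u := by positivity
  have hus : u * w ^ s = w := by
    rw [hu, hs, ← Real.rpow_add hwp]
    have : 1 / κ + (1 - 1 / κ) = 1 := by ring
    rw [this, Real.rpow_one]
  have hu1 : 1 ≤ u := Real.one_le_rpow hw0 (by positivity)
  have huw : u ≤ w := by
    rw [hu]
    calc w ^ (1 / κ) ≤ w ^ (1 : ℝ) := Real.rpow_le_rpow_of_exponent_le hw0 (by
          rw [div_le_one hκ0]; exact hκ.le)
      _ = w := Real.rpow_one w
  have hmx : (m : ℝ) + 4 ≤ 1 / 2 * u := by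
    have h6 : (2 * ((m : ℝ) + 4)) ^ κ ≤ w := by
      rw [Real.mul_rpow (by norm_num) (by linarith)]
      refine le_trans ?_ hw
      exact mul_le_mul_of_nonneg_right (le_max_left _ _) (by positivity)
    have h7 := Real.rpow_le_rpow (by positivity) h6 (by positivity : 0 ≤ 1 / κ)
    rw [← Real.rpow_mul (by linarith), mul_one_div_cancel hκ0.ne', Real.rpow_one] at h7
    linarith
  set l := el (2 ^ (m + 3)) w with hl
  have hl1 : 1 ≤ l := el_ge _ w
  have hlx : l ≤ u := by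
    have e : l = ((m + 3 : ℕ) : ℝ) * Real.log 2 + Real.log (w + 3) := by
      rw [hl]
      unfold el
      rw [abs_of_nonneg (by linarith), Real.log_mul (by positivity) (by linarith)]
      push_cast
      rw [Real.log_pow]
      push_cast
      ring
    have hl2 : Real.log 2 ≤ 1 := Real.log_two_lt_d9.le.trans (by norm_num)
    have h5 : ((m + 3 : ℕ) : ℝ) * Real.log 2 ≤ ((m + 3 : ℕ) : ℝ) * 1 :=
      mul_le_mul_of_nonneg_left hl2 (Nat.cast_nonneg _)
    rw [e]
    push_cast at h5 ⊢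
    linarith
  have hl0 : 0 < l := by linarith
  have hexp : c * w ^ s ≤ c * w / l := by
    rw [le_div_iff₀ hl0]
    have h6 : w ^ s * l ≤ w := by
      calc w ^ s * l ≤ w ^ s * u := mul_le_mul_of_nonneg_left hlx (by positivity)
        _ = w := by rw [mul_comm, hus]
    calc c * w ^ s * l = c * (w ^ s * l) := by ring
      _ ≤ c * w := mul_le_mul_of_nonneg_left h6 hc.le
  have hB : ∀ S : Finset (DirichletCharacter ℂ (2 ^ (m + 3))), (∀ χ ∈ S, χ ^ 2 ≠ 1) →
      ‖∑ χ ∈ S, ug χ w‖ ≤ ε / 2 := by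
    intro S hS
    refine (hsm _ S hS w hw0).trans ?_
    rw [← hl]
    have h6 : l ^ 7 * Real.exp (-(c * w / l)) ≤ w ^ (7 : ℝ) * Real.exp (-c * w ^ s) := by
      have h7 : l ^ 7 ≤ w ^ (7 : ℝ) := by
        have h9 : w ^ (7 : ℝ) = w ^ 7 := by
          rw [← Real.rpow_natCast]
          norm_num
        rw [h9]
        exact pow_le_pow_left₀ hl0.le (hlx.trans huw) 7
      exact mul_le_mul h7 (Real.exp_le_exp.2 (by linarith)) (Real.exp_pos _).le (by positivity)
    have h7 : Real.exp (20 * l - w / 4) ≤ Real.exp (-(w / 8)) := by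
      refine Real.exp_le_exp.2 ?_
      have h9 : 160 * u ≤ w := by
        calc 160 * u ≤ w ^ s * u := mul_le_mul_of_nonneg_right h3 hu0.le
          _ = w := by rw [mul_comm, hus]
      linarith
    have h9 : D * (l ^ 7 * Real.exp (-(c * w / l)) + Real.exp (20 * l - w / 4)) ≤
        D * (w ^ (7 : ℝ) * Real.exp (-c * w ^ s) + Real.exp (-(w / 8))) :=
      mul_le_mul_of_nonneg_left (add_le_add h6 h7) hD.le
    rw [mul_add] at h9
    linarith
  have hlow := SS_low2 m hB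
  have hφ : ((2 ^ (m + 3) : ℕ).totient : ℝ) = 2 ^ (m + 2) := by
    rw [Nat.totient_prime_pow_succ Nat.prime_two]
    push_cast
    ring
  rw [hφ] at hlow
  linarith

end Pool.Agent.MFN
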