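import Pool.Agent.MFN.VSum

/-!
# MFN / VMean: the mean square over the characters, and the product with the Moebius polynomial
-/

set_option autoImplicit false

namespace Pool.Agent.MFN

open Finset ArithmeticFunction

section

variable {M : ℕ} [NeZero M]

theorem char_orth (k l : ZMod M) : ‖∑ χ : DirichletCharacter ℂ M, χ k * (starRingEnd ℂ) (χ l)‖ ≤
    if l = k then (M.totient : ℝ) else 0 := by
  by_cases hl : IsUnit l
  · have h1 : ∀ χ : DirichletCharacter ℂ M, χ k * (starRingEnd ℂ) (χ l) = χ l⁻¹ * χ k := by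
      intro χ
      obtain ⟨u, rfl⟩ := hl
      have h2 : ‖χ u‖ = 1 := χ.unit_norm_eq_one u
      have h3 : χ (u : ZMod M)⁻¹ * χ u = 1 := by
        rw [← map_mul, ZMod.inv_mul_of_unit _ u.isUnit, map_one]
      have h4 : (starRingEnd ℂ) (χ u) * χ u = 1 := by
        rw [mul_comm, Complex.mul_conj, Complex.normSq_eq_norm_sq, h2]
        norm_num
      have h5 : χ u ≠ 0 := by
        intro h
        rw [h, norm_zero] at h2
        exact zero_ne_one h2
      have h6 : (starRingEnd ℂ) (χ u) = χ (u : ZMod M)⁻¹ :=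
        mul_right_cancel₀ h5 (h4.trans h3.symm)
      rw [h6, mul_comm]
    rw [sum_congr rfl fun χ _ => h1 χ, DirichletCharacter.sum_char_inv_mul_char_eq ℂ hl k]
    split_ifs
    · simp
    · simp
  · have h1 : ∀ χ : DirichletCharacter ℂ M, χ k * (starRingEnd ℂ) (χ l) = 0 := by
      intro χ
      rw [MulChar.map_nonunit _ hl, _root_.map_zero, mul_zero]
    rw [sum_congr rfl fun χ _ => h1 χ, sum_const_zero, norm_zero]
    split_ifs
    · positivity
    · exact le_rfl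

theorem char_mean (S : Finset ℕ) (c : ℕ → ℂ) :
    ∑ χ : DirichletCharacter ℂ M, ‖∑ k ∈ S, c k * χ k‖ ^ 2 ≤
      M.totient * ∑ k ∈ S, ∑ l ∈ S.filter (fun l : ℕ => (l : ZMod M) = k), ‖c k‖ * ‖c l‖ := by
  have h0 : 0 ≤ ∑ χ : DirichletCharacter ℂ M, ‖∑ k ∈ S, c k * χ k‖ ^ 2 :=
    sum_nonneg fun _ _ => by positivity
  have h1 : ((∑ χ : DirichletCharacter ℂ M, ‖∑ k ∈ S, c k * χ k‖ ^ 2 : ℝ) : ℂ) =
      ∑ k ∈ S, ∑ l ∈ S, c k * (starRingEnd ℂ) (c l) *
        ∑ χ : DirichletCharacter ℂ M, χ k * (starRingEnd ℂ) (χ l) := by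
    have h2 : ∀ χ : DirichletCharacter ℂ M, ((‖∑ k ∈ S, c k * χ k‖ ^ 2 : ℝ) : ℂ) =
        ∑ k ∈ S, ∑ l ∈ S, c k * (starRingEnd ℂ) (c l) * (χ k * (starRingEnd ℂ) (χ l)) := by
      intro χ
      rw [← Complex.normSq_eq_norm_sq, ← Complex.mul_conj, map_sum, sum_mul_sum]
      refine sum_congr rfl fun k _ => sum_congr rfl fun l _ => ?_
      rw [map_mul]
      ring
    rw [Complex.ofReal_sum, sum_congr rfl fun χ _ => h2 χ, sum_comm]
    refine sum_congr rfl fun k _ => ?_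
    rw [sum_comm]
    refine sum_congr rfl fun l _ => ?_
    rw [mul_sum]
  have h2 : ∑ χ : DirichletCharacter ℂ M, ‖∑ k ∈ S, c k * χ k‖ ^ 2 =
      ‖∑ k ∈ S, ∑ l ∈ S, c k * (starRingEnd ℂ) (c l) *
        ∑ χ : DirichletCharacter ℂ M, χ k * (starRingEnd ℂ) (χ l)‖ := by
    rw [← h1, Complex.norm_real, Real.norm_of_nonneg h0]
  rw [h2, mul_sum]
  refine (norm_sum_le _ _).trans (sum_le_sum fun k _ => ?_)
  refine (norm_sum_le _ _).trans ?_
  rw [sum_filter, mul_sum]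
  refine sum_le_sum fun l _ => ?_
  rw [norm_mul, norm_mul, RCLike.norm_conj]
  have h3 := char_orth (M := M) (k : ZMod M) (l : ZMod M)
  have h4 : 0 ≤ ‖c k‖ * ‖c l‖ := by positivity
  refine (mul_le_mul_of_nonneg_left h3 h4).trans (le_of_eq ?_)
  split_ifs
  · ring
  · ring

end

/-- the coefficients of the product -/
noncomputable def av (V k : ℕ) : ℤ :=
  ∑ x ∈ (Icc 1 V ×ˢ Icc 1 V).filter (fun x => x.1 * x.2 = k), moebius x.2

theorem av_abs (V : ℕ) {k : ℕ} (hk : k ≠ 0) : |(av V k : ℝ)| ≤ (k.divisors.card : ℝ) := by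
  unfold av
  push_cast
  have h1 : ((Icc 1 V ×ˢ Icc 1 V).filter (fun x => x.1 * x.2 = k)).card ≤ k.divisors.card := by
    refine card_le_card_of_injOn (fun x => x.1) (fun x hx => ?_) fun x hx y hy h => ?_
    · rw [mem_coe, mem_filter] at hx
      rw [mem_coe, Nat.mem_divisors]
      exact ⟨Dvd.intro _ hx.2, hk⟩
    · rw [mem_coe, mem_filter, mem_product, mem_Icc] at hx hy
      have h1 : x.1 = y.1 := h
      have h2 : x.1 * x.2 = x.1 * y.2 := by rw [hx.2, h1, hy.2]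
      have h3 : x.2 = y.2 := Nat.eq_of_mul_eq_mul_left hx.1.1.1 h2
      exact Prod.ext h1 h3
  calc |∑ x ∈ (Icc 1 V ×ˢ Icc 1 V).filter (fun x => x.1 * x.2 = k), ((moebius x.2 : ℤ) : ℝ)| ≤
      ∑ x ∈ (Icc 1 V ×ˢ Icc 1 V).filter (fun x => x.1 * x.2 = k), |((moebius x.2 : ℤ) : ℝ)| :=
        abs_sum_le_sum_abs _ _
    _ ≤ ∑ x ∈ (Icc 1 V ×ˢ Icc 1 V).filter (fun x => x.1 * x.2 = k), (1 : ℝ) :=
        sum_le_sum fun x _ => by exact_mod_cast abs_moebius_le_one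
    _ = (((Icc 1 V ×ˢ Icc 1 V).filter (fun x => x.1 * x.2 = k)).card : ℝ) := by simp
    _ ≤ _ := by exact_mod_cast h1

theorem av_small {V k : ℕ} (hk : 1 ≤ k) (hV : k ≤ V) : av V k = if k = 1 then 1 else 0 := by
  unfold av
  have h1 : (Icc 1 V ×ˢ Icc 1 V).filter (fun x => x.1 * x.2 = k) = k.divisorsAntidiagonal := by
    ext x
    rw [mem_filter, mem_product, mem_Icc, mem_Icc, Nat.mem_divisorsAntidiagonal]
    constructor
    · rintro ⟨-, h⟩
      exact ⟨h, by omega⟩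
    · rintro ⟨h, -⟩
      have h1 : 0 < x.1 := Nat.pos_of_ne_zero fun h0 => by
        rw [h0, zero_mul] at h
        omega
      have h2 : 0 < x.2 := Nat.pos_of_ne_zero fun h0 => by
        rw [h0, mul_zero] at h
        omega
      have h3 : x.1 ≤ k := Nat.le_of_dvd hk (Dvd.intro _ h)
      have h4 : x.2 ≤ k := Nat.le_of_dvd hk (Dvd.intro_left _ h)
      exact ⟨⟨⟨h1, h3.trans hV⟩, h2, h4.trans hV⟩, h⟩
  rw [h1]
  have h2 : ((zeta : ArithmeticFunction ℤ) * moebius) k = (1 : ArithmeticFunction ℤ) k := by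
    rw [coe_zeta_mul_moebius]
  rw [mul_apply, one_apply] at h2
  rw [← h2]
  refine sum_congr rfl fun x hx => ?_
  rw [Nat.mem_divisorsAntidiagonal] at hx
  have h3 : x.1 ≠ 0 := by
    intro h0
    rw [h0, zero_mul] at hx
    exact hx.2 hx.1.symm
  rw [natCoe_apply, zeta_apply, if_neg h3]
  simp

/-- the product of the two polynomials -/
theorem prod_poly {f : ℕ → ℂ} (hf1 : f 1 = 1) (hf : ∀ a b, a ≠ 0 → b ≠ 0 → f (a * b) = f a * f b)
    {V : ℕ} (hV : 1 ≤ V) :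
    (∑ n ∈ Icc 1 V, f n) * ∑ d ∈ Icc 1 V, ((moebius d : ℤ) : ℂ) * f d =
      1 + ∑ k ∈ Ioc V (V * V), ((av V k : ℤ) : ℂ) * f k := by
  have h1 : (∑ n ∈ Icc 1 V, f n) * ∑ d ∈ Icc 1 V, ((moebius d : ℤ) : ℂ) * f d =
      ∑ x ∈ Icc 1 V ×ˢ Icc 1 V, ((moebius x.2 : ℤ) : ℂ) * f (x.1 * x.2) := by
    rw [sum_mul_sum, ← sum_product']
    refine sum_congr rfl fun x hx => ?_
    rw [mem_product, mem_Icc, mem_Icc] at hx
    rw [hf _ _ (by omega) (by omega)]
    ring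
  have h2 : ∑ x ∈ Icc 1 V ×ˢ Icc 1 V, ((moebius x.2 : ℤ) : ℂ) * f (x.1 * x.2) =
      ∑ k ∈ Icc 1 (V * V), ((av V k : ℤ) : ℂ) * f k := by
    rw [← sum_fiberwise_of_maps_to (g := fun x : ℕ × ℕ => x.1 * x.2) (t := Icc 1 (V * V))]
    · refine sum_congr rfl fun k _ => ?_
      unfold av
      push_cast
      rw [sum_mul]
      refine sum_congr rfl fun x hx => ?_
      rw [mem_filter] at hx
      rw [hx.2]
    · intro x hx
      rw [mem_product, mem_Icc, mem_Icc] at hx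
      rw [mem_Icc]
      exact ⟨Nat.mul_pos hx.1.1 hx.2.1, Nat.mul_le_mul hx.1.2 hx.2.2⟩
  have hVV : V ≤ V * V := Nat.le_mul_of_pos_left V hV
  have h3 : Icc 1 (V * V) = Icc 1 V ∪ Ioc V (V * V) := by
    ext k
    rw [mem_union, mem_Icc, mem_Icc, mem_Ioc]
    omega
  have h4 : Disjoint (Icc 1 V) (Ioc V (V * V)) := by
    rw [disjoint_left]
    intro k hk hk'
    rw [mem_Icc] at hk
    rw [mem_Ioc] at hk'
    omega
  rw [h1, h2, h3, sum_union h4]
  congr 1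
  rw [sum_eq_single_of_mem 1 (mem_Icc.2 ⟨le_rfl, hV⟩)]
  · rw [av_small le_rfl hV, if_pos rfl, hf1]
    simp
  · intro k hk hk1
    rw [mem_Icc] at hk
    rw [av_small hk.1 hk.2, if_neg hk1]
    simp

end Pool.Agent.MFN
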