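import Mathlib

/-!
# MFN / VSum: sums of `1/k` in a class and of the square of the divisor function
-/

set_option autoImplicit false

namespace Pool.Agent.MFN

open Finset

/-- the harmonic sum -/
noncomputable def hsum (n : ℕ) : ℝ := ∑ k ∈ Icc 1 n, 1 / (k : ℝ)

theorem hsum_nonneg (n : ℕ) : 0 ≤ hsum n := sum_nonneg fun _ _ => by positivity

theorem hsum_le (n : ℕ) : hsum n ≤ 1 + Real.log n := by
  have h := harmonic_le_one_add_log n
  have h2 : ((harmonic n : ℚ) : ℝ) = hsum n := by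
    rw [harmonic_eq_sum_Icc]
    unfold hsum
    push_cast
    exact sum_congr rfl fun k _ => (one_div _).symm
  rwa [h2] at h

theorem sum_inj {α β : Type*} [DecidableEq β] (s : Finset α) (t : Finset β) (e : α → β)
    (f : α → ℝ) (g : β → ℝ) (h1 : ∀ a ∈ s, e a ∈ t) (h2 : ∀ a ∈ s, ∀ b ∈ s, e a = e b → a = b)
    (h3 : ∀ a ∈ s, f a ≤ g (e a)) (h4 : ∀ b ∈ t, 0 ≤ g b) : ∑ a ∈ s, f a ≤ ∑ b ∈ t, g b := by
  calc ∑ a ∈ s, f a ≤ ∑ a ∈ s, g (e a) := sum_le_sum h3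
    _ = ∑ b ∈ s.image e, g b := (sum_image h2).symm
    _ ≤ _ := sum_le_sum_of_subset_of_nonneg (fun b hb => by
        rw [mem_image] at hb
        obtain ⟨a, ha, rfl⟩ := hb
        exact h1 a ha) fun b hb _ => h4 b hb

theorem tau_sq (n : ℕ) : ∑ k ∈ Icc 1 n, ((Nat.divisors k).card : ℝ) ^ 2 / k ≤ hsum n ^ 4 := by
  have h1 : ∀ k ∈ Icc 1 n, ((Nat.divisors k).card : ℝ) ^ 2 / k =
      ∑ x ∈ Nat.divisors k ×ˢ Nat.divisors k, (1 : ℝ) / k := by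
    intro k _
    rw [sum_const, nsmul_eq_mul, card_product]
    push_cast
    ring
  have h2 : hsum n ^ 4 = ∑ x ∈ (Icc 1 n ×ˢ Icc 1 n) ×ˢ (Icc 1 n ×ˢ Icc 1 n),
      (1 / (x.1.1 : ℝ)) * (1 / (x.1.2 : ℝ)) * ((1 / (x.2.1 : ℝ)) * (1 / (x.2.2 : ℝ))) := by
    have e : hsum n ^ 4 = (hsum n * hsum n) * (hsum n * hsum n) := by ring
    have e2 : hsum n * hsum n = ∑ x ∈ Icc 1 n ×ˢ Icc 1 n, (1 / (x.1 : ℝ)) * (1 / (x.2 : ℝ)) := by
      unfold hsum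
      rw [sum_mul_sum, sum_product]
    rw [e, e2, sum_mul_sum, sum_product (Icc 1 n ×ˢ Icc 1 n) (Icc 1 n ×ˢ Icc 1 n)]
  rw [sum_congr rfl h1, h2, sum_sigma']
  refine sum_inj _ _ (fun x => ((Nat.gcd x.2.1 x.2.2, x.2.1 / Nat.gcd x.2.1 x.2.2),
    (x.2.2 / Nat.gcd x.2.1 x.2.2, x.1 / Nat.lcm x.2.1 x.2.2))) _ _ ?_ ?_ ?_ ?_
  all_goals
    have key : ∀ (k d e : ℕ), 1 ≤ k → d ∣ k → e ∣ k → 1 ≤ Nat.gcd d e ∧ 1 ≤ d / Nat.gcd d e ∧
        1 ≤ e / Nat.gcd d e ∧ 1 ≤ k / Nat.lcm d e ∧ d = Nat.gcd d e * (d / Nat.gcd d e) ∧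
        e = Nat.gcd d e * (e / Nat.gcd d e) ∧
        k = Nat.gcd d e * (d / Nat.gcd d e) * (e / Nat.gcd d e) * (k / Nat.lcm d e) := by
      intro k d e hk hd he
      have hd0 : 0 < d := Nat.pos_of_dvd_of_pos hd hk
      have he0 : 0 < e := Nat.pos_of_dvd_of_pos he hk
      have hg0 : 0 < Nat.gcd d e := Nat.gcd_pos_of_pos_left _ hd0
      have e1 : Nat.gcd d e * (d / Nat.gcd d e) = d := Nat.mul_div_cancel' (Nat.gcd_dvd_left d e)
      have e2 : Nat.gcd d e * (e / Nat.gcd d e) = e := Nat.mul_div_cancel' (Nat.gcd_dvd_right d e)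
      have hl : Nat.lcm d e ∣ k := Nat.lcm_dvd hd he
      have hl0 : 0 < Nat.lcm d e := Nat.lcm_pos hd0 he0
      have e3 : Nat.lcm d e * (k / Nat.lcm d e) = k := Nat.mul_div_cancel' hl
      have e4 : Nat.lcm d e = Nat.gcd d e * (d / Nat.gcd d e) * (e / Nat.gcd d e) := by
        have h5 := Nat.gcd_mul_lcm d e
        refine Nat.eq_of_mul_eq_mul_left hg0 ?_
        rw [h5]
        calc d * e = (Nat.gcd d e * (d / Nat.gcd d e)) * (Nat.gcd d e * (e / Nat.gcd d e)) := by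
              rw [e1, e2]
          _ = _ := by ring
      refine ⟨hg0, Nat.div_pos (Nat.gcd_le_left e hd0) hg0, Nat.div_pos (Nat.gcd_le_right d he0) hg0,
        Nat.div_pos (Nat.le_of_dvd hk hl) hl0, e1.symm, e2.symm, ?_⟩
      rw [← e4, e3]
  · rintro ⟨k, d, e⟩ h
    simp only [mem_sigma, mem_Icc, mem_product, Nat.mem_divisors] at h
    obtain ⟨⟨hk1, hk2⟩, ⟨hd, -⟩, he, -⟩ := h
    obtain ⟨a1, a2, a3, a4, -, -, -⟩ := key k d e hk1 hd he
    have b1 : Nat.gcd d e ≤ n := (Nat.le_of_dvd hk1 ((Nat.gcd_dvd_left d e).trans hd)).trans hk2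
    have b2 : d / Nat.gcd d e ≤ n :=
      (Nat.div_le_self _ _).trans ((Nat.le_of_dvd hk1 hd).trans hk2)
    have b3 : e / Nat.gcd d e ≤ n :=
      (Nat.div_le_self _ _).trans ((Nat.le_of_dvd hk1 he).trans hk2)
    have b4 : k / Nat.lcm d e ≤ n := (Nat.div_le_self _ _).trans hk2
    simp only [mem_product, mem_Icc]
    exact ⟨⟨⟨a1, b1⟩, a2, b2⟩, ⟨a3, b3⟩, a4, b4⟩
  · rintro ⟨k, d, e⟩ h ⟨k', d', e'⟩ h' heq
    simp only [mem_sigma, mem_Icc, mem_product, Nat.mem_divisors] at h h'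
    obtain ⟨⟨hk1, -⟩, ⟨hd, -⟩, he, -⟩ := h
    obtain ⟨⟨hk1', -⟩, ⟨hd', -⟩, he', -⟩ := h'
    obtain ⟨-, -, -, -, c1, c2, c3⟩ := key k d e hk1 hd he
    obtain ⟨-, -, -, -, c1', c2', c3'⟩ := key k' d' e' hk1' hd' he'
    simp only [Prod.mk.injEq] at heq
    obtain ⟨⟨g1, g2⟩, g3, g4⟩ := heq
    have f1 : d = d' := c1.trans ((congrArg₂ (· * ·) g1 g2).trans c1'.symm)
    have f2 : e = e' := c2.trans ((congrArg₂ (· * ·) g1 g3).trans c2'.symm)
    have f3 : k = k' := c3.trans ((congrArg₂ (· * ·) (congrArg₂ (· * ·) (congrArg₂ (· * ·) g1 g2) g3)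
      g4).trans c3'.symm)
    subst f1 f2 f3
    rfl
  · rintro ⟨k, d, e⟩ h
    simp only [mem_sigma, mem_Icc, mem_product, Nat.mem_divisors] at h
    obtain ⟨⟨hk1, -⟩, ⟨hd, -⟩, he, -⟩ := h
    obtain ⟨-, -, -, -, -, -, c3⟩ := key k d e hk1 hd he
    simp only
    have c4 : (k : ℝ) = (Nat.gcd d e : ℝ) * ((d / Nat.gcd d e : ℕ) : ℝ) * ((e / Nat.gcd d e : ℕ) : ℝ) *
        ((k / Nat.lcm d e : ℕ) : ℝ) := by
      exact_mod_cast c3
    rw [c4]
    refine le_of_eq ?_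
    rw [one_div_mul_one_div, one_div_mul_one_div, one_div_mul_one_div]
    congr 1
    ring
  · rintro ⟨⟨x, y⟩, z, u⟩ _
    positivity

theorem class_sum {M V W : ℕ} (hM : 0 < M) (hV : M ≤ V) (a : ZMod M) :
    ∑ k ∈ (Ioc V W).filter (fun k : ℕ => (k : ZMod M) = a), 1 / (k : ℝ) ≤ hsum W / M := by
  have hM0 : (0 : ℝ) < M := by exact_mod_cast hM
  unfold hsum
  rw [sum_div]
  refine sum_inj _ _ (fun k => k / M) _ (fun j => 1 / (j : ℝ) / M) ?_ ?_ ?_ ?_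
  · intro k hk
    rw [mem_filter, mem_Ioc] at hk
    rw [mem_Icc]
    exact ⟨Nat.div_pos (hV.trans hk.1.1.le) hM, (Nat.div_le_self _ _).trans hk.1.2⟩
  · intro k hk l hl h
    rw [mem_filter] at hk hl
    have h1 : ((k : ℕ) : ZMod M) = ((l : ℕ) : ZMod M) := hk.2.trans hl.2.symm
    have h2 : k % M = l % M := (ZMod.natCast_eq_natCast_iff' k l M).1 h1
    have h3 : k / M = l / M := h
    rw [← Nat.div_add_mod k M, ← Nat.div_add_mod l M, h2, h3]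
  · intro k hk
    rw [mem_filter, mem_Ioc] at hk
    have h1 : 0 < k / M := Nat.div_pos (hV.trans hk.1.1.le) hM
    have h2 : (k / M) * M ≤ k := Nat.div_mul_le_self k M
    have h3 : (0 : ℝ) < ((k / M : ℕ) : ℝ) := by exact_mod_cast h1
    have h4 : ((k / M : ℕ) : ℝ) * M ≤ k := by exact_mod_cast h2
    rw [div_div]
    exact one_div_le_one_div_of_le (by positivity) h4
  · intro j _
    positivity

/-- pairs in the same class -/
theorem pair_sum {M V W : ℕ} (hM : 0 < M) (hV : M ≤ V) (x : ℕ → ℝ) :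
    ∑ k ∈ Ioc V W, ∑ l ∈ (Ioc V W).filter (fun l : ℕ => (l : ZMod M) = k), x k / k * (x l / l) ≤
      hsum W / M * ∑ k ∈ Ioc V W, x k ^ 2 / k := by
  have hpos : ∀ k ∈ Ioc V W, (0 : ℝ) < k := by
    intro k hk
    rw [mem_Ioc] at hk
    exact_mod_cast (by omega : 0 < k)
  have h1 : ∑ k ∈ Ioc V W, ∑ l ∈ (Ioc V W).filter (fun l : ℕ => (l : ZMod M) = k),
      x k / k * (x l / l) ≤ ∑ k ∈ Ioc V W, ∑ l ∈ (Ioc V W).filter (fun l : ℕ => (l : ZMod M) = k),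
      (1 / 2 * (x k ^ 2 / k * (1 / l)) + 1 / 2 * (x l ^ 2 / l * (1 / k))) := by
    refine sum_le_sum fun k hk => sum_le_sum fun l hl => ?_
    have hk0 := hpos k hk
    have hl0 := hpos l (mem_of_mem_filter l hl)
    have e1 : x k / k * (x l / l) = (x k * x l) * (1 / (k * l)) := by field_simp
    have e2 : 1 / 2 * (x k ^ 2 / k * (1 / l)) + 1 / 2 * (x l ^ 2 / l * (1 / k)) =
        (1 / 2 * (x k ^ 2 + x l ^ 2)) * (1 / (k * l)) := by field_simp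
    rw [e1, e2]
    refine mul_le_mul_of_nonneg_right ?_ (by positivity)
    nlinarith [sq_nonneg (x k - x l)]
  refine h1.trans ?_
  have h2 : ∑ k ∈ Ioc V W, ∑ l ∈ (Ioc V W).filter (fun l : ℕ => (l : ZMod M) = k),
      x k ^ 2 / k * (1 / (l : ℝ)) ≤ hsum W / M * ∑ k ∈ Ioc V W, x k ^ 2 / k := by
    rw [mul_sum]
    refine sum_le_sum fun k hk => ?_
    have hk0 := hpos k hk
    rw [← mul_sum, mul_comm]
    exact mul_le_mul_of_nonneg_right (class_sum hM hV _) (by positivity)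
  have h3 : ∑ k ∈ Ioc V W, ∑ l ∈ (Ioc V W).filter (fun l : ℕ => (l : ZMod M) = k),
      x l ^ 2 / l * (1 / (k : ℝ)) = ∑ k ∈ Ioc V W,
      ∑ l ∈ (Ioc V W).filter (fun l : ℕ => (l : ZMod M) = k), x k ^ 2 / k * (1 / (l : ℝ)) := by
    simp only [sum_filter]
    rw [sum_comm]
    refine sum_congr rfl fun k _ => sum_congr rfl fun l _ => ?_
    by_cases h : ((l : ℕ) : ZMod M) = k
    · rw [if_pos h.symm, if_pos h]
    · rw [if_neg (fun h' => h h'.symm), if_neg h]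
  have e1 : ∑ k ∈ Ioc V W, ∑ l ∈ (Ioc V W).filter (fun l : ℕ => (l : ZMod M) = k),
      (1 / 2 * (x k ^ 2 / k * (1 / l)) + 1 / 2 * (x l ^ 2 / l * (1 / k))) = 1 / 2 * (∑ k ∈ Ioc V W,
      ∑ l ∈ (Ioc V W).filter (fun l : ℕ => (l : ZMod M) = k), x k ^ 2 / k * (1 / (l : ℝ))) +
      1 / 2 * ∑ k ∈ Ioc V W, ∑ l ∈ (Ioc V W).filter (fun l : ℕ => (l : ZMod M) = k),
      x l ^ 2 / l * (1 / (k : ℝ)) := by
    rw [mul_sum, mul_sum, ← sum_add_distrib]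
    refine sum_congr rfl fun k _ => ?_
    rw [mul_sum, mul_sum, ← sum_add_distrib]
  rw [e1, h3]
  linarith

end Pool.Agent.MFN
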